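import Pool.Agent.Helper36.SecNames

/-!
# WNT / NetNames: names for the statements about sections and nets
-/

set_option autoImplicit false

namespace WNT

open Pool.Agent.Helper36 IntermediateField

section Mid

variable {K Ω : Type*} [Field K] [Field Ω] [Algebra K Ω]

/-- The field `M` between `K` and `Ω`, as a type. -/
def MidField (M : IntermediateField K Ω) : Type _ := M

noncomputable instance fieldMid (M : IntermediateField K Ω) : Field (MidField M) := M.toField

noncomputable instance algebraMid (M : IntermediateField K Ω) : Algebra K (MidField M) := M.algebra'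

/-- the inclusion in `Ω` -/
def MidField.val {M : IntermediateField K Ω} (x : MidField M) : Ω := Subtype.val x

/-- The group of the automorphisms of `M` over `K`. -/
abbrev MidGal (M : IntermediateField K Ω) : Type _ := MidField M ≃ₐ[K] MidField M

/-- The homomorphism `s` from the absolute Galois group of `k` to the group of the automorphisms of
`M` over `K` is a section of the restriction map: the image of `σ` acts as `σ` on the elements of
`M` which are algebraic over `k`. -/
def IsMidLift {k : Type*} [Field k] [Algebra k Ω] {M : IntermediateField K Ω}
    (s : AbsGal k Ω →* MidGal M) : Prop :=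
  ∀ (σ : AbsGal k Ω) (x : MidField M) (a : ConstClosure k Ω),
    x.val = a.val → (s σ x).val = (σ a).val

/-- A continuous section of the restriction map `Gal(M / K) → Gal(kbar / k)`, where `kbar` is the
algebraic closure of `k` in `Ω` and `M` is a field between `K` and `Ω` (which contains `kbar` in the
statements). -/
structure GalSection (k : Type*) [Field k] [Algebra k Ω] (M : IntermediateField K Ω) where
  /-- the homomorphism -/
  hom : AbsGal k Ω →* MidGal M
  /-- it is continuous for the Krull topologies -/
  cont : Continuous hom
  /-- it is a section of the restriction map -/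
  isLift : IsMidLift hom

/-- `d` is a value of the section `s` at `x - a`, modulo `p`-th powers: `(x - a) / d` is the `p`-th
power of an element of `M` which is fixed by the image of `s`. -/
def IsValue (p : ℕ) {k : Type*} [Field k] [Algebra k Ω] {M : IntermediateField K Ω}
    (s : GalSection k M) (x : K) (a d : k) : Prop :=
  ∃ m : MidField M, algebraMap K Ω x - algebraMap k Ω a = algebraMap k Ω d * m.val ^ p ∧
    ∀ σ : AbsGal k Ω, s.hom σ m = m

end Mid

section Cover

variable (p : ℕ) (k K Ω : Type*) [Field k] [Field K] [Field Ω] [Algebra K Ω] [Algebra k Ω]

/-- The subfield of `Ω` generated over `K` by the elements algebraic over `k` and by the `p`-th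
roots of the elements `x - a`, `a ∈ A`. -/
noncomputable def rootField (A : Set k) (x : K) : IntermediateField K Ω :=
  adjoin K {y : Ω | IsAlgebraic k y ∨ ∃ a ∈ A, y ^ p = algebraMap K Ω x - algebraMap k Ω a}

/-- The subfield of `Ω` generated over `K` by `rootField` and by the elements of `univCover` whose
`p`-th power is in `rootField`. -/
noncomputable def netCover [Algebra k K] [IsScalarTower k K Ω] (A : Set k) (x : K) :
    IntermediateField K Ω :=
  adjoin K {y : Ω | y ∈ rootField p k K Ω A x ∨
    (y ∈ univCover k K Ω ∧ y ^ p ∈ rootField p k K Ω A x)}

end Cover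

/-- `(z - a) / d` is a nonzero `p`-th power in `F`. -/
def IsPointValue {F k : Type*} [Field F] [Field k] [Algebra k F] (p : ℕ) (z : F) (a d : k) : Prop :=
  ∃ w : F, w ≠ 0 ∧ z - algebraMap k F a = algebraMap k F d * w ^ p

/-- `a - c` is the product of `r` and an element of `O`. -/
def IsClose {O F : Type*} [CommRing O] [Field F] [Algebra O F] (r : O) (a c : F) : Prop :=
  ∃ t : O, a - c = algebraMap O F (r * t)

/-- The number `R + 2 (E + 2) [F* : F*^p] + 3 E + 5`. -/
noncomputable def netLevel (F : Type*) [Field F] (p E R : ℕ) : ℕ :=
  R + 2 * ((E + 2) * (powMonoidHom p : Fˣ →* Fˣ).range.index) + 3 * E + 5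

end WNT
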