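import Pool.Agent.WNT.MsO
import Pool.Agent.WNT.NetNames
import Pool.Agent.Helper36.SecConv

/-!
# WNT / Ksp: the Kummer classes of a section, and their relations

`K' = K (m t, t ∈ {a, b, a₀, b₀})`, `m t ^ p = (x - t) / δ t`, is fixed by the section, `K' / K` is unramified, and `MSec.rel_all` is used over `K'`.
-/

set_option autoImplicit false

namespace WNT

open Pool.Agent.Helper36

open Polynomial IntermediateField

section

variable {k K Ω : Type*} [Field k] [Field K] [Field Ω] [Algebra k K] [Algebra K Ω]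
  [Algebra k Ω] [IsScalarTower k K Ω]

/-- unfolding of the names -/
noncomputable def GalSection.toMSec [Algebra.IsAlgebraic K Ω] {M : IntermediateField K Ω}
    (s : GalSection k M) (hM : ∀ x : Ω, IsAlgebraic k x → x ∈ M) : MSec k K Ω M where
  mem := fun x => hM x (mem_algebraicClosure_iff.mp x.2)
  hom := s.hom
  cont := MSec.of_cont s.hom s.cont
  isSection σ x hx := s.isLift σ x ⟨(x : Ω), hx⟩ rfl

theorem alg_mem_netCover {p : ℕ} {A : Set k} {x : K} {y : Ω} (hy : IsAlgebraic k y) :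
    y ∈ netCover p k K Ω A x :=
  subset_adjoin K _ (Or.inl (subset_adjoin K _ (Or.inl hy)))

theorem root_mem_netCover {p : ℕ} {A : Set k} {x : K} {a : k} (ha : a ∈ A) {y : Ω}
    (hy : y ^ p = algebraMap K Ω x - algebraMap k Ω a) : y ∈ netCover p k K Ω A x :=
  subset_adjoin K _ (Or.inl (subset_adjoin K _ (Or.inr ⟨a, ha, hy⟩)))

end

theorem MSec.net_rel {F k K Ω : Type*} [Field F] [Field k] [CharZero k] [Algebra k F] [Field K]
    [Field Ω] [Algebra k K] [Algebra K Ω] [Algebra k Ω] [IsScalarTower k K Ω]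
    [Algebra.IsAlgebraic K Ω] [IsAlgClosed Ω] {M : IntermediateField K Ω}
    {p : ℕ} (hp : p.Prime) {ζ : k} (hζ : IsPrimitiveRoot ζ p) {A : Set k}
    {x : K} (hx : Transcendental k x)
    (hdiv : ∀ a ∈ A, DivisorDivisible k p (x - algebraMap k K a))
    (hM : netCover p k K Ω A x ≤ M) (s : MSec k K Ω M) :
    ∃ δ : k → k, (∀ a ∈ A, δ a ≠ 0 ∧ ∃ m : M, algebraMap K Ω x - algebraMap k Ω a =
        algebraMap k Ω (δ a) * (m : Ω) ^ p ∧ ∀ σ, s.hom σ m = m) ∧
      ∀ a₀ ∈ A, ∀ b₀ ∈ A, a₀ ≠ b₀ → ∀ c : F, c ^ p = algebraMap k F (δ a₀ / (b₀ - a₀)) →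
        ∀ a ∈ A, ∀ b ∈ A, a ≠ b → NR p (algebraMap k F ζ) (algebraMap k F (δ a / (b - a)))
          (algebraMap k F (δ b / (a - b))) := by
  classical
  have hxK : ∀ c : k, x - algebraMap k K c ≠ 0 := by
    intro c h
    rw [sub_eq_zero] at h
    apply hx
    rw [h]
    exact isAlgebraic_algebraMap c
  have key : ∀ a : k, ∃ (d : k) (m : M), a ∈ A → d ≠ 0 ∧
      algebraMap K Ω x - algebraMap k Ω a = algebraMap k Ω d * (m : Ω) ^ p ∧
      (∀ σ, s.hom σ m = m) ∧ (m : Ω) ∈ rootField p k K Ω A x := by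
    intro a
    by_cases ha : a ∈ A
    swap
    · exact ⟨1, 1, fun h => absurd h ha⟩
    obtain ⟨y, hy⟩ := IsAlgClosed.exists_pow_nat_eq (algebraMap K Ω x - algebraMap k Ω a) hp.pos
    have hy' : y ^ p = algebraMap K Ω (x - algebraMap k K a) := by
      rw [hy, map_sub, ← IsScalarTower.algebraMap_apply]
    obtain ⟨d, hd, m, h1, h2, e, he, hme⟩ := s.split hp.ne_zero (hxK a)
      (hM (root_mem_netCover ha hy)) hy'
    refine ⟨d, m, fun _ => ⟨hd, ?_, h2, ?_⟩⟩
    · rw [← h1, map_sub, ← IsScalarTower.algebraMap_apply]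
    · rw [hme]
      exact mul_mem (subset_adjoin K _ (Or.inr ⟨a, ha, hy⟩)) (subset_adjoin K _ (Or.inl he))
  choose δ m hδm using key
  refine ⟨δ, fun a ha => ⟨(hδm a ha).1, m a, (hδm a ha).2.1, (hδm a ha).2.2.1⟩, ?_⟩
  intro a₀ ha₀ b₀ hb₀ hab₀ c hc a ha b hb hab
  obtain ⟨B, hB⟩ : ∃ B : Finset k, B = {a, b, a₀, b₀} := ⟨_, rfl⟩
  have hBA : ∀ t ∈ B, t ∈ A := by
    intro t ht
    rw [hB] at ht
    simp only [Finset.mem_insert, Finset.mem_singleton] at ht
    rcases ht with rfl | rfl | rfl | rfl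
    · exact ha
    · exact hb
    · exact ha₀
    · exact hb₀
  obtain ⟨T, hT⟩ : ∃ T : Finset Ω, T = B.image (fun t => (m t : Ω)) := ⟨_, rfl⟩
  have hun := unram_adjoin (k := k) (K := K) hp.ne_zero T (by
    intro y hy
    rw [hT, Finset.mem_image] at hy
    obtain ⟨t, ht, rfl⟩ := hy
    have h1 := hδm t (hBA t ht)
    have h2 : algebraMap k K (δ t) ≠ 0 := (map_ne_zero_iff _ (algebraMap k K).injective).2 h1.1
    have h2' : algebraMap k Ω (δ t) ≠ 0 := (map_ne_zero_iff _ (algebraMap k Ω).injective).2 h1.1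
    refine ⟨(x - algebraMap k K t) / algebraMap k K (δ t), div_ne_zero (hxK t) h2, ?_, ?_⟩
    · rw [map_div₀, map_sub, ← IsScalarTower.algebraMap_apply, ← IsScalarTower.algebraMap_apply,
        h1.2.1]
      field_simp
    · intro v hv
      obtain ⟨h, hh⟩ := hdiv t (hBA t ht) v hv
      exact ⟨h, by rw [map_div₀, hh, hv.1 _ h1.1, div_one]⟩)
  obtain ⟨K', hK'⟩ : ∃ K' : IntermediateField K Ω, K' = adjoin K (T : Set Ω) := ⟨_, rfl⟩
  rw [← hK'] at hun
  obtain ⟨hfd, hur⟩ := hun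
  have hTm : ∀ t ∈ B, (m t : Ω) ∈ K' := by
    intro t ht
    rw [hK']
    apply subset_adjoin
    rw [Finset.mem_coe, hT]
    exact Finset.mem_image_of_mem _ ht
  have hKM : K' ≤ M := by
    rw [hK', adjoin_le_iff]
    intro y hy
    rw [Finset.mem_coe, hT, Finset.mem_image] at hy
    obtain ⟨t, _, rfl⟩ := hy
    exact (m t).2
  have hKR : K' ≤ rootField p k K Ω A x := by
    rw [hK', adjoin_le_iff]
    intro y hy
    rw [Finset.mem_coe, hT, Finset.mem_image] at hy
    obtain ⟨t, ht, rfl⟩ := hy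
    exact (hδm t (hBA t ht)).2.2.2
  have hfix : ∀ σ, ∀ x (hx : x ∈ K'), (s.hom σ ⟨x, hKM hx⟩ : Ω) = x := by
    intro σ
    have h : ((s.hom σ : M ≃ₐ[K] M) : M →ₐ[K] M).comp (inclusion hKM) = inclusion hKM := by
      subst hK'
      apply adjoin_algHom_ext
      intro y hy
      rw [Finset.mem_coe, hT, Finset.mem_image] at hy
      obtain ⟨t, ht, rfl⟩ := hy
      exact (hδm t (hBA t ht)).2.2.1 σ
    intro y hy
    exact (congrArg Subtype.val (DFunLike.congr_fun h ⟨y, hy⟩) :)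
  have halg : Algebra.IsAlgebraic K' Ω := Algebra.IsAlgebraic.tower_top (K := K) K'
  have hroots : HasRoots k (extendScalars hKM) p := by
    intro k'' hk'' g hg hd γ hγ
    show γ ∈ M
    have h1 : γ ∈ univCover k K' Ω := kummer_mem_univCover k'' hp.ne_zero g hg hd γ hγ
    have h2 : γ ∈ univCover k K Ω := univ_trans K' hfd hur γ h1
    apply hM
    refine subset_adjoin K _ (Or.inr ⟨h2, ?_⟩)
    rw [hγ]
    have h3 : adjoin K' (k'' : Set Ω) ≤ extendScalars hKR := by
      rw [adjoin_le_iff]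
      intro y hy
      show y ∈ rootField p k K Ω A x
      refine subset_adjoin K _ (Or.inl ?_)
      exact (isAlgebraic_algebraMap_iff (algebraMap k'' Ω).injective).mpr
        (Algebra.IsAlgebraic.isAlgebraic (⟨y, hy⟩ : k''))
    exact h3 g.2
  have hmain := MSec.rel_all (F := F) (K := K') (A := (B : Set k)) (δ := δ)
    (x := algebraMap K K' x)
    (y := fun t => if h : (m t : Ω) ∈ K' then (⟨(m t : Ω), h⟩ : K') else 0) hp hζ hroots
    (by
      intro h
      apply hx
      exact (isAlgebraic_algebraMap_iff (algebraMap K K').injective).1 h)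
    (fun t ht => (hδm t (hBA t ht)).1)
    (by
      intro t ht
      rw [dif_pos (hTm t ht)]
      apply Subtype.ext
      exact (hδm t (hBA t ht)).2.1)
    (a₀ := a₀) (b₀ := b₀) (by rw [hB]; simp) (by rw [hB]; simp) hab₀ hc
    (s.over K' hKM hfix) (a := a) (b := b) (by rw [hB]; simp) (by rw [hB]; simp) hab
  exact hmain

end WNT
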