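import Pool.Agent.WNT.Core2
import Pool.Agent.WNT.Ksp

/-!
# WNT / Net2: sections and nets, the exact theorem for `p = 2`
-/

set_option autoImplicit false

namespace WNT

open Pool.Agent.Helper36 IsLocalRing

universe v w

theorem net2 {O F k : Type*} [CommRing O] [IsDomain O]
    [IsDiscreteValuationRing O] [HenselianLocalRing O] [Finite (ResidueField O)] [Field F]
    [CharZero F] [Algebra O F] [IsFractionRing O F] [Field k] [Algebra k F]
    (h2 : (2 : O) ∈ maximalIdeal O)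
    (hd : ∀ (c : F) (r : O), r ≠ 0 → ∃ a : k, IsClose r (algebraMap k F a) c)
    (A₀ : Finset k) :
    ∃ A : Finset k, A₀ ⊆ A ∧ ∀ (K : Type v) (Ω : Type w) [Field K] [Field Ω] [Algebra k K]
      [Algebra K Ω] [Algebra k Ω] [IsScalarTower k K Ω] [IsAlgClosure K Ω] (x : K),
      Transcendental k x → (∀ a ∈ A, DivisorDivisible k 2 (x - algebraMap k K a)) →
      ∀ M : IntermediateField K Ω, netCover 2 k K Ω A x ≤ M → ∀ s : GalSection k M,
      ∃ (z : F) (δ : k → k), ∀ a ∈ A, δ a ≠ 0 ∧ IsValue 2 s x a (δ a) ∧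
        IsPointValue 2 z a (δ a) := by
  have hk0 : CharZero k := (algebraMap k F).charZero
  obtain ⟨A, hA, H⟩ := core2 (k := k) h2 (fun c r hr => by
    obtain ⟨a, t, ht⟩ := hd c r hr
    exact ⟨a, t, ht⟩) A₀
  refine ⟨A, hA, ?_⟩
  intro K Ω _ _ _ _ _ _ _ x hx hdiv M hM s
  have hΩ : IsAlgClosed Ω := IsAlgClosure.isAlgClosed K
  have hKΩ : Algebra.IsAlgebraic K Ω := IsAlgClosure.isAlgebraic
  have hζ : IsPrimitiveRoot (-1 : k) 2 := IsPrimitiveRoot.neg_one 0 (by norm_num)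
  obtain ⟨δ, h1, h2⟩ := MSec.net_rel (F := F) (A := (A : Set k)) Nat.prime_two hζ hx hdiv hM
    (s.toMSec fun y hy => hM (alg_mem_netCover hy))
  obtain ⟨z, hz⟩ := H δ (fun a ha => (h1 a ha).1) h2
  refine ⟨z, δ, fun a ha => ⟨(h1 a ha).1, ?_, hz a ha⟩⟩
  obtain ⟨m, hm1, hm2⟩ := (h1 a ha).2
  exact ⟨m, hm1, hm2⟩

end WNT
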