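import Pool.Agent.WNT.Core1
import Pool.Agent.WNT.Ksp

/-!
# WNT / Net1: sections and nets, all primes
-/

set_option autoImplicit false

namespace WNT

open Pool.Agent.Helper36 IsLocalRing

theorem net1 {O F k K Ω : Type*} [CommRing O] [IsDomain O]
    [IsDiscreteValuationRing O] [HenselianLocalRing O] [Finite (ResidueField O)] [Field F]
    [CharZero F] [Algebra O F] [IsFractionRing O F] [Field k] [Algebra k F] [Field K] [Field Ω]
    [Algebra k K] [Algebra K Ω] [Algebra k Ω] [IsScalarTower k K Ω] [IsAlgClosure K Ω]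
    {p : ℕ} (hp : p.Prime) (hpO : (p : O) ∈ maximalIdeal O) {ζ : k}
    (hζ : IsPrimitiveRoot ζ p) {ϖ : O} (hϖ : Irreducible ϖ) {e E : ℕ}
    (he : Associated (p : O) (ϖ ^ e)) (hE : E * (p - 1) = p * e) (R : ℕ)
    (A A₀ : Set k)
    (hA : ∀ c : F, IsClose (1 : O) (algebraMap O F ϖ ^ (2 * E) * c) 0 →
      ∃ a ∈ A, IsClose (ϖ ^ netLevel F p E R) (algebraMap k F a) c)
    (hA₀ : A₀ ⊆ A) (h0 : ∀ a ∈ A₀, IsClose (1 : O) (algebraMap k F a) 0)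
    (hs : ∀ a ∈ A₀, ∀ b ∈ A₀, IsClose (ϖ ^ (R + 1)) (algebraMap k F a) (algebraMap k F b) →
      a = b)
    (x : K) (hx : Transcendental k x)
    (hdiv : ∀ a ∈ A, DivisorDivisible k p (x - algebraMap k K a))
    (M : IntermediateField K Ω) (hM : netCover p k K Ω A x ≤ M) (s : GalSection k M) :
    ∃ (z : F) (δ : k → k), (∀ a ∈ A, δ a ≠ 0 ∧ IsValue p s x a (δ a)) ∧
      ∀ a ∈ A₀, IsPointValue p z a (δ a) := by
  have hk0 : CharZero k := (algebraMap k F).charZero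
  have hΩ : IsAlgClosed Ω := IsAlgClosure.isAlgClosed K
  have hKΩ : Algebra.IsAlgebraic K Ω := IsAlgClosure.isAlgebraic
  obtain ⟨δ, h1, h2⟩ := MSec.net_rel (F := F) hp hζ hx hdiv hM
    (s.toMSec fun y hy => hM (alg_mem_netCover hy))
  obtain ⟨z, hz⟩ := core1 hp hpO hζ hϖ he hE R A (fun c ⟨r, hr⟩ => by
    obtain ⟨a, ha, t, ht⟩ := hA c ⟨r, by rw [← map_pow, hr, sub_zero, one_mul]⟩
    exact ⟨a, ha, t, ht⟩) A₀ hA₀ (fun a ha => by
    obtain ⟨t, ht⟩ := h0 a ha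
    exact ⟨t, by rw [← one_mul t, ← ht, sub_zero]⟩)
    (fun a ha b hb hab ⟨t, ht⟩ => hab (hs a ha b hb ⟨t, ht⟩)) δ (fun a ha => (h1 a ha).1) h2
  refine ⟨z, δ, fun a ha => ⟨(h1 a ha).1, ?_⟩, hz⟩
  obtain ⟨m, hm1, hm2⟩ := (h1 a ha).2
  exact ⟨m, hm1, hm2⟩

end WNT
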