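import Pool.Agent.WNT.Hen
import Pool.Agent.Helper32.AS1

/-!
# WNT / AS: the unramified class

`κ` the residue field, finite of characteristic `p`.

PROOFS.
* `exists_as`: `℘ t = t ^ p - t` is additive on `κ`, its kernel is the set of the roots of `X ^ p - X`, i.e. the image of `ZMod p`, with exactly `p` elements, so its image `I` has index `p` (`κ` is finite) and is not all of `κ`.  Take `u ∉ I`.  The classes `c u + I`, `0 ≤ c < p`, are different (`c u ∈ I` with
  `0 < c < p` gives `u ∈ I`, `p • κ = 0`), so they are all the `p` classes.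
* `irr_as`: `g = X ^ p - X - C u` has no root in `κ`.  Let `f` be a monic factor of degree `d`, `0 < d < p`.  In an algebraic closure let `θ` be a root of `g`; the roots of `g` are `θ + i`, `i : ZMod p` (`g` is separable: `g' = -1`), so `f` is the product of `d` of the factors `X - θ - i`, the coefficient of
  `X ^ (d - 1)` in `f` is `- (d θ + n)` with `n` in the prime field, so `d θ ∈ κ`, `θ ∈ κ`: contradiction.  (Or use Mathlib if it has the irreducibility of Artin-Schreier polynomials.)
* `top`: `η₀ = 1 - λ ^ p u₀`.  `x = λ ^ p x'`, `x' ∈ O`; `x' ≡ c u₀ + t ^ p - t` modulo `m` (`exists_as`).  `pow_exp` evaluated at `t`: `(1 - λ t) ^ p = 1 - λ ^ p ε (t ^ p + w t + λ R(t)) ≡ 1 - λ ^ p (t ^ p - t)` modulo `λ ^ p m`, and `η₀ ^ c ≡ 1 - λ ^ p c u₀` modulo `λ ^ (2 p)`.  So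
  `1 - x = η₀ ^ c (1 - λ t) ^ p (1 - λ ^ p y)` with `y ∈ m`, and `hens`.
-/

set_option autoImplicit false

namespace WNT

open IsLocalRing Polynomial

namespace LO

variable {O F : Type*} [CommRing O] [IsDomain O] [IsDiscreteValuationRing O] [Field F]
    [Algebra O F] [IsFractionRing O F] {p : ℕ} (L : LO O F p)


include L in
private theorem charPk : CharP (ResidueField O) p := by
  have : Fact p.Prime := ⟨L.prime⟩
  have h0 : ((p : ℕ) : ResidueField O) = 0 := by
    have h := (residue_eq_zero_iff (p : O)).2 L.mem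
    rwa [map_natCast] at h
  exact (CharP.charP_iff_prime_eq_zero L.prime).2 h0

include L in
theorem exists_as [Finite (ResidueField O)] : ∃ u₀ : O,
    (∀ t : ResidueField O, t ^ p - t ≠ residue O u₀) ∧
    ∀ x : ResidueField O, ∃ (c : ℕ) (t : ResidueField O), x = c • residue O u₀ + (t ^ p - t) := by
  classical
  have : Fact p.Prime := ⟨L.prime⟩
  have := L.charPk
  set κ := ResidueField O with hκ
  have : Fintype κ := Fintype.ofFinite κ
  let f : κ →+ κ :=
    { toFun := fun t => t ^ p - t
      map_zero' := by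
        rw [zero_pow L.prime.ne_zero, sub_zero]
      map_add' := fun a b => Pool.Agent.Helper32.wp_add a b }
  have hf : ∀ t, f t = t ^ p - t := fun t => rfl
  -- the kernel has at most `p` elements
  have hker : Nat.card f.ker ≤ p := by
    have h1 : ∀ x ∈ f.ker, x ∈ ((X ^ p - X : κ[X]).roots.toFinset : Finset κ) := by
      intro x hx
      rw [AddMonoidHom.mem_ker, hf] at hx
      rw [Multiset.mem_toFinset, mem_roots]
      · rw [IsRoot.def, eval_sub, eval_pow, eval_X, hx]
      · exact FiniteField.X_pow_card_sub_X_ne_zero κ L.prime.one_lt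
    have h2 : Nat.card f.ker ≤ ((X ^ p - X : κ[X]).roots.toFinset : Finset κ).card := by
      have h3 := Nat.card_le_card_of_injective
        (fun x : f.ker => (⟨x.1, h1 x.1 x.2⟩ : ((X ^ p - X : κ[X]).roots.toFinset : Finset κ)))
        (fun x y hxy => Subtype.ext (congrArg (fun z => z.1) hxy))
      rwa [Nat.card_eq_fintype_card (α := ((X ^ p - X : κ[X]).roots.toFinset : Finset κ)),
        Fintype.card_coe] at h3
    refine h2.trans ((Multiset.toFinset_card_le _).trans ((card_roots' _).trans ?_))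
    rw [FiniteField.X_pow_card_sub_X_natDegree_eq κ L.prime.one_lt]
  have hker0 : ∀ n : ℕ, ((n : κ)) ∈ f.ker := by
    intro n
    rw [AddMonoidHom.mem_ker, hf, Pool.Agent.Helper32.natCast_pow_char, sub_self]
  have hrange : Nat.card f.range < Nat.card κ := by
    have h1 := AddSubgroup.card_mul_index f.ker
    rw [AddSubgroup.index_ker] at h1
    have h2 : 1 < Nat.card f.ker := by
      rw [Finite.one_lt_card_iff_nontrivial]
      refine ⟨⟨0, f.ker.zero_mem⟩, ⟨1, ?_⟩, ?_⟩
      · have h := hker0 1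
        rwa [Nat.cast_one] at h
      · intro h
        exact zero_ne_one (congrArg (fun z => z.1) h)
    have h3 : 0 < Nat.card f.range := Nat.card_pos
    nlinarith
  obtain ⟨u, hu⟩ : ∃ u : κ, u ∉ f.range := by
    by_contra hcon
    push Not at hcon
    have h1 : f.range = ⊤ := by
      rw [AddSubgroup.eq_top_iff']
      exact hcon
    rw [h1] at hrange
    have h2 : Nat.card (⊤ : AddSubgroup κ) = Nat.card κ := AddSubgroup.card_top
    omega
  obtain ⟨u₀, hu₀⟩ := residue_surjective (R := O) u
  refine ⟨u₀, ?_, ?_⟩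
  · intro t ht
    rw [hu₀] at ht
    exact hu ⟨t, ht⟩
  -- the subgroup generated by the range and `u` is everything
  have hcop : ∀ n : ℕ, n • u ∈ f.range → p ∣ n := by
    intro n hn
    by_contra hpn
    have hc : Nat.Coprime n p := (Nat.Prime.coprime_iff_not_dvd L.prime).2 hpn |>.symm
    have h1 := Nat.gcd_eq_gcd_ab n p
    have hg : Nat.gcd n p = 1 := hc
    rw [hg] at h1
    apply hu
    have h2 : u = (Nat.gcdA n p) • (n • u) := by
      have h3 : ((1 : ℕ) : ℤ) • u = ((n : ℤ) * Nat.gcdA n p + (p : ℤ) * Nat.gcdB n p) • u := by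
        rw [h1]
      rw [add_zsmul, mul_comm (p : ℤ), mul_zsmul u (Nat.gcdB n p) (p : ℤ)] at h3
      have h4 : ((p : ℕ) : ℤ) • u = 0 := by
        rw [natCast_zsmul, nsmul_eq_mul, CharP.cast_eq_zero, zero_mul]
      rw [h4, smul_zero, add_zero, mul_comm, mul_zsmul, natCast_zsmul, one_nsmul,
        natCast_zsmul] at h3
      exact h3
    rw [h2]
    exact f.range.zsmul_mem hn _
  have hidx : f.range.index ≤ p := by
    have h1 := AddSubgroup.card_mul_index f.ker
    rw [AddSubgroup.index_ker] at h1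
    have h2 := AddSubgroup.card_mul_index f.range
    have h3 : 0 < Nat.card f.range := Nat.card_pos
    have h4 : Nat.card f.ker = f.range.index := by
      have h5 : Nat.card f.range * f.range.index = Nat.card f.range * Nat.card f.ker := by
        rw [h2, ← h1, mul_comm]
      exact (Nat.eq_of_mul_eq_mul_left h3 h5).symm
    omega
  intro x
  let g : Fin p → κ ⧸ f.range := fun c => QuotientAddGroup.mk ((c : ℕ) • u)
  have hginj : Function.Injective g := by
    intro a b hab
    have h1 : -((a : ℕ) • u) + (b : ℕ) • u ∈ f.range := QuotientAddGroup.eq.1 hab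
    by_contra hne
    rcases lt_or_gt_of_ne (fun h : (a : ℕ) = (b : ℕ) => hne (Fin.ext h)) with hlt | hlt
    · have h2 : ((b : ℕ) - (a : ℕ)) • u ∈ f.range := by
        rw [sub_nsmul _ hlt.le, add_comm]
        exact h1
      have h3 := Nat.le_of_dvd (by omega) (hcop _ h2)
      have := b.2
      omega
    · have h2 : ((a : ℕ) - (b : ℕ)) • u ∈ f.range := by
        rw [sub_nsmul _ hlt.le]
        have h4 := f.range.neg_mem h1
        have h5 : -(-((a : ℕ) • u) + (b : ℕ) • u) = (a : ℕ) • u + -((b : ℕ) • u) := by abel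
        rwa [h5] at h4
      have h3 := Nat.le_of_dvd (by omega) (hcop _ h2)
      have := a.2
      omega
  have hgsurj : Function.Surjective g := by
    have : Finite (κ ⧸ f.range) := inferInstance
    have : Fintype (κ ⧸ f.range) := Fintype.ofFinite _
    have h1 : Fintype.card (κ ⧸ f.range) ≤ Fintype.card (Fin p) := by
      rw [Fintype.card_fin, ← Nat.card_eq_fintype_card]
      exact hidx
    have h2 := Fintype.card_le_of_injective g hginj
    exact ((Fintype.bijective_iff_injective_and_card g).2 ⟨hginj, le_antisymm h2 h1⟩).2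
  obtain ⟨c, hc⟩ := hgsurj (QuotientAddGroup.mk x)
  have h1 : -((c : ℕ) • u) + x ∈ f.range := QuotientAddGroup.eq.1 hc
  obtain ⟨t, ht⟩ := h1
  refine ⟨c, t, ?_⟩
  rw [hu₀, ← hf, ht]
  abel

include L in
theorem irr_as [Finite (ResidueField O)] {u : ResidueField O}
    (hu : ∀ t : ResidueField O, t ^ p - t ≠ u) :
    Irreducible (X ^ p - X - C u : (ResidueField O)[X]) := by
  have : Fact p.Prime := ⟨L.prime⟩
  have := L.charPk
  have hm : (X ^ p - X - C u : (ResidueField O)[X]).Monic := Pool.Agent.Helper32.AS_monic u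
  have hdeg : (X ^ p - X - C u : (ResidueField O)[X]).natDegree = p :=
    Pool.Agent.Helper32.AS_natDegree u
  have hne : (X ^ p - X - C u : (ResidueField O)[X]).degree ≠ 0 := by
    rw [degree_eq_natDegree hm.ne_zero, hdeg]
    exact_mod_cast L.prime.ne_zero
  obtain ⟨w, hw⟩ := IsAlgClosed.exists_aeval_eq_zero (AlgebraicClosure (ResidueField O)) _ hne
  have hw' : w ^ p - w = algebraMap (ResidueField O) (AlgebraicClosure (ResidueField O)) u := by
    rw [map_sub, map_sub, map_pow, aeval_X, aeval_C] at hw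
    exact sub_eq_zero.1 hw
  have h1 := Pool.Agent.Helper32.AS_minpoly (p := p) hw' hu
  rw [← h1]
  exact minpoly.irreducible (Algebra.IsAlgebraic.isAlgebraic w).isIntegral

private theorem one_sub_unit' {R : Type*} [CommRing R] [IsLocalRing R] {a : R}
    (ha : a ∈ maximalIdeal R) : IsUnit (1 - a) := by
  rcases isUnit_or_isUnit_one_sub_self a with h | h
  · exact absurd h ((mem_maximalIdeal a).1 ha)
  · exact h

private theorem pow_aux {R : Type*} [CommRing R] (a : R) (c : ℕ) :
    ∃ q : R, (1 - a) ^ c = 1 - (c : R) * a + a ^ 2 * q := by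
  induction c with
  | zero => exact ⟨0, by simp⟩
  | succ c ih =>
    obtain ⟨q, hq⟩ := ih
    refine ⟨q - a * q + (c : R), ?_⟩
    rw [pow_succ, hq]
    push_cast
    ring

theorem top [HenselianLocalRing O] [Finite (ResidueField O)] {u₀ : O}
    (hu₀ : ∀ x : ResidueField O, ∃ (c : ℕ) (t : ResidueField O),
      x = c • residue O u₀ + (t ^ p - t)) {x : F} (hx : x = 0 ∨ L.E ≤ L.v x) :
    ∃ (c : ℕ) (z : F), z ≠ 0 ∧ 1 - x = (algebraMap O F (1 - L.lam ^ p * u₀)) ^ c * z ^ p := by
  have hlp : algebraMap O F (L.lam ^ p) ≠ 0 := map_ne (pow_ne_zero _ L.lam_ne)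
  obtain ⟨x', hx'⟩ : ∃ x' : O, x = algebraMap O F (L.lam ^ p * x') := by
    have h1 : x / algebraMap O F (L.lam ^ p) = 0 ∨
        0 ≤ L.v (x / algebraMap O F (L.lam ^ p)) := by
      by_cases hx0 : x = 0
      · left
        rw [hx0, zero_div]
      · right
        rw [L.v_div _ _ hx0 hlp, L.v_lam_pow]
        have := hx.resolve_left hx0
        omega
    obtain ⟨a, ha⟩ := (L.int _).1 h1
    refine ⟨a, ?_⟩
    rw [map_mul, ha, mul_div_cancel₀ _ hlp]
  obtain ⟨c, t', ht'⟩ := hu₀ (residue O x')
  obtain ⟨t, rfl⟩ := residue_surjective (R := O) t'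
  obtain ⟨ε, w, R, hεε, hε, hw, hR, hpow⟩ := L.pow_exp
  have hpt : (1 - L.lam * t) ^ p = 1 - L.lam ^ p * (ε * (t ^ p + w * t + L.lam * R.eval t)) := by
    rw [← mul_assoc]
    have h := congrArg (fun P : O[X] => P.eval t) hpow
    simpa only [eval_pow, eval_sub, eval_one, eval_mul, eval_C, eval_X, eval_add] using h
  obtain ⟨q, hq⟩ := pow_aux (L.lam ^ p * u₀) c
  have hlm : L.lam ∈ maximalIdeal O := L.lam_mem
  have hlpm : L.lam ^ p ∈ maximalIdeal O := Ideal.pow_mem_of_mem _ hlm p L.prime.pos
  set α : O := (c : O) * u₀ - L.lam ^ p * (u₀ ^ 2 * q) with hα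
  set β : O := ε * (t ^ p + w * t + L.lam * R.eval t) with hβ
  have hA : (1 - L.lam ^ p * u₀) ^ c = 1 - L.lam ^ p * α := by
    rw [hq, hα]
    ring
  set γ : O := α + β - L.lam ^ p * (α * β) with hγ
  have hγm : x' - γ ∈ maximalIdeal O := by
    rw [← residue_eq_zero_iff, hγ, hα, hβ]
    have hl0 : residue O L.lam = 0 := (residue_eq_zero_iff _).2 hlm
    have hw1 : residue O w = -1 := by
      have h := (residue_eq_zero_iff (w + 1)).2 hw
      rw [map_add, map_one] at h
      exact eq_neg_of_add_eq_zero_left h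
    have hε1 : residue O ε = 1 := by
      have h := (residue_eq_zero_iff (ε - 1)).2 hε
      rw [map_sub, map_one] at h
      exact sub_eq_zero.1 h
    have hl1 : residue O L.lam ^ p = 0 := by
      rw [hl0, zero_pow L.prime.ne_zero]
    simp only [map_sub, map_add, map_mul, map_pow, map_natCast, hw1, hε1, hl0, ht',
      nsmul_eq_mul, zero_pow L.prime.ne_zero]
    ring
  have hU : IsUnit (1 - L.lam ^ p * γ) := one_sub_unit' (Ideal.mul_mem_right _ _ hlpm)
  obtain ⟨U, hUeq⟩ := hU
  have hy : (x' - γ) * ((U⁻¹ : Oˣ) : O) ∈ maximalIdeal O := Ideal.mul_mem_right _ _ hγm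
  obtain ⟨τ, hτ⟩ := L.hens hy
  have hmain : 1 - L.lam ^ p * x' =
      (1 - L.lam ^ p * u₀) ^ c * ((1 - L.lam * t) * (1 - L.lam * τ)) ^ p := by
    rw [mul_pow, ← hτ, hpt, hA]
    have h1 : (1 - L.lam ^ p * γ) * (1 - L.lam ^ p * ((x' - γ) * ((U⁻¹ : Oˣ) : O))) =
        1 - L.lam ^ p * x' := by
      have h2 : (1 - L.lam ^ p * γ) * ((U⁻¹ : Oˣ) : O) = 1 := by
        rw [← hUeq, Units.mul_inv]
      linear_combination (-(L.lam ^ p * (x' - γ))) * h2
    rw [← h1, hγ]
    ring
  refine ⟨c, algebraMap O F ((1 - L.lam * t) * (1 - L.lam * τ)), ?_, ?_⟩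
  · apply map_ne
    exact ((one_sub_unit' (Ideal.mul_mem_right _ _ hlm)).mul
      (one_sub_unit' (Ideal.mul_mem_right _ _ hlm))).ne_zero
  · rw [hx', ← map_pow, ← map_pow, ← map_mul, ← hmain, map_sub, map_one]

end LO

end WNT
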