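import Pool.Agent.WNT.Net

/-!
# WNT / Base: the first step of the construction of `z`

PROOF of `base`.  `β = f b`, `val β = m - 1` (`gd_val`).  By `net` (centre `b + pi ^ (m - 2)`, `m - 2 ≥ -E - 2 ≥ -2E`) there is `e ∈ A` with `v (e - b) = m - 2`.  Let `ψ = f e - f b`.  For `c ∈ A` with
`c - b ∈ D (m - 1)` let `f c = β + x • η` (`gd_val`; `x = 0` if `c - b ∈ D m`), `t = (c - b) / (e - b) ∈ D 1`.  `rel' e c`: `h (ψ - x • η) (cl (e - c) - β - x • η) = 0`, `cl (e - c) = cl (e - b) + cl (1 - t)`.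
Expand with `h _ η = - val`, `h η _ = val`: `h ψ (cl (e - b) + cl (1 - t) - β) + x * val ψ - x * (m - 2 - (m - 1)) = 0` (`val (cl (1 - t)) = 0`).  For `c = b`: `h ψ (cl (e - b) - β) = 0`.  So
  (1) `h ψ (cl (1 - t)) + x * (val ψ + 1) = 0` for all `c ∈ A`, `c - b ∈ D (m - 1)`.
For every `u ∈ D 2` there is `c ∈ A` with `c - b ∈ D m` and `t - u ∈ D (E + 1)` (`near` for `e` in place of `c`, `k = 2`; `cl (1 - t) = cl (1 - u)` by `cl_congr`), `x = 0`: `h ψ (cl (1 - u)) = 0` for all `u ∈ D 2`; `du` (`i = 2`):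
`ψ ∈ W (E - 1)`, `ψ = cl (1 - w)`, `w ∈ D (E - 1)`, `val ψ = 0`.  So `x = - h ψ (cl (1 - t)) = h (cl (1 - t)) (cl (1 - w)) = lam (t w)`: `top_eq` gives `v t * lam (t w)` for `t ≠ 0`; if `v t = 1` this is `lam (t w)`, if `v t ≥ 2` or
`t = 0` both `lam (t w) = 0` (`t w ∈ D (E + 1)`).  As `f` is not constant on the ball (`gd_val`) some `x ≠ 0`, so `w ≠ 0` and `w ∉ D E`: `v w = E - 1`.
Put `z = b + (e - b) / w`: `v (z - b) = m - 2 - (E - 1) = m - 1 - E` and `(c - b) / (z - b) = t w`, so `f c = β + lam (t w) • η = β + cl (1 - (c - b) / (z - b))` (`lam_spec`; `t w ∈ D E`).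
-/

set_option autoImplicit false

namespace WNT

universe u w

namespace Nt

variable {F : Type u} {V : Type w} [Field F] [AddCommGroup V] {p : ℕ} [Module (ZMod p) V]
  {S : SS F V p} {T : Nt S}

private theorem base_e {b : F} {m : ℤ} (h : T.Gd b m) :
    ∃ e ∈ T.A, e - b ≠ 0 ∧ S.v (e - b) = m - 2 := by
  have hE := S.two_le_E
  have hlo := h.lo
  have hhi := h.hi
  have h1 : S.pi ^ (m - 2) ∈ S.D (m - 2) := Or.inr (S.v_pi_zpow _).ge
  have h2 : b + S.pi ^ (m - 2) ∈ S.D (-(2 * S.E)) :=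
    (S.D _).add_mem h.bD (S.D_mono (by omega) h1)
  obtain ⟨e, he, he2⟩ := T.net _ h2
  have h3 := S.v_add_eq (x := S.pi ^ (m - 2)) (y := e - (b + S.pi ^ (m - 2)))
    (S.pi_zpow_ne _) (by
      rw [S.v_pi_zpow]
      exact S.D_mono (by omega) he2)
  have e1 : S.pi ^ (m - 2) + (e - (b + S.pi ^ (m - 2))) = e - b := by ring
  rw [e1, S.v_pi_zpow] at h3
  exact ⟨e, he, h3⟩

private theorem base_key {b e c : F} {m : ℤ} (hb : b ∈ T.A)
    (hval : S.val (T.f b) = ((m - 1 : ℤ) : ZMod p)) (he : e ∈ T.A) (heb : e - b ≠ 0)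
    (hve : S.v (e - b) = m - 2) (hc : c ∈ T.A) (hcb : c - b ∈ S.D (m - 1)) {x : ZMod p}
    (hx : T.f c = T.f b + x • S.η) :
    (c - b) / (e - b) ∈ S.D 1 ∧
      S.h (T.f e - T.f b) (S.cl (1 - (c - b) / (e - b))) +
        x * (S.val (T.f e - T.f b) + 1) = 0 := by
  have ht : (c - b) / (e - b) ∈ S.D 1 := S.D_div' hcb heb hve (by omega)
  refine ⟨ht, ?_⟩
  have h1 := S.v_one_sub ht
  have e1 : e - c = (e - b) * (1 - (c - b) / (e - b)) := by
    field_simp
    ring
  have h2 : e - c ≠ 0 := by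
    rw [e1]
    exact mul_ne_zero heb h1.1
  have h3 := T.rel' he hc (sub_ne_zero.1 h2)
  have h4 := T.rel' he hb (sub_ne_zero.1 heb)
  have h5 : S.cl (e - c) = S.cl (e - b) + S.cl (1 - (c - b) / (e - b)) := by
    rw [e1]
    exact S.cl_mul _ _ heb h1.1
  have hvP : S.val (S.cl (e - b) - T.f b) = -1 := by
    rw [map_sub, S.val_cl _ heb, hve, hval]
    push_cast
    ring
  have hvL : S.val (S.cl (1 - (c - b) / (e - b))) = 0 := by
    rw [S.val_cl _ h1.1, h1.2, Int.cast_zero]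
  generalize S.cl (1 - (c - b) / (e - b)) = L at h5 hvL ⊢
  have e2 : T.f e - T.f c = (T.f e - T.f b) - x • S.η := by rw [hx]; abel
  have e3 : S.cl (e - c) - T.f c = (S.cl (e - b) - T.f b) + (L - x • S.η) := by
    rw [hx, h5]; abel
  rw [e2, e3] at h3
  generalize T.f e - T.f b = ψ at h3 h4 ⊢
  generalize S.cl (e - b) - T.f b = P at h3 h4 hvP
  have h6 : S.h ψ S.η = - S.val ψ := S.h_eta_right ψ
  have h7 : S.h S.η P = -1 := hvP
  have h8 : S.h S.η L = 0 := hvL
  have h9 : S.h S.η S.η = 0 := S.val_eta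
  simp only [map_add, map_sub, map_smul, LinearMap.sub_apply, LinearMap.smul_apply,
    smul_eq_mul, h4, h6, h7, h8, h9] at h3
  linear_combination h3

theorem base {b : F} {m : ℤ} (h : T.Gd b m) : ∃ z, T.Hj b m 1 z := by
  have hE := S.two_le_E
  have hlo := h.lo
  have hhi := h.hi
  obtain ⟨hval, h2, h3, h4⟩ := gd_val h
  obtain ⟨e, he, heb, hve⟩ := base_e h
  -- orthogonality to the classes of level 2
  have h5 : ∀ u ∈ S.D 2, S.h (T.f e - T.f b) (S.cl (1 - u)) = 0 := by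
    intro u hu
    obtain ⟨a, ha, ha1, ha2⟩ := near (T := T) (b := b) (c := e) (t := u) (k := 2) h.bD heb hu
      (by omega) (by omega)
    have h6 : u * (e - b) ∈ S.D m :=
      S.D_mul' hu (Or.inr hve.ge : e - b ∈ S.D (m - 2)) (by omega)
    have h7 : a - b ∈ S.D m := by
      have h8 := (S.D m).add_mem (S.D_mono (by omega) ha1) h6
      have e1 : a - (b + u * (e - b)) + u * (e - b) = a - b := by ring
      rwa [e1] at h8
    have h8 : T.f a = T.f b + (0 : ZMod p) • S.η := by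
      rw [h3 a ha h7, zero_smul, add_zero]
    have h9 := base_key h.bA hval he heb hve ha (S.D_mono (by omega) h7) h8
    have h10 := h9.2
    rw [zero_mul, add_zero] at h10
    have hu1 := S.v_one_sub (S.D_mono (by omega) hu)
    have h11 := S.cl_congr (x := 1 - u) (y := 1 - (a - b) / (e - b)) hu1.1 (by
      rw [hu1.2, zero_add]
      have h12 := (S.D (S.E + 1)).neg_mem ha2
      have e1 : -((a - b) / (e - b) - u) = 1 - (a - b) / (e - b) - (1 - u) := by ring
      rwa [e1] at h12)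
    rw [h11.2.2] at h10
    exact h10
  have h6 := S.du (i := 2) (by omega) (by omega) h5
  have hE1 : S.E + 1 - 2 = S.E - 1 := by ring
  rw [hE1] at h6
  have hvψ := S.val_W (by omega) h6
  obtain ⟨w, hw, hψ⟩ := (S.mem_W (by omega)).1 h6
  -- the value of `x`
  have h7 : ∀ c ∈ T.A, c - b ∈ S.D (m - 1) → ∀ x : ZMod p, T.f c = T.f b + x • S.η →
      (c - b) / (e - b) ∈ S.D 1 ∧ x = S.lam ((c - b) / (e - b) * w) := by
    intro c hc hcb x hx
    obtain ⟨ht, h8⟩ := base_key h.bA hval he heb hve hc hcb hx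
    refine ⟨ht, ?_⟩
    rw [hvψ, zero_add, mul_one, hψ] at h8
    generalize (c - b) / (e - b) = t at ht h8 ⊢
    by_cases ht0 : t = 0
    · rw [ht0, sub_zero, S.cl_one, map_zero, zero_add] at h8
      rw [h8, ht0, zero_mul, S.lam_zero (S.D (S.E + 1)).zero_mem]
    · have htw : t * w ∈ S.D S.E := S.D_mul' ht hw (by omega)
      have h9 := S.top_eq ht0 ht (S.D_mono (by omega) hw) htw
      have h10 := S.anti (S.cl (1 - t)) (S.cl (1 - w))
      by_cases ht2 : t ∈ S.D 2
      · have h11 : S.lam (t * w) = 0 := S.lam_zero (S.D_mul' ht2 hw (by omega))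
        rw [h11] at h9 ⊢
        rw [mul_zero] at h9
        linear_combination h8 - h10 + h9
      · have hvt : S.v t = 1 := S.v_eq_of ht ht2
        rw [hvt, Int.cast_one, one_mul] at h9
        linear_combination h8 - h10 + h9
  -- the valuation of `w`
  have hwE : w ∉ S.D S.E := by
    intro hwE
    obtain ⟨c, hc, hcb, hne⟩ := h4
    obtain ⟨x, hx⟩ := h2 c hc hcb
    obtain ⟨ht, h8⟩ := h7 c hc hcb x hx
    apply hne
    have h9 : S.lam ((c - b) / (e - b) * w) = 0 := S.lam_zero (S.D_mul' ht hwE (by omega))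
    rw [hx, h8, h9, zero_smul, add_zero]
  have hw0 := S.ne_of_not_mem hwE
  have hvw : S.v w = S.E - 1 := S.v_eq_of hw (by rwa [sub_add_cancel])
  have hzb : b + (e - b) / w - b = (e - b) / w := by ring
  refine ⟨b + (e - b) / w, ?_, ?_, ?_⟩
  · rw [hzb]
    exact div_ne_zero heb hw0
  · rw [hzb, S.v_div _ _ heb hw0, hve, hvw]
    ring
  · intro a ha hab
    obtain ⟨x, hx⟩ := h2 a ha hab
    obtain ⟨ht, h8⟩ := h7 a ha hab x hx
    have htw : (a - b) / (e - b) * w ∈ S.D S.E := S.D_mul' ht hw (by omega)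
    have e1 : (a - b) / (b + (e - b) / w - b) = (a - b) / (e - b) * w := by
      rw [hzb]
      field_simp
    rw [e1, S.lam_spec htw, hx, h8]

end Nt

end WNT
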