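import Pool.Agent.Helper36.Superelliptic
import Pool.Agent.Helper36.SecConv

/-!
# WNT / Bc: base change of a section to a finite extension of the constants

`k0` a finite extension of `k` in `Ω`, `K0 = adjoin K k0` the compositum.  A section of `Gal(univCover k K Ω / K) → Gal(kbar / k)` gives a section of `Gal(univCover k0 K0 Ω / K0) → Gal(kbar / k0)`.

PROOF.
* `isAlg_iff`: `k0` is algebraic over `k`.  So `algebraicClosure k0 Ω` and `algebraicClosure k Ω` have the same elements.
* `mem_univ_iff`.  `→`: `K0 ≤ univCover k K Ω` (`le_univCover'`), so it is enough that every finite extension `L` of `K0` in `Ω` unramified everywhere over `K0` (with respect to `k0`) lies in `univCover k K Ω` (`iSup_le` for `extendScalars`; or `IntermediateField.iSup_induction`-like: show `univCover k0 K0 Ω ≤ extendScalars ..`): `L.restrictScalars K` is finite over `K` (`K0 / K` is finite,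
  `finDim_adjoin`) and unramified everywhere over `K` with respect to `k`: a place `v` of `L` over `k` is a place over `k0` (`val_eq_one_of_algebraic`: elements algebraic over `k` have value `1`), so `v l = v x` with `x ∈ K0`, and `v x = v x'` with `x' ∈ K` (`val_const` with `exists_gen`; see step 2 in the proof of `kummer_mem_univCover`).
  `←`: for `L / K` finite, unramified everywhere with respect to `k`: let `L'' = adjoin K0 L`, finite over `K0`.  `K0 = K(θ)`, `θ` algebraic over `k`, so `L'' = L(θ)`; a place `v` of `L''` over `k0` is a place over `k`; `v l = v l'` with `l' ∈ L` (`val_const` with `L` in place of `K`), and `v l' = v x` with `x ∈ K` (`L / K` is unramified; `IsPlace.comap`).  So `L'' ≤ univCover k0 K0 Ω`.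
* `base_change`: for `σ` in `Gal(algebraicClosure k0 Ω / k0)` let `σ'` be the same map on `algebraicClosure k Ω` (`isAlg_iff`), `s.hom σ'` fixes `K0` (`act_fix` for `k' = k0`), and transport it to `univCover k0 K0 Ω` (`mem_univ_iff`).  Continuity: it is enough at `1` (`continuous_of_continuousAt_one`), `krullTopology_mem_nhds_one_iff`: for a finite extension `M` of `K0` in `univCover k0 K0 Ω`,
  generated by finitely many elements, each of them is fixed by `s.act τ` for `τ` in the fixer of a finite extension `F_i / k` (`act_cont`); the compositum of `k0` and of the `F_i` is finite over `k0`, and its fixer is mapped to the fixer of `M`.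
-/

set_option autoImplicit false

namespace WNT

open Pool.Agent.Helper36

open IntermediateField

/-- the compositum `K k0` as a `k0`-algebra -/
noncomputable abbrev algK (K : Type*) {k Ω : Type*} [Field k] [Field K] [Field Ω] [Algebra K Ω]
    [Algebra k Ω] (k0 : IntermediateField k Ω) : Algebra k0 (adjoin K (k0 : Set Ω)) :=
  (constMap K k0).toAlgebra

theorem towK (K : Type*) {k Ω : Type*} [Field k] [Field K] [Field Ω] [Algebra K Ω]
    [Algebra k Ω] (k0 : IntermediateField k Ω) :
    letI := algK K k0
    IsScalarTower k0 (adjoin K (k0 : Set Ω)) Ω := by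
  letI := algK K k0
  exact IsScalarTower.of_algebraMap_eq fun _ => rfl

section

variable {k K Ω : Type*} [Field k] [CharZero k] [Field K] [Field Ω] [Algebra k K] [Algebra K Ω]
  [Algebra k Ω] [IsScalarTower k K Ω] [Algebra.IsAlgebraic K Ω] [IsAlgClosed Ω]

theorem isAlg_iff (k0 : IntermediateField k Ω) [FiniteDimensional k k0] (x : Ω) :
    IsAlgebraic k0 x ↔ IsAlgebraic k x := by
  sorry

theorem mem_univ_iff (k0 : IntermediateField k Ω) [FiniteDimensional k k0] (x : Ω) :
    letI := algK K k0
    haveI := towK K k0
    x ∈ univCover k0 (adjoin K (k0 : Set Ω)) Ω ↔ x ∈ univCover k K Ω := by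
  sorry

theorem base_change (s : SectionData k K Ω) (k0 : IntermediateField k Ω)
    [FiniteDimensional k k0] :
    letI := algK K k0
    haveI := towK K k0
    Nonempty (SectionData k0 (adjoin K (k0 : Set Ω)) Ω) := by
  sorry

end

end WNT
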