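import Pool.Agent.WNT.Net

/-!
# WNT / Cmp: comparison of representations

Throughout `Rep b ν z`: `v (z - b) = ν`, `f a = cl (z - a) + k • η` for `a ∈ A`, `a - b ∈ D (ν + 1)`.

PROOFS.
* `rep_sub`: for `a, a' ∈ A` in `b + D (ν + 1)`: `z - a' ≠ 0`, `v (z - a') = ν`, `f a = f a' + cl (1 - (a - a') / (z - a'))` (`z - a = (z - a') (1 - (a - a') / (z - a'))`).
* `rep_cst`: `rep_sub` (with `a' = b`), `cl_big`.
* `rep_ncst`: `u₀ ∈ D E` with `lam u₀ = 1` (`exists_lam`); `near` (for `z` in place of `c`, `k = E`) gives `a ∈ A` with `(a - b) / (z - b) - u₀ ∈ D (E + 1)`: `a - b ∈ D (ν + E)`, `f a - f b = lam (..) • η = η ≠ 0` (`lam_congr`, `eta_ne`).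
* `rep_radius`: `rep_cst`, `rep_ncst`, `radius_unique`.
* `rep_move`: `b' ∈ A`, `b' - b ∈ D (ν + 1)`: the same ball.
* `rep_down` (`c ∈ A`, `b - c ∈ D (ν₁ + 1)`, `Rep c ν₁ z₁`): this is `rep_move`.  If moreover `Rep b ν z` then `ν₁ = ν`: both describe the constancy at `b` (`rep_cst`, `rep_ncst`, `radius_unique`).
* `rep_diff`: let `δ = z' - z ≠ 0`, `v δ = ν + g`, and suppose `g ≤ E - 2`; `g ≥ 0` because `v (z - b) = v (z' - b) = ν`.  Put `i = E - 1 - g ≥ 1`.  By `near` (`z` in place of `c`, `t = pi ^ i`) there is `a ∈ A` with `v (a - b) = ν + i` (if `i ≤ E`; yes).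
  `(z' - a) (z - b) / ((z - a) (z' - b)) = 1 - y`, `y = - (z' - z) (a - b) / ((z - a) (z' - b))` up to sign: check `(z' - a) (z - b) - (z - a) (z' - b) = (z' - z) (a - b)`, `v y = ν + g + ν + i - 2 ν = E - 1`.  By hypothesis (for `a` and for `b`)
  `cl (z' - a) - cl (z - a)` and `cl (z' - b) - cl (z - b)` are multiples of `η`, so `cl (1 - y)` is a multiple of `η`, hence in `W E` (`eta_mem_W`), contradiction to `not_W` with `i = E - 1` (`not_dvd_sub`; `E - 1 ≥ 1`).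
-/

set_option autoImplicit false

namespace WNT

universe u w

namespace Nt

variable {F : Type u} {V : Type w} [Field F] [AddCommGroup V] {p : ℕ} [Module (ZMod p) V]
  {S : SS F V p} {T : Nt S}

private theorem rep_ne {b z : F} {ν : ℤ} (h : T.Rep b ν z) {a : F} (hab : a - b ∈ S.D (ν + 1)) :
    z - a ≠ 0 ∧ S.v (z - a) = ν := by
  have h1 := S.v_add_eq (x := z - b) (y := -(a - b)) h.ne (by
    rw [h.vz]
    exact (S.D _).neg_mem hab)
  have e : z - b + -(a - b) = z - a := by ring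
  rw [e, h.vz] at h1
  exact h1

private theorem bb_mem {b : F} (k : ℤ) : b - b ∈ S.D k := by
  rw [sub_self]
  exact (S.D k).zero_mem

theorem rep_sub {b z : F} {ν : ℤ} (h : T.Rep b ν z) {a a' : F} (ha : a ∈ T.A) (ha' : a' ∈ T.A)
    (hab : a - b ∈ S.D (ν + 1)) (hab' : a' - b ∈ S.D (ν + 1)) :
    z - a' ≠ 0 ∧ S.v (z - a') = ν ∧ T.f a = T.f a' + S.cl (1 - (a - a') / (z - a')) := by
  obtain ⟨h1, h2⟩ := rep_ne h hab'
  obtain ⟨k, hk⟩ := h.rep
  refine ⟨h1, h2, ?_⟩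
  have h3 : (a - a') / (z - a') ∈ S.D 1 := by
    have h4 : a - a' ∈ S.D (ν + 1) := by
      have h5 := (S.D (ν + 1)).sub_mem hab hab'
      have e : a - b - (a' - b) = a - a' := by ring
      rwa [e] at h5
    exact S.D_div' h4 h1 h2 (by omega)
  have h6 : z - a = (z - a') * (1 - (a - a') / (z - a')) := by
    field_simp
    ring
  rw [hk a ha hab, hk a' ha' hab', h6, S.cl_mul _ _ h1 (S.one_sub_ne h3)]
  abel

theorem rep_cst {b z : F} {ν : ℤ} (h : T.Rep b ν z) : T.Cst b (ν + S.E + 1) := by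
  have hE := S.E_pos
  have key : ∀ a ∈ T.A, a - b ∈ S.D (ν + S.E + 1) → T.f a = T.f b := by
    intro a ha hab
    have h1 := (rep_sub h ha h.bA (S.D_mono (by omega) hab) (bb_mem _)).2.2
    have h2 : (a - b) / (z - b) ∈ S.D (S.E + 1) := S.D_div' hab h.ne h.vz (by omega)
    rw [h1, S.cl_big _ h2, add_zero]
  intro a ha a' ha' h1 h2
  rw [key a ha h1, key a' ha' h2]

theorem rep_ncst {b z : F} {ν : ℤ} (h : T.Rep b ν z) (hlo : -(3 * S.E) ≤ ν)
    (hN : ν + S.E + 1 ≤ T.N) : ¬ T.Cst b (ν + S.E) := by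
  have hE := S.E_pos
  intro hc
  obtain ⟨u, hu, hl⟩ := S.exists_lam
  obtain ⟨a, ha, ha2, ha3⟩ := near (T := T) (b := b) (c := z) (t := u) (k := S.E) h.bD h.ne hu
    (by rw [h.vz]; omega) (by rw [h.vz]; omega)
  have h1 : u * (z - b) ∈ S.D (ν + S.E) :=
    S.D_mul' hu (Or.inr h.vz.ge : z - b ∈ S.D ν) (by omega)
  have h2 : a - b ∈ S.D (ν + S.E) := by
    have h3 := (S.D (ν + S.E)).add_mem (S.D_mono (by omega) ha2) h1
    have e : a - (b + u * (z - b)) + u * (z - b) = a - b := by ring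
    rwa [e] at h3
  have h3 : T.f a = T.f b := hc a ha b h.bA h2 (bb_mem _)
  have h4 := (rep_sub h ha h.bA (S.D_mono (by omega) h2) (bb_mem _)).2.2
  rw [h3] at h4
  have h5 : S.cl (1 - (a - b) / (z - b)) = 0 := left_eq_add.1 h4
  have h6 : (a - b) / (z - b) ∈ S.D S.E := S.D_div' h2 h.ne h.vz (by omega)
  rw [S.lam_spec h6, S.lam_congr hu ha3, hl, one_smul] at h5
  exact S.eta_ne h5

theorem rep_radius {b z : F} {ν m : ℤ} (h : T.Rep b ν z) (hlo : -(3 * S.E) ≤ ν)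
    (hN : ν + S.E + 1 ≤ T.N) (h1 : T.Cst b m) (h2 : ¬ T.Cst b (m - 1)) : m = ν + S.E + 1 := by
  refine radius_unique h1 h2 (rep_cst h) ?_
  rw [add_sub_cancel_right]
  exact rep_ncst h hlo hN

theorem rep_move {b z : F} {ν : ℤ} (h : T.Rep b ν z) {b' : F} (hb' : b' ∈ T.A)
    (hD : b' ∈ S.D (-(2 * S.E))) (hbb : b' - b ∈ S.D (ν + 1)) : T.Rep b' ν z := by
  obtain ⟨h1, h2⟩ := rep_ne h hbb
  obtain ⟨k, hk⟩ := h.rep
  refine ⟨hb', hD, h1, h2, k, fun a ha hab => hk a ha ?_⟩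
  have h3 := (S.D (ν + 1)).add_mem hab hbb
  have e : a - b' + (b' - b) = a - b := by ring
  rwa [e] at h3

/-- two representations at the same point have the same `ν` -/
theorem rep_nu {b z z' : F} {ν ν' : ℤ} (h : T.Rep b ν z) (h' : T.Rep b ν' z')
    (hlo : -(3 * S.E) ≤ ν) (hlo' : -(3 * S.E) ≤ ν') (hN : ν + S.E + 1 ≤ T.N)
    (hN' : ν' + S.E + 1 ≤ T.N) : ν = ν' := by
  have h1 := rep_radius h hlo hN (rep_cst h') (by
    rw [add_sub_cancel_right]
    exact rep_ncst h' hlo' hN')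
  omega

theorem rep_diff {b z z' : F} {ν : ℤ} (h : T.Rep b ν z) (hlo : -(2 * S.E) ≤ ν)
    (hN : ν + S.E + 1 ≤ T.N) (hz' : z' - b ≠ 0) (hv : S.v (z' - b) = ν)
    (hx : ∀ a ∈ T.A, a - b ∈ S.D (ν + 1) → ∃ x : ZMod p, S.cl (z' - a) = S.cl (z - a) + x • S.η) :
    z' - z ∈ S.D (ν + S.E - 1) := by
  have hE := S.E_pos
  have hE3 := S.two_le_E
  by_contra hδ
  have hδ0 := S.ne_of_not_mem hδ
  have hδv := S.v_lt_of_not_mem hδ
  have hδν : z' - z ∈ S.D ν := by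
    have h1 := (S.D ν).sub_mem (Or.inr hv.ge : z' - b ∈ S.D ν) (Or.inr h.vz.ge : z - b ∈ S.D ν)
    have e : z' - b - (z - b) = z' - z := by ring
    rwa [e] at h1
  have hδν' := S.le_v hδν hδ0
  obtain ⟨i, hi⟩ : ∃ i : ℤ, i = S.E - 1 - (S.v (z' - z) - ν) := ⟨_, rfl⟩
  have hi1 : 1 ≤ i := by omega
  have hiE : i ≤ S.E - 1 := by omega
  obtain ⟨a, ha, ha2, ha3⟩ := near (T := T) (b := b) (c := z) (t := S.pi ^ i) (k := i) h.bD h.ne
    (Or.inr (S.v_pi_zpow i).ge) (by rw [h.vz]; omega) (by rw [h.vz]; omega)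
  have hr := S.v_add_eq (x := S.pi ^ i) (y := (a - b) / (z - b) - S.pi ^ i) (S.pi_zpow_ne i) (by
    rw [S.v_pi_zpow]
    exact S.D_mono (by omega) ha3)
  have e1 : S.pi ^ i + ((a - b) / (z - b) - S.pi ^ i) = (a - b) / (z - b) := by ring
  rw [e1, S.v_pi_zpow] at hr
  have hab0 : a - b ≠ 0 := by
    intro h0
    rw [h0, zero_div] at hr
    exact hr.1 rfl
  have habv : S.v (a - b) = ν + i := by
    have h1 := hr.2
    rw [S.v_div _ _ hab0 h.ne, h.vz] at h1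
    omega
  have hab : a - b ∈ S.D (ν + 1) := Or.inr (by omega)
  obtain ⟨hza, hzav⟩ := rep_ne h hab
  have hz'a : z' - a ≠ 0 ∧ S.v (z' - a) = ν := by
    have h1 := S.v_add_eq (x := z' - b) (y := -(a - b)) hz' (by
      rw [hv]
      exact (S.D _).neg_mem hab)
    have e : z' - b + -(a - b) = z' - a := by ring
    rw [e, hv] at h1
    exact h1
  obtain ⟨y, hy⟩ : ∃ y : F, y = -(z' - z) * (a - b) / ((z - a) * (z' - b)) := ⟨_, rfl⟩
  have hden : (z - a) * (z' - b) ≠ 0 := mul_ne_zero hza hz'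
  have hnum : -(z' - z) * (a - b) ≠ 0 := mul_ne_zero (neg_ne_zero.2 hδ0) hab0
  have hy0 : y ≠ 0 := by
    rw [hy]
    exact div_ne_zero hnum hden
  have hyv : S.v y = S.E - 1 := by
    rw [hy, S.v_div _ _ hnum hden, S.v_mul _ _ (neg_ne_zero.2 hδ0) hab0, S.v_neg _ hδ0,
      S.v_mul _ _ hza hz', hzav, hv, habv]
    omega
  have hy1 : 1 - y ≠ 0 := S.one_sub_ne (Or.inr (by rw [hyv]; omega))
  have key : (z' - a) * (z - b) = (z - a) * (z' - b) * (1 - y) := by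
    rw [hy]
    field_simp
    ring
  have hcl := congrArg S.cl key
  rw [S.cl_mul _ _ hz'a.1 h.ne, S.cl_mul _ _ hden hy1, S.cl_mul _ _ hza hz'] at hcl
  obtain ⟨x1, hx1⟩ := hx a ha hab
  obtain ⟨x2, hx2⟩ := hx b h.bA (bb_mem _)
  rw [hx1, hx2] at hcl
  have h1 : S.cl (1 - y) = x1 • S.η - x2 • S.η := by
    have e : S.cl (z - a) + x1 • S.η + S.cl (z - b) -
        (S.cl (z - a) + (S.cl (z - b) + x2 • S.η)) = x1 • S.η - x2 • S.η := by abel
    rw [← e, hcl]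
    abel
  have hW : S.cl (1 - y) ∈ S.W S.E := by
    rw [h1]
    exact (S.W S.E).sub_mem ((S.W S.E).smul_mem _ (S.eta_mem_W le_rfl))
      ((S.W S.E).smul_mem _ (S.eta_mem_W le_rfl))
  have h2 := S.not_W (i := S.E - 1) (by omega) (by omega) S.not_dvd_sub hy0 hyv
  rw [sub_add_cancel] at h2
  exact h2 hW

/-- two representations with the same `ν` on the same ball determine `z` modulo `D (ν + E)` -/
theorem rep_diff2 {b z z' : F} {ν : ℤ} (h : T.Rep b ν z) (hlo : -(2 * S.E) ≤ ν)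
    (hN : ν + S.E + 1 ≤ T.N) (hz' : z' - b ≠ 0) (hv : S.v (z' - b) = ν) (k' : ZMod p)
    (hx : ∀ a ∈ T.A, a - b ∈ S.D (ν + 1) → T.f a = S.cl (z' - a) + k' • S.η) :
    z' - z ∈ S.D (ν + S.E) := by
  have hE := S.E_pos
  have hE3 := S.two_le_E
  obtain ⟨k, hk⟩ := h.rep
  have hx' : ∀ a ∈ T.A, a - b ∈ S.D (ν + 1) → S.cl (z' - a) = S.cl (z - a) + (k - k') • S.η := by
    intro a ha hab
    have h1 := hk a ha hab
    have h2 := hx a ha hab
    rw [h1] at h2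
    have h3 : S.cl (z' - a) = (S.cl (z' - a) + k' • S.η) - k' • S.η := by abel
    rw [h3, ← h2, sub_smul]
    abel
  have hd := rep_diff h hlo hN hz' hv (fun a ha hab => ⟨k - k', hx' a ha hab⟩)
  by_contra hδ
  have hδ0 := S.ne_of_not_mem hδ
  have hδv : S.v (z' - z) = ν + S.E - 1 := S.v_eq_of hd (by rw [sub_add_cancel]; exact hδ)
  obtain ⟨u₀, hu₀, hlam⟩ := S.exists_lam
  have ht : u₀ * (z' - b) / (z' - z) ∈ S.D 1 :=
    S.D_div' (S.D_mul hu₀ (Or.inr hv.ge : z' - b ∈ S.D ν)) hδ0 hδv (by omega)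
  obtain ⟨a, ha, ha2, ha3⟩ := near (T := T) (b := b) (c := z) (t := u₀ * (z' - b) / (z' - z))
    (k := 1) h.bD h.ne ht (by rw [h.vz]; omega) (by rw [h.vz]; omega)
  obtain ⟨t', ht'⟩ : ∃ t', t' = (a - b) / (z - b) := ⟨_, rfl⟩
  rw [← ht'] at ha3
  have ht1 : t' ∈ S.D 1 := by
    have h1 := (S.D 1).add_mem (S.D_mono (by omega : (1 : ℤ) ≤ S.E + 1) ha3) ht
    rw [sub_add_cancel] at h1
    exact h1
  have hab' : a - b = t' * (z - b) := by
    rw [ht', div_mul_cancel₀ _ h.ne]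
  have hab : a - b ∈ S.D (ν + 1) := by
    rw [hab']
    exact S.D_mul' ht1 (Or.inr h.vz.ge : z - b ∈ S.D ν) (by omega)
  obtain ⟨hza, hzav⟩ := rep_ne h hab
  have hz'a : z' - a ≠ 0 ∧ S.v (z' - a) = ν := by
    have h1 := S.v_add_eq (x := z' - b) (y := -(a - b)) hz' (by
      rw [hv]
      exact (S.D _).neg_mem hab)
    have e : z' - b + -(a - b) = z' - a := by ring
    rw [e, hv] at h1
    exact h1
  -- `y = - (z' - z) (a - b) / ((z - a) (z' - b))`
  obtain ⟨y, hy⟩ : ∃ y : F, y = -(z' - z) * (a - b) / ((z - a) * (z' - b)) := ⟨_, rfl⟩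
  have hden : (z - a) * (z' - b) ≠ 0 := mul_ne_zero hza hz'
  have h1t := S.one_sub_ne ht1
  have hza' : z - a = (z - b) * (1 - t') := by linear_combination -hab'
  have hyt : y = -((z' - z) * t' / ((1 - t') * (z' - b))) := by
    rw [hy, hab', hza']
    have h1 := h.ne
    field_simp
  have hy2 : y = -u₀ + -((z' - z) / (z' - b) * (t' - u₀ * (z' - b) / (z' - z)) +
      (z' - z) / (z' - b) * t' * (t' / (1 - t'))) := by
    rw [hyt]
    field_simp
    ring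
  have hq : (z' - z) / (z' - b) ∈ S.D (S.E - 1) := S.D_div' hd hz' hv (by omega)
  have hq1 : (z' - z) / (z' - b) * (t' - u₀ * (z' - b) / (z' - z)) ∈ S.D (S.E + 1) :=
    S.D_mul' hq ha3 (by omega)
  have hq2 : (z' - z) / (z' - b) * t' * (t' / (1 - t')) ∈ S.D (S.E + 1) := by
    have h2 : t' / (1 - t') ∈ S.D 1 := S.D_div' ht1 h1t (S.v_one_sub ht1).2 (by omega)
    exact S.D_mul' (S.D_mul hq ht1) h2 (by omega)
  have hyE : y - -u₀ ∈ S.D (S.E + 1) := by
    rw [hy2, add_sub_cancel_left]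
    exact (S.D _).neg_mem ((S.D _).add_mem hq1 hq2)
  have hlamy : S.lam y = -1 := by
    rw [S.lam_congr ((S.D _).neg_mem hu₀) hyE, S.lam_neg hu₀, hlam]
  have hyD : y ∈ S.D S.E := by
    have h1 := (S.D S.E).add_mem (S.D_mono (by omega : S.E ≤ S.E + 1) hyE) ((S.D _).neg_mem hu₀)
    rw [sub_add_cancel] at h1
    exact h1
  have hy1 : 1 - y ≠ 0 := S.one_sub_ne (S.D_mono (by omega) hyD)
  have key : (z' - a) * (z - b) = (z - a) * (z' - b) * (1 - y) := by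
    rw [hy]
    field_simp
    ring
  have hcl := congrArg S.cl key
  rw [S.cl_mul _ _ hz'a.1 h.ne, S.cl_mul _ _ hden hy1, S.cl_mul _ _ hza hz', hx' a ha hab,
    hx' b h.bA (bb_mem _), S.lam_spec hyD, hlamy] at hcl
  have h1 : (-1 : ZMod p) • S.η = (0 : ZMod p) • S.η := by
    have e : (-1 : ZMod p) • S.η = (S.cl (z - a) + (S.cl (z - b) + (k - k') • S.η) +
      (-1 : ZMod p) • S.η) - (S.cl (z - a) + (k - k') • S.η + S.cl (z - b)) := by abel
    rw [e, ← hcl, sub_self, zero_smul]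
  have h2 := S.smul_eta_inj h1
  have : Fact (1 < p) := ⟨S.prime.one_lt⟩
  exact one_ne_zero (neg_eq_zero.1 h2)

end Nt

end WNT
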