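import Pool.Agent.WNT.DirB

/-!
# WNT / Main: the combinatorial theorem

`TT = (E + 2) * #V`.

PROOF of `chain`.  Induction on `i` with `dirD`: representations `Rep (b i) (ν + i) (z i)`, `z (i + 1) - z i ∈ D (ν + i + 2)`.  The statement: for every `i` there are two consecutive ones.

PROOF of `fin` (`Rep b ν z`, `Rep b' (ν + 1) z'`, `z' - z ∈ D (ν + 2)`).  Let `a ∈ A`, `z' - a ≠ 0`, `v (z' - a) ≤ ν - E - 1`, `g = cl (z' - a) - f a`.  For every `x ∈ A` with `x - z' ∈ D ν`: `x ≠ a`, `cl (x - a) = cl (z' - a)` (`cl_congr`), so `rel' x a` gives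
`h (f x - f a) g = 0`.  This applies to all `x ∈ A`, `x - b ∈ D (ν + 1)` (`z' - b = (z' - z) + (z - b)`), and to `x = b'`.  So `h (f x - f b) g = 0`; for `u ∈ D 1` choose `x` by `near` (`z` in place of `c`, `k = 1`): `f x - f b = cl (1 - u)` (`rep_sub`, `cl_congr`).  So
`h g (cl (1 - u)) = 0` for all `u ∈ D 1` (antisymmetry), `du` (`i = 1`) and `W_E`: `g = c • η`.  `val (f b) = v (z - b) = ν` (`f b = cl (z - b) + k • η`), `val (f b') = ν + 1`; `0 = h (f b' - f b) g = - c * val (f b' - f b) = - c`.  So `g = 0`.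

PROOF of `main` (`N ≥ R + 2 TT + 2 E + 5`).  Case 1: `f` is constant `= γ` on `A ∩ D 0` (`Cst 0 0`).  `γ = cl x`, `x ≠ 0` (`cl_surj`); `z = x * pi ^ (- p k)` with `k` large: `cl z = γ` (`p • _ = 0`), `v z ≤ - E - 1`; for `a ∈ D 0`: `cl (z - a) = cl z` (`cl_congr`), `z ≠ a`.
Case 2: otherwise `exists_gd` (`c = 0`, `n = 0`, `l = 0`) gives `Gd b m`, `0 < m ≤ TT`, `rep_of_gd`: `Rep b ν z`, `ν = m - 1 - E`, `- E ≤ ν ≤ TT - 1 - E`.  `i = max 0 (R + E + 1 - ν)` (as a natural number).  `chain` for `i` (`ν + i + 2 + TT ≤ N - E - 1`: if `i = 0`: `ν + 2 + TT ≤ 2 TT + 1 - E`; otherwise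
`ν + i = R + E + 1`: `R + E + 3 + TT ≤ N - E - 1`).  `fin`: all `a ∈ A` with `v (z' - a) ≤ ν + i - E - 1`, in particular those with `v (z' - a) ≤ R` (`ν + i ≥ R + E + 1`).
-/

set_option autoImplicit false

namespace WNT

universe u w

private theorem cl_pow_h75 {F : Type u} {V : Type w} [Field F] [AddCommGroup V] {p : ℕ}
    [Module (ZMod p) V] (S : SS F V p) {x : F} (hx : x ≠ 0) (n : ℕ) : S.cl (x ^ n) = n • S.cl x := by
  induction n with
  | zero => rw [pow_zero, S.cl_one, zero_smul]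
  | succ n ih => rw [pow_succ, S.cl_mul _ _ (pow_ne_zero _ hx) hx, ih, succ_nsmul]

private theorem val_rep_h75 {F : Type u} {V : Type w} [Field F] [AddCommGroup V] {p : ℕ}
    [Module (ZMod p) V] {S : SS F V p} {T : Nt S} {b z : F} {ν : ℤ} (h : T.Rep b ν z) :
    S.val (T.f b) = (ν : ZMod p) := by
  obtain ⟨k, hk⟩ := h.rep
  have h1 := hk b h.bA (by rw [sub_self]; exact (S.D _).zero_mem)
  rw [h1, map_add, map_smul, S.val_eta, smul_zero, add_zero, S.val_cl _ h.ne, h.vz]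

namespace Nt

variable {F : Type u} {V : Type w} [Field F] [AddCommGroup V] {p : ℕ} [Module (ZMod p) V]
  {S : SS F V p} {T : Nt S}

theorem chain {b z : F} {ν : ℤ} (h : T.Rep b ν z) (hlo : -S.E ≤ ν) (i : ℕ)
    (hN : ν + i + 2 + (S.E + 2) * Nat.card V ≤ T.N - S.E - 1) :
    ∃ b₁ z₁ b₂ z₂, T.Rep b₁ (ν + i) z₁ ∧ T.Rep b₂ (ν + i + 1) z₂ ∧ z₂ - z₁ ∈ S.D (ν + i + 2) := by
  induction i with
  | zero =>
    push_cast at hN ⊢
    rw [add_zero] at hN ⊢
    obtain ⟨b', z', h1, h2⟩ := dirD h hlo hN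
    exact ⟨b, z, b', z', h, h1, h2⟩
  | succ i ih =>
    push_cast at hN ⊢
    obtain ⟨b₁, z₁, b₂, z₂, h1, h2, h3⟩ := ih (by linarith)
    obtain ⟨b', z', h4, h5⟩ := dirD h2 (by omega) (by linarith)
    have e1 : ν + ((i : ℤ) + 1) = ν + i + 1 := by ring
    have e2 : ν + (i : ℤ) + 1 + 1 = ν + i + 1 + 1 := rfl
    rw [e1]
    exact ⟨b₂, z₂, b', z', h2, h4, h5⟩

theorem fin {b z b' z' : F} {ν : ℤ} (h : T.Rep b ν z) (h' : T.Rep b' (ν + 1) z')
    (hz : z' - z ∈ S.D (ν + 2)) (hlo : -S.E ≤ ν) (hN : ν + S.E + 1 ≤ T.N) {a : F} (ha : a ∈ T.A)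
    (haz : z' - a ∉ S.D (ν - S.E)) : T.f a = S.cl (z' - a) := by
  have hE := S.E_pos
  obtain ⟨g, hg⟩ : ∃ g : V, g = S.cl (z' - a) - T.f a := ⟨_, rfl⟩
  have hza : z' - a ≠ 0 := S.ne_of_not_mem haz
  have hva : S.v (z' - a) < ν - S.E := S.v_lt_of_not_mem haz
  have key : ∀ x ∈ T.A, x - z' ∈ S.D ν → S.h (T.f x - T.f a) g = 0 := by
    intro x hx hxz
    have h1 := S.cl_congr (x := z' - a) (y := x - a) hza (by
      have e : x - a - (z' - a) = x - z' := by ring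
      rw [e]
      exact S.D_mono (by omega) hxz)
    have h2 := T.rel' hx ha (sub_ne_zero.1 h1.1)
    rw [h1.2.2, ← hg] at h2
    exact h2
  have hzb : z - b ∈ S.D ν := Or.inr (le_of_eq h.vz.symm)
  have key2 : ∀ x ∈ T.A, x - b ∈ S.D (ν + 1) → S.h (T.f x - T.f a) g = 0 := by
    intro x hx hxb
    refine key x hx ?_
    have e : x - z' = (x - b) - (z - b) - (z' - z) := by ring
    rw [e]
    exact (S.D ν).sub_mem ((S.D ν).sub_mem (S.D_mono (by omega) hxb) hzb) (S.D_mono (by omega) hz)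
  have hb0 := key2 b h.bA (by rw [sub_self]; exact (S.D _).zero_mem)
  have hb1 := key b' h'.bA (by
    have h1 : z' - b' ∈ S.D ν := Or.inr (by rw [h'.vz]; omega)
    have e : b' - z' = -(z' - b') := by ring
    rw [e]
    exact (S.D ν).neg_mem h1)
  have hdiff : ∀ x : F, S.h (T.f x - T.f a) g = 0 → S.h (T.f x - T.f b) g = 0 := by
    intro x hx
    have e : T.f x - T.f b = (T.f x - T.f a) - (T.f b - T.f a) := by abel
    rw [e, LinearMap.map_sub₂, hx, hb0, sub_zero]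
  have hu : ∀ u ∈ S.D 1, S.h g (S.cl (1 - u)) = 0 := by
    intro u hu
    obtain ⟨x, hx, hx1, hx2⟩ := near (T := T) (b := b) (c := z) (t := u) (k := 1) h.bD h.ne hu
      (by rw [h.vz]; omega) (by rw [h.vz]; omega)
    have hxb : x - b ∈ S.D (ν + 1) := by
      have e : x - b = (x - (b + u * (z - b))) + u * (z - b) := by ring
      rw [e]
      exact (S.D _).add_mem (S.D_mono (by omega) hx1) (S.D_mul' hu hzb (by omega))
    obtain ⟨-, -, h3⟩ := rep_sub h hx h.bA hxb (by rw [sub_self]; exact (S.D _).zero_mem)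
    obtain ⟨h4, h5⟩ := S.v_one_sub hu
    have h6 := S.cl_congr (x := 1 - u) (y := 1 - (x - b) / (z - b)) h4 (by
      rw [h5, zero_add]
      have e : 1 - (x - b) / (z - b) - (1 - u) = -((x - b) / (z - b) - u) := by ring
      rw [e]
      exact (S.D _).neg_mem hx2)
    have h7 := hdiff x (key2 x hx hxb)
    rw [h3, add_sub_cancel_left, h6.2.2] at h7
    rw [S.anti, h7, neg_zero]
  have hgW := S.du (i := 1) le_rfl (by omega) hu
  rw [add_sub_cancel_right] at hgW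
  obtain ⟨c, hc⟩ := S.W_E hgW
  have h8 := hdiff b' hb1
  rw [hc, map_smul, S.h_eta_right, map_sub, val_rep_h75 h, val_rep_h75 h', smul_eq_mul] at h8
  have hc0 : c = 0 := by
    push_cast at h8
    linear_combination -h8
  rw [hc0, zero_smul, hg] at hc
  exact (sub_eq_zero.1 hc).symm

/-- the combinatorial theorem -/
theorem main (R : ℤ) (hR : 0 ≤ R)
    (hN : R + 2 * ((S.E + 2) * Nat.card V) + 2 * S.E + 5 ≤ T.N) :
    ∃ z : F, ∀ a ∈ T.A, a ∈ S.D 0 → z - a ∉ S.D (R + 1) → T.f a = S.cl (z - a) := by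
  have hE := S.E_pos
  have hTT : 0 ≤ (S.E + 2) * (Nat.card V : ℤ) := mul_nonneg (by omega) (by positivity)
  by_cases hc : T.Cst 0 0
  · obtain ⟨a0, ha0, ha1⟩ := T.net 0 (S.D _).zero_mem
    obtain ⟨x, hx0, hx⟩ := S.cl_surj (T.f a0)
    set k : ℕ := (S.v x).natAbs + S.E.natAbs + 1 with hk
    have hy0 : (S.pi ^ k) ^ p ≠ 0 := pow_ne_zero _ (pow_ne_zero _ S.pi_ne)
    have hcl : S.cl (x / (S.pi ^ k) ^ p) = T.f a0 := by
      rw [S.cl_div _ _ hx0 hy0, cl_pow_h75 S (pow_ne_zero _ S.pi_ne), SS.p_smul, sub_zero, hx]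
    have hv : S.v (x / (S.pi ^ k) ^ p) ≤ -S.E - 1 := by
      rw [S.v_div _ _ hx0 hy0, S.v_pow _ (pow_ne_zero _ S.pi_ne), S.v_pow _ S.pi_ne, S.v_pi, mul_one]
      have hp1 : (1 : ℤ) ≤ p := by exact_mod_cast S.prime.one_lt.le
      have h1 : (k : ℤ) ≤ p * k := by nlinarith [(Nat.cast_nonneg k : (0 : ℤ) ≤ k)]
      have h2 : (k : ℤ) = |S.v x| + |S.E| + 1 := by
        rw [hk]
        push_cast
        rfl
      have h3 := le_abs_self (S.v x)
      have h4 := le_abs_self S.E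
      omega
    have hz0 : x / (S.pi ^ k) ^ p ≠ 0 := div_ne_zero hx0 hy0
    refine ⟨x / (S.pi ^ k) ^ p, fun a ha haD _ => ?_⟩
    have h1 := S.cl_congr (x := x / (S.pi ^ k) ^ p) (y := x / (S.pi ^ k) ^ p - a) hz0 (by
      rw [sub_sub_cancel_left]
      exact (S.D _).neg_mem (S.D_mono (by omega) haD))
    rw [h1.2.2, hcl]
    refine hc a ha a0 ha0 (by rw [sub_zero]; exact haD) ?_
    exact S.D_mono (by nlinarith) ha1
  · obtain ⟨b, m, hG, -, hm0, hm1⟩ := exists_gd (T := T) (c := 0) (n := 0) (l := 0)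
      (S.D _).zero_mem (by omega) (by linarith) (by omega) le_rfl hc
    obtain ⟨z, hz⟩ := rep_of_gd hG
    set ν : ℤ := m - 1 - S.E with hν
    set i : ℕ := (R + S.E + 1 - ν).toNat with hi
    have hi1 : ν + (i : ℤ) = max ν (R + S.E + 1) := by omega
    have hbd : ν + (i : ℤ) + 2 + (S.E + 2) * Nat.card V ≤ T.N - S.E - 1 := by
      rcases le_total ν (R + S.E + 1) with h1 | h1
      · rw [hi1, max_eq_right h1]
        linarith
      · rw [hi1, max_eq_left h1]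
        linarith
    obtain ⟨b₁, z₁, b₂, z₂, h1, h2, h3⟩ := chain hz (by omega) i hbd
    refine ⟨z₂, fun a ha _ haz => fin h1 h2 h3 (by omega) (by linarith) ha fun h4 => haz ?_⟩
    exact S.D_mono (by omega) h4

end Nt

end WNT
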