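import Pool.Agent.WNT.Ex
import Pool.Agent.WNT.Main

/-!
# WNT / Exa: the exact combinatorial theorem for a subset
-/

set_option autoImplicit false

namespace WNT

universe u w

namespace Nt

variable {F : Type u} {V : Type w} [Field F] [AddCommGroup V] {p : ℕ} [Module (ZMod p) V]
  {S : SS F V p} {T : Nt S}

theorem rels (T : Nt S) {B : Set F} (hB : B ⊆ T.A) : Rels S B T.f :=
  fun a ha b hb hab => T.rel a (hB ha) b (hB hb) hab

/-- the exact theorem for the elements of a subset of `A ∩ D 0` which are different modulo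
`D (R + 1)` -/
theorem exact1 (T : Nt S) (R : ℤ) (hR : 0 ≤ R)
    (hN : R + 2 * ((S.E + 2) * Nat.card V) + 3 * S.E + 5 ≤ T.N) {A₀ : Set F} (hA : A₀ ⊆ T.A)
    (h0 : ∀ a ∈ A₀, a ∈ S.D 0) (hs : ∀ a ∈ A₀, ∀ b ∈ A₀, a - b ∈ S.D (R + 1) → a = b) :
    ∃ z : F, ∀ a ∈ A₀, z ≠ a → T.f a = S.cl (z - a) := by
  have hE := S.E_pos
  have hTT : 0 ≤ (S.E + 2) * (Nat.card V : ℤ) := mul_nonneg (by omega) (by positivity)
  obtain ⟨z, hz⟩ := T.main (R + S.E) (by omega) (by linarith)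
  by_cases hcl : ∃ b ∈ A₀, z - b ∈ S.D (R + S.E + 1)
  swap
  · push Not at hcl
    exact ⟨z, fun a ha _ => hz a (hA ha) (h0 a ha) (hcl a ha)⟩
  obtain ⟨b, hb, hzb⟩ := hcl
  obtain ⟨B, hB⟩ : ∃ B : Set F, B = {a | a ∈ T.A ∧ a ∈ S.D 0} := ⟨_, rfl⟩
  have hBA : B ⊆ T.A := by
    rw [hB]
    exact fun a ha => ha.1
  have hbB : b ∈ B := by
    rw [hB]
    exact ⟨hA hb, h0 b hb⟩
  have hk : Kn S B T.f z (R + S.E) := by
    intro a ha hza
    rw [hB] at ha
    exact hz a ha.1 ha.2 hza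
  have hf : Fu S B b (R + S.E + 1 - S.E) (R + S.E) := by
    intro c hc h1 h2
    have h3 : b + c ∈ S.D 0 := (S.D 0).add_mem (h0 b hb) (Or.inr (by omega))
    obtain ⟨a, ha, hac⟩ := T.net (b + c) (S.D_mono (by omega) h3)
    have h4 : a - (b + c) ∈ S.D (S.v c + 1) := S.D_mono (by linarith) hac
    refine ⟨a, ?_, h4⟩
    rw [hB]
    refine ⟨ha, ?_⟩
    have h5 := (S.D 0).add_mem (S.D_mono (by omega) h4) h3
    rwa [sub_add_cancel] at h5
  obtain ⟨z', h1, h2⟩ := last (T.rels hBA) hbB hzb hk hf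
  refine ⟨z', fun a ha hza => ?_⟩
  by_cases hab : a = b
  · rw [hab]
    rw [hab] at hza
    exact h2 hza
  have h3 : z - a ∉ S.D (R + S.E + 1) := by
    intro h4
    apply hab
    apply hs a ha b hb
    have h5 := (S.D (R + S.E + 1)).sub_mem hzb h4
    rw [sub_sub_sub_cancel_left] at h5
    exact S.D_mono (by omega) h5
  have haB : a ∈ B := by
    rw [hB]
    exact ⟨hA ha, h0 a ha⟩
  have h4 := hk.congr h1
  apply h4 a haB
  intro h5
  apply h3
  have h6 := (S.D (R + S.E + 1)).sub_mem h5 (S.D_mono (by omega) h1)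
  have e : z' - a - (z' - z) = z - a := by ring
  rwa [e] at h6

end Nt

end WNT
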