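import Pool.Agent.WNT.Thm
import Pool.Agent.WNT.Exa

/-!
# WNT / Core1: the exact theorem for a subset of a net, all primes, from the relations
-/

set_option autoImplicit false

namespace WNT

open Pool.Agent.Helper36 IsLocalRing

universe u w

/-- two points of a net whose difference has a given class -/
theorem exists_diff {F : Type u} {V : Type w} [Field F] [AddCommGroup V] {p : ℕ}
    [Module (ZMod p) V] (S : SS F V p) {A : Set F} {a₀ : F} (ha : a₀ ∈ S.D 0)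
    {N : ℤ} (hN : 2 * S.E + 1 ≤ N) (hA : ∀ c ∈ S.D 0, ∃ a ∈ A, a - c ∈ S.D N) (w : V) :
    ∃ b ∈ A, b ≠ a₀ ∧ S.cl (b - a₀) = w := by
  have hE := S.E_pos
  obtain ⟨y, hy, hyw⟩ := S.cl_surj w
  have hp0 : (0 : ℤ) < p := by exact_mod_cast S.prime.pos
  have hpE : (p : ℤ) ≤ S.E := Int.le_of_dvd hE S.E_dvd
  obtain ⟨n, hn⟩ : ∃ n, n = S.v y / p := ⟨_, rfl⟩
  have hd : (S.pi ^ (-n)) ^ p ≠ 0 := pow_ne_zero _ (S.pi_zpow_ne _)
  obtain ⟨t, ht⟩ : ∃ t, t = y * (S.pi ^ (-n)) ^ p := ⟨_, rfl⟩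
  have ht0 : t ≠ 0 := by rw [ht]; exact mul_ne_zero hy hd
  have hvt : S.v t = S.v y % p := by
    rw [ht, S.v_mul _ _ hy hd, S.v_pow _ (S.pi_zpow_ne _), S.v_pi_zpow, hn]
    have := Int.mul_ediv_add_emod (S.v y) p
    linarith [mul_comm (p : ℤ) (S.v y / p)]
  have h1 := Int.emod_nonneg (S.v y) hp0.ne'
  have h2 := Int.emod_lt_of_pos (S.v y) hp0
  have hclt : S.cl t = w := by
    have h3 : ∀ (x : F), x ≠ 0 → ∀ m : ℕ, S.cl (x ^ m) = m • S.cl x := by
      intro x hx m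
      induction m with
      | zero => rw [pow_zero, S.cl_one, zero_smul]
      | succ m ih => rw [pow_succ, S.cl_mul _ _ (pow_ne_zero _ hx) hx, ih, succ_nsmul]
    rw [ht, S.cl_mul _ _ hy hd, h3 _ (S.pi_zpow_ne _), SS.p_smul, add_zero, hyw]
  obtain ⟨b, hb, hbt⟩ := hA (a₀ + t) ((S.D 0).add_mem ha (Or.inr (by omega)))
  have h4 := S.cl_congr (x := t) (y := b - a₀) ht0 (by
    have e : b - a₀ - t = b - (a₀ + t) := by ring
    rw [e]
    exact S.D_mono (by omega) hbt)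
  exact ⟨b, hb, sub_ne_zero.1 h4.1, by rw [h4.2.2, hclt]⟩

/-- a point which is different from all elements of a discrete set -/
theorem fix_z {F : Type u} {V : Type w} [Field F] [AddCommGroup V] {p : ℕ} [Module (ZMod p) V]
    (S : SS F V p) {A : Set F} {f : F → V} {z : F} {B : ℤ}
    (hB : ∀ a ∈ A, ∀ b ∈ A, a ≠ b → a - b ∉ S.D B) (hz : ∀ a ∈ A, z ≠ a → f a = S.cl (z - a)) :
    ∃ z', ∀ a ∈ A, z' ≠ a ∧ f a = S.cl (z' - a) := by
  by_cases hzA : z ∈ A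
  swap
  · refine ⟨z, fun a ha => ?_⟩
    have h1 : z ≠ a := fun h => hzA (h ▸ ha)
    exact ⟨h1, hz a ha h1⟩
  obtain ⟨y, hy, hyf⟩ := S.cl_surj (f z)
  have hp0 : (0 : ℤ) < p := by exact_mod_cast S.prime.pos
  obtain ⟨n, hn⟩ : ∃ n : ℤ, n = |B| + S.E + 1 + |S.v y| := ⟨_, rfl⟩
  have hE := S.E_pos
  have hq := S.pi_zpow_ne n
  have hd : (S.pi ^ n) ^ p ≠ 0 := pow_ne_zero _ hq
  obtain ⟨t, ht⟩ : ∃ t, t = y * (S.pi ^ n) ^ p := ⟨_, rfl⟩
  have ht0 : t ≠ 0 := by rw [ht]; exact mul_ne_zero hy hd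
  have hvt : S.v t = S.v y + p * n := by
    rw [ht, S.v_mul _ _ hy hd, S.v_pow _ hq, S.v_pi_zpow]
  have hpow : ∀ (x : F), x ≠ 0 → ∀ m : ℕ, S.cl (x ^ m) = m • S.cl x := by
    intro x hx m
    induction m with
    | zero => rw [pow_zero, S.cl_one, zero_smul]
    | succ m ih => rw [pow_succ, S.cl_mul _ _ (pow_ne_zero _ hx) hx, ih, succ_nsmul]
  have hclt : S.cl t = f z := by
    rw [ht, S.cl_mul _ _ hy hd, hpow _ hq, SS.p_smul, add_zero, hyf]
  have hvt2 : B + S.E ≤ S.v t := by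
    rw [hvt]
    have h1 := neg_abs_le (S.v y)
    have h2 := le_abs_self B
    have h3 := abs_nonneg B
    have h4 := abs_nonneg (S.v y)
    have h5 : n ≤ p * n := by nlinarith
    linarith
  refine ⟨z + t, fun a ha => ?_⟩
  by_cases hza : z = a
  · subst hza
    constructor
    · intro h
      apply ht0
      exact add_eq_left.1 h
    · rw [add_sub_cancel_left, hclt]
  have h1 := hB z hzA a ha hza
  have h2 := S.v_lt_of_not_mem h1
  have h3 := S.cl_congr (x := z - a) (y := z + t - a) (sub_ne_zero.2 hza) (by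
    have e1 : z + t - a - (z - a) = t := by ring
    rw [e1]
    exact Or.inr (by omega))
  exact ⟨sub_ne_zero.1 h3.1, by rw [h3.2.2, hz a ha hza]⟩

/-- wild nets, from the relations -/
theorem core1 {O : Type*} {F : Type u} {k : Type*} [CommRing O] [IsDomain O]
    [IsDiscreteValuationRing O] [HenselianLocalRing O] [Finite (ResidueField O)] [Field F]
    [CharZero F] [Algebra O F] [IsFractionRing O F] [Field k] [Algebra k F]
    {p : ℕ} (hp : p.Prime) (hpO : (p : O) ∈ maximalIdeal O) {ζ : k}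
    (hζ : IsPrimitiveRoot ζ p) {ϖ : O} (hϖ : Irreducible ϖ) {e E : ℕ}
    (he : Associated (p : O) (ϖ ^ e)) (hE : E * (p - 1) = p * e) (R : ℕ) (A : Set k)
    (hA : ∀ c : F, (∃ r : O, algebraMap O F (ϖ ^ (2 * E)) * c = algebraMap O F r) →
      ∃ a ∈ A, ∃ r : O, algebraMap k F a - c = algebraMap O F
        (ϖ ^ (R + 2 * ((E + 2) * (powMonoidHom p : Fˣ →* Fˣ).range.index) + 3 * E + 5) * r))
    (A₀ : Set k) (hA₀ : A₀ ⊆ A) (h0 : ∀ a ∈ A₀, ∃ r : O, algebraMap k F a = algebraMap O F r)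
    (hs : ∀ a ∈ A₀, ∀ b ∈ A₀, a ≠ b →
      ¬ ∃ r : O, algebraMap k F a - algebraMap k F b = algebraMap O F (ϖ ^ (R + 1) * r))
    (δ : k → k) (hδ : ∀ a ∈ A, δ a ≠ 0)
    (H : ∀ a₀ ∈ A, ∀ b₀ ∈ A, a₀ ≠ b₀ → ∀ c : F, c ^ p = algebraMap k F (δ a₀ / (b₀ - a₀)) →
      ∀ a ∈ A, ∀ b ∈ A, a ≠ b → NR p (algebraMap k F ζ) (algebraMap k F (δ a / (b - a)))
        (algebraMap k F (δ b / (a - b)))) :
    ∃ z : F, ∀ a ∈ A₀, ∃ w : F, w ≠ 0 ∧
      z - algebraMap k F a = algebraMap k F (δ a) * w ^ p := by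
  classical
  have hk0 : CharZero k := (algebraMap k F).charZero
  have hinj : Function.Injective (algebraMap k F) := (algebraMap k F).injective
  have hζF : IsPrimitiveRoot (algebraMap k F ζ) p := hζ.map_of_injective hinj
  obtain ⟨ζ', hζ'1, hζ'2⟩ := exists_int_root (O := O) hp.pos hζF
  obtain ⟨L, hLϖ, hLζ⟩ := exists_LO (F := F) hp hpO hϖ hζ'2
  subst hLϖ
  obtain ⟨V, i1, i2, S, hSv, hSE, hScl, hSh, hSV⟩ := L.exists_SS
  have hLE : L.E = (E : ℤ) := L.E_eq he hE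
  have hSE' : S.E = (E : ℤ) := hSE.trans hLE
  have hD : ∀ (n : ℕ) (x : F), x ∈ S.D n ↔ ∃ r : O, x = algebraMap O F (L.ϖ ^ n * r) := by
    intro n x
    rw [← L.mem_zpow, SS.mem_D, hSv]
  -- the function
  set f : F → V := fun b => if h : ∃ a ∈ A, algebraMap k F a = b then
    S.cl (algebraMap k F (δ h.choose)) else 0 with hf
  have hfa : ∀ a ∈ A, f (algebraMap k F a) = S.cl (algebraMap k F (δ a)) := by
    intro a ha
    have h : ∃ a' ∈ A, algebraMap k F a' = algebraMap k F a := ⟨a, ha, rfl⟩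
    have h1 : h.choose = a := hinj h.choose_spec.2
    simp only [hf]
    rw [dif_pos h, h1]
  have hδF : ∀ a ∈ A, algebraMap k F (δ a) ≠ 0 := fun a ha h0 =>
    hδ a ha (hinj (h0.trans (map_zero _).symm))
  obtain ⟨M, hM⟩ : ∃ M : ℕ,
    M = R + 2 * ((E + 2) * (powMonoidHom p : Fˣ →* Fˣ).range.index) + 3 * E + 5 := ⟨_, rfl⟩
  rw [← hM] at hA
  have hnet : ∀ c ∈ S.D (-(2 * S.E)), ∃ a ∈ algebraMap k F '' A, a - c ∈ S.D (M : ℤ) := by
    intro c hc
    obtain ⟨a, ha, r, hr⟩ := hA c (by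
      have h1 : algebraMap O F (L.ϖ ^ (2 * E)) ≠ 0 :=
        LO.map_ne (pow_ne_zero _ L.irr.ne_zero)
      have h2 := (L.int (algebraMap O F (L.ϖ ^ (2 * E)) * c)).1 (by
        by_cases hc0 : c = 0
        · left
          rw [hc0, mul_zero]
        · right
          have h3 := S.le_v hc hc0
          rw [hSv, hSE'] at h3
          rw [L.v_mul _ _ h1 hc0, map_pow, L.v_pow _ (LO.map_ne L.irr.ne_zero), L.v_pi]
          push_cast
          omega)
      obtain ⟨r, hr⟩ := h2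
      exact ⟨r, hr.symm⟩)
    exact ⟨algebraMap k F a, ⟨a, ha, rfl⟩, (hD _ _).2 ⟨r, hr⟩⟩
  have hEpos := S.E_pos
  have hMN : 2 * S.E + 1 ≤ (M : ℤ) := by
    rw [hM, hSE']
    push_cast
    have : (0 : ℤ) ≤ ((E : ℤ) + 2) * ((powMonoidHom p : Fˣ →* Fˣ).range.index : ℤ) := by positivity
    omega
  -- a pair with a trivial relation
  obtain ⟨_, ⟨a₀, ha₀, rfl⟩, ha₀'⟩ := hnet 0 (S.D _).zero_mem
  rw [sub_zero] at ha₀'
  obtain ⟨_, ⟨b₀, hb₀, rfl⟩, hab₀, hcl₀⟩ := exists_diff S (S.D_mono (by omega) ha₀') hMN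
    (fun c hc => hnet c (S.D_mono (by omega) hc)) (S.cl (algebraMap k F (δ a₀)))
  have hab₀' : a₀ ≠ b₀ := fun h => hab₀ (by rw [h])
  obtain ⟨t, ht, htp⟩ := hScl _ _ (sub_ne_zero.2 hab₀) (hδF a₀ ha₀) hcl₀
  obtain ⟨c₀, hc₀⟩ : ∃ c₀, c₀ = t⁻¹ := ⟨_, rfl⟩
  have hc : c₀ ^ p = algebraMap k F (δ a₀ / (b₀ - a₀)) := by
    rw [hc₀]
    rw [map_div₀, map_sub, htp, inv_pow]
    have h1 := hδF a₀ ha₀
    field_simp
  let T : Nt S :=
    { A := algebraMap k F '' A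
      f := f
      N := M
      net := hnet
      rel := by
        rintro _ ⟨a, ha, rfl⟩ _ ⟨b, hb, rfl⟩ hab
        have hab' : a ≠ b := fun h => hab (by rw [h])
        have h3 := H a₀ ha₀ b₀ hb₀ hab₀' c₀ hc a ha b hb hab'
        rw [← hζ'1, ← hLζ] at h3
        have hba0 : algebraMap k F (b - a) ≠ 0 := fun h0 =>
          hab' ((sub_eq_zero.1 (hinj (h0.trans (map_zero _).symm))).symm)
        have hab0 : algebraMap k F (a - b) ≠ 0 := fun h0 =>
          hab' (sub_eq_zero.1 (hinj (h0.trans (map_zero _).symm)))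
        have h4 := hSh _ _ (by rw [map_div₀]; exact div_ne_zero (hδF a ha) hba0)
          (by rw [map_div₀]; exact div_ne_zero (hδF b hb) hab0) h3
        have e1 : algebraMap k F (b - a) = algebraMap k F b - algebraMap k F a := map_sub _ _ _
        have e2 : algebraMap k F (a - b) = algebraMap k F a - algebraMap k F b := map_sub _ _ _
        rw [map_div₀, map_div₀, S.cl_div _ _ (hδF a ha) hba0, S.cl_div _ _ (hδF b hb) hab0,
          e1, e2] at h4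
        rw [hfa a ha, hfa b hb]
        exact h4 }
  obtain ⟨z, hz⟩ := T.exact1 (R : ℤ) (by omega) (by
    show _ ≤ (M : ℤ)
    rw [hSE', hSV, hM]
    push_cast
    omega) (A₀ := algebraMap k F '' A₀) (Set.image_mono hA₀) (by
      rintro _ ⟨a, ha, rfl⟩
      obtain ⟨r, hr⟩ := h0 a ha
      have := (hD 0 (algebraMap k F a)).2 ⟨r, by rw [pow_zero, one_mul, hr]⟩
      exact_mod_cast this) (by
      rintro _ ⟨a, ha, rfl⟩ _ ⟨b, hb, rfl⟩ hab
      by_contra hne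
      apply hs a ha b hb (fun h => hne (by rw [h]))
      exact (hD (R + 1) _).1 (by exact_mod_cast hab))
  obtain ⟨z', hz'⟩ := fix_z S (A := algebraMap k F '' A₀) (f := f) (z := z) (B := R + 1) (by
      rintro _ ⟨a, ha, rfl⟩ _ ⟨b, hb, rfl⟩ hab h
      apply hs a ha b hb (fun h => hab (by rw [h]))
      exact (hD (R + 1) _).1 (by exact_mod_cast h)) hz
  refine ⟨z', fun a ha => ?_⟩
  obtain ⟨hza, h6⟩ := hz' _ ⟨a, ha, rfl⟩
  rw [hfa a (hA₀ ha)] at h6
  obtain ⟨w, hw0, hw⟩ := hScl _ _ (sub_ne_zero.2 hza) (hδF a (hA₀ ha)) h6.symm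
  exact ⟨w, hw0, hw⟩

end WNT
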