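import Pool.Agent.WNT.Pn

/-!
# WNT / Epn: a finite set is contained in a finite projective net

PROOF.  Step 1: there is `N ≥ max N₀ 1` such that for all `a ≠ b` in `A₀`: `φ a - φ b ∉ D N`, and if `φ a ≠ 0`, `φ b ≠ 0` also `(φ a)⁻¹ - (φ b)⁻¹ ∉ D N`; and for all `a ∈ A₀` with `φ a ≠ 0`: `(φ a)⁻¹ ∉ D N` (finitely many conditions `t ∉ D N` with `t ≠ 0`; `N > v t`).
Step 2: `rep y` := a representative of the class of `y` in `F ⧸ D N` (`Quotient.out`): `rep y - y ∈ D N`, `rep y = rep y'` if and only if `y - y' ∈ D N`.  The set `P` of all `rep y`, `y ∈ D 0`, is finite (`hfin`).  Choose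
* for `ρ ∈ P`: `b₀ ρ` := an element `a ∈ A₀` with `φ a - ρ ∈ D N` if there is one, otherwise any `a : k` with `φ a - ρ ∈ D N` (`hd`); `b₁ ρ` : `k` with `φ (b₁ ρ) - (φ (b₀ ρ) + π ^ N) ∈ D (N + 1)`;
* for `ρ ∈ P`, `ρ ∈ D 1`, `ρ ∉ D N`, `j = v ρ`, `1 ≤ j < N`: `c₀ ρ` := an element `a ∈ A₀` with `φ a ≠ 0`, `(φ a)⁻¹ - ρ ∈ D N` if there is one, otherwise any `a : k` with `φ a - ρ⁻¹ ∈ D N` (then `(φ a)⁻¹ - ρ = (ρ⁻¹ - φ a) / (φ a ρ⁻¹) ∈ D (N + 2 j)`); `c₁ ρ` : `k` with `φ (c₁ ρ) - t⁻¹ ∈ D (N + 1)`, `t = (φ (c₀ ρ))⁻¹ + π ^ N`, `v t = j`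
  (then `(φ (c₁ ρ))⁻¹ - t ∈ D (N + 1)`);
* `d : k` with `φ d - π ^ (- N) ∈ D 1` (then `(φ d)⁻¹ - π ^ N ∈ D (N + 1)`, `v (φ d) = - N`).
`A` := all of them.  `v (φ (c₀ ρ)) = v (φ (c₁ ρ)) = - v ρ < 0`, `φ (b₀ ρ), φ (b₁ ρ) ∈ D 0`.
* `zero`: `y ∈ D 0`, `ρ = rep y`: `b₀ ρ`, `b₁ ρ`.  If `a ∈ A`, `φ a - y ∈ D N` then `φ a ∈ D 0`, so `a = b₀ ρ'` or `b₁ ρ'`, `ρ' - y ∈ D N`, `ρ' = ρ`.
* `inf`: `y ∈ D 1`, `∉ D N`, `ρ = rep y`: `c₀ ρ`, `c₁ ρ`; uniqueness in the same way (`a` with `φ a ∈ D 0` have `(φ a)⁻¹ ∉ D 1`, and `(φ d)⁻¹ ∈ D N`).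
* `top`: `d`.
* `A₀ ⊆ A`: `φ a ∈ D 0`: `a = b₀ (rep (φ a))` (step 1); `φ a ∉ D 0`: `a = c₀ (rep ((φ a)⁻¹))` (`(φ a)⁻¹ ∈ D 1`, `∉ D N` by step 1).
-/

set_option autoImplicit false

namespace WNT

universe u w

section

variable {F : Type u} {V : Type w} [Field F] [AddCommGroup V] {p : ℕ} [Module (ZMod p) V]
  (S : SS F V p)

theorem epn_inv_not_D {x : F} (hx : x⁻¹ ∈ S.D 1) (hx0 : x ≠ 0) : x ∉ S.D 0 := by
  intro h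
  have h1 := S.le_v h hx0
  have h2 := S.le_v hx (inv_ne_zero hx0)
  rw [S.v_inv _ hx0] at h2
  omega

theorem epn_approx_inv {k : Type*} [Field k] (φ : k →+* F)
    (hd : ∀ (c : F) (n : ℤ), ∃ a : k, φ a - c ∈ S.D n) {t : F} (ht : t ≠ 0) (n : ℤ) :
    ∃ c : k, φ c ≠ 0 ∧ (φ c)⁻¹ - t ∈ S.D n := by
  have hti : t⁻¹ ≠ 0 := inv_ne_zero ht
  have hv := S.v_inv t ht
  obtain ⟨c, hc⟩ := hd t⁻¹ (max (n - 2 * S.v t) (- S.v t + 1))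
  have h1 : φ c - t⁻¹ ∈ S.D (S.v t⁻¹ + 1) := S.D_mono (by omega) hc
  have h2 := S.v_add_eq hti h1
  have e1 : t⁻¹ + (φ c - t⁻¹) = φ c := by ring
  rw [e1, hv] at h2
  refine ⟨c, h2.1, ?_⟩
  have e2 : (φ c)⁻¹ - t = -((φ c - t⁻¹) * t * (φ c)⁻¹) := by
    have := h2.1
    field_simp
    ring
  rw [e2]
  apply (S.D n).neg_mem
  have h3 : t ∈ S.D (S.v t) := Or.inr le_rfl
  have h4 : (φ c)⁻¹ ∈ S.D (S.v t) := by
    right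
    rw [S.v_inv _ h2.1, h2.2]
    omega
  exact S.D_mul' (S.D_mul hc h3) h4 (by omega)

theorem epn_exists_N (T : Finset F) (N₀ : ℤ) : ∃ N : ℤ, N₀ ≤ N ∧ 1 ≤ N ∧
    ∀ t ∈ T, t ∈ S.D N → t = 0 := by
  classical
  obtain ⟨M, hM⟩ := (T.image S.v).exists_le
  refine ⟨max (max N₀ 1) (M + 1), by omega, by omega, ?_⟩
  intro t ht h
  by_contra h0
  have h1 := S.le_v h h0
  have h2 := hM (S.v t) (Finset.mem_image_of_mem _ ht)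
  omega

/-- a representative modulo `D N` -/
noncomputable def epnRp (N : ℤ) (y : F) : F := Quotient.out (QuotientAddGroup.mk y : F ⧸ S.D N)

theorem epn_rp_mk (N : ℤ) (y : F) :
    (QuotientAddGroup.mk (epnRp S N y) : F ⧸ S.D N) = QuotientAddGroup.mk y := Quotient.out_eq _

theorem epn_rp_sub (N : ℤ) (y : F) : epnRp S N y - y ∈ S.D N := by
  have h := epn_rp_mk S N y
  rw [QuotientAddGroup.eq] at h
  have h1 := (S.D N).neg_mem h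
  have e : -(-epnRp S N y + y) = epnRp S N y - y := by ring
  rwa [e] at h1

theorem epn_rp_congr {N : ℤ} {y y' : F} (h : y - y' ∈ S.D N) : epnRp S N y = epnRp S N y' := by
  unfold epnRp
  congr 1
  rw [QuotientAddGroup.eq]
  have h1 := (S.D N).neg_mem h
  have e : -(y - y') = -y + y' := by ring
  rwa [e] at h1

theorem epn_rp_rp (N : ℤ) (y : F) : epnRp S N (epnRp S N y) = epnRp S N y := epn_rp_congr S (epn_rp_sub S N y)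

end

theorem exists_PN {F : Type u} {V : Type w} [Field F] [AddCommGroup V] {p : ℕ}
    [Module (ZMod p) V] (S : SS F V p) {k : Type*} [Field k] (φ : k →+* F)
    (hd : ∀ (c : F) (n : ℤ), ∃ a : k, φ a - c ∈ S.D n)
    (hfin : ∀ n : ℤ, ∃ Y : Finset F, ∀ y ∈ S.D 0, ∃ c ∈ Y, y - c ∈ S.D n)
    (A₀ : Finset k) (N₀ : ℤ) :
    ∃ N : ℤ, N₀ ≤ N ∧ ∃ A : Finset k, A₀ ⊆ A ∧ PN S (φ '' (A : Set k)) N := by
  classical
  have hφ : ∀ {x y : k}, φ x - φ y = 0 → x = y := fun h => φ.injective (sub_eq_zero.1 h)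
  obtain ⟨N, hN0, hN1, hNT⟩ := epn_exists_N S
    ((A₀ ×ˢ A₀).image (fun q => φ q.1 - φ q.2) ∪
      ((A₀ ×ˢ A₀).image (fun q => (φ q.1)⁻¹ - (φ q.2)⁻¹) ∪ A₀.image (fun a => (φ a)⁻¹))) N₀
  have s1 : ∀ a ∈ A₀, ∀ b ∈ A₀, φ a - φ b ∈ S.D N → a = b := by
    intro a ha b hb h
    apply hφ
    apply hNT _ _ h
    apply Finset.mem_union_left
    exact Finset.mem_image.2 ⟨(a, b), Finset.mem_product.2 ⟨ha, hb⟩, rfl⟩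
  have s2 : ∀ a ∈ A₀, ∀ b ∈ A₀, (φ a)⁻¹ - (φ b)⁻¹ ∈ S.D N → a = b := by
    intro a ha b hb h
    have h1 : (φ a)⁻¹ - (φ b)⁻¹ = 0 := by
      apply hNT _ _ h
      apply Finset.mem_union_right
      apply Finset.mem_union_left
      exact Finset.mem_image.2 ⟨(a, b), Finset.mem_product.2 ⟨ha, hb⟩, rfl⟩
    exact φ.injective (inv_injective (sub_eq_zero.1 h1))
  have s3 : ∀ a ∈ A₀, (φ a)⁻¹ ∈ S.D N → φ a = 0 := by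
    intro a ha h
    have h1 : (φ a)⁻¹ = 0 := by
      apply hNT _ _ h
      apply Finset.mem_union_right
      apply Finset.mem_union_right
      exact Finset.mem_image.2 ⟨a, ha, rfl⟩
    exact inv_eq_zero.1 h1
  -- the choices
  have hB : ∀ ρ : F, ∃ b : k, φ b - ρ ∈ S.D N ∧ ∀ a ∈ A₀, φ a - ρ ∈ S.D N → a = b := by
    intro ρ
    by_cases h : ∃ a ∈ A₀, φ a - ρ ∈ S.D N
    · obtain ⟨b, hb, hb1⟩ := h
      refine ⟨b, hb1, fun a ha ha1 => s1 a ha b hb ?_⟩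
      have h1 := (S.D N).sub_mem ha1 hb1
      rwa [sub_sub_sub_cancel_right] at h1
    · obtain ⟨b, hb⟩ := hd ρ N
      exact ⟨b, hb, fun a ha ha1 => absurd ⟨a, ha, ha1⟩ h⟩
  choose b0 hb0 hb0' using hB
  have hB1 : ∀ ρ : F, ∃ b : k, φ b - (φ (b0 ρ) + S.pi ^ N) ∈ S.D (N + 1) := fun ρ => hd _ _
  choose b1 hb1 using hB1
  have hC : ∀ ρ : F, ∃ c : k, ρ ∉ S.D N → φ c ≠ 0 ∧ (φ c)⁻¹ - ρ ∈ S.D N ∧
      ∀ a ∈ A₀, φ a ≠ 0 → (φ a)⁻¹ - ρ ∈ S.D N → a = c := by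
    intro ρ
    by_cases h0 : ρ ∈ S.D N
    · exact ⟨0, fun h => absurd h0 h⟩
    by_cases h : ∃ a ∈ A₀, φ a ≠ 0 ∧ (φ a)⁻¹ - ρ ∈ S.D N
    · obtain ⟨b, hb, hb0, hb1⟩ := h
      refine ⟨b, fun _ => ⟨hb0, hb1, fun a ha _ ha1 => s2 a ha b hb ?_⟩⟩
      have h1 := (S.D N).sub_mem ha1 hb1
      rwa [sub_sub_sub_cancel_right] at h1
    · obtain ⟨b, hb, hb1⟩ := epn_approx_inv S φ hd (S.ne_of_not_mem h0) N
      exact ⟨b, fun _ => ⟨hb, hb1, fun a ha ha0 ha1 => absurd ⟨a, ha, ha0, ha1⟩ h⟩⟩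
  choose c0 hc0 using hC
  have hπ0 : S.pi ^ N ≠ 0 := S.pi_zpow_ne N
  have hπN : S.pi ^ N ∈ S.D N := Or.inr (S.v_pi_zpow N).ge
  have hπN' : S.pi ^ N ∉ S.D (N + 1) := by
    intro h
    have h1 := S.le_v h hπ0
    rw [S.v_pi_zpow] at h1
    omega
  have hC1 : ∀ ρ : F, ∃ c : k, ρ ∉ S.D N → φ c ≠ 0 ∧
      (φ c)⁻¹ - ((φ (c0 ρ))⁻¹ + S.pi ^ N) ∈ S.D (N + 1) := by
    intro ρ
    by_cases h0 : ρ ∈ S.D N
    · exact ⟨0, fun h => absurd h0 h⟩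
    have ht : (φ (c0 ρ))⁻¹ + S.pi ^ N ≠ 0 := by
      intro h
      apply h0
      obtain ⟨_, h2, _⟩ := hc0 ρ h0
      have h3 := (S.D N).neg_mem ((S.D N).add_mem h2 hπN)
      have e : -((φ (c0 ρ))⁻¹ - ρ + S.pi ^ N) = ρ := by linear_combination -h
      rwa [e] at h3
    obtain ⟨c, hc, hc1⟩ := epn_approx_inv S φ hd ht (N + 1)
    exact ⟨c, fun _ => ⟨hc, hc1⟩⟩
  choose c1 hc1 using hC1
  obtain ⟨d, hd0, hd1⟩ := epn_approx_inv S φ hd hπ0 (N + 1)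
  have hdN : (φ d)⁻¹ ∈ S.D N := by
    have h := (S.D N).add_mem (S.D_mono (by omega) hd1) hπN
    rwa [sub_add_cancel] at h
  have hdN' : (φ d)⁻¹ ∉ S.D (N + 1) := by
    intro h
    apply hπN'
    have h1 := (S.D (N + 1)).sub_mem h hd1
    rwa [sub_sub_cancel] at h1
  -- properties of the choices
  have pb1 : ∀ ρ, φ (b1 ρ) - ρ ∈ S.D N := by
    intro ρ
    have h := (S.D N).add_mem ((S.D N).add_mem (S.D_mono (by omega) (hb1 ρ)) hπN) (hb0 ρ)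
    have e : φ (b1 ρ) - (φ (b0 ρ) + S.pi ^ N) + S.pi ^ N + (φ (b0 ρ) - ρ) = φ (b1 ρ) - ρ := by
      ring
    rwa [e] at h
  have pb01 : ∀ ρ, φ (b0 ρ) - φ (b1 ρ) ∉ S.D (N + 1) := by
    intro ρ h
    apply hπN'
    have h1 := (S.D (N + 1)).neg_mem ((S.D (N + 1)).add_mem h (hb1 ρ))
    have e : -(φ (b0 ρ) - φ (b1 ρ) + (φ (b1 ρ) - (φ (b0 ρ) + S.pi ^ N))) = S.pi ^ N := by ring
    rwa [e] at h1
  have pc1 : ∀ ρ, ρ ∉ S.D N → (φ (c1 ρ))⁻¹ - ρ ∈ S.D N := by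
    intro ρ h0
    have h := (S.D N).add_mem ((S.D N).add_mem (S.D_mono (by omega) (hc1 ρ h0).2) hπN)
      (hc0 ρ h0).2.1
    have e : (φ (c1 ρ))⁻¹ - ((φ (c0 ρ))⁻¹ + S.pi ^ N) + S.pi ^ N + ((φ (c0 ρ))⁻¹ - ρ) =
      (φ (c1 ρ))⁻¹ - ρ := by ring
    rwa [e] at h
  have pc01 : ∀ ρ, ρ ∉ S.D N → (φ (c0 ρ))⁻¹ - (φ (c1 ρ))⁻¹ ∉ S.D (N + 1) := by
    intro ρ h0 h
    apply hπN'
    have h1 := (S.D (N + 1)).neg_mem ((S.D (N + 1)).add_mem h (hc1 ρ h0).2)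
    have e : -((φ (c0 ρ))⁻¹ - (φ (c1 ρ))⁻¹ + ((φ (c1 ρ))⁻¹ - ((φ (c0 ρ))⁻¹ + S.pi ^ N))) =
      S.pi ^ N := by ring
    rwa [e] at h1
  have mono1 : ∀ {x : F}, x ∈ S.D N → x ∈ S.D 1 := fun h => S.D_mono hN1 h
  have mono0 : ∀ {x : F}, x ∈ S.D N → x ∈ S.D 0 := fun h => S.D_mono (by omega) h
  have trans : ∀ {n : ℤ} {x y z : F}, x - y ∈ S.D n → y - z ∈ S.D n → x - z ∈ S.D n := by
    intro n x y z h1 h2
    have h := (S.D n).add_mem h1 h2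
    rwa [sub_add_sub_cancel] at h
  have mem_of : ∀ {n : ℤ} {x y : F}, x - y ∈ S.D n → y ∈ S.D n → x ∈ S.D n := by
    intro n x y h1 h2
    have h := (S.D n).add_mem h1 h2
    rwa [sub_add_cancel] at h
  have symm : ∀ {n : ℤ} {x y : F}, x - y ∈ S.D n → y - x ∈ S.D n := by
    intro n x y h1
    have h := (S.D n).neg_mem h1
    rwa [neg_sub] at h
  obtain ⟨Y, hY⟩ := hfin N
  obtain ⟨P, hP⟩ : ∃ P : Finset F, P = (Y.image (epnRp S N)).filter (fun x => x ∈ S.D 0) := ⟨_, rfl⟩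
  obtain ⟨Q, hQ⟩ : ∃ Q : Finset F, Q = (Y.image (epnRp S N)).filter
    (fun x => x ∈ S.D 1 ∧ x ∉ S.D N) := ⟨_, rfl⟩
  have hrepY : ∀ y ∈ S.D 0, epnRp S N y ∈ Y.image (epnRp S N) := by
    intro y hy
    obtain ⟨c, hc, hyc⟩ := hY y hy
    exact Finset.mem_image.2 ⟨c, hc, (epn_rp_congr S hyc).symm⟩
  have hPmem : ∀ y ∈ S.D 0, epnRp S N y ∈ P := by
    intro y hy
    rw [hP]
    exact Finset.mem_filter.2 ⟨hrepY y hy, mem_of (mono0 (epn_rp_sub S N y)) hy⟩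
  have hQmem : ∀ y ∈ S.D 1, y ∉ S.D N → epnRp S N y ∈ Q := by
    intro y hy hyN
    rw [hQ]
    refine Finset.mem_filter.2 ⟨hrepY y (S.D_mono (by omega) hy),
      mem_of (mono1 (epn_rp_sub S N y)) hy, fun h => hyN ?_⟩
    exact mem_of (symm (epn_rp_sub S N y)) h
  have hPD : ∀ ρ ∈ P, ρ ∈ S.D 0 ∧ epnRp S N ρ = ρ := by
    intro ρ h
    rw [hP] at h
    obtain ⟨h1, h2⟩ := Finset.mem_filter.1 h
    obtain ⟨c, _, rfl⟩ := Finset.mem_image.1 h1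
    exact ⟨h2, epn_rp_rp S N c⟩
  have hQD : ∀ ρ ∈ Q, ρ ∈ S.D 1 ∧ ρ ∉ S.D N ∧ epnRp S N ρ = ρ := by
    intro ρ h
    rw [hQ] at h
    obtain ⟨h1, h2, h3⟩ := Finset.mem_filter.1 h
    obtain ⟨c, _, rfl⟩ := Finset.mem_image.1 h1
    exact ⟨h2, h3, epn_rp_rp S N c⟩
  have vb0 : ∀ ρ ∈ P, φ (b0 ρ) ∈ S.D 0 := fun ρ h => mem_of (mono0 (hb0 ρ)) (hPD ρ h).1
  have vb1 : ∀ ρ ∈ P, φ (b1 ρ) ∈ S.D 0 := fun ρ h => mem_of (mono0 (pb1 ρ)) (hPD ρ h).1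
  have ic0 : ∀ ρ ∈ Q, (φ (c0 ρ))⁻¹ ∈ S.D 1 := fun ρ h =>
    mem_of (mono1 (hc0 ρ (hQD ρ h).2.1).2.1) (hQD ρ h).1
  have ic1 : ∀ ρ ∈ Q, (φ (c1 ρ))⁻¹ ∈ S.D 1 := fun ρ h =>
    mem_of (mono1 (pc1 ρ (hQD ρ h).2.1)) (hQD ρ h).1
  have vc0 : ∀ ρ ∈ Q, φ (c0 ρ) ∉ S.D 0 := fun ρ h =>
    epn_inv_not_D S (ic0 ρ h) (hc0 ρ (hQD ρ h).2.1).1
  have vc1 : ∀ ρ ∈ Q, φ (c1 ρ) ∉ S.D 0 := fun ρ h =>
    epn_inv_not_D S (ic1 ρ h) (hc1 ρ (hQD ρ h).2.1).1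
  have vd : φ d ∉ S.D 0 := epn_inv_not_D S (mono1 hdN) hd0
  obtain ⟨A, hA⟩ : ∃ A : Finset k, A = P.image b0 ∪ (P.image b1 ∪ (Q.image c0 ∪
    (Q.image c1 ∪ {d}))) := ⟨_, rfl⟩
  have memA : ∀ a, a ∈ A ↔ (∃ ρ ∈ P, b0 ρ = a) ∨ (∃ ρ ∈ P, b1 ρ = a) ∨ (∃ ρ ∈ Q, c0 ρ = a) ∨
      (∃ ρ ∈ Q, c1 ρ = a) ∨ a = d := by
    intro a
    rw [hA]
    simp only [Finset.mem_union, Finset.mem_image, Finset.mem_singleton]
  refine ⟨N, hN0, A, ?_, ?_, ?_, ?_⟩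
  · -- `A₀ ⊆ A`
    intro a ha
    rw [memA]
    by_cases h : φ a ∈ S.D 0
    · left
      exact ⟨_, hPmem _ h, (hb0' _ a ha (symm (epn_rp_sub S N (φ a)))).symm⟩
    · right; right; left
      have h0 := S.ne_of_not_mem h
      have h1 : (φ a)⁻¹ ∈ S.D 1 := by
        right
        have h2 := S.v_lt_of_not_mem h
        rw [S.v_inv _ h0]
        omega
      have h2 : (φ a)⁻¹ ∉ S.D N := fun h3 => h0 (s3 a ha h3)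
      have h3 := hQmem _ h1 h2
      exact ⟨_, h3, ((hc0 _ (hQD _ h3).2.1).2.2 a ha h0 (symm (epn_rp_sub S N _))).symm⟩
  · -- `zero`
    intro y hy
    have hρ := hPmem y hy
    have hs := epn_rp_sub S N y
    refine ⟨_, ⟨b0 (epnRp S N y), ?_, rfl⟩, _, ⟨b1 (epnRp S N y), ?_, rfl⟩, trans (hb0 _) hs,
      trans (pb1 _) hs, pb01 _, ?_⟩
    · exact (memA _).2 (Or.inl ⟨_, hρ, rfl⟩)
    · exact (memA _).2 (Or.inr (Or.inl ⟨_, hρ, rfl⟩))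
    rintro _ ⟨a, ha, rfl⟩ hay
    have haD : φ a ∈ S.D 0 := mem_of (mono0 hay) hy
    rcases (memA a).1 ha with ⟨ρ, h1, rfl⟩ | ⟨ρ, h1, rfl⟩ | ⟨ρ, h1, rfl⟩ | ⟨ρ, h1, rfl⟩ | rfl
    · left
      rw [← epn_rp_congr S (trans (symm (hb0 ρ)) hay), (hPD ρ h1).2]
    · right
      rw [← epn_rp_congr S (trans (symm (pb1 ρ)) hay), (hPD ρ h1).2]
    · exact absurd haD (vc0 ρ h1)
    · exact absurd haD (vc1 ρ h1)
    · exact absurd haD vd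
  · -- `inf`
    intro y hy hyN
    have hρ := hQmem y hy hyN
    have hs := epn_rp_sub S N y
    have hρN := (hQD _ hρ).2.1
    refine ⟨_, ⟨c0 (epnRp S N y), ?_, rfl⟩, _, ⟨c1 (epnRp S N y), ?_, rfl⟩, (hc0 _ hρN).1,
      (hc1 _ hρN).1, trans (hc0 _ hρN).2.1 hs, trans (pc1 _ hρN) hs, pc01 _ hρN, ?_⟩
    · exact (memA _).2 (Or.inr (Or.inr (Or.inl ⟨_, hρ, rfl⟩)))
    · exact (memA _).2 (Or.inr (Or.inr (Or.inr (Or.inl ⟨_, hρ, rfl⟩))))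
    rintro _ ⟨a, ha, rfl⟩ ha0 hay
    have haD : φ a ∉ S.D 0 := epn_inv_not_D S (mem_of (mono1 hay) hy) ha0
    rcases (memA a).1 ha with ⟨ρ, h1, rfl⟩ | ⟨ρ, h1, rfl⟩ | ⟨ρ, h1, rfl⟩ | ⟨ρ, h1, rfl⟩ | rfl
    · exact absurd (vb0 ρ h1) haD
    · exact absurd (vb1 ρ h1) haD
    · left
      have h2 := hQD ρ h1
      rw [← epn_rp_congr S (trans (symm (hc0 ρ h2.2.1).2.1) hay), h2.2.2]
    · right
      have h2 := hQD ρ h1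
      rw [← epn_rp_congr S (trans (symm (pc1 ρ h2.2.1)) hay), h2.2.2]
    · exact absurd (mem_of (symm hay) hdN) hyN
  · -- `top`
    refine ⟨_, ⟨d, ?_, rfl⟩, hd0, hdN, hdN', ?_⟩
    · exact (memA _).2 (Or.inr (Or.inr (Or.inr (Or.inr rfl))))
    rintro _ ⟨a, ha, rfl⟩ ha0 haN
    have haD : φ a ∉ S.D 0 := epn_inv_not_D S (mono1 haN) ha0
    rcases (memA a).1 ha with ⟨ρ, h1, rfl⟩ | ⟨ρ, h1, rfl⟩ | ⟨ρ, h1, rfl⟩ | ⟨ρ, h1, rfl⟩ | rfl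
    · exact absurd (vb0 ρ h1) haD
    · exact absurd (vb1 ρ h1) haD
    · have h2 := hQD ρ h1
      exact absurd (mem_of (symm (hc0 ρ h2.2.1).2.1) haN) h2.2.1
    · have h2 := hQD ρ h1
      exact absurd (mem_of (symm (pc1 ρ h2.2.1)) haN) h2.2.1
    · rfl

end WNT
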