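import Pool.Agent.WNT.Inn
import Pool.Agent.WNT.Exa

/-!
# WNT / Fin2: the exact combinatorial theorem for `p = 2`
-/

set_option autoImplicit false

namespace WNT

universe u w

theorem main2 {F : Type u} {V : Type w} [Field F] [AddCommGroup V] [Module (ZMod 2) V]
    {S : SS F V 2} {A : Set F} {f : F → V} {N : ℤ} (hr : Rels S A f) (hP : PN S A N)
    (hN : 2 * ((S.E + 2) * Nat.card V) + 8 * S.E + 5 ≤ N) :
    ∃ z : F, ∀ a ∈ A, z ≠ a → f a = S.cl (z - a) := by
  have hE := S.two_le_E
  have hTT : 0 ≤ (S.E + 2) * (Nat.card V : ℤ) := mul_nonneg (by omega) (by positivity)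
  have hN4 : 4 * S.E < N := by linarith
  let T : Nt S :=
    { A := A
      f := f
      N := N - 4 * S.E
      net := hP.net hN4
      rel := hr }
  obtain ⟨z, hz⟩ := T.main (2 * S.E) (by omega) (by
    show _ ≤ N - 4 * S.E
    linarith)
  by_cases hz0 : z ∈ S.D 0
  · have hk := outer hr (fun y hy => by
      obtain ⟨b, hb, _, _, h1, _⟩ := hP.zero y hy
      exact ⟨b, hb, h1⟩) (by linarith) le_rfl hz0 hz
    exact inner hr (hP.ln hN4) hz0 (by omega) (by linarith) hk
  · have hk : ∀ a ∈ A, a ∈ S.D 0 → f a = S.cl (z - a) := by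
      intro a ha ha0
      apply hz a ha ha0
      intro h
      apply hz0
      have h1 := (S.D 0).add_mem (S.D_mono (by omega) h) ha0
      rwa [sub_add_cancel] at h1
    obtain ⟨c, hc, _, _, h1, _⟩ := hP.zero 0 (S.D 0).zero_mem
    rw [sub_zero] at h1
    have hc0 : c ∈ S.D 0 := S.D_mono (by linarith) h1
    obtain ⟨h2, h3⟩ := kn_inv (S := S) (f := f) hc hc0 hz0 hk
    obtain ⟨z', hz'⟩ := inner (rels_inv hr hc) (hP.inv hN4 hc hc0) (S.D_mono (by omega) h2)
      le_rfl (by linarith) h3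
    exact back hc (hP.bdd (by linarith)) hz'

end WNT
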