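import Mathlib

/-!
# WNT (wild nets, MP_896029_ag): definitions

`SS F V p`: a field `F` with a discrete valuation `v` (`v 0` is junk) and a symbol: `cl : F → V` is (for a local
field `F`) the class in `V = Fˣ / Fˣ ^ p`, written additively, `h : V × V → ZMod p` the Hilbert symbol (up to a scalar), `η` the
class of the unramified extension of degree `p`, `E = p e / (p - 1)`.

* `S.D n` is `π ^ n O`;
* `S.W i` is the group of the classes of `1 - u`, `u ∈ D i`;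
* `S.val w = h η w` is the valuation modulo `p`;
* `S.lam u = h (cl (1 - u)) (cl π)`, so `cl (1 - u) = lam u • η` for `u ∈ D E`.

`Nt S`: a net: a set `A` of elements of `F`, dense in `D (- 2 E)` up to precision `N`, with a function `f : A → V` such that
`f a / (b - a)` and `f b / (a - b)` are orthogonal for all `a ≠ b`.

* `T.Cst b m`: `f` is constant on the ball `b + D m`;
* `T.Gd b m`: `b` is a good point and `m` is the radius of its largest ball of constancy;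
* `T.Rep b ν z`: on the ball `b + D (ν + 1)` the function `f` is `a ↦ cl (z - a) + k • η`, `v (z - b) = ν`;
* `T.Hj b m j z`: `v (z - b) = m - 1 - E` and `f a = f b + cl (1 - (a - b) / (z - b))` on `b + D (m - j)`.
-/

set_option autoImplicit false

namespace WNT

universe u w

/-- a discretely valued field with a symbol -/
structure SS (F : Type u) (V : Type w) [Field F] [AddCommGroup V] (p : ℕ) [Module (ZMod p) V] where
  v : F → ℤ
  pi : F
  cl : F → V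
  h : V →ₗ[ZMod p] V →ₗ[ZMod p] ZMod p
  η : V
  E : ℤ
  prime : p.Prime
  v_mul : ∀ x y, x ≠ 0 → y ≠ 0 → v (x * y) = v x + v y
  v_add : ∀ x y, x ≠ 0 → y ≠ 0 → x + y ≠ 0 → min (v x) (v y) ≤ v (x + y)
  pi_ne : pi ≠ 0
  v_pi : v pi = 1
  cl_mul : ∀ x y, x ≠ 0 → y ≠ 0 → cl (x * y) = cl x + cl y
  cl_surj : ∀ w, ∃ x, x ≠ 0 ∧ cl x = w
  stein : ∀ x, x ≠ 0 → 1 - x ≠ 0 → h (cl x) (cl (1 - x)) = 0
  E_pos : 0 < E
  E_dvd : (p : ℤ) ∣ E
  cl_big : ∀ x, x = 0 ∨ E + 1 ≤ v x → cl (1 - x) = 0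
  unit : ∀ x, x ≠ 0 → v x = 0 → ∃ y, (y = 0 ∨ 1 ≤ v y) ∧ cl x = cl (1 - y)
  drop : ∀ (i : ℤ) (x : F), 1 ≤ i → i < E → (p : ℤ) ∣ i → (x = 0 ∨ i ≤ v x) →
    ∃ y, (y = 0 ∨ i + 1 ≤ v y) ∧ cl (1 - x) = cl (1 - y)
  top : ∀ x, x = 0 ∨ E ≤ v x → ∃ c : ZMod p, cl (1 - x) = c • η
  eta : ∃ x, (x = 0 ∨ E ≤ v x) ∧ cl (1 - x) = η
  h_eta : ∀ x, x ≠ 0 → h η (cl x) = (v x : ZMod p)
  fin : Finite V

namespace SS

variable {F : Type u} {V : Type w} [Field F] [AddCommGroup V] {p : ℕ} [Module (ZMod p) V]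
  (S : SS F V p)

theorem v_one : S.v 1 = 0 := by
  have h := S.v_mul 1 1 one_ne_zero one_ne_zero
  rw [mul_one] at h
  omega

theorem v_neg (x : F) (hx : x ≠ 0) : S.v (-x) = S.v x := by
  have h1 : S.v (-1) = 0 := by
    have h := S.v_mul (-1) (-1) (neg_ne_zero.2 one_ne_zero) (neg_ne_zero.2 one_ne_zero)
    rw [neg_mul_neg, mul_one, S.v_one] at h
    omega
  have h2 := S.v_mul (-1) x (neg_ne_zero.2 one_ne_zero) hx
  rw [neg_one_mul, h1, zero_add] at h2
  exact h2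

theorem v_inv (x : F) (hx : x ≠ 0) : S.v x⁻¹ = - S.v x := by
  have h := S.v_mul x x⁻¹ hx (inv_ne_zero hx)
  rw [mul_inv_cancel₀ hx, S.v_one] at h
  omega

theorem v_div (x y : F) (hx : x ≠ 0) (hy : y ≠ 0) : S.v (x / y) = S.v x - S.v y := by
  rw [div_eq_mul_inv, S.v_mul _ _ hx (inv_ne_zero hy), S.v_inv _ hy]
  ring

theorem v_pow (x : F) (hx : x ≠ 0) (n : ℕ) : S.v (x ^ n) = n * S.v x := by
  induction n with
  | zero => rw [pow_zero, S.v_one]; simp
  | succ n ih =>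
    rw [pow_succ, S.v_mul _ _ (pow_ne_zero _ hx) hx, ih]
    push_cast
    ring

theorem v_zpow (x : F) (hx : x ≠ 0) (n : ℤ) : S.v (x ^ n) = n * S.v x := by
  cases n with
  | ofNat n =>
    rw [Int.ofNat_eq_natCast, zpow_natCast, S.v_pow _ hx]
  | negSucc n =>
    rw [zpow_negSucc, S.v_inv _ (pow_ne_zero _ hx), S.v_pow _ hx, Int.negSucc_eq]
    push_cast
    ring

/-- `π ^ n O` -/
def D (n : ℤ) : AddSubgroup F where
  carrier := {x | x = 0 ∨ n ≤ S.v x}
  zero_mem' := Or.inl rfl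
  add_mem' := by
    intro x y hx hy
    by_cases hx0 : x = 0
    · rw [hx0, zero_add]; exact hy
    by_cases hy0 : y = 0
    · rw [hy0, add_zero]; exact hx
    by_cases h0 : x + y = 0
    · exact Or.inl h0
    right
    have h1 := S.v_add x y hx0 hy0 h0
    have h2 := hx.resolve_left hx0
    have h3 := hy.resolve_left hy0
    omega
  neg_mem' := by
    intro x hx
    by_cases hx0 : x = 0
    · rw [hx0, neg_zero]; exact Or.inl rfl
    right
    rw [S.v_neg x hx0]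
    exact hx.resolve_left hx0

theorem mem_D {n : ℤ} {x : F} : x ∈ S.D n ↔ x = 0 ∨ n ≤ S.v x := Iff.rfl

theorem mem_D_of_ne {n : ℤ} {x : F} (hx : x ≠ 0) : x ∈ S.D n ↔ n ≤ S.v x := by
  rw [mem_D]
  exact or_iff_right hx

theorem le_v {n : ℤ} {x : F} (h : x ∈ S.D n) (hx : x ≠ 0) : n ≤ S.v x := (S.mem_D_of_ne hx).1 h

theorem D_mono {m n : ℤ} (h : m ≤ n) {x : F} (hx : x ∈ S.D n) : x ∈ S.D m := by
  rcases hx with hx | hx
  · exact Or.inl hx
  · exact Or.inr (h.trans hx)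

theorem D_mul {m n : ℤ} {x y : F} (hx : x ∈ S.D m) (hy : y ∈ S.D n) : x * y ∈ S.D (m + n) := by
  by_cases hx0 : x = 0
  · rw [hx0, zero_mul]; exact Or.inl rfl
  by_cases hy0 : y = 0
  · rw [hy0, mul_zero]; exact Or.inl rfl
  right
  rw [S.v_mul _ _ hx0 hy0]
  have h1 := hx.resolve_left hx0
  have h2 := hy.resolve_left hy0
  omega

theorem D_mul' {m n k : ℤ} {x y : F} (hx : x ∈ S.D m) (hy : y ∈ S.D n) (h : k ≤ m + n) :
    x * y ∈ S.D k := S.D_mono h (S.D_mul hx hy)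

theorem D_div {m n : ℤ} {x y : F} (hx : x ∈ S.D m) (hy0 : y ≠ 0) (hy : S.v y = n) :
    x / y ∈ S.D (m - n) := by
  rw [div_eq_mul_inv]
  have h1 : y⁻¹ ∈ S.D (-n) := by
    right
    rw [S.v_inv _ hy0, hy]
  exact S.D_mul' hx h1 (by omega)

theorem D_div' {m n k : ℤ} {x y : F} (hx : x ∈ S.D m) (hy0 : y ≠ 0) (hy : S.v y = n)
    (h : k ≤ m - n) : x / y ∈ S.D k := S.D_mono h (S.D_div hx hy0 hy)

theorem one_mem_D : (1 : F) ∈ S.D 0 := by
  right
  rw [S.v_one]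

/-- the valuation of a sum if the second summand is smaller -/
theorem v_add_eq {x y : F} (hx : x ≠ 0) (hy : y ∈ S.D (S.v x + 1)) :
    x + y ≠ 0 ∧ S.v (x + y) = S.v x := by
  by_cases hy0 : y = 0
  · rw [hy0, add_zero]; exact ⟨hx, rfl⟩
  have h1 := hy.resolve_left hy0
  have h0 : x + y ≠ 0 := by
    intro h
    have h2 : y = -x := by linear_combination h
    rw [h2, S.v_neg x hx] at h1
    omega
  refine ⟨h0, ?_⟩
  have h2 := S.v_add x y hx hy0 h0
  have h3 : x + y + -y ≠ 0 := by rw [add_neg_cancel_right]; exact hx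
  have h4 := S.v_add (x + y) (-y) h0 (neg_ne_zero.2 hy0) h3
  rw [add_neg_cancel_right, S.v_neg y hy0] at h4
  omega

theorem v_one_sub {t : F} (ht : t ∈ S.D 1) : 1 - t ≠ 0 ∧ S.v (1 - t) = 0 := by
  have h := S.v_add_eq (x := 1) (y := -t) one_ne_zero
    (by rw [S.v_one]; exact (S.D 1).neg_mem ht)
  rw [S.v_one] at h
  rw [sub_eq_add_neg]
  exact h

theorem one_sub_ne {t : F} (ht : t ∈ S.D 1) : 1 - t ≠ 0 := (S.v_one_sub ht).1

theorem ne_of_not_mem {n : ℤ} {x : F} (h : x ∉ S.D n) : x ≠ 0 := fun h0 => h (Or.inl h0)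

theorem v_lt_of_not_mem {n : ℤ} {x : F} (h : x ∉ S.D n) : S.v x < n := by
  rw [mem_D, not_or] at h
  omega

/-- `x ∈ D n`, `x ∉ D (n + 1)` means `v x = n` -/
theorem v_eq_of {n : ℤ} {x : F} (h : x ∈ S.D n) (h' : x ∉ S.D (n + 1)) : S.v x = n := by
  have h1 := S.ne_of_not_mem h'
  have h2 := S.v_lt_of_not_mem h'
  have h3 := S.le_v h h1
  omega

theorem pi_zpow_ne (n : ℤ) : S.pi ^ n ≠ 0 := zpow_ne_zero _ S.pi_ne

theorem v_pi_zpow (n : ℤ) : S.v (S.pi ^ n) = n := by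
  rw [S.v_zpow _ S.pi_ne, S.v_pi, mul_one]

theorem cl_one : S.cl 1 = 0 := by
  have h := S.cl_mul 1 1 one_ne_zero one_ne_zero
  rw [mul_one] at h
  exact left_eq_add.1 h

theorem p_smul (w : V) : p • w = 0 := by
  rw [← Nat.cast_smul_eq_nsmul (ZMod p), ZMod.natCast_self, zero_smul]

theorem cl_neg (x : F) (hx : x ≠ 0) : S.cl (-x) = S.cl (-1) + S.cl x := by
  have h := S.cl_mul (-1) x (neg_ne_zero.2 one_ne_zero) hx
  rw [neg_one_mul] at h
  exact h

theorem two_cl_neg_one : S.cl (-1) + S.cl (-1) = 0 := by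
  have h := S.cl_mul (-1) (-1) (neg_ne_zero.2 one_ne_zero) (neg_ne_zero.2 one_ne_zero)
  rw [neg_mul_neg, mul_one, S.cl_one] at h
  exact h.symm

theorem cl_inv (x : F) (hx : x ≠ 0) : S.cl x⁻¹ = - S.cl x := by
  have h := S.cl_mul x x⁻¹ hx (inv_ne_zero hx)
  rw [mul_inv_cancel₀ hx, S.cl_one] at h
  exact (neg_eq_of_add_eq_zero_right h.symm).symm

theorem cl_div (x y : F) (hx : x ≠ 0) (hy : y ≠ 0) : S.cl (x / y) = S.cl x - S.cl y := by
  rw [div_eq_mul_inv, S.cl_mul _ _ hx (inv_ne_zero hy), S.cl_inv _ hy, sub_eq_add_neg]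

/-- `(x, - x) = 0` -/
theorem self_neg (x : F) (hx : x ≠ 0) : S.h (S.cl x) (S.cl (-x)) = 0 := by
  by_cases h1 : x = 1
  · rw [h1, S.cl_one, map_zero, LinearMap.zero_apply]
  have h2 : 1 - x ≠ 0 := sub_ne_zero.2 (fun h => h1 h.symm)
  have h3 : 1 - x⁻¹ ≠ 0 := by
    rw [sub_ne_zero]
    intro h
    exact h1 (by rw [← inv_inv x, ← h, inv_one])
  have h4 : -x = (1 - x) / (1 - x⁻¹) := by
    field_simp
    ring
  have h5 := S.stein x hx h2
  have h6 := S.stein x⁻¹ (inv_ne_zero hx) h3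
  rw [S.cl_inv _ hx, map_neg, LinearMap.neg_apply, neg_eq_zero] at h6
  rw [h4, S.cl_div _ _ h2 h3, map_sub, h5, h6, sub_zero]

theorem anti (x y : V) : S.h x y = - S.h y x := by
  obtain ⟨a, ha, rfl⟩ := S.cl_surj x
  obtain ⟨b, hb, rfl⟩ := S.cl_surj y
  have h := S.self_neg (a * b) (mul_ne_zero ha hb)
  have h1 := S.self_neg a ha
  have h2 := S.self_neg b hb
  rw [S.cl_neg _ (mul_ne_zero ha hb), S.cl_mul _ _ ha hb] at h
  rw [S.cl_neg _ ha] at h1
  rw [S.cl_neg _ hb] at h2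
  simp only [map_add, LinearMap.add_apply] at h h1 h2
  linear_combination h - h1 - h2

/-- `h w w = - h w (cl (-1))` -/
theorem self (w : V) : S.h w w = - S.h w (S.cl (-1)) := by
  obtain ⟨a, ha, rfl⟩ := S.cl_surj w
  have h1 := S.self_neg a ha
  rw [S.cl_neg _ ha, map_add] at h1
  linear_combination h1

/-- the valuation modulo `p` -/
def val : V →ₗ[ZMod p] ZMod p := S.h S.η

theorem val_cl (x : F) (hx : x ≠ 0) : S.val (S.cl x) = (S.v x : ZMod p) := S.h_eta x hx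

theorem h_eta_right (w : V) : S.h w S.η = - S.val w := S.anti w S.η

theorem val_eta : S.val S.η = 0 := by
  obtain ⟨x, hx, h⟩ := S.eta
  have hE := S.E_pos
  have hx1 : x ∈ S.D 1 := by
    rcases hx with hx | hx
    · exact Or.inl hx
    · exact Or.inr (by omega)
  have h1 := S.v_one_sub hx1
  rw [← h, S.val_cl _ h1.1, h1.2, Int.cast_zero]

/-- `cl (1 - u) = lam u • η` for `u ∈ D E` -/
def lam (u : F) : ZMod p := S.h (S.cl (1 - u)) (S.cl S.pi)

theorem val_pi : S.val (S.cl S.pi) = 1 := by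
  rw [S.val_cl _ S.pi_ne, S.v_pi, Int.cast_one]

theorem eta_ne : S.η ≠ 0 := by
  intro h0
  have h := S.val_pi
  have h1 : S.val (S.cl S.pi) = 0 := by
    show S.h S.η (S.cl S.pi) = 0
    rw [h0]
    simp
  rw [h1] at h
  have : Fact (1 < p) := ⟨S.prime.one_lt⟩
  exact zero_ne_one h

/-- the classes of `1 - u`, `u ∈ D i` -/
def W (i : ℤ) : Submodule (ZMod p) V :=
  Submodule.span (ZMod p) {w | ∃ u ∈ S.D i, w = S.cl (1 - u)}

end SS

/-- a net with a function satisfying the relations -/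
structure Nt {F : Type u} {V : Type w} [Field F] [AddCommGroup V] {p : ℕ} [Module (ZMod p) V]
    (S : SS F V p) where
  A : Set F
  f : F → V
  N : ℤ
  net : ∀ c ∈ S.D (-(2 * S.E)), ∃ a ∈ A, a - c ∈ S.D N
  rel : ∀ a ∈ A, ∀ b ∈ A, a ≠ b → S.h (f a - S.cl (b - a)) (f b - S.cl (a - b)) = 0

namespace Nt

variable {F : Type u} {V : Type w} [Field F] [AddCommGroup V] {p : ℕ} [Module (ZMod p) V]
  {S : SS F V p} (T : Nt S)

/-- `f` is constant on the ball `b + D m` -/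
def Cst (b : F) (m : ℤ) : Prop :=
  ∀ a ∈ T.A, ∀ a' ∈ T.A, a - b ∈ S.D m → a' - b ∈ S.D m → T.f a = T.f a'

/-- `b` is a good point, `m` the radius of its largest ball of constancy -/
structure Gd (b : F) (m : ℤ) : Prop where
  bA : b ∈ T.A
  bD : b ∈ S.D (-(2 * S.E))
  lo : -S.E ≤ m
  hi : m ≤ T.N - S.E - 1
  cst : T.Cst b m
  ncst : ¬ T.Cst b (m - 1)

/-- on the ball `b + D (ν + 1)` the function `f` is `a ↦ cl (z - a) + k • η` -/
structure Rep (b : F) (ν : ℤ) (z : F) : Prop where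
  bA : b ∈ T.A
  bD : b ∈ S.D (-(2 * S.E))
  ne : z - b ≠ 0
  vz : S.v (z - b) = ν
  rep : ∃ k : ZMod p, ∀ a ∈ T.A, a - b ∈ S.D (ν + 1) → T.f a = S.cl (z - a) + k • S.η

/-- the induction hypothesis for the construction of `z` -/
structure Hj (b : F) (m j : ℤ) (z : F) : Prop where
  ne : z - b ≠ 0
  vz : S.v (z - b) = m - 1 - S.E
  rep : ∀ a ∈ T.A, a - b ∈ S.D (m - j) → T.f a = T.f b + S.cl (1 - (a - b) / (z - b))

end Nt

end WNT
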