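import Pool.Agent.WNT.Net

/-!
# WNT / Ram: every ball contains a point with a large ball of constancy (Ramsey)

PROOFS.
* `missing`: let `α ≠ β` be values of `f` on `A ∩ (c + D n)`.  Then some ball `c' + D (n + E + 2)`, `c' ∈ c + D n`, misses `α` or `β`.  Suppose not.  Take `a ∈ A ∩ (c + D n)` with `f a = α`.  For `γ ≠ 0` with
  `v γ = n` or `v γ = n + 1` the ball `a + γ + D (n + E + 2)` contains `b ∈ A` with `f b = β`: `b - a = γ (1 + ε / γ)`, `ε / γ ∈ D (E + 1)`, so `cl (a - b) = cl γ` (`cl_congr`, `cl_neg`), and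
  `rel' a b`: `h (α - β) (cl γ - β) = 0`.  So `h (α - β) (cl γ) = h (α - β) β` for all these `γ`.  With `γ = pi ^ n * u`, `pi ^ n`, `pi ^ (n + 1)` (`u` a unit): `h (α - β) (cl u) = 0`, `h (α - β) (cl pi) = 0`.  Every
  `w : V` is `cl x`, `x = pi ^ (v x) * u`, so `h (α - β) w = 0` and `α = β` by `nd`.
* `ramsey`: induction on `k`.  If `f` has at most one value on the ball take any point of `A` in the ball (`net`).  Otherwise `missing` gives a ball of radius `n + E + 2` with fewer values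
  (`k ≥ 1`); `Set.ncard` of the values drops (`Set.ncard_lt_ncard`, `V` is finite).  Monotonicity: `Cst_mono`.
* `ramsey'`: `k = Nat.card V` (`Set.ncard_le_card`..).
* `exists_gd`: take `b` from `ramsey'`; `b - c ∈ D n ⊆ D l`, so `¬ Cst b l` (`Cst_center`); `m` = the least integer `> l` with `Cst b m` (`Int` induction between `l` and `n + TT`).
-/

set_option autoImplicit false

namespace WNT

universe u w

namespace Nt

variable {F : Type u} {V : Type w} [Field F] [AddCommGroup V] {p : ℕ} [Module (ZMod p) V]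
  {S : SS F V p} {T : Nt S}

/-- the values of `f` on a ball -/
def col (T : Nt S) (c : F) (n : ℤ) : Set V := {w | ∃ a ∈ T.A, a - c ∈ S.D n ∧ T.f a = w}

theorem missing {c : F} {n : ℤ} (hc : c ∈ S.D (-(2 * S.E))) (hn : -(2 * S.E) ≤ n)
    {α β : V} (hαβ : α ≠ β) (hα : α ∈ T.col c n) (hβ : β ∈ T.col c n) :
    ∃ c', c' - c ∈ S.D n ∧ (α ∉ T.col c' (n + (S.E + 2)) ∨ β ∉ T.col c' (n + (S.E + 2))) := by
  by_contra hcon
  push Not at hcon
  obtain ⟨a, haA, hac, hfa⟩ := hα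
  have H : ∀ γ : F, γ ≠ 0 → (S.v γ = n ∨ S.v γ = n + 1) →
      S.h (α - β) (S.cl (-1)) + S.h (α - β) (S.cl γ) = S.h (α - β) β := by
    intro γ hγ hv
    have hγn : γ ∈ S.D n := (S.mem_D_of_ne hγ).2 (by omega)
    have h1 : a + γ - c ∈ S.D n := by
      have h2 := (S.D n).add_mem hac hγn
      have h3 : a - c + γ = a + γ - c := by ring
      rwa [h3] at h2
    obtain ⟨-, b, hbA, hb, hfb⟩ := hcon (a + γ) h1
    have h4 : (b - a) - γ ∈ S.D (S.v γ + S.E + 1) := by
      have h5 : b - (a + γ) = b - a - γ := by ring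
      rw [h5] at hb
      exact S.D_mono (by omega) hb
    obtain ⟨h6, -, h7⟩ := S.cl_congr hγ h4
    have hab : a ≠ b := fun h => h6 (by rw [h, sub_self])
    have h8 := T.rel' haA hbA hab
    have h9 : S.cl (a - b) = S.cl (-1) + S.cl γ := by
      rw [← neg_sub, S.cl_neg _ h6, h7]
    rw [hfa, hfb, h9, map_sub, sub_eq_zero, map_add] at h8
    exact h8
  have hpn := S.pi_zpow_ne n
  have H0 := H (S.pi ^ n) hpn (Or.inl (S.v_pi_zpow n))
  have Hu : ∀ u : F, u ≠ 0 → S.v u = 0 → S.h (α - β) (S.cl u) = 0 := by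
    intro u hu hvu
    have h1 := H (S.pi ^ n * u) (mul_ne_zero hpn hu)
      (Or.inl (by rw [S.v_mul _ _ hpn hu, S.v_pi_zpow, hvu, add_zero]))
    rw [S.cl_mul _ _ hpn hu, map_add] at h1
    linear_combination h1 - H0
  have Hp : S.h (α - β) (S.cl S.pi) = 0 := by
    have h1 := H (S.pi ^ n * S.pi) (mul_ne_zero hpn S.pi_ne)
      (Or.inr (by rw [S.v_mul _ _ hpn S.pi_ne, S.v_pi_zpow, S.v_pi]))
    rw [S.cl_mul _ _ hpn S.pi_ne, map_add] at h1
    linear_combination h1 - H0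
  have Hk : ∀ k : ℤ, S.h (α - β) (S.cl (S.pi ^ k)) = 0 := by
    intro k
    induction k using Int.induction_on with
    | zero => rw [zpow_zero, S.cl_one, map_zero]
    | succ i ih =>
      rw [zpow_add_one₀ S.pi_ne, S.cl_mul _ _ (S.pi_zpow_ne _) S.pi_ne, map_add, ih, Hp, add_zero]
    | pred i ih =>
      rw [zpow_sub_one₀ S.pi_ne, S.cl_mul _ _ (S.pi_zpow_ne _) (inv_ne_zero S.pi_ne),
        S.cl_inv _ S.pi_ne, map_add, ih, map_neg, Hp, neg_zero, add_zero]
  apply hαβ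
  rw [← sub_eq_zero]
  refine S.nd fun w => ?_
  obtain ⟨x, hx, rfl⟩ := S.cl_surj w
  have hpx := S.pi_zpow_ne (S.v x)
  have h1 : x = S.pi ^ (S.v x) * (x / S.pi ^ (S.v x)) := by
    field_simp
  have h2 : x / S.pi ^ (S.v x) ≠ 0 := div_ne_zero hx hpx
  have h3 : S.v (x / S.pi ^ (S.v x)) = 0 := by
    rw [S.v_div _ _ hx hpx, S.v_pi_zpow, sub_self]
  rw [h1, S.cl_mul _ _ hpx h2, map_add, Hk, Hu _ h2 h3, add_zero]

private theorem one_val {c : F} {n : ℤ} (hc : c ∈ S.D (-(2 * S.E))) (hN : n ≤ T.N)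
    (h : (T.col c n).ncard ≤ 1) : ∃ b ∈ T.A, b - c ∈ S.D n ∧ T.Cst b n := by
  have : Finite V := S.fin
  obtain ⟨b, hb, hbc⟩ := T.net c hc
  have hbc' := S.D_mono hN hbc
  refine ⟨b, hb, hbc', fun a ha a' ha' h1 h2 => ?_⟩
  have key : ∀ x, x - b ∈ S.D n → x - c ∈ S.D n := by
    intro x hx
    have h3 := (S.D n).add_mem hx hbc'
    have h4 : x - b + (b - c) = x - c := by ring
    rwa [h4] at h3
  exact (Set.ncard_le_one (Set.toFinite _)).1 h _ ⟨a, ha, key a h1, rfl⟩ _ ⟨a', ha', key a' h2, rfl⟩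

theorem ramsey (k : ℕ) : ∀ {c : F} {n : ℤ}, c ∈ S.D (-(2 * S.E)) → -(2 * S.E) ≤ n →
    n + (S.E + 2) * k ≤ T.N → (T.col c n).ncard ≤ k + 1 →
    ∃ b ∈ T.A, b - c ∈ S.D n ∧ T.Cst b (n + (S.E + 2) * k) := by
  have : Finite V := S.fin
  have hE := S.E_pos
  induction k with
  | zero =>
    intro c n hc hn hN h
    obtain ⟨b, hb, h1, h2⟩ := one_val (T := T) hc (by simpa using hN) (by simpa using h)
    exact ⟨b, hb, h1, Cst_mono h2 (by simp)⟩
  | succ k ih =>
    intro c n hc hn hN h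
    have hN' : n + (S.E + 2) + (S.E + 2) * k ≤ T.N := by
      refine le_trans (le_of_eq ?_) hN
      push_cast
      ring
    have hk0 : (0 : ℤ) ≤ (S.E + 2) * k := mul_nonneg (by omega) (Nat.cast_nonneg k)
    by_cases h1 : (T.col c n).ncard ≤ 1
    · obtain ⟨b, hb, h2, h3⟩ := one_val (T := T) hc (by omega) h1
      refine ⟨b, hb, h2, Cst_mono h3 ?_⟩
      push_cast
      have : (0 : ℤ) ≤ (S.E + 2) * (k + 1) := by
        have : (S.E + 2) * ((k : ℤ) + 1) = (S.E + 2) * k + (S.E + 2) := by ring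
        omega
      omega
    · rw [not_le, Set.one_lt_ncard (Set.toFinite _)] at h1
      obtain ⟨α, hα, β, hβ, hαβ⟩ := h1
      obtain ⟨c', hc', hmis⟩ := missing hc hn hαβ hα hβ
      have hsub : T.col c' (n + (S.E + 2)) ⊆ T.col c n := by
        rintro w ⟨a, ha, hac, hw⟩
        refine ⟨a, ha, ?_, hw⟩
        have h3 := (S.D n).add_mem (S.D_mono (by omega : n ≤ n + (S.E + 2)) hac) hc'
        have h4 : a - c' + (c' - c) = a - c := by ring
        rwa [h4] at h3
      have hlt : (T.col c' (n + (S.E + 2))).ncard < (T.col c n).ncard := by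
        refine Set.ncard_lt_ncard ((Set.ssubset_iff_of_subset hsub).2 ?_) (Set.toFinite _)
        rcases hmis with h3 | h3
        · exact ⟨α, hα, h3⟩
        · exact ⟨β, hβ, h3⟩
      have hc2 : c' ∈ S.D (-(2 * S.E)) := by
        have h3 := (S.D (-(2 * S.E))).add_mem (S.D_mono hn hc') hc
        have h4 : c' - c + c = c' := by ring
        rwa [h4] at h3
      obtain ⟨b, hb, hbc, hcst⟩ := ih hc2 (by omega) hN' (by omega)
      refine ⟨b, hb, ?_, ?_⟩
      · have h3 := (S.D n).add_mem (S.D_mono (by omega : n ≤ n + (S.E + 2)) hbc) hc'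
        have h4 : b - c' + (c' - c) = b - c := by ring
        rwa [h4] at h3
      · have h5 : n + (S.E + 2) * ((k + 1 : ℕ) : ℤ) = n + (S.E + 2) + (S.E + 2) * k := by
          push_cast
          ring
        rw [h5]
        exact hcst

theorem ramsey' {c : F} {n : ℤ} (hc : c ∈ S.D (-(2 * S.E))) (hn : -(2 * S.E) ≤ n)
    (hN : n + (S.E + 2) * Nat.card V ≤ T.N) :
    ∃ b ∈ T.A, b - c ∈ S.D n ∧ T.Cst b (n + (S.E + 2) * Nat.card V) := by
  have : Finite V := S.fin
  exact ramsey (Nat.card V) hc hn hN ((Set.ncard_le_card _).trans (Nat.le_succ _))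

theorem exists_gd {c : F} {n l : ℤ} (hc : c ∈ S.D (-(2 * S.E))) (hn : -(2 * S.E) ≤ n)
    (hN : n + (S.E + 2) * Nat.card V ≤ T.N - S.E - 1) (hl : -S.E ≤ l + 1) (hln : l ≤ n)
    (h : ¬ T.Cst c l) :
    ∃ b m, T.Gd b m ∧ b - c ∈ S.D n ∧ l < m ∧ m ≤ n + (S.E + 2) * Nat.card V := by
  have hE := S.E_pos
  have hT0 : (0 : ℤ) ≤ (S.E + 2) * Nat.card V := mul_nonneg (by omega) (Nat.cast_nonneg _)
  obtain ⟨b, hb, hbc, hcst⟩ := ramsey' (T := T) hc hn (by omega)
  have hnb : ¬ T.Cst b l := fun h1 => h (Cst_center (S.D_mono hln hbc) h1)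
  have hlt : l < n + (S.E + 2) * Nat.card V := by
    rcases (by omega : l ≤ n + (S.E + 2) * Nat.card V).lt_or_eq with h1 | h1
    · exact h1
    · exact absurd (h1 ▸ hcst) hnb
  have hex : ∃ j : ℕ, T.Cst b (l + 1 + j) := by
    refine ⟨(n + (S.E + 2) * Nat.card V - l - 1).toNat, ?_⟩
    have h1 : l + 1 + (((n + (S.E + 2) * Nat.card V - l - 1).toNat : ℕ) : ℤ) =
        n + (S.E + 2) * Nat.card V := by omega
    rw [h1]
    exact hcst
  classical
  obtain ⟨j, hj, hjmin⟩ : ∃ j : ℕ, T.Cst b (l + 1 + j) ∧ ∀ i < j, ¬ T.Cst b (l + 1 + i) :=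
    ⟨Nat.find hex, Nat.find_spec hex, fun i hi => Nat.find_min hex hi⟩
  have hjle : l + 1 + (j : ℤ) ≤ n + (S.E + 2) * Nat.card V := by
    by_contra h1
    push Not at h1
    refine hjmin (n + (S.E + 2) * Nat.card V - l - 1).toNat (by omega) ?_
    have h2 : l + 1 + (((n + (S.E + 2) * Nat.card V - l - 1).toNat : ℕ) : ℤ) =
        n + (S.E + 2) * Nat.card V := by omega
    rw [h2]
    exact hcst
  refine ⟨b, l + 1 + j, ⟨hb, ?_, by omega, by omega, hj, ?_⟩, hbc, by omega, hjle⟩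
  · have h3 := (S.D (-(2 * S.E))).add_mem (S.D_mono hn hbc) hc
    have h4 : b - c + c = b := by ring
    rwa [h4] at h3
  · rcases Nat.eq_zero_or_pos j with h1 | h1
    · subst h1
      have h2 : l + 1 + ((0 : ℕ) : ℤ) - 1 = l := by simp
      rw [h2]
      exact hnb
    · have h2 : l + 1 + (j : ℤ) - 1 = l + 1 + ((j - 1 : ℕ) : ℤ) := by omega
      rw [h2]
      exact hjmin _ (by omega)

end Nt

end WNT
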