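import Pool.Agent.WNT.RepI
import Pool.Agent.WNT.Cmp
import Pool.Agent.WNT.Ram

/-!
# WNT / DirA: the other directions at the vertex `b + D ν`

PROOF of `dir` (`v (c - b) = ν`, `v (z - c) = ν + g`, `0 ≤ g ≤ E - 1`; claim `f c - cl (z - c) ∈ W (E - g)`).  `f b = cl (z - b) + κ`, `κ = k • η`.  `s = (c - b) / (z - b)`, `v s = 0`, `1 - s = (z - c) / (z - b)`, `v (1 - s) = g`, `ω = f c - f b - cl (1 - s)`.  For `t ∈ D 1` take
`a ∈ A` by `near` (`k = 1`), `t' = (a - b) / (c - b)`, `t' - t ∈ D (E + 1)`, `a - b ∈ D (ν + 1)`, so `f a = f b + cl (1 - s t')` (`rep_sub`).  `rel' c a` with `cl (c - a) = cl s + cl (z - b) + cl (1 - t')`: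
`h (cl (1 - s) + ω - cl (1 - s t')) (cl s + cl (1 - t') - κ - cl (1 - s t')) = 0`; subtract `stein3`: `h ω (cl s + cl (1 - t') - κ - cl (1 - s t')) = h (cl (1 - s) - cl (1 - s t')) κ = - k * v (1 - s)` (a constant: `h w η = - val w`).  Subtract the same for
`t' = 0`: `h ω (cl (1 - t') - cl (1 - s t')) = 0` for all `t'`.  `(1 - t') / (1 - s t') = 1 - r`, `r = t' (1 - s) / (1 - s t')`; for every `r ∈ D (1 + g)` there is `t ∈ D 1` with this value: `t = r / (1 - s + s r)` (`v (1 - s + s r) = g`).  So (with `cl_congr` for `t'` instead of `t`)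
`h ω (cl (1 - r)) = 0` for all `r ∈ D (1 + g)`, and `du` with `i = 1 + g ≤ E` gives `ω ∈ W (E - g)`.  `f c - cl (z - c) = κ + ω`, `κ ∈ W E`.

PROOF of `dirOut` (`v (c - b) = n < ν`; claim `f c = cl (z - c) + x • η`).  The same computation with `v s = n - ν < 0`, `v (1 - s) = n - ν`, `t ∈ D (1 + ν - n)`: the elements `(1 - t) / (1 - s t)` cover all `1 - r`, `r ∈ D 1`, so `ω ∈ W E`.
-/

set_option autoImplicit false

namespace WNT

universe u w

namespace Nt

variable {F : Type u} {V : Type w} [Field F] [AddCommGroup V] {p : ℕ} [Module (ZMod p) V]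
  {S : SS F V p} {T : Nt S}

private theorem dirA_key {b z : F} {ν : ℤ} (h : T.Rep b ν z) (hlo : -(2 * S.E) ≤ ν + 1)
    (hN : ν + S.E + 1 ≤ T.N) {c : F} (hc : c ∈ T.A) (hcb : c - b ≠ 0) (hv : S.v (c - b) = ν) {g : ℤ}
    (hzc : z - c ≠ 0) (hvz : S.v (z - c) = ν + g) {k : ZMod p}
    (hk : ∀ a ∈ T.A, a - b ∈ S.D (ν + 1) → T.f a = S.cl (z - a) + k • S.η)
    {t : F} (ht : t ∈ S.D 1) :
    S.h (T.f c - T.f b - S.cl (1 - (c - b) / (z - b)))
      (S.cl (1 - t) - S.cl (1 - (c - b) / (z - b) * t)) = 0 := by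
  obtain ⟨s, hs⟩ : ∃ s, s = (c - b) / (z - b) := ⟨_, rfl⟩
  rw [← hs]
  have hsc : s * (z - b) = c - b := by
    rw [hs]
    exact div_mul_cancel₀ _ h.ne
  have hs0 : s ≠ 0 := by
    rw [hs]
    exact div_ne_zero hcb h.ne
  have hvs : S.v s = 0 := by
    rw [hs, S.v_div _ _ hcb h.ne, hv, h.vz]
    ring
  have hsD : s ∈ S.D 0 := (S.mem_D_of_ne hs0).2 (by rw [hvs])
  have h1s : 1 - s = (z - c) / (z - b) := by
    rw [eq_div_iff h.ne]
    linear_combination -hsc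
  have h1s0 : 1 - s ≠ 0 := by
    rw [h1s]
    exact div_ne_zero hzc h.ne
  have hv1s : S.v (1 - s) = g := by
    rw [h1s, S.v_div _ _ hzc h.ne, hvz, h.vz]
    ring
  obtain ⟨a, ha, -, hat⟩ := near (T := T) (c := c) (t := t) (k := 1) h.bD hcb ht (by rw [hv]; omega)
    (by rw [hv]; exact hN)
  obtain ⟨t', ht'⟩ : ∃ t', t' = (a - b) / (c - b) := ⟨_, rfl⟩
  rw [← ht'] at hat
  have hE := S.E_pos
  have ht'1 : t' ∈ S.D 1 := by
    have h1 := (S.D 1).add_mem (S.D_mono (by omega : (1 : ℤ) ≤ S.E + 1) hat) ht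
    rw [sub_add_cancel] at h1
    exact h1
  have hab : t' * (c - b) = a - b := by
    rw [ht']
    exact div_mul_cancel₀ _ hcb
  have habD : a - b ∈ S.D (ν + 1) := by
    rw [← hab]
    exact S.D_mul' ht'1 ((S.mem_D_of_ne hcb).2 le_rfl) (by rw [hv]; omega)
  have hst' : s * t' ∈ S.D 1 := S.D_mul' hsD ht'1 (by omega)
  have hst : s * t ∈ S.D 1 := S.D_mul' hsD ht (by omega)
  obtain ⟨h1st'0, hv1st'⟩ := S.v_one_sub hst'
  obtain ⟨h1st0, hv1st⟩ := S.v_one_sub hst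
  obtain ⟨h1t'0, hv1t'⟩ := S.v_one_sub ht'1
  obtain ⟨h1t0, hv1t⟩ := S.v_one_sub ht
  have hbb : T.f b = S.cl (z - b) + k • S.η := hk b h.bA (by rw [sub_self]; exact Or.inl rfl)
  have hza : z - a = (z - b) * (1 - s * t') := by
    linear_combination t' * hsc + hab
  have hfa : T.f a = T.f b + S.cl (1 - s * t') := by
    rw [hk a ha habD, hza, S.cl_mul _ _ h.ne h1st'0, hbb]
    abel
  have hca : c - a = (c - b) * (1 - t') := by
    linear_combination hab
  have hca0 : c - a ≠ 0 := by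
    rw [hca]
    exact mul_ne_zero hcb h1t'0
  have hcleq : S.cl (c - b) = S.cl s + S.cl (z - b) := by
    rw [← hsc, S.cl_mul _ _ hs0 h.ne]
  have hclca : S.cl (c - a) = S.cl s + S.cl (z - b) + S.cl (1 - t') := by
    rw [hca, S.cl_mul _ _ hcb h1t'0, hcleq]
  have hr1 := T.rel' hc ha (sub_ne_zero.1 hca0)
  have hr2 := T.rel' hc h.bA (sub_ne_zero.1 hcb)
  have hst3 := S.stein3 hs0 h1s0 h1t'0 h1st'0
  have hst4 : S.h (S.cl (1 - s)) (S.cl s) = 0 := by
    rw [S.anti, S.stein s hs0 h1s0, neg_zero]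
  have hval1 : S.h (S.cl (1 - s)) S.η = -(g : ZMod p) := by
    rw [S.h_eta_right, S.val_cl _ h1s0, hv1s]
  have hval2 : S.h (S.cl (1 - s * t')) S.η = 0 := by
    rw [S.h_eta_right, S.val_cl _ h1st'0, hv1st']
    simp
  obtain ⟨ω, hω⟩ : ∃ ω, ω = T.f c - T.f b - S.cl (1 - s) := ⟨_, rfl⟩
  rw [← hω]
  have e1 : T.f c - T.f a = ω + (S.cl (1 - s) - S.cl (1 - s * t')) := by
    rw [hω, hfa]
    abel
  have e2 : S.cl (c - a) - T.f a =
      (S.cl s + S.cl (1 - t') - S.cl (1 - s * t')) - k • S.η := by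
    rw [hclca, hfa, hbb]
    abel
  have e3 : T.f c - T.f b = ω + S.cl (1 - s) := by
    rw [hω]
    abel
  have e4 : S.cl (c - b) - T.f b = S.cl s - k • S.η := by
    rw [hcleq, hbb]
    abel
  rw [e1, e2] at hr1
  rw [e3, e4] at hr2
  simp only [map_add, map_sub, map_smul, LinearMap.add_apply, LinearMap.sub_apply, smul_eq_mul]
    at hr1 hr2 hst3
  have hmain : S.h ω (S.cl (1 - t')) - S.h ω (S.cl (1 - s * t')) = 0 := by
    rw [hval1, hval2] at hr1
    rw [hval1, hst4] at hr2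
    linear_combination hr1 - hr2 - hst3
  have hc1 : S.cl (1 - t') = S.cl (1 - t) := by
    refine (S.cl_congr h1t0 ?_).2.2
    have h1 : 1 - t' - (1 - t) = -(t' - t) := by ring
    rw [h1, hv1t, zero_add]
    exact (S.D _).neg_mem hat
  have hc2 : S.cl (1 - s * t') = S.cl (1 - s * t) := by
    refine (S.cl_congr h1st0 ?_).2.2
    have h1 : 1 - s * t' - (1 - s * t) = -(s * (t' - t)) := by ring
    rw [h1, hv1st, zero_add]
    exact (S.D _).neg_mem (S.D_mul' hsD hat (by omega))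
  rw [hc1, hc2] at hmain
  rw [map_sub]
  exact hmain

theorem dir {b z : F} {ν : ℤ} (h : T.Rep b ν z) (hlo : -(2 * S.E) ≤ ν + 1)
    (hN : ν + S.E + 1 ≤ T.N) {c : F} (hc : c ∈ T.A) (hcb : c - b ≠ 0) (hv : S.v (c - b) = ν) {g : ℤ}
    (hg : 0 ≤ g) (hgE : g ≤ S.E - 1) (hzc : z - c ≠ 0) (hvz : S.v (z - c) = ν + g) :
    T.f c - S.cl (z - c) ∈ S.W (S.E - g) := by
  obtain ⟨k, hk⟩ := h.rep
  have hbb : T.f b = S.cl (z - b) + k • S.η := hk b h.bA (by rw [sub_self]; exact Or.inl rfl)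
  have key := fun t (ht : t ∈ S.D 1) => dirA_key h hlo hN hc hcb hv hzc hvz hk (t := t) ht
  obtain ⟨s, hs⟩ : ∃ s, s = (c - b) / (z - b) := ⟨_, rfl⟩
  rw [← hs] at key
  have hsc : s * (z - b) = c - b := by
    rw [hs]
    exact div_mul_cancel₀ _ h.ne
  have hs0 : s ≠ 0 := by
    rw [hs]
    exact div_ne_zero hcb h.ne
  have hvs : S.v s = 0 := by
    rw [hs, S.v_div _ _ hcb h.ne, hv, h.vz]
    ring
  have hsD : s ∈ S.D 0 := (S.mem_D_of_ne hs0).2 (by rw [hvs])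
  have h1s : 1 - s = (z - c) / (z - b) := by
    rw [eq_div_iff h.ne]
    linear_combination -hsc
  have h1s0 : 1 - s ≠ 0 := by
    rw [h1s]
    exact div_ne_zero hzc h.ne
  have hv1s : S.v (1 - s) = g := by
    rw [h1s, S.v_div _ _ hzc h.ne, hvz, h.vz]
    ring
  have hω : T.f c - T.f b - S.cl (1 - s) ∈ S.W (S.E + 1 - (1 + g)) := by
    refine S.du (i := 1 + g) (by omega) (by omega) fun r hr => ?_
    have hsr : s * r ∈ S.D (S.v (1 - s) + 1) := S.D_mul' hsD hr (by rw [hv1s]; omega)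
    obtain ⟨hd0, hvd⟩ := S.v_add_eq h1s0 hsr
    have hr1 : r ∈ S.D 1 := S.D_mono (by omega) hr
    obtain ⟨h1r0, -⟩ := S.v_one_sub hr1
    have ht : r / (1 - s + s * r) ∈ S.D 1 := S.D_div' hr hd0 hvd (by rw [hv1s]; omega)
    have hkt := key _ ht
    have h1t0 := S.one_sub_ne ht
    have h1st0 := S.one_sub_ne (S.D_mul' hsD ht (by omega) : s * (r / (1 - s + s * r)) ∈ S.D 1)
    rw [← S.cl_div _ _ h1t0 h1st0] at hkt
    have e : (1 - r / (1 - s + s * r)) / (1 - s * (r / (1 - s + s * r))) = 1 - r := by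
      have hq : r / (1 - s + s * r) * (1 - s + s * r) = r := div_mul_cancel₀ _ hd0
      rw [div_eq_iff h1st0]
      generalize r / (1 - s + s * r) = q at hq
      linear_combination -hq
    rw [e] at hkt
    exact hkt
  have e1 : S.cl (1 - s) = S.cl (z - c) - S.cl (z - b) := by
    rw [h1s, S.cl_div _ _ hzc h.ne]
  have e2 : T.f c - S.cl (z - c) = (T.f c - T.f b - S.cl (1 - s)) + k • S.η := by
    rw [e1, hbb]
    abel
  rw [e2]
  refine (S.W _).add_mem ?_ ((S.W _).smul_mem _ (S.eta_mem_W (by omega)))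
  have e3 : S.E + 1 - (1 + g) = S.E - g := by ring
  rw [e3] at hω
  exact hω

private theorem dirOut_key {b z : F} {ν n : ℤ} (h : T.Rep b ν z) (hlo : -(2 * S.E) ≤ ν + 1)
    (hN : ν + S.E + 1 ≤ T.N) {c : F} (hc : c ∈ T.A) (hcb : c - b ≠ 0) (hv : S.v (c - b) = n)
    (hn : n < ν) {k : ZMod p}
    (hk : ∀ a ∈ T.A, a - b ∈ S.D (ν + 1) → T.f a = S.cl (z - a) + k • S.η)
    {t : F} (ht : t ∈ S.D (1 + ν - n)) :
    S.h (T.f c - T.f b - S.cl (1 - (c - b) / (z - b)))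
      (S.cl (1 - t) - S.cl (1 - (c - b) / (z - b) * t)) = 0 := by
  obtain ⟨s, hs⟩ : ∃ s, s = (c - b) / (z - b) := ⟨_, rfl⟩
  rw [← hs]
  have hsc : s * (z - b) = c - b := by
    rw [hs]
    exact div_mul_cancel₀ _ h.ne
  have hs0 : s ≠ 0 := by
    rw [hs]
    exact div_ne_zero hcb h.ne
  have hvs : S.v s = n - ν := by
    rw [hs, S.v_div _ _ hcb h.ne, hv, h.vz]
  have hsD : s ∈ S.D (n - ν) := (S.mem_D_of_ne hs0).2 (by rw [hvs])
  obtain ⟨h1s0, hv1s⟩ : 1 - s ≠ 0 ∧ S.v (1 - s) = n - ν := by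
    have h1 := S.v_add_eq (x := -s) (y := 1) (neg_ne_zero.2 hs0) (by
      rw [S.v_neg _ hs0, hvs]
      exact S.D_mono (by omega) S.one_mem_D)
    rw [S.v_neg _ hs0, hvs] at h1
    have e : -s + 1 = 1 - s := by ring
    rw [e] at h1
    exact h1
  obtain ⟨a, ha, haN, -⟩ := near (T := T) (c := c) (t := t) (k := 1 + ν - n) h.bD hcb ht
    (by rw [hv]; omega) (by rw [hv]; omega)
  obtain ⟨t', ht'⟩ : ∃ t', t' = (a - b) / (c - b) := ⟨_, rfl⟩
  have hE := S.E_pos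
  have hab : t' * (c - b) = a - b := by
    rw [ht']
    exact div_mul_cancel₀ _ hcb
  have hδ : (t' - t) * (c - b) ∈ S.D T.N := by
    have e : (t' - t) * (c - b) = a - (b + t * (c - b)) := by
      rw [sub_mul, hab]
      ring
    rw [e]
    exact haN
  have hδt : t' - t ∈ S.D (S.E + 1) := by
    have h1 := S.D_div' (k := S.E + 1) hδ hcb hv (by omega)
    rwa [mul_div_cancel_right₀ _ hcb] at h1
  have hδst : s * (t' - t) ∈ S.D (S.E + 1) := by
    have h1 := S.D_div' (k := S.E + 1) hδ h.ne h.vz (by omega)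
    have e : (t' - t) * (c - b) / (z - b) = s * (t' - t) := by
      rw [hs]
      ring
    rwa [e] at h1
  have ht1 : t ∈ S.D 1 := S.D_mono (by omega) ht
  have hst : s * t ∈ S.D 1 := S.D_mul' hsD ht (by omega)
  have ht'1 : t' ∈ S.D 1 := by
    have h1 := (S.D 1).add_mem (S.D_mono (by omega : (1 : ℤ) ≤ S.E + 1) hδt) ht1
    rw [sub_add_cancel] at h1
    exact h1
  have hst' : s * t' ∈ S.D 1 := by
    have h1 := (S.D 1).add_mem (S.D_mono (by omega : (1 : ℤ) ≤ S.E + 1) hδst) hst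
    have e : s * (t' - t) + s * t = s * t' := by ring
    rw [e] at h1
    exact h1
  have habD : a - b ∈ S.D (ν + 1) := by
    have e : a - b = s * t' * (z - b) := by
      rw [← hab, ← hsc]
      ring
    rw [e]
    exact S.D_mul' hst' ((S.mem_D_of_ne h.ne).2 le_rfl) (by rw [h.vz]; omega)
  obtain ⟨h1st'0, hv1st'⟩ := S.v_one_sub hst'
  obtain ⟨h1st0, hv1st⟩ := S.v_one_sub hst
  obtain ⟨h1t'0, hv1t'⟩ := S.v_one_sub ht'1
  obtain ⟨h1t0, hv1t⟩ := S.v_one_sub ht1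
  have hbb : T.f b = S.cl (z - b) + k • S.η := hk b h.bA (by rw [sub_self]; exact Or.inl rfl)
  have hza : z - a = (z - b) * (1 - s * t') := by
    linear_combination t' * hsc + hab
  have hfa : T.f a = T.f b + S.cl (1 - s * t') := by
    rw [hk a ha habD, hza, S.cl_mul _ _ h.ne h1st'0, hbb]
    abel
  have hca : c - a = (c - b) * (1 - t') := by
    linear_combination hab
  have hca0 : c - a ≠ 0 := by
    rw [hca]
    exact mul_ne_zero hcb h1t'0
  have hcleq : S.cl (c - b) = S.cl s + S.cl (z - b) := by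
    rw [← hsc, S.cl_mul _ _ hs0 h.ne]
  have hclca : S.cl (c - a) = S.cl s + S.cl (z - b) + S.cl (1 - t') := by
    rw [hca, S.cl_mul _ _ hcb h1t'0, hcleq]
  have hr1 := T.rel' hc ha (sub_ne_zero.1 hca0)
  have hr2 := T.rel' hc h.bA (sub_ne_zero.1 hcb)
  have hst3 := S.stein3 hs0 h1s0 h1t'0 h1st'0
  have hst4 : S.h (S.cl (1 - s)) (S.cl s) = 0 := by
    rw [S.anti, S.stein s hs0 h1s0, neg_zero]
  have hval1 : S.h (S.cl (1 - s)) S.η = -((n - ν : ℤ) : ZMod p) := by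
    rw [S.h_eta_right, S.val_cl _ h1s0, hv1s]
  have hval2 : S.h (S.cl (1 - s * t')) S.η = 0 := by
    rw [S.h_eta_right, S.val_cl _ h1st'0, hv1st']
    simp
  obtain ⟨ω, hω⟩ : ∃ ω, ω = T.f c - T.f b - S.cl (1 - s) := ⟨_, rfl⟩
  rw [← hω]
  have e1 : T.f c - T.f a = ω + (S.cl (1 - s) - S.cl (1 - s * t')) := by
    rw [hω, hfa]
    abel
  have e2 : S.cl (c - a) - T.f a =
      (S.cl s + S.cl (1 - t') - S.cl (1 - s * t')) - k • S.η := by
    rw [hclca, hfa, hbb]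
    abel
  have e3 : T.f c - T.f b = ω + S.cl (1 - s) := by
    rw [hω]
    abel
  have e4 : S.cl (c - b) - T.f b = S.cl s - k • S.η := by
    rw [hcleq, hbb]
    abel
  rw [e1, e2] at hr1
  rw [e3, e4] at hr2
  simp only [map_add, map_sub, map_smul, LinearMap.add_apply, LinearMap.sub_apply, smul_eq_mul]
    at hr1 hr2 hst3
  have hmain : S.h ω (S.cl (1 - t')) - S.h ω (S.cl (1 - s * t')) = 0 := by
    rw [hval1, hval2] at hr1
    rw [hval1, hst4] at hr2
    linear_combination hr1 - hr2 - hst3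
  have hc1 : S.cl (1 - t') = S.cl (1 - t) := by
    refine (S.cl_congr h1t0 ?_).2.2
    have h1 : 1 - t' - (1 - t) = -(t' - t) := by ring
    rw [h1, hv1t, zero_add]
    exact (S.D _).neg_mem hδt
  have hc2 : S.cl (1 - s * t') = S.cl (1 - s * t) := by
    refine (S.cl_congr h1st0 ?_).2.2
    have h1 : 1 - s * t' - (1 - s * t) = -(s * (t' - t)) := by ring
    rw [h1, hv1st, zero_add]
    exact (S.D _).neg_mem hδst
  rw [hc1, hc2] at hmain
  rw [map_sub]
  exact hmain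

/-- the direction of infinity -/
theorem dirOut {b z : F} {ν n : ℤ} (h : T.Rep b ν z) (hlo : -(2 * S.E) ≤ ν + 1)
    (hN : ν + S.E + 1 ≤ T.N) {c : F} (hc : c ∈ T.A) (hcb : c - b ≠ 0) (hv : S.v (c - b) = n)
    (hn : n < ν) : ∃ x : ZMod p, T.f c = S.cl (z - c) + x • S.η := by
  obtain ⟨k, hk⟩ := h.rep
  have hE := S.E_pos
  have hbb : T.f b = S.cl (z - b) + k • S.η := hk b h.bA (by rw [sub_self]; exact Or.inl rfl)
  have key := fun t (ht : t ∈ S.D (1 + ν - n)) => dirOut_key h hlo hN hc hcb hv hn hk (t := t) ht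
  obtain ⟨s, hs⟩ : ∃ s, s = (c - b) / (z - b) := ⟨_, rfl⟩
  rw [← hs] at key
  have hsc : s * (z - b) = c - b := by
    rw [hs]
    exact div_mul_cancel₀ _ h.ne
  have hs0 : s ≠ 0 := by
    rw [hs]
    exact div_ne_zero hcb h.ne
  have hvs : S.v s = n - ν := by
    rw [hs, S.v_div _ _ hcb h.ne, hv, h.vz]
  have hsD : s ∈ S.D (n - ν) := (S.mem_D_of_ne hs0).2 (by rw [hvs])
  obtain ⟨h1s0, hv1s⟩ : 1 - s ≠ 0 ∧ S.v (1 - s) = n - ν := by
    have h1 := S.v_add_eq (x := -s) (y := 1) (neg_ne_zero.2 hs0) (by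
      rw [S.v_neg _ hs0, hvs]
      exact S.D_mono (by omega) S.one_mem_D)
    rw [S.v_neg _ hs0, hvs] at h1
    have e : -s + 1 = 1 - s := by ring
    rw [e] at h1
    exact h1
  have hzc : z - c = (z - b) * (1 - s) := by
    linear_combination hsc
  have hω : T.f c - T.f b - S.cl (1 - s) ∈ S.W (S.E + 1 - 1) := by
    refine S.du (i := 1) le_rfl (by omega) fun r hr => ?_
    have hsr : s * r ∈ S.D (S.v (1 - s) + 1) := S.D_mul' hsD hr (by rw [hv1s])
    obtain ⟨hd0, hvd⟩ := S.v_add_eq h1s0 hsr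
    obtain ⟨h1r0, -⟩ := S.v_one_sub hr
    have ht : r / (1 - s + s * r) ∈ S.D (1 + ν - n) := S.D_div' hr hd0 hvd (by rw [hv1s]; omega)
    have hkt := key _ ht
    have h1t0 := S.one_sub_ne (S.D_mono (by omega : (1 : ℤ) ≤ 1 + ν - n) ht)
    have h1st0 := S.one_sub_ne (S.D_mul' hsD ht (by omega) : s * (r / (1 - s + s * r)) ∈ S.D 1)
    rw [← S.cl_div _ _ h1t0 h1st0] at hkt
    have e : (1 - r / (1 - s + s * r)) / (1 - s * (r / (1 - s + s * r))) = 1 - r := by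
      have hq : r / (1 - s + s * r) * (1 - s + s * r) = r := div_mul_cancel₀ _ hd0
      rw [div_eq_iff h1st0]
      generalize r / (1 - s + s * r) = q at hq
      linear_combination -hq
    rw [e] at hkt
    exact hkt
  rw [add_sub_cancel_right] at hω
  obtain ⟨x, hx⟩ := S.W_E hω
  refine ⟨k + x, ?_⟩
  rw [hzc, S.cl_mul _ _ h.ne h1s0, add_smul, ← hx, hbb]
  abel

end Nt

end WNT
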