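import Pool.Agent.WNT.DirA

/-!
# WNT / DirB: the direction of `z`

PROOF of `dirB` (`Rep b ν z`, `Gd c₁ m₁`, `z - c₁ ∈ D (ν + 1)`; claim `ν + 1 ≤ m₁ - 1 - E`).  `v (c₁ - b) = ν` (`c₁ - b = (z - b) - (z - c₁)`).  `rep_of_gd`: `Rep c₁ ν₁ z₁`, `ν₁ = m₁ - 1 - E`.
(i) `ν₁ < ν` is impossible: `b - c₁ ∈ D ν ⊆ D (ν₁ + 1)`, `rep_move`: `Rep b ν₁ z₁`, `rep_nu`: `ν₁ = ν`.
(ii) `ν₁ = ν` is impossible: take `c ∈ A` near `z - pi ^ (ν + 1)`: `v (z - c) = ν + 1`, `c - c₁ ∈ D (ν + 1)`.  By `dir` (`g = 1`) `val (f c) = ν + 1`, by `Rep c₁ ν z₁` `val (f c) = v (z₁ - c) = ν`.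

PROOF of `dirC` (`v (z - c₁) = ν + 1`; claim `m₁ = ν + E + 2`).  `dirB`: `ν₁ ≥ ν + 1`.  Suppose `ν₁ ≥ ν + 2`.  `val (f c₁) = ν + 1` (`dir`, `g = 1`) and `= ν₁` (`Rep c₁ ν₁ z₁`).  Let `a ∈ A`, `a - b ∈ D (ν + 1)`: `v (a - c₁) = ν < ν₁`, `dirOut`: `f a = cl (z₁ - a) + x • η`.  `rel' a c₁` with
`s = (a - c₁) / (z₁ - c₁)`, `v s = v (1 - s) = ν - ν₁`, `f c₁ = cl (z₁ - c₁) + k₁ • η`: `h (cl (1 - s) + (x - k₁) • η) (cl s - k₁ • η) = 0` gives `(ν - ν₁) x = 0`, so `x = 0` (`ν₁ ≡ ν + 1`).  So `f a = cl (z₁ - a)` on the ball `b + D (ν + 1)`, `rep_diff2`: `z₁ - z ∈ D (ν + E) ⊆ D (ν + 2)`.  But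
`v (z - c₁) = ν + 1`, `v (z₁ - c₁) = ν₁ ≥ ν + 2`: contradiction.

PROOF of `dirD`.  For a point `y` with `v (z - y) = ν + 1` the function `f` is not constant on `y + D ν` (it contains `b + D (ν + E)`), so `exists_gd` (`c = y`, `n = ν + 2`, `l = ν`) gives `Gd b' m'` with `b' - y ∈ D (ν + 2)`, so `v (z - b') = ν + 1`, `dirC`: `m' = ν + E + 2`, and
`rep_of_gd`: `Rep b' (ν + 1) z'`.  Start with `y = z - pi ^ (ν + 1)`.  Claim `z' - z ∈ D (ν + 2)`: `v (z' - b') = ν + 1 = v (z - b')`, so `z' - z ∈ D (ν + 1)`.  If `v (z' - z) = ν + 1` apply the same to `y = z'`: `Gd b'' m''`, `b'' - z' ∈ D (ν + 2)`, `v (z - b'') = ν + 1`, `m'' = ν + E + 2`.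
But `dirB` for `Rep b' (ν + 1) z'` and `c₁ = b''` gives `ν + 2 ≤ m'' - 1 - E`, contradiction.
-/

set_option autoImplicit false

namespace WNT

universe u w

namespace Nt

variable {F : Type u} {V : Type w} [Field F] [AddCommGroup V] {p : ℕ} [Module (ZMod p) V]
  {S : SS F V p} {T : Nt S}

private theorem dirB_card : 0 ≤ (S.E + 2) * (Nat.card V : ℤ) := by
  have h := S.E_pos
  positivity

/-- the valuation of `x - y` if `y` is smaller -/
private theorem dirB_sub {x y : F} {n : ℤ} (hx : x ≠ 0) (hv : S.v x = n) (hy : y ∈ S.D (n + 1)) :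
    x - y ≠ 0 ∧ S.v (x - y) = n := by
  have h := S.v_add_eq (x := x) (y := -y) hx (by rw [hv]; exact (S.D (n + 1)).neg_mem hy)
  rw [← sub_eq_add_neg, hv] at h
  exact h

private theorem dirB_not {x : F} {n : ℤ} (hx : x ≠ 0) (hv : S.v x = n) : x ∉ S.D (n + 1) := by
  intro h
  have := S.le_v h hx
  omega

private theorem dirB_in {x : F} {n : ℤ} (hv : S.v x = n) : x ∈ S.D n := Or.inr hv.ge

/-- the class of a point with a representation -/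
private theorem dirB_val {b z : F} {ν : ℤ} (h : T.Rep b ν z) {a : F} (ha : a ∈ T.A)
    (hab : a - b ∈ S.D (ν + 1)) : S.val (T.f a) = (ν : ZMod p) := by
  obtain ⟨k, hk⟩ := h.rep
  obtain ⟨h1, h2⟩ := dirB_sub h.ne h.vz hab
  rw [sub_sub_sub_cancel_right] at h1 h2
  rw [hk a ha hab, map_add, map_smul, S.val_eta, smul_zero, add_zero, S.val_cl _ h1, h2]

theorem dirB {b z : F} {ν : ℤ} (h : T.Rep b ν z) (hlo : -S.E ≤ ν)
    (hN : ν + 1 + (S.E + 2) * Nat.card V ≤ T.N - S.E - 1) {c₁ : F} {m₁ : ℤ} (hc : T.Gd c₁ m₁)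
    (hz : z - c₁ ∈ S.D (ν + 1)) : ν + 1 ≤ m₁ - 1 - S.E := by
  have hE := S.two_le_E
  have hcard : 0 ≤ (S.E + 2) * (Nat.card V : ℤ) := dirB_card
  have hlo1 := hc.lo
  have hhi1 := hc.hi
  obtain ⟨z₁, h₁⟩ := rep_of_gd hc
  obtain ⟨hcb0, hcb⟩ := dirB_sub h.ne h.vz hz
  rw [sub_sub_sub_cancel_left] at hcb0 hcb
  have hbc : b - c₁ ∈ S.D ν := by
    have := (S.D ν).neg_mem (dirB_in hcb)
    rwa [neg_sub] at this
  by_contra hcon
  rw [not_le] at hcon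
  rcases (show m₁ - 1 - S.E < ν ∨ m₁ - 1 - S.E = ν by omega) with hlt | heq
  · have h2 := rep_move h₁ h.bA h.bD (S.D_mono (by omega) hbc)
    have h3 := rep_nu h h2 (by omega) (by omega) (by omega) (by omega)
    omega
  · rw [heq] at h₁
    have hzD : z ∈ S.D (-(2 * S.E)) := by
      have h2 := (S.D (-(2 * S.E))).add_mem (S.D_mono (by omega) (dirB_in h.vz)) h.bD
      rwa [sub_add_cancel] at h2
    have hpD : S.pi ^ (ν + 1) ∈ S.D (ν + 1) := dirB_in (S.v_pi_zpow _)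
    obtain ⟨c, hcA, hcN⟩ := T.net (z - S.pi ^ (ν + 1))
      ((S.D _).sub_mem hzD (S.D_mono (by omega) hpD))
    obtain ⟨hzc0, hzcv⟩ := dirB_sub (S := S) (S.pi_zpow_ne (ν + 1)) (S.v_pi_zpow _)
      (S.D_mono (by omega : ν + 1 + 1 ≤ T.N) hcN)
    have e1 : S.pi ^ (ν + 1) - (c - (z - S.pi ^ (ν + 1))) = z - c := by ring
    rw [e1] at hzc0 hzcv
    obtain ⟨hcb1, hcb2⟩ := dirB_sub h.ne h.vz (dirB_in hzcv)
    rw [sub_sub_sub_cancel_left] at hcb1 hcb2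
    have d1 := dir h (by omega) (by omega) hcA hcb1 hcb2 (g := 1) (by omega) (by omega) hzc0 hzcv
    have h2 := S.val_W (by omega) d1
    rw [map_sub, S.val_cl _ hzc0, hzcv] at h2
    have hcc : c - c₁ ∈ S.D (ν + 1) := by
      have h3 := (S.D (ν + 1)).sub_mem hz (dirB_in hzcv)
      rwa [sub_sub_sub_cancel_left] at h3
    rw [dirB_val h₁ hcA hcc] at h2
    have : Fact (1 < p) := ⟨S.prime.one_lt⟩
    refine one_ne_zero (α := ZMod p) ?_
    push_cast at h2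
    linear_combination -h2

theorem dirC {b z : F} {ν : ℤ} (h : T.Rep b ν z) (hlo : -S.E ≤ ν)
    (hN : ν + 1 + (S.E + 2) * Nat.card V ≤ T.N - S.E - 1) {c₁ : F} {m₁ : ℤ} (hc : T.Gd c₁ m₁)
    (hzc : z - c₁ ≠ 0) (hz : S.v (z - c₁) = ν + 1) : m₁ = ν + S.E + 2 := by
  have hE := S.two_le_E
  have hcard : 0 ≤ (S.E + 2) * (Nat.card V : ℤ) := dirB_card
  have hhi1 := hc.hi
  have hB := dirB h hlo hN hc (dirB_in hz)
  obtain ⟨z₁, h₁⟩ := rep_of_gd hc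
  by_contra hne
  have hν : ν + 2 ≤ m₁ - 1 - S.E := by omega
  obtain ⟨hb1, hb1v⟩ := dirB_sub h.ne h.vz (dirB_in hz)
  rw [sub_sub_sub_cancel_left] at hb1 hb1v
  -- the valuation of `f c₁`
  have d1 := dir h (by omega) (by omega) hc.bA hb1 hb1v (g := 1) (by omega) (by omega) hzc hz
  have hv1 := S.val_W (by omega) d1
  rw [map_sub, S.val_cl _ hzc, hz] at hv1
  have hcc : c₁ - c₁ ∈ S.D (m₁ - 1 - S.E + 1) := by
    rw [sub_self]
    exact (S.D _).zero_mem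
  have hv2 := dirB_val h₁ hc.bA hcc
  rw [hv2] at hv1
  obtain ⟨k₁, hk₁⟩ := h₁.rep
  have hfc := hk₁ c₁ hc.bA hcc
  -- the values of `f` on the ball of `b`
  have hfa : ∀ a ∈ T.A, a - b ∈ S.D (ν + 1) → T.f a = S.cl (z₁ - a) + (0 : ZMod p) • S.η := by
    intro a ha hab
    have hac : a - c₁ ≠ 0 ∧ S.v (a - c₁) = ν := by
      obtain ⟨h2, h3⟩ := dirB_sub hb1 hb1v hab
      rw [sub_sub_sub_cancel_right] at h2 h3
      have h4 : a - c₁ = -(c₁ - a) := by ring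
      rw [h4, S.v_neg _ h2]
      exact ⟨neg_ne_zero.2 h2, h3⟩
    obtain ⟨x, hx⟩ := dirOut h₁ (by omega) (by omega) ha hac.1 hac.2 (by omega)
    rw [hx]
    have hr := T.rel' ha hc.bA (sub_ne_zero.1 hac.1)
    obtain ⟨s, hs⟩ : ∃ s, s = (a - c₁) / (z₁ - c₁) := ⟨_, rfl⟩
    have hsc : s * (z₁ - c₁) = a - c₁ := by
      rw [hs]
      exact div_mul_cancel₀ _ h₁.ne
    have hs0 : s ≠ 0 := by
      rw [hs]
      exact div_ne_zero hac.1 h₁.ne
    have hvs : S.v s = ν - (m₁ - 1 - S.E) := by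
      rw [hs, S.v_div _ _ hac.1 h₁.ne, hac.2, h₁.vz]
    obtain ⟨h1s0, hv1s⟩ : 1 - s ≠ 0 ∧ S.v (1 - s) = ν - (m₁ - 1 - S.E) := by
      have h1 := S.v_add_eq (x := -s) (y := 1) (neg_ne_zero.2 hs0) (by
        rw [S.v_neg _ hs0, hvs]
        exact S.D_mono (by omega) S.one_mem_D)
      rw [S.v_neg _ hs0, hvs] at h1
      have e : -s + 1 = 1 - s := by ring
      rw [e] at h1
      exact h1
    have hza : z₁ - a = (z₁ - c₁) * (1 - s) := by
      linear_combination hsc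
    have hst := S.stein s hs0 h1s0
    have hst' := S.anti (S.cl (1 - s)) (S.cl s)
    rw [hst, neg_zero] at hst'
    have e1 : T.f a - T.f c₁ = S.cl (1 - s) + (x - k₁) • S.η := by
      rw [hx, hfc, hza, S.cl_mul _ _ h₁.ne h1s0, sub_smul]
      abel
    have e2 : S.cl (a - c₁) - T.f c₁ = S.cl s - k₁ • S.η := by
      rw [hfc, ← hsc, S.cl_mul _ _ hs0 h₁.ne]
      abel
    have hη1 : S.h S.η (S.cl s) = ((ν - (m₁ - 1 - S.E) : ℤ) : ZMod p) := by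
      have := S.val_cl s hs0
      rw [hvs] at this
      exact this
    have hη2 : S.h (S.cl (1 - s)) S.η = -((ν - (m₁ - 1 - S.E) : ℤ) : ZMod p) := by
      rw [S.h_eta_right, S.val_cl _ h1s0, hv1s]
    have hη3 : S.h S.η S.η = 0 := S.val_eta
    rw [e1, e2] at hr
    simp only [map_add, map_sub, map_smul, LinearMap.add_apply, LinearMap.sub_apply,
      LinearMap.smul_apply, smul_eq_mul, hst', hη1, hη2, hη3] at hr
    have hx0 : x = 0 := by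
      have h5 : ((ν - (m₁ - 1 - S.E) : ℤ) : ZMod p) = -1 := by
        push_cast at hv1 ⊢
        linear_combination -hv1
      rw [h5] at hr
      linear_combination -hr
    rw [hx0]
  have hz₁b : z₁ - b ≠ 0 ∧ S.v (z₁ - b) = ν := by
    obtain ⟨h2, h3⟩ := dirB_sub (S := S) (x := c₁ - b) (y := c₁ - z₁) hb1 hb1v (by
      have := (S.D (ν + 1)).neg_mem (S.D_mono (by omega) (dirB_in h₁.vz))
      rwa [neg_sub] at this)
    rw [sub_sub_sub_cancel_left] at h2 h3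
    exact ⟨h2, h3⟩
  have h5 := rep_diff2 h (by omega) (by omega) hz₁b.1 hz₁b.2 0 hfa
  have h6 := (S.D (ν + 2)).sub_mem (S.D_mono (by omega) (dirB_in h₁.vz))
    (S.D_mono (by omega) h5 : z₁ - z ∈ S.D (ν + 2))
  rw [sub_sub_sub_cancel_left] at h6
  exact dirB_not hzc hz (by rw [show ν + 1 + 1 = ν + 2 by ring]; exact h6)

private theorem dirD_aux {b z : F} {ν : ℤ} (h : T.Rep b ν z) (hlo : -S.E ≤ ν)
    (hN : ν + 2 + (S.E + 2) * Nat.card V ≤ T.N - S.E - 1) {y : F} (hy : z - y ≠ 0)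
    (hyv : S.v (z - y) = ν + 1) :
    ∃ b' z', T.Gd b' (ν + S.E + 2) ∧ T.Rep b' (ν + 1) z' ∧ b' - y ∈ S.D (ν + 2) ∧ z - b' ≠ 0 ∧
      S.v (z - b') = ν + 1 := by
  have hE := S.two_le_E
  have hcard : 0 ≤ (S.E + 2) * (Nat.card V : ℤ) := dirB_card
  have hyb : y - b ∈ S.D ν := by
    have h2 := (S.D ν).sub_mem (dirB_in h.vz) (S.D_mono (by omega) (dirB_in hyv))
    rwa [sub_sub_sub_cancel_left] at h2
  have hyD : y ∈ S.D (-(2 * S.E)) := by
    have h2 := (S.D (-(2 * S.E))).add_mem (S.D_mono (by omega) hyb) h.bD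
    rwa [sub_add_cancel] at h2
  have hnc : ¬ T.Cst y ν := by
    intro h2
    exact rep_ncst h (by omega) (by omega) (Cst_mono (Cst_center hyb h2) (by omega))
  obtain ⟨b', m', hg, hb', -, -⟩ := exists_gd (n := ν + 2) (l := ν) hyD (by omega) hN (by omega)
    (by omega) hnc
  obtain ⟨hz0, hzv⟩ := dirB_sub hy hyv (y := b' - y) (S.D_mono (by omega) hb')
  rw [sub_sub_sub_cancel_right] at hz0 hzv
  have hm := dirC h hlo (by omega) hg hz0 hzv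
  subst hm
  obtain ⟨z', hz'⟩ := rep_of_gd hg
  rw [show ν + S.E + 2 - 1 - S.E = ν + 1 by ring] at hz'
  exact ⟨b', z', hg, hz', hb', hz0, hzv⟩

theorem dirD {b z : F} {ν : ℤ} (h : T.Rep b ν z) (hlo : -S.E ≤ ν)
    (hN : ν + 2 + (S.E + 2) * Nat.card V ≤ T.N - S.E - 1) :
    ∃ b' z', T.Rep b' (ν + 1) z' ∧ z' - z ∈ S.D (ν + 2) := by
  have hpi : z - (z - S.pi ^ (ν + 1)) = S.pi ^ (ν + 1) := by ring
  obtain ⟨b', z', -, hr', -, hzb0, hzbv⟩ := dirD_aux h hlo hN (y := z - S.pi ^ (ν + 1))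
    (by rw [hpi]; exact S.pi_zpow_ne _) (by rw [hpi]; exact S.v_pi_zpow _)
  refine ⟨b', z', hr', ?_⟩
  by_contra hcon
  have h1 : z' - z ∈ S.D (ν + 1) := by
    have h2 := (S.D (ν + 1)).sub_mem (dirB_in hr'.vz) (dirB_in hzbv)
    rwa [sub_sub_sub_cancel_right] at h2
  have h2 : z' - z ≠ 0 := S.ne_of_not_mem hcon
  have h3 : S.v (z' - z) = ν + 1 := S.v_eq_of h1 (by rwa [add_assoc])
  have h4 : z - z' ≠ 0 := by
    intro h5
    exact h2 (by linear_combination -h5)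
  have h5 : S.v (z - z') = ν + 1 := by
    rw [← neg_sub, S.v_neg _ h2, h3]
  obtain ⟨b₂, z₂, hg, -, hb₂, -, -⟩ := dirD_aux h hlo hN h4 h5
  have h6 : z' - b₂ ∈ S.D (ν + 1 + 1) := by
    have h7 := (S.D (ν + 2)).neg_mem hb₂
    rw [neg_sub] at h7
    exact S.D_mono (by omega) h7
  have h7 := dirB hr' (by omega) (by omega) hg h6
  omega

end Nt

end WNT
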