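import Pool.Agent.WNT.W

/-!
# WNT / Ex: a function which is `a ↦ cl (z - a)` outside a ball: going inside

`Rels S A f`: the relations.  `Kn S A f z ν`: `f a = cl (z - a)` for `a ∈ A` with `v (z - a) ≤ ν`.  `Fu S A y i j`: around `y`, in the levels `l ∈ [i, j]`, all directions meet `A`.
-/

set_option autoImplicit false

namespace WNT

universe u w

variable {F : Type u} {V : Type w} [Field F] [AddCommGroup V] {p : ℕ} [Module (ZMod p) V]

/-- the relations of `f` on `A` -/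
def Rels (S : SS F V p) (A : Set F) (f : F → V) : Prop :=
  ∀ a ∈ A, ∀ b ∈ A, a ≠ b → S.h (f a - S.cl (b - a)) (f b - S.cl (a - b)) = 0

/-- `f a = cl (z - a)` for all `a ∈ A` with `v (z - a) ≤ ν` -/
def Kn (S : SS F V p) (A : Set F) (f : F → V) (z : F) (ν : ℤ) : Prop :=
  ∀ a ∈ A, z - a ∉ S.D (ν + 1) → f a = S.cl (z - a)

/-- around `y`, all directions in the levels `i, ..., j` meet `A` -/
def Fu (S : SS F V p) (A : Set F) (y : F) (i j : ℤ) : Prop :=
  ∀ c : F, c ≠ 0 → i ≤ S.v c → S.v c ≤ j → ∃ a ∈ A, a - (y + c) ∈ S.D (S.v c + 1)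

variable {S : SS F V p} {A : Set F} {f : F → V}

theorem Kn.mono {z : F} {ν ν' : ℤ} (h : Kn S A f z ν) (hν : ν' ≤ ν) : Kn S A f z ν' :=
  fun a ha hza => h a ha fun h1 => hza (S.D_mono (by omega) h1)

theorem Fu.mono {y : F} {i j i' j' : ℤ} (h : Fu S A y i j) (hi : i ≤ i') (hj : j' ≤ j) :
    Fu S A y i' j' := fun c hc h1 h2 => h c hc (hi.trans h1) (h2.trans hj)

/-- `Kn` only depends on `z` modulo `D (ν + E + 1)` -/
theorem Kn.congr {z z' : F} {ν : ℤ} (h : Kn S A f z ν) (hz : z' - z ∈ S.D (ν + S.E + 1)) :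
    Kn S A f z' ν := by
  intro a ha hza
  have hE := S.E_pos
  have h1 : z - a ∉ S.D (ν + 1) := by
    intro h1
    apply hza
    have h2 := (S.D (ν + 1)).add_mem (S.D_mono (by omega) hz) h1
    rwa [sub_add_sub_cancel] at h2
  have h2 := S.v_lt_of_not_mem h1
  have h3 := S.cl_congr (x := z - a) (y := z' - a) (S.ne_of_not_mem h1) (by
    rw [sub_sub_sub_cancel_right]
    exact S.D_mono (by omega) hz)
  rw [h a ha h1, h3.2.2]

/-- the defect at `b` is orthogonal to `(z - a) / (b - a)` for the known `a` -/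
theorem wrel (hr : Rels S A f) {z a b : F} (ha : a ∈ A) (hb : b ∈ A) (hab : a ≠ b) (hza : z ≠ a)
    (hzb : z ≠ b) (hfa : f a = S.cl (z - a)) :
    S.h (f b - S.cl (z - b)) (S.cl (z - a) - S.cl (b - a)) = 0 := by
  have h1 := hr a ha b hb hab
  have h2 := S.stein2 hab hza hzb
  rw [hfa] at h1
  have h3 : f b - S.cl (a - b) = (f b - S.cl (z - b)) + (S.cl (z - b) - S.cl (a - b)) := by abel
  rw [h3, map_add, h2, add_zero] at h1
  rw [S.anti, h1, neg_zero]

/-- a version of `du` with only one `u` in each direction -/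
theorem du' (S : SS F V p) {i : ℤ} (hi : 1 ≤ i) (hiE : i ≤ S.E) {w : V}
    (h : ∀ c : F, c ≠ 0 → i ≤ S.v c → S.v c ≤ S.E →
      ∃ u, u - c ∈ S.D (S.v c + 1) ∧ S.h w (S.cl (1 - u)) = 0) : w ∈ S.W (S.E + 1 - i) := by
  have key : ∀ n : ℕ, i ≤ S.E + 1 - n → ∀ u ∈ S.D (S.E + 1 - n), S.h w (S.cl (1 - u)) = 0 := by
    intro n
    induction n with
    | zero =>
      intro _ u hu
      rw [Nat.cast_zero, sub_zero] at hu
      rw [S.cl_big u hu, map_zero]
    | succ n ih =>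
      intro hn u hu
      push_cast at hn hu
      by_cases hu0 : u = 0
      · rw [hu0, sub_zero, S.cl_one, map_zero]
      have h1 := S.le_v hu hu0
      by_cases h2 : S.E + 1 - n ≤ S.v u
      · exact ih (by omega) u (Or.inr h2)
      have h3 : S.v u = S.E - n := by omega
      obtain ⟨u', hu', h4⟩ := h u hu0 (by omega) (by omega)
      rw [h3] at hu'
      have hu1 : u ∈ S.D 1 := Or.inr (by omega)
      have hu'1 : u' ∈ S.D 1 := by
        have h5 := (S.D 1).add_mem (S.D_mono (by omega) hu') hu1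
        rwa [sub_add_cancel] at h5
      have h5 := S.v_one_sub hu'1
      have h6 : (u - u') / (1 - u') ∈ S.D (S.E + 1 - n) := by
        have h7 : u - u' ∈ S.D (S.E - n + 1) := by
          have h8 := (S.D (S.E - n + 1)).neg_mem hu'
          rwa [neg_sub] at h8
        exact S.D_div' h7 h5.1 h5.2 (by omega)
      have h7 : 1 - u = (1 - u') * (1 - (u - u') / (1 - u')) := by
        have := h5.1
        field_simp
        ring
      rw [h7, S.cl_mul _ _ h5.1 (S.one_sub_ne (S.D_mono (by omega) h6)), map_add, h4,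
        ih (by omega) _ h6, add_zero]
  apply S.du hi hiE
  intro u hu
  have h1 := key (S.E + 1 - i).toNat (by rw [Int.toNat_of_nonneg (by omega)]; omega) u
  rw [Int.toNat_of_nonneg (by omega)] at h1
  exact h1 (by rw [sub_sub_cancel]; exact hu)

/-- the defect at a point `b` in the inside -/
theorem wmem (hr : Rels S A f) {z b : F} {ν μ : ℤ} (hb : b ∈ A) (hzb : z ≠ b)
    (hμ : S.v (z - b) = μ) (h1 : ν < μ) (h2 : μ ≤ ν + S.E) (hk : Kn S A f z ν)
    (hf : Fu S A b (μ - S.E) ν) : f b - S.cl (z - b) ∈ S.W (S.E + 1 - (μ - ν)) := by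
  have hzb' : z - b ≠ 0 := sub_ne_zero.2 hzb
  apply du' S (by omega) (by omega)
  intro u₀ hu₀ h3 h4
  obtain ⟨c, hc⟩ : ∃ c, c = (z - b) / u₀ := ⟨_, rfl⟩
  have hc0 : c ≠ 0 := by rw [hc]; exact div_ne_zero hzb' hu₀
  have hvc : S.v c = μ - S.v u₀ := by rw [hc, S.v_div _ _ hzb' hu₀, hμ]
  obtain ⟨a, ha, hac⟩ := hf c hc0 (by omega) (by omega)
  have e1 : a - b = c + (a - (b + c)) := by ring
  have hab := S.v_add_eq hc0 hac
  rw [← e1] at hab
  have hbz : b - z ∈ S.D (S.v (a - b) + 1) := by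
    have h5 : z - b ∈ S.D (S.v (a - b) + 1) := Or.inr (by omega)
    have h6 := (S.D (S.v (a - b) + 1)).neg_mem h5
    rwa [neg_sub] at h6
  have e2 : a - z = (a - b) + (b - z) := by ring
  have haz := S.v_add_eq hab.1 hbz
  rw [← e2] at haz
  have hza : z - a ≠ 0 := by rw [← neg_sub]; exact neg_ne_zero.2 haz.1
  have hvza : S.v (z - a) = S.v c := by rw [← neg_sub, S.v_neg _ haz.1, haz.2, hab.2]
  have hba : b - a ≠ 0 := by rw [← neg_sub]; exact neg_ne_zero.2 hab.1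
  refine ⟨(z - b) / (a - b), ?_, ?_⟩
  · have e3 : (z - b) / (a - b) - u₀ = -(u₀ * ((a - (b + c)) / (a - b))) := by
      have h5 := hab.1
      rw [hc]
      field_simp
      ring
    rw [e3]
    have h5 := S.D_div' hac hab.1 hab.2 (k := 1) (by omega)
    exact (S.D _).neg_mem (S.D_mul' (Or.inr le_rfl : u₀ ∈ S.D (S.v u₀)) h5 le_rfl)
  · have e4 : 1 - (z - b) / (a - b) = (z - a) / (b - a) := by
      have h5 := hab.1
      have h6 : b - a = -(a - b) := by ring
      rw [h6]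
      field_simp
      ring
    rw [e4, S.cl_div _ _ hza hba]
    refine wrel hr ha hb (sub_ne_zero.1 hab.1) (sub_ne_zero.1 hza) hzb (hk a ha ?_)
    rw [S.mem_D_of_ne hza]
    omega

/-- move `z` a little, so that it is right at `b` -/
theorem move {z b : F} {ν μ : ℤ} (hzb : z ≠ b)
    (hμ : S.v (z - b) = μ) (h2 : μ ≤ ν + S.E)
    (hw : f b - S.cl (z - b) ∈ S.W (S.E + 1 - (μ - ν))) :
    ∃ z', z' - z ∈ S.D (ν + S.E + 1) ∧ z' ≠ b ∧ S.v (z' - b) = μ ∧ f b = S.cl (z' - b) := by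
  have hzb' : z - b ≠ 0 := sub_ne_zero.2 hzb
  obtain ⟨s, hs, hws⟩ := (S.mem_W (by omega)).1 hw
  have hs1 := S.v_one_sub (S.D_mono (by omega : (1 : ℤ) ≤ S.E + 1 - (μ - ν)) hs)
  have e1 : z - (z - b) * s - b = (z - b) * (1 - s) := by ring
  refine ⟨z - (z - b) * s, ?_, ?_, ?_, ?_⟩
  · have e2 : z - (z - b) * s - z = -((z - b) * s) := by ring
    rw [e2]
    exact (S.D _).neg_mem (S.D_mul' (Or.inr le_rfl : z - b ∈ S.D (S.v (z - b))) hs (by omega))
  · rw [← sub_ne_zero, e1]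
    exact mul_ne_zero hzb' hs1.1
  · rw [e1, S.v_mul _ _ hzb' hs1.1, hs1.2, hμ, add_zero]
  · rw [e1, S.cl_mul _ _ hzb' hs1.1, ← hws]
    abel

/-- the last point -/
theorem last (hr : Rels S A f) {z b : F} {ν : ℤ} (hb : b ∈ A) (hzb : z - b ∈ S.D (ν + 1))
    (hk : Kn S A f z ν) (hf : Fu S A b (ν + 1 - S.E) ν) :
    ∃ z', z' - z ∈ S.D (ν + S.E + 1) ∧ (z' ≠ b → f b = S.cl (z' - b)) := by
  by_cases h1 : z - b ∈ S.D (ν + S.E + 1)
  · refine ⟨b, ?_, fun h => absurd rfl h⟩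
    rw [← neg_sub]
    exact (S.D _).neg_mem h1
  have h2 := S.v_lt_of_not_mem h1
  have h3 := S.ne_of_not_mem h1
  have h4 := S.le_v hzb h3
  have hw := wmem hr hb (sub_ne_zero.1 h3) rfl (by omega) (by omega) hk (hf.mono (by omega) le_rfl)
  obtain ⟨z', h5, h6, h7, h8⟩ := move (sub_ne_zero.1 h3) rfl (by omega) hw
  exact ⟨z', h5, fun _ => h8⟩

/-- one step inside -/
theorem step (hr : Rels S A f) {z b : F} {ν : ℤ} (hb : b ∈ A) (hzb : z ≠ b)
    (hμ : S.v (z - b) = ν + 2) (hk : Kn S A f z ν)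
    (hf : ∀ y, y - z ∈ S.D (ν + 1) → Fu S A y (ν + 1 - S.E) ν) :
    ∃ z', z' - z ∈ S.D (ν + S.E + 1) ∧ Kn S A f z' (ν + 1) ∧ z' ≠ b ∧ S.v (z' - b) = ν + 2 ∧
      f b = S.cl (z' - b) := by
  have hE := S.two_le_E
  have hzb' : z - b ≠ 0 := sub_ne_zero.2 hzb
  have hw := wmem hr hb hzb hμ (by omega) (by omega) hk ((hf b (by
    rw [← neg_sub]
    exact (S.D _).neg_mem (Or.inr (by omega)))).mono (by omega) le_rfl)
  obtain ⟨z', h1, h2, h3, h4⟩ := move hzb hμ (by omega) hw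
  have hk' := hk.congr h1
  refine ⟨z', h1, ?_, h2, h3, h4⟩
  intro a ha haz
  by_cases h5 : z' - a ∈ S.D (ν + 1)
  swap
  · exact hk' a ha h5
  have h6 : S.v (z' - a) = ν + 1 := S.v_eq_of h5 haz
  have h7 := S.ne_of_not_mem haz
  have hza : a - z ∈ S.D (ν + 1) := by
    have h8 := (S.D (ν + 1)).sub_mem (S.D_mono (by omega) h1) h5
    have e : z' - z - (z' - a) = a - z := by ring
    rwa [e] at h8
  have hw' := wmem hr ha (sub_ne_zero.1 h7) h6 (by omega) (by omega) hk'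
    ((hf a hza).mono (by omega) le_rfl)
  have e0 : S.E + 1 - (ν + 1 - ν) = S.E := by ring
  rw [e0] at hw'
  obtain ⟨k, hkk⟩ := S.W_E hw'
  have e1 : a - b = -(z' - a) + (z' - b) := by ring
  have h8 := S.v_add_eq (neg_ne_zero.2 h7) (y := z' - b) (by
    rw [S.v_neg _ h7, h6]
    exact Or.inr (by omega))
  rw [← e1, S.v_neg _ h7, h6] at h8
  have h9 := wrel hr hb ha (sub_ne_zero.1 h8.1).symm h2 (sub_ne_zero.1 h7) h4
  rw [hkk, map_smul, LinearMap.smul_apply, map_sub] at h9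
  have h10 : S.h S.η (S.cl (z' - b)) = ((ν + 2 : ℤ) : ZMod p) := by
    rw [S.h_eta _ (sub_ne_zero.2 h2), h3]
  have h11 : S.h S.η (S.cl (a - b)) = ((ν + 1 : ℤ) : ZMod p) := by
    rw [S.h_eta _ h8.1, h8.2]
  rw [h10, h11, smul_eq_mul] at h9
  push_cast at h9
  have h12 : k = 0 := by linear_combination h9
  rw [h12, zero_smul] at hkk
  exact sub_eq_zero.1 hkk

end WNT
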