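import Pool.Agent.Helper36.UnivCover

/-!
# WNT / Ext: towers of unramified extensions
-/

set_option autoImplicit false

namespace WNT

open Pool.Agent.Helper36

open Polynomial IntermediateField

section

variable {k K L : Type*} [Field k] [CharZero k] [Field K] [Field L] [Algebra k K] [Algebra K L]
  [Algebra k L] [IsScalarTower k K L] [Algebra.IsAlgebraic K L]

/-- several Kummer extensions -/
theorem val_tower {v : Valuation L (WithZero (Multiplicative ℤ))} (hv : IsPlace k v) {n : ℕ}
    (hn : n ≠ 0) (S : Finset L)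
    (hS : ∀ y ∈ S, ∃ g : K, g ≠ 0 ∧ y ^ n = algebraMap K L g ∧
      ∃ h : K, v (algebraMap K L g) = v (algebraMap K L h) ^ n) :
    ∀ z ∈ adjoin K (S : Set L), ∃ x : K, v (algebraMap K L x) = v z := by
  classical
  induction S using Finset.induction_on with
  | empty =>
    intro z hz
    rw [Finset.coe_empty, adjoin_empty, mem_bot] at hz
    obtain ⟨x, rfl⟩ := hz
    exact ⟨x, rfl⟩
  | insert y S _ ih =>
    intro z hz
    obtain ⟨g, hg, hyg, h, hh⟩ := hS y (Finset.mem_insert_self _ _)
    rw [Finset.coe_insert, Set.insert_eq, Set.union_comm, ← adjoin_adjoin_left] at hz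
    have htow : IsScalarTower k (adjoin K (S : Set L)) L :=
      IsScalarTower.of_algebraMap_eq (fun _ => rfl)
    have halg : Algebra.IsAlgebraic (adjoin K (S : Set L)) L :=
      Algebra.IsAlgebraic.tower_top (K := K) (adjoin K (S : Set L))
    have hg' : algebraMap K (adjoin K (S : Set L)) g ≠ 0 :=
      (map_ne_zero_iff _ (algebraMap K (adjoin K (S : Set L))).injective).2 hg
    obtain ⟨e, he⟩ := val_kummer (K := adjoin K (S : Set L)) hv hn hg' (γ := y)
      (by rw [← IsScalarTower.algebraMap_apply]; exact hyg)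
      ⟨algebraMap K (adjoin K (S : Set L)) h, by
        rw [← IsScalarTower.algebraMap_apply, ← IsScalarTower.algebraMap_apply]
        exact hh⟩ (z := z) hz
    obtain ⟨x, hx⟩ := ih (fun y hy => hS y (Finset.mem_insert_of_mem hy)) _ e.2
    exact ⟨x, hx.trans he⟩

end

section

variable {k K Ω : Type*} [Field k] [Field K] [Field Ω] [Algebra k K] [Algebra K Ω] [Algebra k Ω]
  [IsScalarTower k K Ω] [CharZero k] [Algebra.IsAlgebraic K Ω]

theorem unram_adjoin {n : ℕ} (hn : n ≠ 0) (T : Finset Ω)
    (hT : ∀ y ∈ T, ∃ g : K, g ≠ 0 ∧ y ^ n = algebraMap K Ω g ∧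
      ∀ v : Valuation K (WithZero (Multiplicative ℤ)), IsPlace k v → ∃ h : K, v g = v h ^ n) :
    FiniteDimensional K (adjoin K (T : Set Ω)) ∧
      UnramifiedEverywhere k K (adjoin K (T : Set Ω)) := by
  classical
  constructor
  · have : Finite (T : Set Ω) := T.finite_toSet
    apply finiteDimensional_adjoin
    intro x _
    exact (Algebra.IsAlgebraic.isAlgebraic (R := K) x).isIntegral
  · intro v hv l
    obtain ⟨S, hS⟩ : ∃ S : Finset (adjoin K (T : Set Ω)),
        S = T.attach.image (fun y => ⟨(y : Ω), subset_adjoin K _ y.2⟩) := ⟨_, rfl⟩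
    have h1 : adjoin K (S : Set (adjoin K (T : Set Ω))) = ⊤ := by
      apply lift_injective
      rw [lift_adjoin, lift_top]
      congr 1
      ext y
      rw [hS]
      constructor
      · rintro ⟨z, hz, rfl⟩
        rw [Finset.mem_coe, Finset.mem_image] at hz
        obtain ⟨t, -, rfl⟩ := hz
        exact t.2
      · intro hy
        refine ⟨⟨y, subset_adjoin K _ hy⟩, ?_, rfl⟩
        rw [Finset.mem_coe, Finset.mem_image]
        exact ⟨⟨y, hy⟩, Finset.mem_attach _ _, rfl⟩
    have h2 := val_tower (K := K) hv hn S (by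
      intro y hy
      rw [hS, Finset.mem_image] at hy
      obtain ⟨t, -, rfl⟩ := hy
      obtain ⟨g, hg, hyg, hd⟩ := hT t t.2
      refine ⟨g, hg, ?_, hd _ (IsPlace.comap hv)⟩
      apply Subtype.ext
      exact hyg) l (by rw [h1]; exact mem_top)
    exact h2

/-- an unramified extension of an unramified extension is unramified -/
theorem univ_trans (K' : IntermediateField K Ω) (h1 : FiniteDimensional K K')
    (h2 : UnramifiedEverywhere k K K') (x : Ω) (hx : x ∈ univCover k K' Ω) :
    x ∈ univCover k K Ω := by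
  have hK : K' ≤ univCover k K Ω := le_univCover K' h1 h2
  have h3 : univCover k K' Ω ≤ extendScalars hK := by
    refine iSup_le ?_
    rintro ⟨L, hL1, hL2⟩ y hy
    show y ∈ univCover k K Ω
    have hfin : FiniteDimensional K L := FiniteDimensional.trans K K' L
    have hfin2 : FiniteDimensional K (L.restrictScalars K) := hfin
    refine le_univCover (L.restrictScalars K) hfin2 ?_ hy
    intro v hv l
    let e : L →+* L.restrictScalars K :=
      { toFun := fun x => ⟨(x : Ω), x.2⟩
        map_one' := rfl
        map_mul' := fun _ _ => rfl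
        map_zero' := rfl
        map_add' := fun _ _ => rfl }
    let w : Valuation L (WithZero (Multiplicative ℤ)) := v.comap e
    have hw : IsPlace k w := by
      refine ⟨?_, ?_⟩
      · intro c hc
        exact hv.1 c hc
      · obtain ⟨x, hx0, hx1⟩ := hv.2
        refine ⟨⟨(x : Ω), x.2⟩, ?_, hx1⟩
        intro h
        apply hx0
        apply Subtype.ext
        exact congrArg Subtype.val h
    obtain ⟨x', hx'⟩ := hL2 w hw ⟨(l : Ω), l.2⟩
    have halg : Algebra.IsAlgebraic K' L := inferInstance
    have hw' : IsPlace k (w.comap (algebraMap K' L)) := IsPlace.comap hw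
    obtain ⟨x, hx⟩ := h2 _ hw' x'
    refine ⟨x, ?_⟩
    have h4 : v (algebraMap K (L.restrictScalars K) x) =
      (w.comap (algebraMap K' L)) (algebraMap K K' x) := rfl
    have h5 : w ⟨(l : Ω), l.2⟩ = v l := rfl
    rw [h4, hx, ← h5, ← hx']
    rfl
  exact h3 hx

end

end WNT
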