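import Pool.Agent.WNT.Lam

/-!
# WNT / Hen: units which are `p`-th powers

PROOFS.
* `hens` (`1 - λ ^ p x`, `x ∈ m`, is a `p`-th power of an element `1 - λ τ`): `pow_exp`, `f = X ^ p + C w X + C λ R - C x` is monic of degree `p` (`p ≥ 2`, `R.natDegree < p`), `f(0) = λ R(0) - x ∈ m`, `f'(0) = w + λ R'(0)` (`p ≥ 2`) is a unit (`w ≡ -1`).  `HenselianLocalRing.is_henselian` gives a root `τ`,
  `1 - λ ^ p x = (1 - λ τ) ^ p`.
* `big`: `x ∈ F`, `x = 0` or `v x ≥ E + 1`: `x = λ ^ p x'`, `x' ∈ m` (divide).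
* `unit`: `v x = 0`: `x` is the image of a unit `a` of `O`; the residue field is finite of characteristic `p`, so `a ≡ b ^ p` (`frobenius` is bijective on a finite field), `x = (1 - y) b ^ p`, `1 - y = a / b ^ p`.
* `drop`: `i = p j`, `1 ≤ j < e₁`; `x = ϖ ^ i a`; `a ≡ s ^ p` modulo `m`; `(1 - ϖ ^ j s) ^ p = 1 - ϖ ^ i s ^ p + ...`: the middle terms are divisible by `p ϖ ^ j`, of valuation `(p - 1) e₁ + j ≥ p j + 1` (`v_p`), so `(1 - x) / (1 - ϖ ^ j s) ^ p = 1 - y`,
  `y ∈ D (i + 1)`: `1 - x - (1 - ϖ ^ j s) ^ p = ϖ ^ i (s ^ p - a) + (terms of valuation ≥ i + 1)`.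
* `finV`: every `x : Fˣ` is `ϖ ^ n * u`, `u` a unit of `O`; modulo `p`-th powers `n` only matters modulo `p` and `u` modulo `1 + D (E + 1)` (`big`).  `O / (ϖ ^ (E + 1))` is finite (finite residue field; induction on the exponent).  So the quotient `Fˣ / Fˣ ^ p` is finite.
-/

set_option autoImplicit false

namespace WNT

open IsLocalRing Polynomial

namespace LO

variable {O F : Type*} [CommRing O] [IsDomain O] [IsDiscreteValuationRing O] [Field F]
    [Algebra O F] [IsFractionRing O F] {p : ℕ} (L : LO O F p)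

private theorem hen_v_neg (x : F) (hx : x ≠ 0) : L.v (-x) = L.v x := by
  have h1 : L.v (-1) = 0 := by
    have h := L.v_mul (-1) (-1) (neg_ne_zero.2 one_ne_zero) (neg_ne_zero.2 one_ne_zero)
    rw [neg_mul_neg, mul_one, L.v_one] at h
    omega
  have h2 := L.v_mul (-1) x (neg_ne_zero.2 one_ne_zero) hx
  rw [neg_one_mul, h1, zero_add] at h2
  exact h2

private theorem hen_sub {n : ℤ} {x y : F} (hx : x = 0 ∨ n ≤ L.v x) (hy : y = 0 ∨ n ≤ L.v y) :
    x - y = 0 ∨ n ≤ L.v (x - y) := by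
  by_cases hy0 : y = 0
  · rw [hy0, sub_zero]
    exact hx
  by_cases hx0 : x = 0
  · right
    rw [hx0, zero_sub, hen_v_neg L y hy0]
    exact hy.resolve_left hy0
  by_cases h0 : x - y = 0
  · exact Or.inl h0
  right
  have h1 := L.v_add x (-y) hx0 (neg_ne_zero.2 hy0) (by rw [← sub_eq_add_neg]; exact h0)
  rw [← sub_eq_add_neg, hen_v_neg L y hy0] at h1
  have h2 := hx.resolve_left hx0
  have h3 := hy.resolve_left hy0
  omega

private theorem hen_unit_of {a : O} (ha : a - 1 ∈ maximalIdeal O) : IsUnit a := by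
  by_contra h
  have h1 : a ∈ maximalIdeal O := (mem_maximalIdeal a).2 h
  have h2 : (1 : O) ∈ maximalIdeal O := by
    have h3 := (maximalIdeal O).sub_mem h1 ha
    rw [sub_sub_cancel] at h3
    exact h3
  exact (Ideal.ne_top_iff_one _).1 (maximalIdeal.isMaximal O).ne_top h2

include L in
private theorem hen_charP : CharP (ResidueField O) p := by
  rw [CharP.charP_iff_prime_eq_zero L.prime]
  have h := (residue_eq_zero_iff (p : O)).2 L.mem
  rw [map_natCast] at h
  exact h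

include L in
private theorem hen_root [Finite (ResidueField O)] (a : O) : ∃ b : O, a - b ^ p ∈ maximalIdeal O := by
  have : Fact p.Prime := ⟨L.prime⟩
  have := hen_charP L
  obtain ⟨y, hy⟩ := surjective_frobenius (ResidueField O) p (residue O a)
  obtain ⟨b, rfl⟩ := residue_surjective y
  refine ⟨b, ?_⟩
  rw [← residue_eq_zero_iff, map_sub, map_pow, sub_eq_zero, ← hy]
  rfl

include L in
theorem hens [HenselianLocalRing O] {x : O} (hx : x ∈ maximalIdeal O) :
    ∃ τ : O, 1 - L.lam ^ p * x = (1 - L.lam * τ) ^ p := by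
  obtain ⟨ε, w, R, hεε, hε, hw, hR, hpow⟩ := L.pow_exp
  have hx' : ε * x ∈ maximalIdeal O := (maximalIdeal O).mul_mem_left _ hx
  have hp2 : 2 ≤ p := L.prime.two_le
  have hdeg : (C w * X + C L.lam * R - C (ε * x)).degree < (p : WithBot ℕ) := by
    have h1 : (C w * X).degree < (p : WithBot ℕ) :=
      lt_of_le_of_lt (degree_C_mul_X_le w) (by exact_mod_cast (by omega : 1 < p))
    have h2 : (C L.lam * R).degree < (p : WithBot ℕ) := by
      refine lt_of_le_of_lt degree_le_natDegree ?_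
      exact_mod_cast lt_of_le_of_lt (natDegree_C_mul_le L.lam R) hR
    have h3 : (C (ε * x)).degree < (p : WithBot ℕ) :=
      lt_of_le_of_lt degree_C_le (by exact_mod_cast (by omega : 0 < p))
    exact lt_of_le_of_lt (degree_sub_le _ _) (max_lt (lt_of_le_of_lt (degree_add_le _ _)
      (max_lt h1 h2)) h3)
  have hmon := monic_X_pow_add hdeg
  have hlam := L.lam_mem
  have he0 : (X ^ p + (C w * X + C L.lam * R - C (ε * x))).eval 0 ∈ maximalIdeal O := by
    have h1 : (X ^ p + (C w * X + C L.lam * R - C (ε * x))).eval 0 = L.lam * R.eval 0 - ε * x := by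
      simp [show p ≠ 0 by omega]
    rw [h1]
    exact (maximalIdeal O).sub_mem ((maximalIdeal O).mul_mem_right _ hlam) hx'
  have hd0 : IsUnit ((derivative (X ^ p + (C w * X + C L.lam * R - C (ε * x)))).eval 0) := by
    have h1 : (derivative (X ^ p + (C w * X + C L.lam * R - C (ε * x)))).eval 0 =
        w + L.lam * (derivative R).eval 0 := by
      have h0 : (derivative (X ^ p : O[X])).eval 0 = 0 := by
        rw [derivative_X_pow, eval_mul, eval_pow, eval_X, zero_pow (by omega), mul_zero]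
      simp [h0]
    rw [h1, ← IsUnit.neg_iff]
    apply hen_unit_of
    have h2 : -(w + L.lam * (derivative R).eval 0) - 1 =
        -((w + 1) + L.lam * (derivative R).eval 0) := by ring
    rw [h2]
    exact (maximalIdeal O).neg_mem ((maximalIdeal O).add_mem hw
      ((maximalIdeal O).mul_mem_right _ hlam))
  obtain ⟨τ, hτ, -⟩ := HenselianLocalRing.is_henselian _ hmon 0 he0 hd0
  refine ⟨τ, ?_⟩
  have h1 : τ ^ p + (w * τ + L.lam * R.eval τ - ε * x) = 0 := by
    have h2 := hτ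
    rw [IsRoot.def] at h2
    simpa using h2
  have h2 := congrArg (fun q : O[X] => q.eval τ) hpow
  have h3 : (1 - L.lam * τ) ^ p = 1 - L.lam ^ p * ε * (τ ^ p + w * τ + L.lam * R.eval τ) := by
    simpa using h2
  rw [h3]
  linear_combination (L.lam ^ p * x) * hεε + (L.lam ^ p * ε) * h1

theorem big [HenselianLocalRing O] {x : F} (hx : x = 0 ∨ L.E + 1 ≤ L.v x) :
    ∃ y : F, y ≠ 0 ∧ 1 - x = y ^ p := by
  have hl : L.lam ^ p ≠ 0 := pow_ne_zero _ L.lam_ne
  have hlF : algebraMap O F (L.lam ^ p) ≠ 0 := map_ne hl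
  have hx' : x / algebraMap O F (L.lam ^ p) = 0 ∨ 1 ≤ L.v (x / algebraMap O F (L.lam ^ p)) := by
    by_cases hx0 : x = 0
    · left
      rw [hx0, zero_div]
    · right
      rw [L.v_div _ _ hx0 hlF, L.v_lam_pow]
      have := hx.resolve_left hx0
      omega
  obtain ⟨a, ha⟩ := (L.int _).1 (hx'.imp_right fun h => by omega)
  have ham : a ∈ maximalIdeal O := by
    rw [L.mem_max, ha]
    exact hx'
  obtain ⟨τ, hτ⟩ := L.hens ham
  have hu : IsUnit (1 - L.lam * τ) := by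
    apply hen_unit_of
    have h1 : 1 - L.lam * τ - 1 = -(L.lam * τ) := by ring
    rw [h1]
    exact (maximalIdeal O).neg_mem ((maximalIdeal O).mul_mem_right _ L.lam_mem)
  refine ⟨algebraMap O F (1 - L.lam * τ), map_ne hu.ne_zero, ?_⟩
  rw [← map_pow, ← hτ, map_sub, map_one, map_mul, ha, mul_div_cancel₀ _ hlF]

theorem unit [Finite (ResidueField O)] {x : F} (hx0 : x ≠ 0) (hx : L.v x = 0) :
    ∃ y z : F, (y = 0 ∨ 1 ≤ L.v y) ∧ z ≠ 0 ∧ x = (1 - y) * z ^ p := by
  obtain ⟨a, rfl⟩ := (L.int x).1 (Or.inr hx.ge)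
  have ham : a ∉ maximalIdeal O := by
    rw [L.mem_max]
    rintro (h | h)
    · exact hx0 h
    · omega
  obtain ⟨b, hb⟩ := hen_root L a
  have hbp : b ^ p ∉ maximalIdeal O := fun h => ham (by
    have h1 := (maximalIdeal O).add_mem hb h
    rw [sub_add_cancel] at h1
    exact h1)
  have hbu : IsUnit (b ^ p) := by
    by_contra h
    exact hbp ((mem_maximalIdeal _).2 h)
  have hb0 : b ≠ 0 := by
    rintro rfl
    rw [zero_pow L.prime.ne_zero] at hbu
    exact hbu.ne_zero rfl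
  have hbF : algebraMap O F (b ^ p) ≠ 0 := map_ne hbu.ne_zero
  refine ⟨algebraMap O F (b ^ p - a) / algebraMap O F (b ^ p), algebraMap O F b, ?_, map_ne hb0, ?_⟩
  · have h1 : b ^ p - a ∈ maximalIdeal O := by
      have h2 := (maximalIdeal O).neg_mem hb
      rw [neg_sub] at h2
      exact h2
    rw [L.mem_max] at h1
    by_cases h0 : algebraMap O F (b ^ p - a) = 0
    · left
      rw [h0, zero_div]
    · right
      rw [L.v_div _ _ h0 hbF, L.v_unit _ hbu, sub_zero]
      exact h1.resolve_left h0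
  · rw [← map_pow, sub_mul, div_mul_cancel₀ _ hbF, map_sub]
    ring

theorem drop [Finite (ResidueField O)] {i : ℤ} {x : F} (h1 : 1 ≤ i) (hE : i < L.E)
    (hp : (p : ℤ) ∣ i) (hx : x = 0 ∨ i ≤ L.v x) :
    ∃ y z : F, (y = 0 ∨ i + 1 ≤ L.v y) ∧ z ≠ 0 ∧ 1 - x = (1 - y) * z ^ p := by
  have hp2 : 2 ≤ p := L.prime.two_le
  have hp0 : (0 : ℤ) < p := by exact_mod_cast L.prime.pos
  obtain ⟨jz, hjz⟩ := hp
  have hj1 : 1 ≤ jz := by
    by_contra h
    push Not at h
    have : (p : ℤ) * jz ≤ 0 := mul_nonpos_of_nonneg_of_nonpos hp0.le (by omega)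
    omega
  have hje : jz < L.e₁ := by
    by_contra h
    push Not at h
    have h2 : (p : ℤ) * L.e₁ ≤ p * jz := mul_le_mul_of_nonneg_left h hp0.le
    have h3 : L.E = p * L.e₁ := rfl
    omega
  obtain ⟨j, rfl⟩ : ∃ j : ℕ, jz = j := ⟨jz.toNat, by omega⟩
  have hjpos : 1 ≤ j := by omega
  obtain ⟨x₀, rfl⟩ := (L.int x).1 (hx.imp_right fun h => by omega)
  obtain ⟨a, rfl⟩ := (L.mem_pow (p * j) x₀).2 (hx.imp_right fun h => by push_cast; omega)
  obtain ⟨s, hs⟩ := hen_root L a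
  obtain ⟨r, hr⟩ := exists_add_pow_prime_eq L.prime (1 : O) (-(L.ϖ ^ j * s))
  obtain ⟨m', hm'⟩ := (L.mem_pow 1 (a - s ^ p)).2 (by
    have h2 := (L.mem_max (a - s ^ p)).1 hs
    exact_mod_cast h2)
  have hvp := L.v_p
  obtain ⟨q, hq⟩ := (L.mem_pow ((p - 1) * (j + 1)) (p : O)).2 (by
    right
    rw [hvp]
    push_cast
    rw [Nat.cast_sub (by omega)]
    have h2 : (0 : ℤ) ≤ (p : ℤ) - 1 := by omega
    have h3 : ((j : ℤ) + 1) ≤ L.e₁ := by omega
    have := mul_le_mul_of_nonneg_left h3 h2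
    push_cast
    exact this)
  -- the difference lies in the power `p * j + 1`
  obtain ⟨d, hd⟩ : ∃ d, 1 - L.ϖ ^ (p * j) * a =
      (1 + -(L.ϖ ^ j * s)) ^ p + L.ϖ ^ (p * j + 1) * d := by
    have hexp : (p - 1) * (j + 1) + j = (p * j + 1) + (p - 2) := by
      obtain ⟨n, rfl⟩ : ∃ n, p = n + 2 := ⟨p - 2, by omega⟩
      have e1 : n + 2 - 1 = n + 1 := by omega
      have e2 : n + 2 - 2 = n := by omega
      rw [e1, e2]
      ring
    obtain ⟨c, hneg⟩ : ∃ c, (-(L.ϖ ^ j * s)) ^ p = -(L.ϖ ^ (p * j) * s ^ p) +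
        L.ϖ ^ (p * j) * (L.ϖ * c) := by
      by_cases hp2 : p = 2
      · obtain ⟨t, ht⟩ := (L.mem_pow 1 (p : O)).2 (by
          have h2 := (L.mem_max (p : O)).1 L.mem
          exact_mod_cast h2)
        refine ⟨t * s ^ p, ?_⟩
        have h2 : (2 : O) = L.ϖ ^ 1 * t := by
          rw [← ht, hp2]
          norm_num
        have h3 : (-1 : O) ^ p = 1 := by
          rw [hp2]
          ring
        rw [neg_pow, h3, mul_pow, ← pow_mul, mul_comm j p]
        linear_combination (L.ϖ ^ (p * j) * s ^ p) * h2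
      · refine ⟨0, ?_⟩
        rw [(L.prime.odd_of_ne_two hp2).neg_pow, mul_pow, ← pow_mul, mul_comm j p]
        ring
    have hpr : (p : O) * 1 * -(L.ϖ ^ j * s) * r =
        -(L.ϖ ^ (p * j + 1) * (L.ϖ ^ (p - 2) * (q * s * r))) := by
      calc (p : O) * 1 * -(L.ϖ ^ j * s) * r
          = -((L.ϖ ^ ((p - 1) * (j + 1)) * L.ϖ ^ j) * (q * s * r)) := by rw [hq]; ring
        _ = _ := by rw [← pow_add, hexp, pow_add]; ring
    refine ⟨-m' + L.ϖ ^ (p - 2) * (q * s * r) - c, ?_⟩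
    rw [hr, one_pow, hneg, hpr]
    have ha : a = s ^ p + L.ϖ ^ 1 * m' := by linear_combination hm'
    rw [ha]
    ring
  have htm : L.ϖ ^ j * s ∈ maximalIdeal O := by
    rw [L.mem_max]
    have h2 := (L.mem_pow j (L.ϖ ^ j * s)).1 ⟨s, rfl⟩
    exact h2.imp_right fun h => by omega
  have hu : IsUnit (1 + -(L.ϖ ^ j * s)) := by
    apply hen_unit_of
    rw [add_sub_cancel_left]
    exact (maximalIdeal O).neg_mem htm
  have hup : IsUnit ((1 + -(L.ϖ ^ j * s)) ^ p) := hu.pow p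
  have hF0 : algebraMap O F ((1 + -(L.ϖ ^ j * s)) ^ p) ≠ 0 := map_ne hup.ne_zero
  refine ⟨-(algebraMap O F (L.ϖ ^ (p * j + 1) * d) / algebraMap O F ((1 + -(L.ϖ ^ j * s)) ^ p)),
    algebraMap O F (1 + -(L.ϖ ^ j * s)), ?_, map_ne hu.ne_zero, ?_⟩
  · by_cases h0 : algebraMap O F (L.ϖ ^ (p * j + 1) * d) = 0
    · left
      rw [h0, zero_div, neg_zero]
    · right
      have h2 := (L.mem_pow (p * j + 1) (L.ϖ ^ (p * j + 1) * d)).1 ⟨d, rfl⟩
      have h3 := h2.resolve_left h0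
      rw [hen_v_neg L _ (div_ne_zero h0 hF0), L.v_div _ _ h0 hF0, L.v_unit _ hup, sub_zero]
      rw [Nat.cast_add, Nat.cast_mul, Nat.cast_one] at h3
      omega
  · rw [← map_pow, sub_neg_eq_add, add_mul, div_mul_cancel₀ _ hF0, one_mul, ← map_add, ← hd,
      map_sub, map_one]

include L in
theorem finV [HenselianLocalRing O] [Finite (ResidueField O)] :
    Finite (Fˣ ⧸ (powMonoidHom p : Fˣ →* Fˣ).range) := by
  classical
  have hp0 : (0 : ℤ) < p := by exact_mod_cast L.prime.pos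
  have hE : 0 < L.E := by
    have h1 : L.E = p * L.e₁ := rfl
    rw [h1]
    exact mul_pos hp0 L.e₁_pos
  obtain ⟨N, hN⟩ : ∃ N : ℕ, (N : ℤ) = L.E + 1 := ⟨(L.E + 1).toNat, by omega⟩
  have hfin0 : Finite (O ⧸ maximalIdeal O) := inferInstanceAs (Finite (ResidueField O))
  have hfin : Finite (O ⧸ maximalIdeal O ^ N) :=
    Ideal.finite_quotient_pow (IsNoetherian.noetherian _) N
  have hϖF : algebraMap O F L.ϖ ≠ 0 := map_ne L.irr.ne_zero
  let G : Fin p × (O ⧸ maximalIdeal O ^ N) → Fˣ ⧸ (powMonoidHom p : Fˣ →* Fˣ).range := fun q =>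
    if h : algebraMap O F (Quotient.out q.2) = 0 then 1 else
      QuotientGroup.mk (Units.mk0 (algebraMap O F L.ϖ ^ (q.1 : ℕ) * algebraMap O F (Quotient.out q.2))
        (mul_ne_zero (pow_ne_zero _ hϖF) h))
  refine Finite.of_surjective G fun c => ?_
  obtain ⟨x, rfl⟩ := QuotientGroup.mk_surjective c
  have hx0 : (x : F) ≠ 0 := x.ne_zero
  have hzne : ∀ n : ℤ, algebraMap O F L.ϖ ^ n ≠ 0 := fun n => zpow_ne_zero _ hϖF
  have hvz : ∀ n : ℤ, L.v (algebraMap O F L.ϖ ^ n) = n := by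
    intro n
    cases n with
    | ofNat n =>
      rw [Int.ofNat_eq_natCast, zpow_natCast, L.v_pow _ hϖF, L.v_pi, mul_one]
    | negSucc n =>
      rw [zpow_negSucc, L.v_inv _ (pow_ne_zero _ hϖF), L.v_pow _ hϖF, L.v_pi, Int.negSucc_eq]
      push_cast
      ring
  obtain ⟨m, hm⟩ : ∃ m, m = L.v (x : F) := ⟨_, rfl⟩
  have hu0 : (x : F) / algebraMap O F L.ϖ ^ m ≠ 0 := div_ne_zero hx0 (hzne m)
  have hvu : L.v ((x : F) / algebraMap O F L.ϖ ^ m) = 0 := by
    rw [L.v_div _ _ hx0 (hzne m), hvz, hm, sub_self]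
  obtain ⟨u, hu⟩ := (L.int _).1 (Or.inr hvu.ge)
  have hum : u ∉ maximalIdeal O := by
    rw [L.mem_max, hu]
    rintro (h | h)
    · exact hu0 h
    · omega
  obtain ⟨l, hl⟩ : ∃ l, l = Quotient.out (Ideal.Quotient.mk (maximalIdeal O ^ N) u) := ⟨_, rfl⟩
  have hlu : l - u ∈ maximalIdeal O ^ N := by
    rw [← Ideal.Quotient.eq, hl]
    exact Quotient.out_eq _
  have hNpos : N ≠ 0 := by omega
  have hlu1 : l - u ∈ maximalIdeal O := Ideal.pow_le_self hNpos hlu
  have hlm : l ∉ maximalIdeal O := fun h => hum (by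
    have h1 := (maximalIdeal O).sub_mem h hlu1
    rw [sub_sub_cancel] at h1
    exact h1)
  have hlunit : IsUnit l := by
    by_contra h
    exact hlm ((mem_maximalIdeal _).2 h)
  have hlF : algebraMap O F l ≠ 0 := map_ne hlunit.ne_zero
  have hdiv : ∃ b, l - u = L.ϖ ^ N * b := by
    rw [L.irr.maximalIdeal_eq, Ideal.span_singleton_pow, Ideal.mem_span_singleton] at hlu
    exact hlu
  have hy' : algebraMap O F (l - u) / algebraMap O F l = 0 ∨
      L.E + 1 ≤ L.v (algebraMap O F (l - u) / algebraMap O F l) := by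
    have h1 := (L.mem_pow N (l - u)).1 hdiv
    by_cases h0 : algebraMap O F (l - u) = 0
    · left
      rw [h0, zero_div]
    · right
      rw [L.v_div _ _ h0 hlF, L.v_unit _ hlunit, sub_zero]
      have := h1.resolve_left h0
      omega
  obtain ⟨y, hy0, hy⟩ := L.big hy'
  have hul : algebraMap O F u = algebraMap O F l * y ^ p := by
    rw [← hy, mul_sub, mul_one, mul_div_cancel₀ _ hlF, map_sub]
    ring
  obtain ⟨n, hn⟩ : ∃ n : ℕ, (n : ℤ) = m % p := ⟨(m % p).toNat, by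
    have := Int.emod_nonneg m hp0.ne'
    omega⟩
  have hnp : n < p := by
    have := Int.emod_lt_of_pos m hp0
    omega
  refine ⟨(⟨n, hnp⟩, Ideal.Quotient.mk (maximalIdeal O ^ N) u), ?_⟩
  have hG : G (⟨n, hnp⟩, Ideal.Quotient.mk (maximalIdeal O ^ N) u) =
      QuotientGroup.mk (Units.mk0 (algebraMap O F L.ϖ ^ n * algebraMap O F l)
        (mul_ne_zero (pow_ne_zero _ hϖF) hlF)) := by
    have h1 : algebraMap O F (Quotient.out (Ideal.Quotient.mk (maximalIdeal O ^ N) u)) ≠ 0 := by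
      rw [← hl]
      exact hlF
    show (if h : algebraMap O F (Quotient.out (Ideal.Quotient.mk (maximalIdeal O ^ N) u)) = 0
      then 1 else _) = _
    rw [dif_neg h1]
    congr 1
    apply Units.ext
    show algebraMap O F L.ϖ ^ n * _ = algebraMap O F L.ϖ ^ n * _
    rw [← hl]
  rw [hG, QuotientGroup.eq]
  refine ⟨Units.mk0 (algebraMap O F L.ϖ ^ (m / p) * y) (mul_ne_zero (hzne _) hy0), ?_⟩
  apply Units.ext
  show (algebraMap O F L.ϖ ^ (m / p) * y) ^ p =
    (algebraMap O F L.ϖ ^ n * algebraMap O F l)⁻¹ * (x : F)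
  have hx : (x : F) = algebraMap O F u * algebraMap O F L.ϖ ^ m := by
    rw [hu, div_mul_cancel₀ _ (hzne m)]
  have hmz : algebraMap O F L.ϖ ^ m = algebraMap O F L.ϖ ^ n * (algebraMap O F L.ϖ ^ (m / p)) ^ p := by
    rw [← zpow_natCast (algebraMap O F L.ϖ) n, ← zpow_natCast (algebraMap O F L.ϖ ^ (m / p)) p,
      ← zpow_mul, ← zpow_add₀ hϖF, hn]
    congr 1
    have := Int.mul_ediv_add_emod m p
    linarith [mul_comm (p : ℤ) (m / p)]
  rw [hx, hul, hmz, mul_pow]
  have h1 : algebraMap O F L.ϖ ^ n ≠ 0 := pow_ne_zero _ hϖF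
  field_simp

end LO

end WNT
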