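import Pool.Agent.WNT.Pn

/-!
# WNT / Inn: the inside, for `p = 2`

`E ≥ 2` (`two_le_E`).

PROOF of `iter`: induction on `n`, from `z'` for `n` to `n + 1`: `c = π ^ (ν + n + 2)` (`v c ≤ N - 1`), `full` at `z'` gives `b ∈ A` with `b - (z' + c) ∈ D (v c + 1)`, so `v (z' - b) = ν + n + 2`; `step` (`hf` from `full`, all `y ∈ z' + D (ν + n + 1)` are in `D 0`).
The new point differs by an element of `D (ν + n + E + 1)`.

PROOF of `outer`.  Let `b ∈ A`, `z - b ∉ D (R + 1)`.  If `b ∈ D 0` this is `hk`.  Otherwise `v b < 0`, `v (b - z) = v b`.  `w = f b - cl (z - b)`.  CLAIM `h w g = h w (cl (b - z))` for all `g : V`.  `g = cl x`, and we may assume `E ≤ v x ≤ 2 E - 1` (multiply `x` with `π ^ (p k)`, `p ≤ E` because `p ∣ E`).  `full0` for `z - x ∈ D 0` gives `a ∈ A`, `a - (z - x) ∈ D N`,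
`N ≥ 3 E`: `cl (z - a) = cl x` and `v (z - a) = v x` (`cl_congr`), so `a ∈ D 0`, `z - a ∉ D (R + 1)`, `f a = cl (z - a)`, `wrel`: `h w (g - cl (b - a)) = 0`, `b - a = (b - z) + (z - a)`, `cl (b - a) = cl (b - z)` (`cl_congr`, `v (b - z) ≤ - 1`, `z - a ∈ D E`).  The claim for `g = 0` and `g` gives `h w g = 0` for all `g`, so `w = 0` (`nd`).

PROOF of `pick` (`p = 2`, `v ρ₀ = v ρ₁ = n`, `v (ρ₀ - ρ₁) = n`): there is `ε ∈ D (n + E)` with `lam (ε / ρ₀) = 0`, `lam (ε / ρ₁) = 1`.  `u₀ ∈ D E` with `lam u₀ = 1` (`exists_lam`).  Suppose not: for all `ε ∈ D (n + E)`: `lam (ε / ρ₀) = 0 → lam (ε / ρ₁) = 0` (elements of `ZMod 2` are `0` or `1`).  Let `ε₁ = u₀ ρ₁`: `lam (ε₁ / ρ₁) = 1`, so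
`lam (ε₁ / ρ₀) = 1`.  For any `ε`: if `lam (ε / ρ₀) = 1` then `lam ((ε - ε₁) / ρ₀) = 0` so `lam (ε / ρ₁) = 1`; so `lam (ε / ρ₀) = lam (ε / ρ₁)` for all `ε ∈ D (n + E)`, `lam (ε (ρ₁ - ρ₀) / (ρ₀ ρ₁)) = 0` (`lam_add`, `lam_neg`); `ε = u₀ ρ₀ ρ₁ / (ρ₁ - ρ₀) ∈ D (n + E)` gives a contradiction.

PROOF of `inner`.  `iter` gives `z'` with `Kn z' (N - 2)`, `z' ∈ D 0`.  `pair` for `z'`: `b₀`, `b₁`, `v (b₀ - b₁) = N`, so `v (z' - b₀) = N` or `v (z' - b₁) = N`; by symmetry `z' ≠ b₀`, `v (z' - b₀) = N`.  `step` (`ν = N - 2`): rename `z` := the new point: `z - z' ∈ D (N - 1 + E)`, `Kn z (N - 1)`, `v (z - b₀) = N`, `f b₀ = cl (z - b₀)`.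
All `a ∈ A` different from `b₀`, `b₁` have `z - a ∉ D N` (otherwise `a - z' ∈ D N`), so `f a = cl (z - a)`.  If `z = b₁` we are done.  Let `μ = v (z - b₁) ≥ N`, `w = f b₁ - cl (z - b₁)`.  A point `z'' = z + ε` with `ε ∈ D (N + E)` and `lam (- (ε / (z - b₀))) = 0` is also right at all `a ≠ b₁` (at `b₀`: `z'' - b₀ = (z - b₀) (1 + ε / (z - b₀))`, `lam_spec`).
* `μ = N`: `wmem` (`ν = N - 1`): `w = k • η`.  If `k = 0` done.  Otherwise `k = 1`, `pick` for `ρ₀ = z - b₀`, `ρ₁ = z - b₁`, `z'' = z - ε`: `cl (z'' - b₁) = cl (z - b₁) + cl (1 - ε / ρ₁) = cl (z - b₁) + η`, `cl (z'' - b₀) = cl (z - b₀)`.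
* `μ = N + i`, `1 ≤ i ≤ E - 1`: `wmem` (`ν = N - 1`, `μ - ν = i + 1 ≤ E`): `w ∈ W (E - i)`.  `t₀ = (z - b₁) / (b₁ - b₀)`, `1 + t₀ = (z - b₀) / (b₁ - b₀)`, `wrel` with `b₀`: `h w (cl (1 + t₀)) = 0`.  If `i` is even then `E - i` is even, `0 < E - i < E`, `w = cl (1 - s)` with `s ∈ D (E - i)` and by `drop` also with `s ∈ D (E - i + 1)`; `ε = - (z - b₁) s ∈ D (N + E + 1)`,
  `z'' = z + ε` is right everywhere (`z'' - b₁ = (z - b₁) (1 - s)`).  If `i` is odd: `w = cl (1 - s)`, `s ∈ D (E - i)`, `top_eq` (`α = - t₀`, `β = s`, `v α = i`): `0 = h (cl (1 + t₀)) w = i * lam (- t₀ s) = lam (- t₀ s)`; `ε = - (z - b₁) s ∈ D (N + E)`, `- ε / (z - b₀) = (z - b₁) s / ((b₁ - b₀) (1 + t₀)) = t₀ s / (1 + t₀)`, which is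
  congruent to `t₀ s` modulo `D (E + 1)`, so `lam (- (ε / (z - b₀))) = lam (t₀ s) = 0`.
* `μ = N + i`, `i ≥ E`.  `t₀` as above, `t₀ ∈ D E`, `τ = lam (- t₀)`, `cl (1 + t₀) = τ • η`.  If `τ = 0`: `z'' = b₁`: for `a ≠ b₀, b₁`: `v (z - a) ≤ N - 1`, `cl (b₁ - a) = cl (z - a)` (`cl_congr`), and `cl (z - b₀) = cl (b₁ - b₀) + cl (1 + t₀) = cl (b₁ - b₀)`.
  If `τ ≠ 0`: `wrel` with `b₀`: `0 = h w (τ • η)`, so `val w = 0`; `w = cl x`, `v x ≡ 0` modulo `p`, so we may assume `v x = 0` (multiply with a power of `π ^ p`), `unit`: `w = cl (1 - s)`, `s ∈ D 1`; `ε = - (z - b₁) s ∈ D (μ + 1) ⊆ D (N + E + 1)`, `z'' = z + ε` is right everywhere.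
-/

set_option autoImplicit false

namespace WNT

universe u w

variable {F : Type u} {V : Type w} [Field F] [AddCommGroup V]

theorem iter {p : ℕ} [Module (ZMod p) V] {S : SS F V p} {A : Set F} {f : F → V} {N : ℤ}
    (hr : Rels S A f) (hL : Ln S A N) {z : F} (hz : z ∈ S.D 0) {ν : ℤ} (hν : 0 ≤ ν)
    (hk : Kn S A f z ν) (n : ℕ) (hn : ν + n ≤ N - 2) :
    ∃ z', z' ∈ S.D 0 ∧ Kn S A f z' (ν + n) := by
  induction n with
  | zero =>
    refine ⟨z, hz, ?_⟩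
    rw [Nat.cast_zero, add_zero]
    exact hk
  | succ n ih =>
    push_cast at hn
    obtain ⟨z', hz', hk'⟩ := ih (by omega)
    have hE := S.E_pos
    have hc0 := S.pi_zpow_ne (ν + n + 2)
    have hvc := S.v_pi_zpow (ν + n + 2)
    obtain ⟨b, hb, hbc⟩ := hL.full z' hz' (S.pi ^ (ν + n + 2)) hc0 (by omega) (by omega)
    have h1 := S.v_add_eq hc0 hbc
    have e1 : S.pi ^ (ν + n + 2) + (b - (z' + S.pi ^ (ν + n + 2))) = b - z' := by ring
    rw [e1, hvc] at h1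
    have h2 : z' ≠ b := fun h => h1.1 (by rw [h, sub_self])
    have h3 : S.v (z' - b) = ν + n + 2 := by
      rw [← neg_sub, S.v_neg _ h1.1]
      exact h1.2
    obtain ⟨z'', h4, h5, -⟩ := step hr hb h2 h3 hk' (fun y hy => by
      have hy0 : y ∈ S.D 0 := by
        have h6 := (S.D 0).add_mem (S.D_mono (by omega) hy) hz'
        rwa [sub_add_cancel] at h6
      exact (hL.full y hy0).mono (by omega) (by omega))
    refine ⟨z'', ?_, ?_⟩
    · have h6 := (S.D 0).add_mem (S.D_mono (by omega) h4) hz'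
      rwa [sub_add_cancel] at h6
    · have e2 : ν + ((n + 1 : ℕ) : ℤ) = ν + n + 1 := by
        push_cast
        ring
      rw [e2]
      exact h5

private theorem Inn_pow {p : ℕ} [Module (ZMod p) V] (S : SS F V p) {y : F} (hy : y ≠ 0) (n : ℕ) :
    S.cl (y ^ n) = n • S.cl y := by
  induction n with
  | zero => rw [pow_zero, S.cl_one, zero_smul]
  | succ n ih => rw [pow_succ, S.cl_mul _ _ (pow_ne_zero _ hy) hy, ih, succ_nsmul]

/-- multiply with a power of `π ^ p` -/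
private theorem Inn_shift {p : ℕ} [Module (ZMod p) V] (S : SS F V p) {x : F} (hx : x ≠ 0)
    (m : ℤ) : ∃ x', x' ≠ 0 ∧ S.cl x' = S.cl x ∧ m ≤ S.v x' ∧ S.v x' ≤ m + p - 1 := by
  have hp : (0 : ℤ) < p := by exact_mod_cast S.prime.pos
  have hq := S.pi_zpow_ne (-((S.v x - m) / p))
  have h1 : S.v (x * (S.pi ^ (-((S.v x - m) / p))) ^ p) = m + (S.v x - m) % p := by
    rw [S.v_mul _ _ hx (pow_ne_zero _ hq), S.v_pow _ hq, S.v_pi_zpow]
    have h2 := Int.emod_add_mul_ediv (S.v x - m) p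
    linear_combination -h2
  have h3 := Int.emod_nonneg (S.v x - m) hp.ne'
  have h4 := Int.emod_lt_of_pos (S.v x - m) hp
  refine ⟨x * (S.pi ^ (-((S.v x - m) / p))) ^ p, mul_ne_zero hx (pow_ne_zero _ hq), ?_, ?_, ?_⟩
  · rw [S.cl_mul _ _ hx (pow_ne_zero _ hq), Inn_pow S hq, SS.p_smul, add_zero]
  · rw [h1]
    omega
  · rw [h1]
    omega

theorem outer {p : ℕ} [Module (ZMod p) V] {S : SS F V p} {A : Set F} {f : F → V} {N R : ℤ}
    (hr : Rels S A f) (full0 : ∀ y ∈ S.D 0, ∃ a ∈ A, a - y ∈ S.D N) (hN : 3 * S.E ≤ N)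
    (hR : 2 * S.E ≤ R) {z : F} (hz : z ∈ S.D 0)
    (hk : ∀ a ∈ A, a ∈ S.D 0 → z - a ∉ S.D (R + 1) → f a = S.cl (z - a)) :
    Kn S A f z R := by
  intro b hb hzb
  have hE := S.E_pos
  by_cases hb0 : b ∈ S.D 0
  · exact hk b hb hb0 hzb
  have hbne := S.ne_of_not_mem hb0
  have hvb := S.v_lt_of_not_mem hb0
  have h1 := S.v_add_eq hbne (y := -z) ((S.D _).neg_mem (S.D_mono (by omega) hz))
  rw [← sub_eq_add_neg] at h1
  have hzb' : z ≠ b := fun h => h1.1 (by rw [h, sub_self])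
  have claim : ∀ g : V, S.h (f b - S.cl (z - b)) g = S.h (f b - S.cl (z - b)) (S.cl (b - z)) := by
    intro g
    obtain ⟨x₀, hx₀, hg⟩ := S.cl_surj g
    obtain ⟨x, hx, hxc, hx1, hx2⟩ := Inn_shift S hx₀ S.E
    have hpE := Int.le_of_dvd S.E_pos S.E_dvd
    have hxD : x ∈ S.D S.E := Or.inr hx1
    obtain ⟨a, ha, haz⟩ := full0 (z - x) ((S.D 0).sub_mem hz (S.D_mono (by omega) hxD))
    have h2 := S.cl_congr hx (y := z - a) (by
      have e1 : z - a - x = -(a - (z - x)) := by ring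
      rw [e1]
      exact (S.D _).neg_mem (S.D_mono (by omega) haz))
    have hza : z ≠ a := fun h => h2.1 (by rw [h, sub_self])
    have ha0 : a ∈ S.D 0 := by
      have h3 := (S.D 0).sub_mem hz (Or.inr (by omega) : z - a ∈ S.D 0)
      rwa [sub_sub_cancel] at h3
    have hzaR : z - a ∉ S.D (R + 1) := by
      rw [S.mem_D_of_ne h2.1]
      omega
    have hfa := hk a ha ha0 hzaR
    have hab : a ≠ b := fun h => hb0 (h ▸ ha0)
    have h3 := wrel hr ha hb hab hza hzb' hfa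
    have h4 := S.cl_congr h1.1 (y := b - a) (by
      have e1 : b - a - (b - z) = z - a := by ring
      rw [e1]
      exact Or.inr (by omega))
    rw [h4.2.2, h2.2.2, hxc, hg, map_sub, sub_eq_zero] at h3
    exact h3
  have h2 : f b - S.cl (z - b) = 0 := by
    apply S.nd
    intro w'
    rw [claim w', ← claim 0, map_zero]
  exact sub_eq_zero.1 h2

theorem pick [Module (ZMod 2) V] (S : SS F V 2) {ρ₀ ρ₁ : F} {n : ℤ} (h0 : ρ₀ ≠ 0) (h1 : ρ₁ ≠ 0)
    (h2 : ρ₀ - ρ₁ ≠ 0) (hv0 : S.v ρ₀ = n) (hv1 : S.v ρ₁ = n) (hv2 : S.v (ρ₀ - ρ₁) = n) :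
    ∃ ε ∈ S.D (n + S.E), S.lam (ε / ρ₀) = 0 ∧ S.lam (ε / ρ₁) = 1 := by
  by_contra hcon
  push Not at hcon
  have z2 : ∀ t : ZMod 2, t ≠ 1 → t = 0 := by decide
  have z2' : ∀ t : ZMod 2, t ≠ 0 → t = 1 := by decide
  have H : ∀ ε ∈ S.D (n + S.E), S.lam (ε / ρ₀) = 0 → S.lam (ε / ρ₁) = 0 :=
    fun ε hε h => z2 _ (hcon ε hε h)
  have d0 : ∀ ε ∈ S.D (n + S.E), ε / ρ₀ ∈ S.D S.E := fun ε hε => S.D_div' hε h0 hv0 (by omega)
  have d1 : ∀ ε ∈ S.D (n + S.E), ε / ρ₁ ∈ S.D S.E := fun ε hε => S.D_div' hε h1 hv1 (by omega)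
  obtain ⟨u₀, hu₀, hlam⟩ := S.exists_lam
  have hsub : ∀ x ∈ S.D S.E, ∀ y ∈ S.D S.E, S.lam (x - y) = S.lam x - S.lam y := by
    intro x hx y hy
    rw [sub_eq_add_neg, S.lam_add hx ((S.D S.E).neg_mem hy), S.lam_neg hy, sub_eq_add_neg]
  have hε₁ : u₀ * ρ₁ ∈ S.D (n + S.E) := S.D_mul' hu₀ (Or.inr hv1.ge : ρ₁ ∈ S.D n) (by omega)
  have e1 : u₀ * ρ₁ / ρ₁ = u₀ := mul_div_cancel_right₀ _ h1
  have h3 : S.lam (u₀ * ρ₁ / ρ₀) = 1 := by
    apply z2'
    intro h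
    have h4 := H _ hε₁ h
    rw [e1, hlam] at h4
    exact one_ne_zero h4
  have key : ∀ ε ∈ S.D (n + S.E), S.lam (ε / ρ₀) = S.lam (ε / ρ₁) := by
    intro ε hε
    by_cases h : S.lam (ε / ρ₀) = 0
    · rw [h, H ε hε h]
    · have h4 := z2' _ h
      have h5 := H (ε - u₀ * ρ₁) ((S.D _).sub_mem hε hε₁) (by
        rw [sub_div, hsub _ (d0 _ hε) _ (d0 _ hε₁), h4, h3, sub_self])
      rw [sub_div, hsub _ (d1 _ hε) _ (d1 _ hε₁), e1, hlam, sub_eq_zero] at h5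
      rw [h4, h5]
  have h2' : ρ₁ - ρ₀ ≠ 0 := by
    rw [← neg_sub]
    exact neg_ne_zero.2 h2
  have hv2' : S.v (ρ₁ - ρ₀) = n := by rw [← neg_sub, S.v_neg _ h2, hv2]
  have hε : u₀ * (ρ₀ * ρ₁) / (ρ₁ - ρ₀) ∈ S.D (n + S.E) :=
    S.D_div' (S.D_mul hu₀ (S.D_mul (Or.inr hv0.ge : ρ₀ ∈ S.D n) (Or.inr hv1.ge : ρ₁ ∈ S.D n)))
      h2' hv2' (by omega)
  have h4 := key _ hε
  have h5 := hsub _ (d0 _ hε) _ (d1 _ hε)
  have e2 : u₀ * (ρ₀ * ρ₁) / (ρ₁ - ρ₀) / ρ₀ - u₀ * (ρ₀ * ρ₁) / (ρ₁ - ρ₀) / ρ₁ = u₀ := by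
    field_simp
  rw [e2, hlam, h4, sub_self] at h5
  exact one_ne_zero h5

private theorem Inn_lam {p : ℕ} [Module (ZMod p) V] (S : SS F V p) {t x : F} (ht : t ∈ S.D 1)
    (hx : x ∈ S.D S.E) : S.lam (x / (1 + t)) = S.lam x := by
  have h1 := S.v_one_sub ((S.D 1).neg_mem ht)
  rw [sub_neg_eq_add] at h1
  apply S.lam_congr hx
  have e : x / (1 + t) - x = -(x * t / (1 + t)) := by
    have := h1.1
    field_simp
    ring
  rw [e]
  exact (S.D _).neg_mem (S.D_div' (S.D_mul hx ht) h1.1 h1.2 (by omega))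

private theorem Inn_core [Module (ZMod 2) V] {S : SS F V 2} {A : Set F} {f : F → V} {N : ℤ}
    (hr : Rels S A f) (hL : Ln S A N) {z' : F} (hz' : z' ∈ S.D 0) (hN : 2 ≤ N)
    (hk : Kn S A f z' (N - 2)) {b₀ b₁ : F} (hb₀ : b₀ ∈ A) (hb₁ : b₁ ∈ A)
    (h0 : b₀ - z' ∈ S.D N) (h0' : b₀ - z' ∉ S.D (N + 1)) (h1 : b₁ - z' ∈ S.D N)
    (h01 : b₀ - b₁ ∉ S.D (N + 1)) (hA : ∀ a ∈ A, a - z' ∈ S.D N → a = b₀ ∨ a = b₁) :
    ∃ z' : F, ∀ a ∈ A, z' ≠ a → f a = S.cl (z' - a) := by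
  have hE := S.two_le_E
  -- the valuations of the differences
  have hb01 : b₀ - b₁ ∈ S.D N := by
    have h2 := (S.D N).sub_mem h0 h1
    rwa [sub_sub_sub_cancel_right] at h2
  have hv01 := S.v_eq_of hb01 h01
  have hn01 := S.ne_of_not_mem h01
  have hn10 : b₁ - b₀ ≠ 0 := by
    rw [← neg_sub]
    exact neg_ne_zero.2 hn01
  have hv10 : S.v (b₁ - b₀) = N := by rw [← neg_sub, S.v_neg _ hn01, hv01]
  have hn0 := S.ne_of_not_mem h0'
  have hv0 := S.v_eq_of h0 h0'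
  have hz'b : z' ≠ b₀ := fun h => hn0 (by rw [h, sub_self])
  have hvz' : S.v (z' - b₀) = N - 2 + 2 := by
    rw [← neg_sub, S.v_neg _ hn0, hv0]
    omega
  have hfull : ∀ y, y - z' ∈ S.D (N - 1) → Fu S A y (1 - S.E) (N - 1) := by
    intro y hy
    have hy0 : y ∈ S.D 0 := by
      have h6 := (S.D 0).add_mem (S.D_mono (by omega) hy) hz'
      rwa [sub_add_cancel] at h6
    exact hL.full y hy0
  obtain ⟨z, h2, h3, h4, h5, h6⟩ := step hr hb₀ hz'b hvz' hk (fun y hy =>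
    (hfull y (S.D_mono (by omega) hy)).mono (by omega) (by omega))
  have hzz : z - z' ∈ S.D (N + 1) := S.D_mono (by omega) h2
  have hz0 : z - b₀ ≠ 0 := sub_ne_zero.2 h4
  have hv : S.v (z - b₀) = N := by omega
  have hkz : Kn S A f z (N - 1) := h3.mono (by omega)
  -- all the other points are far away
  have hfar : ∀ a ∈ A, a ≠ b₀ → a ≠ b₁ → z - a ∉ S.D N := by
    intro a ha ha0 ha1 h7
    have h8 : a - z' ∈ S.D N := by
      have h9 := (S.D N).sub_mem (S.D_mono (by omega) hzz) h7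
      rwa [sub_sub_sub_cancel_left] at h9
    rcases hA a ha h8 with h9 | h9
    · exact ha0 h9
    · exact ha1 h9
  -- a small change of `z`
  have fin : ∀ ε ∈ S.D (N + S.E), S.lam (-(ε / (z - b₀))) = 0 →
      (z + ε ≠ b₁ → f b₁ = S.cl (z + ε - b₁)) →
      ∃ z' : F, ∀ a ∈ A, z' ≠ a → f a = S.cl (z' - a) := by
    intro ε hε hl hb
    refine ⟨z + ε, fun a ha hne => ?_⟩
    by_cases ha1 : a = b₁
    · rw [ha1] at hne ⊢
      exact hb hne
    by_cases ha0 : a = b₀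
    · have h7 : -(ε / (z - b₀)) ∈ S.D S.E := (S.D _).neg_mem (S.D_div' hε hz0 hv (by omega))
      have h8 := S.v_one_sub (S.D_mono (by omega : (1 : ℤ) ≤ S.E) h7)
      have e1 : z + ε - a = (z - b₀) * (1 - -(ε / (z - b₀))) := by
        rw [ha0]
        field_simp
        ring
      rw [e1, S.cl_mul _ _ hz0 h8.1, S.lam_spec h7, hl, zero_smul, add_zero, ha0]
      exact h6
    · have h7 := hfar a ha ha0 ha1
      have h8 := S.v_lt_of_not_mem h7
      have h9 := S.cl_congr (S.ne_of_not_mem h7) (y := z + ε - a) (by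
        have e1 : z + ε - a - (z - a) = ε := by ring
        rw [e1]
        exact S.D_mono (by omega) hε)
      rw [h9.2.2]
      exact hkz a ha (by rw [sub_add_cancel]; exact h7)
  by_cases hzb : z = b₁
  · exact fin 0 (S.D _).zero_mem (by
      rw [zero_div, neg_zero]
      exact S.lam_zero (S.D _).zero_mem) (fun h => absurd (by rw [hzb, add_zero]) h)
  have hz1 : z - b₁ ≠ 0 := sub_ne_zero.2 hzb
  have hz1D : z - b₁ ∈ S.D N := by
    have h7 := (S.D N).sub_mem (S.D_mono (by omega) hzz) h1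
    rwa [sub_sub_sub_cancel_right] at h7
  have hμN := S.le_v hz1D hz1
  have hw := wrel hr hb₀ hb₁ (sub_ne_zero.1 hn01) h4 hzb h6
  have fin2 : ∀ s ∈ S.D 1, S.cl (1 - s) = f b₁ - S.cl (z - b₁) →
      (z - b₁) * s ∈ S.D (N + S.E) → S.lam ((z - b₁) * s / (z - b₀)) = 0 →
      ∃ z' : F, ∀ a ∈ A, z' ≠ a → f a = S.cl (z' - a) := by
    intro s hs hsw hε hl
    refine fin (-((z - b₁) * s)) ((S.D _).neg_mem hε) ?_ fun _ => ?_
    · rw [neg_div, neg_neg]
      exact hl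
    · have e1 : z + -((z - b₁) * s) - b₁ = (z - b₁) * (1 - s) := by ring
      rw [e1, S.cl_mul _ _ hz1 (S.one_sub_ne hs), hsw, add_sub_cancel]
  -- the quotient `t`
  obtain ⟨t, ht⟩ : ∃ t, t = (z - b₁) / (b₁ - b₀) := ⟨_, rfl⟩
  have ht0 : t ≠ 0 := by
    rw [ht]
    exact div_ne_zero hz1 hn10
  have hvt : S.v t = S.v (z - b₁) - N := by rw [ht, S.v_div _ _ hz1 hn10, hv10]
  have e1 : z - b₀ = (b₁ - b₀) * (1 + t) := by
    rw [ht]
    field_simp
    ring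
  have e2 : z - b₁ = (b₁ - b₀) * t := by
    rw [ht]
    field_simp
  have hquo : ∀ s, (z - b₁) * s / (z - b₀) = t * s / (1 + t) := by
    intro s
    rw [e1, e2, mul_assoc, mul_div_mul_left _ _ hn10]
  rcases lt_or_ge (S.v (z - b₁)) (N + S.E) with hμ | hμ
  · have hw2 := wmem hr hb₁ hzb rfl (by omega) (by omega) hkz
      ((hfull b₁ (S.D_mono (by omega) h1)).mono (by omega) (by omega))
    rcases hμN.eq_or_lt with hμ0 | hμ0
    · -- `μ = N`
      have e3 : S.E + 1 - (S.v (z - b₁) - (N - 1)) = S.E := by omega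
      rw [e3] at hw2
      obtain ⟨k, hkη⟩ := S.W_E hw2
      have z2 : ∀ t : ZMod 2, t = 0 ∨ t = 1 := by decide
      rcases z2 k with hk0 | hk1
      · rw [hk0, zero_smul, sub_eq_zero] at hkη
        refine fin 0 (S.D _).zero_mem (by
          rw [zero_div, neg_zero]
          exact S.lam_zero (S.D _).zero_mem) fun _ => ?_
        rw [add_zero]
        exact hkη
      · rw [hk1, one_smul] at hkη
        have e4 : z - b₀ - (z - b₁) = b₁ - b₀ := by ring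
        obtain ⟨ε, hε, hl0, hl1⟩ := pick S hz0 hz1 (by rw [e4]; exact hn10) hv hμ0.symm
          (by rw [e4]; exact hv10)
        refine fin (-ε) ((S.D _).neg_mem hε) ?_ fun _ => ?_
        · rw [neg_div, neg_neg]
          exact hl0
        · have h7 : ε / (z - b₁) ∈ S.D S.E := S.D_div' hε hz1 hμ0.symm (by omega)
          have h8 := S.v_one_sub (S.D_mono (by omega : (1 : ℤ) ≤ S.E) h7)
          have e5 : z + -ε - b₁ = (z - b₁) * (1 - ε / (z - b₁)) := by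
            field_simp
            ring
          rw [e5, S.cl_mul _ _ hz1 h8.1, S.lam_spec h7, hl1, one_smul, ← hkη, add_sub_cancel]
    · -- `N < μ < N + E`
      have e3 : S.E + 1 - (S.v (z - b₁) - (N - 1)) = S.E - S.v t := by omega
      rw [e3] at hw2
      obtain ⟨s, hs, hws⟩ := (S.mem_W (by omega)).1 hw2
      have ht1 : t ∈ S.D 1 := Or.inr (by omega)
      have htD : t ∈ S.D (S.v t) := Or.inr le_rfl
      have hz1μ : z - b₁ ∈ S.D (N + S.v t) := Or.inr (by omega)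
      by_cases hdvd : (2 : ℤ) ∣ S.v t
      · obtain ⟨y, hy, hys⟩ := S.drop (S.E - S.v t) s (by omega) (by omega)
          ((dvd_sub S.E_dvd hdvd)) hs
        have hyD : y ∈ S.D (S.E - S.v t + 1) := hy
        refine fin2 y (S.D_mono (by omega) hyD) (by rw [hws, hys])
          (S.D_mul' hz1μ hyD (by omega)) ?_
        apply S.lam_zero
        exact S.D_div' (S.D_mul hz1μ hyD) hz0 hv (by omega)
      · have hts : t * s ∈ S.D S.E := S.D_mul' htD hs (by omega)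
        have hte := S.top_eq (α := -t) (β := s) (neg_ne_zero.2 ht0) ((S.D 1).neg_mem ht1)
          (S.D_mono (by omega) hs) (by rw [neg_mul]; exact (S.D _).neg_mem hts)
        have e4 : S.h (S.cl (1 - -t)) (S.cl (1 - s)) = 0 := by
          rw [S.anti, ← hws, sub_neg_eq_add]
          have h7 : S.cl (z - b₀) - S.cl (b₁ - b₀) = S.cl (1 + t) := by
            have h8 : 1 + t ≠ 0 := by
              intro h8
              rw [h8, mul_zero] at e1
              exact hz0 e1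
            rw [e1, S.cl_mul _ _ hn10 h8, add_sub_cancel_left]
          rw [h7] at hw
          rw [hw, neg_zero]
        rw [e4, S.v_neg _ ht0] at hte
        have hone : ((S.v t : ℤ) : ZMod 2) = 1 := by
          have h7 : ((S.v t : ℤ) : ZMod 2) ≠ 0 := by
            intro h8
            exact hdvd ((ZMod.intCast_zmod_eq_zero_iff_dvd _ 2).1 h8)
          have z2 : ∀ t : ZMod 2, t ≠ 0 → t = 1 := by decide
          exact z2 _ h7
        rw [hone, one_mul, neg_mul, S.lam_neg hts] at hte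
        have hlts : S.lam (t * s) = 0 := by
          rw [← neg_eq_zero]
          exact hte.symm
        refine fin2 s (S.D_mono (by omega) hs) hws.symm (S.D_mul' hz1μ hs (by omega)) ?_
        rw [hquo, Inn_lam S ht1 hts]
        exact hlts
  · -- `N + E ≤ μ`
    have htE : t ∈ S.D S.E := Or.inr (by omega)
    have ht1 : t ∈ S.D 1 := S.D_mono (by omega) htE
    by_cases hτ : S.lam (-t) = 0
    · have hlt : S.lam t = 0 := by
        rw [S.lam_neg htE, neg_eq_zero] at hτ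
        exact hτ
      refine fin (b₁ - z) ?_ ?_ fun h => absurd (by ring) h
      · rw [← neg_sub]
        exact (S.D _).neg_mem (Or.inr hμ)
      · have e3 : -((b₁ - z) / (z - b₀)) = (z - b₁) * 1 / (z - b₀) := by
          rw [← neg_div, neg_sub, mul_one]
        rw [e3, hquo, mul_one, Inn_lam S ht1 htE]
        exact hlt
    · have h7 : S.cl (z - b₀) - S.cl (b₁ - b₀) = S.lam (-t) • S.η := by
        have h8 : 1 + t ≠ 0 := by
          intro h8
          rw [h8, mul_zero] at e1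
          exact hz0 e1
        rw [← S.lam_spec ((S.D _).neg_mem htE), sub_neg_eq_add]
        rw [e1, S.cl_mul _ _ hn10 h8, add_sub_cancel_left]
      rw [h7, map_smul, smul_eq_mul, S.h_eta_right, mul_neg, neg_eq_zero] at hw
      have hval : S.val (f b₁ - S.cl (z - b₁)) = 0 := by
        have z2 : ∀ a b : ZMod 2, a * b = 0 → a ≠ 0 → b = 0 := by decide
        exact z2 _ _ hw hτ
      obtain ⟨x₀, hx₀, hxw⟩ := S.cl_surj (f b₁ - S.cl (z - b₁))
      rw [← hxw, S.val_cl _ hx₀] at hval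
      have hdvd : (2 : ℤ) ∣ S.v x₀ := (ZMod.intCast_zmod_eq_zero_iff_dvd _ 2).1 hval
      obtain ⟨x, hx, hxc, hx1, hx2⟩ := Inn_shift S hx₀ 0
      have hdvd' : (2 : ℤ) ∣ S.v x := by
        have h8 := congrArg S.val hxc
        rw [S.val_cl _ hx, S.val_cl _ hx₀, hval] at h8
        exact (ZMod.intCast_zmod_eq_zero_iff_dvd _ 2).1 h8
      have hvx : S.v x = 0 := by
        push_cast at hx2
        omega
      obtain ⟨y, hy, hxy⟩ := S.unit x hx hvx
      have hyD : y ∈ S.D 1 := hy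
      have hz1μ : z - b₁ ∈ S.D (N + S.E) := Or.inr hμ
      refine fin2 y hyD (by rw [← hxy, hxc, hxw]) (S.D_mul' hz1μ hyD (by omega)) ?_
      apply S.lam_zero
      exact S.D_div' (S.D_mul hz1μ hyD) hz0 hv (by omega)

theorem inner [Module (ZMod 2) V] {S : SS F V 2} {A : Set F} {f : F → V} {N : ℤ}
    (hr : Rels S A f) (hL : Ln S A N) {z : F} (hz : z ∈ S.D 0) {ν : ℤ} (hν : 0 ≤ ν)
    (hνN : ν ≤ N - 2) (hk : Kn S A f z ν) :
    ∃ z' : F, ∀ a ∈ A, z' ≠ a → f a = S.cl (z' - a) := by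
  have hE := S.two_le_E
  have hN : 2 ≤ N := by omega
  obtain ⟨z', hz', hk'⟩ := iter hr hL hz hν hk (N - 2 - ν).toNat
    (by rw [Int.toNat_of_nonneg (by omega)]; omega)
  rw [Int.toNat_of_nonneg (by omega), add_sub_cancel] at hk'
  obtain ⟨b₀, hb₀, b₁, hb₁, h1, h2, h3, h4⟩ := hL.pair z' hz'
  by_cases h5 : b₀ - z' ∈ S.D (N + 1)
  · have h6 : b₁ - z' ∉ S.D (N + 1) := by
      intro h6
      apply h3
      have h7 := (S.D (N + 1)).sub_mem h5 h6
      rwa [sub_sub_sub_cancel_right] at h7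
    refine Inn_core hr hL hz' hN hk' hb₁ hb₀ h2 h6 h1 ?_ fun a ha ha' => (h4 a ha ha').symm
    intro h7
    apply h3
    rw [← neg_sub]
    exact (S.D _).neg_mem h7
  · exact Inn_core hr hL hz' hN hk' hb₀ hb₁ h1 h5 h2 h3 h4

end WNT
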