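import Pool.Agent.Helper36.SecNames

/-!
# WNT / KNames: the maximal elementary abelian quotient of the geometric fundamental group

Names for the statements on sections of `Gal(elemCover / K) → Gal(kbar / k)`.
-/

set_option autoImplicit false

namespace WNT

open Pool.Agent.Helper36 IntermediateField

variable (p : ℕ) (k K Ω : Type*) [Field k] [Field K] [Field Ω] [Algebra k K] [Algebra K Ω]
  [Algebra k Ω] [IsScalarTower k K Ω]

/-- The subfield of `Ω` generated over `K` by the algebraic closure `kbar` of `k` in `Ω` and by the
elements of `univCover` whose `p`-th power lies in the compositum `K kbar`.  (If `k` has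
characteristic zero, this is the maximal elementary abelian extension of exponent `p` of `K kbar`
in `univCover`; if `K = k(X)`, its Galois group over `K kbar` is the maximal elementary
abelian quotient of exponent `p` of the geometric fundamental group of `X`.) -/
noncomputable def elemCover : IntermediateField K Ω :=
  adjoin K ((algebraicClosure k Ω : Set Ω) ∪
    {γ : Ω | γ ∈ univCover k K Ω ∧ γ ^ p ∈ adjoin K (algebraicClosure k Ω : Set Ω)})

/-- The field `elemCover`, as a type. -/
def ElemField : Type _ := elemCover p k K Ω

noncomputable instance fieldElem : Field (ElemField p k K Ω) := (elemCover p k K Ω).toField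

noncomputable instance algebraElem : Algebra K (ElemField p k K Ω) :=
  (elemCover p k K Ω).algebra'

variable {p k K Ω} in
/-- the inclusion in `Ω` -/
def ElemField.val (x : ElemField p k K Ω) : Ω := Subtype.val x

/-- The Galois group of `elemCover` over `K`: a quotient of `PiOne = Gal(univCover / K)`. -/
abbrev ElemPiOne : Type _ := ElemField p k K Ω ≃ₐ[K] ElemField p k K Ω

variable {p k K Ω} in
/-- The homomorphism `s` from the absolute Galois group of `k` to `ElemPiOne` is a section of the
restriction map: the image of `σ` acts as `σ` on the elements of `elemCover` which are algebraic
over `k`. -/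
def IsElemLift (s : AbsGal k Ω →* ElemPiOne p k K Ω) : Prop :=
  ∀ (σ : AbsGal k Ω) (x : ElemField p k K Ω) (a : ConstClosure k Ω),
    x.val = a.val → (s σ x).val = (σ a).val

/-- A section of the restriction map `Gal(elemCover / K) → Gal(kbar / k)`: a continuous
homomorphism, for the Krull topologies, such that the image of `σ` acts as `σ` on `kbar`. -/
structure ElemSection where
  /-- the homomorphism -/
  hom : AbsGal k Ω →* ElemPiOne p k K Ω
  /-- it is continuous for the Krull topologies -/
  cont : Continuous hom
  /-- it is a section of the restriction map -/
  isLift : IsElemLift hom

end WNT
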