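import Mathlib

/-!
# WNT / KRes: restriction of a homomorphism to `Gal(L / K)` to an invariant subfield `M` of `L`
-/

set_option autoImplicit false

namespace WNT

open IntermediateField

section

variable {K Ω G : Type*} [Field K] [Field Ω] [Algebra K Ω] [Group G]
  {L M : IntermediateField K Ω} (hML : M ≤ L) (ρ : G →* (L ≃ₐ[K] L))
  (h : ∀ (g : G) (x : Ω) (hx : x ∈ M), (ρ g ⟨x, hML hx⟩ : Ω) ∈ M)

/-- restriction, one map -/
noncomputable def restrOne (g : G) : M →ₐ[K] M :=
  (L.val.comp ((ρ g : L →ₐ[K] L).comp (inclusion hML))).codRestrict M.toSubalgebra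
    (fun x => h g x x.2)

theorem restrOne_coe (g : G) (x : M) :
    (restrOne hML ρ h g x : Ω) = (ρ g ⟨(x : Ω), hML x.2⟩ : Ω) := rfl

theorem restrOne_mul (g g' : G) :
    restrOne hML ρ h (g * g') = (restrOne hML ρ h g).comp (restrOne hML ρ h g') := by
  apply AlgHom.ext
  intro x
  apply Subtype.ext
  rw [restrOne_coe, map_mul, AlgHom.comp_apply, restrOne_coe, AlgEquiv.mul_apply]
  rfl

theorem restrOne_one : restrOne hML ρ h 1 = AlgHom.id K M := by
  apply AlgHom.ext
  intro x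
  apply Subtype.ext
  rw [restrOne_coe, map_one, AlgEquiv.one_apply]
  rfl

/-- restriction -/
noncomputable def restrRep : G →* (M ≃ₐ[K] M) where
  toFun g := AlgEquiv.ofAlgHom (restrOne hML ρ h g) (restrOne hML ρ h g⁻¹)
    (by rw [← restrOne_mul, mul_inv_cancel, restrOne_one])
    (by rw [← restrOne_mul, inv_mul_cancel, restrOne_one])
  map_one' := by
    apply AlgEquiv.ext
    intro x
    rw [AlgEquiv.ofAlgHom_apply, restrOne_one]
    rfl
  map_mul' g g' := by
    apply AlgEquiv.ext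
    intro x
    rw [AlgEquiv.ofAlgHom_apply, restrOne_mul]
    rfl

theorem restrRep_coe (g : G) (x : M) :
    (restrRep hML ρ h g x : Ω) = (ρ g ⟨(x : Ω), hML x.2⟩ : Ω) := rfl

theorem restrRep_cont [TopologicalSpace G] [IsTopologicalGroup G]
    (hc : ∀ x : L, {g : G | ρ g x = x} ∈ nhds (1 : G)) :
    Continuous (restrRep hML ρ h) := by
  apply continuous_of_continuousAt_one
  rw [ContinuousAt, map_one]
  intro U hU
  rw [krullTopology_mem_nhds_one_iff] at hU
  obtain ⟨E, hE, hEU⟩ := hU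
  rw [Filter.mem_map]
  obtain ⟨S, hS⟩ : E.FG := essFiniteType_iff.1 (inferInstance : Algebra.EssFiniteType K E)
  have h1 : (⋂ x ∈ S, {g : G | ρ g ⟨((x : M) : Ω), hML x.2⟩ =
        ⟨((x : M) : Ω), hML x.2⟩}) ∈ nhds (1 : G) := by
    rw [Filter.biInter_finset_mem]
    intro x _
    exact hc _
  refine Filter.mem_of_superset h1 ?_
  intro g hg
  apply hEU
  show restrRep hML ρ h g ∈ E.fixingSubgroup
  rw [← hS, IntermediateField.mem_fixingSubgroup_iff]
  have h3 : adjoin K (S : Set M) ≤ fixedField (Subgroup.zpowers (restrRep hML ρ h g)) := by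
    rw [adjoin_le_iff]
    intro y hy
    show y ∈ fixedField (Subgroup.zpowers (restrRep hML ρ h g))
    rw [mem_fixedField_iff]
    intro f hf
    obtain ⟨n, rfl⟩ := Subgroup.mem_zpowers_iff.1 hf
    have h4 : restrRep hML ρ h g ∈ MulAction.stabilizer (M ≃ₐ[K] M) y := by
      rw [MulAction.mem_stabilizer_iff]
      apply Subtype.ext
      rw [Set.mem_iInter₂] at hg
      exact (congrArg Subtype.val (hg y hy) :)
    exact Subgroup.zpow_mem _ h4 n
  intro x hx
  have h4 := h3 hx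
  rw [mem_fixedField_iff] at h4
  exact h4 _ (Subgroup.mem_zpowers _)

end

/-- invariance of the field generated by `T`, from invariance of `T` -/
theorem adjoin_inv {K Ω : Type*} [Field K] [Field Ω] [Algebra K Ω] {L : IntermediateField K Ω}
    (φ : L ≃ₐ[K] L) {T : Set Ω} (hTL : adjoin K T ≤ L)
    (h : ∀ x (hx : x ∈ T), (φ ⟨x, hTL (subset_adjoin K T hx)⟩ : Ω) ∈ adjoin K T) (x : Ω)
    (hx : x ∈ adjoin K T) : (φ ⟨x, hTL hx⟩ : Ω) ∈ adjoin K T := by
  have h1 : adjoin K T ≤ ((adjoin K T).comap (L.val.comp (φ : L →ₐ[K] L))).map L.val := by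
    rw [adjoin_le_iff]
    intro y hy
    exact ⟨⟨y, hTL (subset_adjoin K T hy)⟩, h y hy, rfl⟩
  obtain ⟨z, hz, hzx⟩ := h1 hx
  have h2 : z = ⟨x, hTL hx⟩ := Subtype.ext hzx
  rw [← h2]
  exact hz

end WNT
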