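import Pool.Agent.WNT.MsR

/-!
# WNT / MsA: the norm relations from `MSec`, without a condition at the poles of `x`

There is one pair `a₀`, `b₀` such that `δ a₀ / (b₀ - a₀)` is a `p`-th power in `F`.  `ε₀ ∈ Ω` with `ε₀ ^ p = δ a₀ / (b₀ - a₀)`, `k0 = k(ε₀)` embeds in `F`; over `k0` the function `G = (1 - ε₀ y a₀)⁻¹` corrects the poles (`MSec.rel`).
-/

set_option autoImplicit false

namespace WNT

open Pool.Agent.Helper36

open Polynomial IntermediateField

theorem nonempty_emb' {k F Ω : Type*} [Field k] [Field F] [Field Ω] [Algebra k F] [Algebra k Ω]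
    {p : ℕ} (hp : 0 < p) {ζ : F} (hζ : IsPrimitiveRoot ζ p) {α : k} {c : F}
    (hc : c ^ p = algebraMap k F α) {ε : Ω} (hε : ε ^ p = algebraMap k Ω α) :
    Nonempty (k⟮ε⟯ →ₐ[k] F) := by
  have hint : IsIntegral k ε := by
    refine ⟨X ^ p - C α, monic_X_pow_sub_C α hp.ne', ?_⟩
    rw [eval₂_sub, eval₂_pow, eval₂_X, eval₂_C, hε, sub_self]
  apply nonempty_algHom_adjoin_of_splits
  intro s hs
  rw [Set.mem_singleton_iff] at hs
  subst hs
  refine ⟨hint, ?_⟩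
  have h1 : minpoly k s ∣ X ^ p - C α := by
    apply minpoly.dvd
    rw [map_sub, map_pow, aeval_X, aeval_C, hε, sub_self]
  have h2 := Polynomial.map_dvd (algebraMap k F) h1
  have h3 : (X ^ p - C α).map (algebraMap k F) = X ^ p - C (c ^ p) := by
    rw [Polynomial.map_sub, Polynomial.map_pow, map_X, map_C, hc]
  rw [h3] at h2
  refine Splits.of_dvd ?_ (monic_X_pow_sub_C _ hp.ne').ne_zero h2
  rw [X_pow_sub_C_eq_prod hζ hp (rfl : c ^ p = c ^ p)]
  exact Splits.prod fun i _ => Splits.X_sub_C _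

/-- `p`-th roots of functions of `K k'` with divisor divisible by `p` lie in `M` -/
def HasRoots (k : Type*) {K Ω : Type*} [Field k] [Field K] [Field Ω] [Algebra k K]
    [Algebra K Ω] [Algebra k Ω] [IsScalarTower k K Ω] (M : IntermediateField K Ω) (p : ℕ) : Prop :=
  ∀ (k' : IntermediateField k Ω), FiniteDimensional k k' → ∀ g : adjoin K (k' : Set Ω), g ≠ 0 →
    (∀ v : Valuation (adjoin K (k' : Set Ω)) (WithZero (Multiplicative ℤ)), IsPlace k v →
      ∃ h : adjoin K (k' : Set Ω), v g = v h ^ p) → ∀ γ : Ω, γ ^ p = (g : Ω) → γ ∈ M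

/-- the product of the conjugates of `1 - ε y a` -/
theorem prod_pair {k L : Type*} [Field k] [Field L] [Algebra k L] {p : ℕ} (hp : p.Prime)
    {ζ : k} (hζ : IsPrimitiveRoot ζ p) {a b da db : k} (hab : a ≠ b) {x ya yb ε : L}
    (ha : x - algebraMap k L a = algebraMap k L da * ya ^ p)
    (hb : x - algebraMap k L b = algebraMap k L db * yb ^ p)
    (hε : ε ^ p = algebraMap k L (da / (b - a))) :
    ∏ i ∈ Finset.range p, (1 - algebraMap k L (ζ ^ i) * (ε * ya)) =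
      algebraMap k L (db / (a - b)) * yb ^ p := by
  have hba : b - a ≠ 0 := sub_ne_zero.2 (Ne.symm hab)
  have hab' : a - b ≠ 0 := sub_ne_zero.2 hab
  have h1 := relG_prod (hζ.map_of_injective (algebraMap k L).injective) hp.pos (ε * ya)
  have h2 : ∀ i ∈ Finset.range p, (1 - algebraMap k L (ζ ^ i) * (ε * ya)) =
      1 - algebraMap k L ζ ^ i * (ε * ya) := by
    intro i _
    rw [map_pow]
  rw [Finset.prod_congr rfl h2, h1, mul_pow, hε]
  have h4 : algebraMap k L (b - a) ≠ 0 := (map_ne_zero_iff _ (algebraMap k L).injective).2 hba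
  have h5 : algebraMap k L (a - b) ≠ 0 := (map_ne_zero_iff _ (algebraMap k L).injective).2 hab'
  rw [map_div₀, map_div₀, div_mul_eq_mul_div, div_mul_eq_mul_div, ← ha, ← hb]
  rw [map_sub] at h4 h5
  rw [map_sub, map_sub]
  field_simp
  ring

/-- `1 - ε y a` is not zero -/
theorem pair_ne {k L : Type*} [Field k] [Field L] [Algebra k L] {p : ℕ} (hp : p.Prime)
    {ζ : k} (hζ : IsPrimitiveRoot ζ p) {a b da db : k} (hab : a ≠ b) (hdb : db ≠ 0)
    {x ya yb ε : L} (ha : x - algebraMap k L a = algebraMap k L da * ya ^ p)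
    (hb : x - algebraMap k L b = algebraMap k L db * yb ^ p) (hxb : x ≠ algebraMap k L b)
    (hε : ε ^ p = algebraMap k L (da / (b - a))) : 1 - ε * ya ≠ 0 := by
  intro h0
  have h1 := prod_pair hp hζ hab ha hb hε
  have h2 : ∏ i ∈ Finset.range p, (1 - algebraMap k L (ζ ^ i) * (ε * ya)) = 0 := by
    refine Finset.prod_eq_zero (Finset.mem_range.2 hp.pos) ?_
    rw [pow_zero, map_one, one_mul, h0]
  rw [h1] at h2
  have hab' : a - b ≠ 0 := sub_ne_zero.2 hab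
  rcases mul_eq_zero.1 h2 with h3 | h3
  · exact div_ne_zero hdb hab' ((map_eq_zero_iff _ (algebraMap k L).injective).1 h3)
  · rw [h3, mul_zero, sub_eq_zero] at hb
    exact hxb hb

/-- the divisor of `(1 - ε y a) (1 - ε₀ y a₀)⁻¹` -/
theorem pair_div {k L : Type*} [Field k] [Field L] [Algebra k L] {p : ℕ} (hp : p.Prime)
    {ζ : k} (hζ : IsPrimitiveRoot ζ p) {v : Valuation L (WithZero (Multiplicative ℤ))}
    (hv : ∀ c : k, c ≠ 0 → v (algebraMap k L c) = 1)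
    {a b da db a₀ b₀ da₀ db₀ : k} (hab : a ≠ b) (hab₀ : a₀ ≠ b₀) (hda : da ≠ 0) (hdb : db ≠ 0)
    (hda₀ : da₀ ≠ 0) (hdb₀ : db₀ ≠ 0)
    {x ya yb ya₀ yb₀ ε ε₀ : L} (ha : x - algebraMap k L a = algebraMap k L da * ya ^ p)
    (hb : x - algebraMap k L b = algebraMap k L db * yb ^ p)
    (ha₀ : x - algebraMap k L a₀ = algebraMap k L da₀ * ya₀ ^ p)
    (hb₀ : x - algebraMap k L b₀ = algebraMap k L db₀ * yb₀ ^ p)
    (hε : ε ^ p = algebraMap k L (da / (b - a)))
    (hε₀ : ε₀ ^ p = algebraMap k L (da₀ / (b₀ - a₀))) (hve : v ε = 1) (hve₀ : v ε₀ = 1) :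
    ∃ h : L, v ((1 - ε * ya) * (1 - ε₀ * ya₀)⁻¹) = v h ^ p := by
  have hab' : a - b ≠ 0 := sub_ne_zero.2 hab
  have hab₀' : a₀ - b₀ ≠ 0 := sub_ne_zero.2 hab₀
  rcases le_or_gt (v x) 1 with hx | hx
  · obtain ⟨h, hh⟩ := relG_div hp hζ hv rfl hve (hv _ (div_ne_zero hdb hab'))
      (prod_pair hp hζ hab ha hb hε) ((relG_int hp.ne_zero hv hda ha).1 hx)
    obtain ⟨h₀, hh₀⟩ := relG_div hp hζ hv rfl hve₀ (hv _ (div_ne_zero hdb₀ hab₀'))
      (prod_pair hp hζ hab₀ ha₀ hb₀ hε₀) ((relG_int hp.ne_zero hv hda₀ ha₀).1 hx)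
    exact ⟨h * h₀⁻¹, by rw [map_mul, map_inv₀, hh, hh₀, map_mul, map_inv₀, mul_pow, inv_pow]⟩
  · have h1 : 1 < v ya := by
      by_contra h2
      exact absurd ((relG_int hp.ne_zero hv hda ha).2 (not_lt.1 h2)) (not_le.2 hx)
    have h1₀ : 1 < v ya₀ := by
      by_contra h2
      exact absurd ((relG_int hp.ne_zero hv hda₀ ha₀).2 (not_lt.1 h2)) (not_le.2 hx)
    have h3 := relG_val hp.ne_zero hv hda ha h1
    have h4 := relG_val hp.ne_zero hv hda₀ ha₀ h1₀
    rw [h3] at h4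
    have h5 := (pow_left_inj hp.ne_zero).mp h4
    refine ⟨1, ?_⟩
    rw [map_mul, map_inv₀, relG_pole hve h1, relG_pole hve₀ h1₀, ← h5, map_one, one_pow,
      mul_inv_cancel₀ (ne_of_gt (lt_trans zero_lt_one h1))]

theorem MSec.rel_all {F k K Ω : Type*} [Field F] [Field k] [CharZero k] [Algebra k F] [Field K]
    [Field Ω] [Algebra k K] [Algebra K Ω] [Algebra k Ω] [IsScalarTower k K Ω]
    [Algebra.IsAlgebraic K Ω] [IsAlgClosed Ω] {M : IntermediateField K Ω}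
    {p : ℕ} (hp : p.Prime) {ζ : k} (hζ : IsPrimitiveRoot ζ p) (hM : HasRoots k M p) {A : Set k}
    {x : K} (hx : Transcendental k x) {δ : k → k} {y : k → K} (hδ : ∀ a ∈ A, δ a ≠ 0)
    (hxy : ∀ a ∈ A, x - algebraMap k K a = algebraMap k K (δ a) * y a ^ p)
    {a₀ b₀ : k} (ha₀ : a₀ ∈ A) (hb₀ : b₀ ∈ A) (hab₀ : a₀ ≠ b₀) {c : F}
    (hc : c ^ p = algebraMap k F (δ a₀ / (b₀ - a₀))) (s : MSec k K Ω M)
    {a b : k} (ha : a ∈ A) (hb : b ∈ A) (hab : a ≠ b) :
    NR p (algebraMap k F ζ) (algebraMap k F (δ a / (b - a))) (algebraMap k F (δ b / (a - b))) := by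
  obtain ⟨α, hα⟩ : ∃ α : k, α = δ a₀ / (b₀ - a₀) := ⟨_, rfl⟩
  rw [← hα] at hc
  have hba₀ : b₀ - a₀ ≠ 0 := sub_ne_zero.2 (Ne.symm hab₀)
  have hα0 : α ≠ 0 := by rw [hα]; exact div_ne_zero (hδ _ ha₀) hba₀
  obtain ⟨ε, hε⟩ := IsAlgClosed.exists_pow_nat_eq (algebraMap k Ω α) hp.pos
  have hint0 : ∀ (ε : Ω) (α : k), ε ^ p = algebraMap k Ω α → IsIntegral k ε := by
    intro ε α hε
    refine ⟨X ^ p - C α, monic_X_pow_sub_C α hp.ne_zero, ?_⟩
    rw [eval₂_sub, eval₂_pow, eval₂_X, eval₂_C, hε, sub_self]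
  have hint := hint0 ε α hε
  obtain ⟨ψ⟩ := nonempty_emb' (F := F) hp.pos (hζ.map_of_injective (algebraMap k F).injective) hc hε
  have hfd : FiniteDimensional k k⟮ε⟯ := adjoin.finiteDimensional hint
  letI := algK K k⟮ε⟯
  have htow := towK K k⟮ε⟯
  have halg : Algebra.IsAlgebraic (adjoin K (k⟮ε⟯ : Set Ω)) Ω :=
    Algebra.IsAlgebraic.tower_top (K := K) (adjoin K (k⟮ε⟯ : Set Ω))
  obtain ⟨e, he⟩ : ∃ e : k⟮ε⟯, e = AdjoinSimple.gen k ε := ⟨_, rfl⟩
  have heε : (e : Ω) = ε := by rw [he, AdjoinSimple.coe_gen]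
  have hcomp : ∀ c : k, algebraMap k⟮ε⟯ (adjoin K (k⟮ε⟯ : Set Ω)) (algebraMap k k⟮ε⟯ c) =
      algebraMap K (adjoin K (k⟮ε⟯ : Set Ω)) (algebraMap k K c) := by
    intro c
    apply (algebraMap (adjoin K (k⟮ε⟯ : Set Ω)) Ω).injective
    rw [← IsScalarTower.algebraMap_apply, ← IsScalarTower.algebraMap_apply,
      ← IsScalarTower.algebraMap_apply, ← IsScalarTower.algebraMap_apply]
  have hk : ∀ c : k, c ≠ 0 → algebraMap k k⟮ε⟯ c ≠ 0 := fun c hc0 =>
    (map_ne_zero_iff _ (algebraMap k k⟮ε⟯).injective).2 hc0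
  have hxK : ∀ c : k, algebraMap K (adjoin K (k⟮ε⟯ : Set Ω)) x ≠
      algebraMap k⟮ε⟯ (adjoin K (k⟮ε⟯ : Set Ω)) (algebraMap k k⟮ε⟯ c) := by
    intro c h
    rw [hcomp] at h
    apply hx
    rw [(algebraMap K (adjoin K (k⟮ε⟯ : Set Ω))).injective h]
    exact isAlgebraic_algebraMap c
  have hxy0 : ∀ a ∈ A, algebraMap K (adjoin K (k⟮ε⟯ : Set Ω)) x -
      algebraMap k⟮ε⟯ (adjoin K (k⟮ε⟯ : Set Ω)) (algebraMap k k⟮ε⟯ a) =
      algebraMap k⟮ε⟯ (adjoin K (k⟮ε⟯ : Set Ω)) (algebraMap k k⟮ε⟯ (δ a)) *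
        algebraMap K (adjoin K (k⟮ε⟯ : Set Ω)) (y a) ^ p := by
    intro a ha
    rw [hcomp, hcomp, ← map_sub, hxy a ha, map_mul, map_pow]
  have hζ0 : IsPrimitiveRoot (algebraMap k k⟮ε⟯ ζ) p :=
    hζ.map_of_injective (algebraMap k k⟮ε⟯).injective
  -- everything in `Ω`
  have hxyΩ : ∀ a ∈ A, algebraMap K Ω x - algebraMap k Ω a = algebraMap k Ω (δ a) *
      algebraMap K Ω (y a) ^ p := by
    intro a ha
    rw [IsScalarTower.algebraMap_apply k K Ω a, IsScalarTower.algebraMap_apply k K Ω (δ a),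
      ← map_sub, hxy a ha, map_mul, map_pow]
  have hxΩ : ∀ c : k, algebraMap K Ω x ≠ algebraMap k Ω c := by
    intro c h
    rw [IsScalarTower.algebraMap_apply k K Ω c] at h
    apply hx
    rw [(algebraMap K Ω).injective h]
    exact isAlgebraic_algebraMap c
  -- the correcting function
  obtain ⟨g, hg⟩ : ∃ g, g = 1 - algebraMap k⟮ε⟯ (adjoin K (k⟮ε⟯ : Set Ω)) e *
    algebraMap K (adjoin K (k⟮ε⟯ : Set Ω)) (y a₀) := ⟨_, rfl⟩
  have hgΩ : algebraMap (adjoin K (k⟮ε⟯ : Set Ω)) Ω g = 1 - ε * algebraMap K Ω (y a₀) := by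
    rw [hg, map_sub, map_one, map_mul, ← IsScalarTower.algebraMap_apply,
      ← IsScalarTower.algebraMap_apply, he, AdjoinSimple.algebraMap_gen]
  have hε' : ε ^ p = algebraMap k Ω (δ a₀ / (b₀ - a₀)) := by rw [hε, hα]
  have hg0Ω : 1 - ε * algebraMap K Ω (y a₀) ≠ 0 :=
    pair_ne hp hζ hab₀ (hδ _ hb₀) (hxyΩ _ ha₀) (hxyΩ _ hb₀) (hxΩ b₀) hε'
  have hg0 : g ≠ 0 := by
    intro h0
    rw [h0, map_zero] at hgΩ
    exact hg0Ω hgΩ.symm
  have hmain := MSec.rel (G := g⁻¹) hp hζ0 (a := algebraMap k k⟮ε⟯ a)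
    (b := algebraMap k k⟮ε⟯ b) (fun h => hab ((algebraMap k k⟮ε⟯).injective h)) (hk _ (hδ a ha))
    (hk _ (hδ b hb)) (hxy0 a ha) (hxy0 b hb) (hxK b) (inv_ne_zero hg0) (by
      intro ε₁ hε₁
      have hε₁' : ε₁ ^ p = algebraMap k Ω (δ a / (b - a)) := by
        rw [hε₁, ← map_sub, ← map_div₀, ← IsScalarTower.algebraMap_apply]
      have hint1 := hint0 ε₁ _ hε₁'
      obtain ⟨k', hk'⟩ : ∃ k' : IntermediateField k Ω, k' = k⟮ε, ε₁⟯ := ⟨_, rfl⟩
      have hfd' : FiniteDimensional k k' := by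
        rw [hk']
        apply finiteDimensional_adjoin
        intro t ht
        rcases ht with rfl | ht
        · exact hint
        · rw [Set.mem_singleton_iff] at ht
          rw [ht]
          exact hint1
      have hmem : ε ∈ k' := by
        rw [hk']
        exact subset_adjoin k _ (Set.mem_insert _ _)
      have hmem1 : ε₁ ∈ k' := by
        rw [hk']
        exact subset_adjoin k _ (Set.mem_insert_of_mem _ rfl)
      -- in `L = K k'`
      obtain ⟨E, hE⟩ : ∃ E : adjoin K (k' : Set Ω), E = constMap K k' ⟨ε, hmem⟩ := ⟨_, rfl⟩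
      obtain ⟨E₁, hE₁⟩ : ∃ E : adjoin K (k' : Set Ω), E = constMap K k' ⟨ε₁, hmem1⟩ := ⟨_, rfl⟩
      have hEc : (E : Ω) = ε := by rw [hE]; rfl
      have hE₁c : (E₁ : Ω) = ε₁ := by rw [hE₁]; rfl
      have hEp : E ^ p = algebraMap k (adjoin K (k' : Set Ω)) (δ a₀ / (b₀ - a₀)) := by
        apply (algebraMap (adjoin K (k' : Set Ω)) Ω).injective
        rw [map_pow, ← IsScalarTower.algebraMap_apply, ← hε', ← hEc]
        rfl
      have hE₁p : E₁ ^ p = algebraMap k (adjoin K (k' : Set Ω)) (δ a / (b - a)) := by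
        apply (algebraMap (adjoin K (k' : Set Ω)) Ω).injective
        rw [map_pow, ← IsScalarTower.algebraMap_apply, ← hε₁', ← hE₁c]
        rfl
      have hxyL : ∀ a ∈ A, algebraMap K (adjoin K (k' : Set Ω)) x -
          algebraMap k (adjoin K (k' : Set Ω)) a = algebraMap k (adjoin K (k' : Set Ω)) (δ a) *
          algebraMap K (adjoin K (k' : Set Ω)) (y a) ^ p := by
        intro a ha
        rw [IsScalarTower.algebraMap_apply k K (adjoin K (k' : Set Ω)) a,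
          IsScalarTower.algebraMap_apply k K (adjoin K (k' : Set Ω)) (δ a),
          ← map_sub, hxy a ha, map_mul, map_pow]
      have hxL : ∀ c : k, algebraMap K (adjoin K (k' : Set Ω)) x ≠
          algebraMap k (adjoin K (k' : Set Ω)) c := by
        intro c h
        rw [IsScalarTower.algebraMap_apply k K (adjoin K (k' : Set Ω)) c] at h
        apply hx
        rw [(algebraMap K (adjoin K (k' : Set Ω))).injective h]
        exact isAlgebraic_algebraMap c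
      obtain ⟨γ, hγ⟩ := IsAlgClosed.exists_pow_nat_eq
        ((((1 - E₁ * algebraMap K (adjoin K (k' : Set Ω)) (y a)) *
          (1 - E * algebraMap K (adjoin K (k' : Set Ω)) (y a₀))⁻¹ :
          adjoin K (k' : Set Ω)) : Ω)) hp.pos
      refine ⟨γ, ?_, ?_⟩
      · show γ ∈ M
        refine hM k' hfd' _ ?_ ?_ γ hγ
        · exact mul_ne_zero (pair_ne hp hζ hab (hδ _ hb) (hxyL _ ha) (hxyL _ hb) (hxL b) hE₁p)
            (inv_ne_zero (pair_ne hp hζ hab₀ (hδ _ hb₀) (hxyL _ ha₀) (hxyL _ hb₀) (hxL b₀) hEp))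
        · intro v hv
          refine pair_div hp hζ hv.1 hab hab₀ (hδ _ ha) (hδ _ hb) (hδ _ ha₀) (hδ _ hb₀)
            (hxyL _ ha) (hxyL _ hb) (hxyL _ ha₀) (hxyL _ hb₀) hE₁p hEp ?_ ?_
          · rw [hE₁]
            apply val_constMap k' hv
            intro h0
            have h1 : ε₁ = 0 := congrArg Subtype.val h0
            rw [h1, zero_pow hp.ne_zero] at hε₁'
            exact div_ne_zero (hδ _ ha) (sub_ne_zero.2 hab.symm)
              ((map_eq_zero_iff _ (algebraMap k Ω).injective).1 hε₁'.symm)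
          · rw [hE]
            apply val_constMap k' hv
            intro h0
            have h1 : ε = 0 := congrArg Subtype.val h0
            rw [h1, zero_pow hp.ne_zero] at hε
            exact hα0 ((map_eq_zero_iff _ (algebraMap k Ω).injective).1 hε.symm)
      · rw [hγ, map_inv₀, hgΩ, ← IsScalarTower.algebraMap_apply, ← hEc, ← hE₁c]
        rfl) (s.up k⟮ε⟯)
  have h1 := nr_map (ψ : k⟮ε⟯ →+* F) hmain
  have h2 : ∀ c : k, (ψ : k⟮ε⟯ →+* F) (algebraMap k k⟮ε⟯ c) = algebraMap k F c :=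
    fun c => ψ.commutes c
  rw [← map_sub, ← map_sub, ← map_div₀, ← map_div₀, h2, h2, h2] at h1
  exact h1

end WNT
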