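import Pool.Agent.WNT.KNames
import Pool.Agent.WNT.KRes
import Pool.Agent.WNT.MsA
import Pool.Agent.Helper36.SecConv

/-!
# WNT / KSec: `ElemSection` gives `MSec`, and a section of `π₁` gives `ElemSection`
-/

set_option autoImplicit false

namespace WNT

open Pool.Agent.Helper36 IntermediateField

variable {p : ℕ} {k K Ω : Type*} [Field k] [Field K] [Field Ω] [Algebra k K] [Algebra K Ω]
  [Algebra k Ω] [IsScalarTower k K Ω]

theorem closure_le_elem (x : algebraicClosure k Ω) : (x : Ω) ∈ elemCover p k K Ω :=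
  subset_adjoin K _ (Or.inl x.2)

/-- unfolding of the names -/
noncomputable def ElemSection.toMSec [Algebra.IsAlgebraic K Ω] (s : ElemSection p k K Ω) :
    MSec k K Ω (elemCover p k K Ω) where
  mem := closure_le_elem
  hom := s.hom
  cont := MSec.of_cont s.hom s.cont
  isSection σ x hx := s.isLift σ x ⟨(x : Ω), hx⟩ rfl

theorem hasRoots_elem [CharZero k] [Algebra.IsAlgebraic K Ω] (hp : p ≠ 0) :
    HasRoots k (elemCover p k K Ω) p := by
  intro k' hk' g hg hdiv γ hγ
  refine subset_adjoin K _ (Or.inr ⟨kummer_mem_univCover k' hp g hg hdiv γ hγ, ?_⟩)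
  rw [hγ]
  have h : adjoin K (k' : Set Ω) ≤ adjoin K (algebraicClosure k Ω : Set Ω) := by
    apply adjoin.mono
    exact le_algebraicClosure k Ω k'
  exact h g.2

section

variable [CharZero k] [Algebra.IsAlgebraic K Ω]

theorem elem_le_univ : elemCover p k K Ω ≤ univCover k K Ω := by
  unfold elemCover
  rw [adjoin_le_iff]
  rintro x (hx | hx)
  · exact mem_univCover_of_mem_closure ⟨x, hx⟩
  · exact hx.1

theorem comp_le_univ : adjoin K (algebraicClosure k Ω : Set Ω) ≤ univCover k K Ω := by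
  rw [adjoin_le_iff]
  intro x hx
  exact mem_univCover_of_mem_closure ⟨x, hx⟩

theorem act_elem (s : SectionData k K Ω) (σ) (x : Ω) (hx : x ∈ elemCover p k K Ω) :
    (s.hom σ ⟨x, elem_le_univ hx⟩ : Ω) ∈ elemCover p k K Ω := by
  refine adjoin_inv (s.hom σ) elem_le_univ ?_ x hx
  rintro y (hy | ⟨hy1, hy2⟩)
  · have h1 := s.isSection σ ⟨y, mem_univCover_of_mem_closure ⟨y, hy⟩⟩ hy
    rw [h1]
    exact closure_le_elem (p := p) (σ ⟨y, hy⟩)
  · refine subset_adjoin K _ (Or.inr ⟨(s.hom σ ⟨y, hy1⟩).2, ?_⟩)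
    have h1 : (s.hom σ ⟨y, hy1⟩ : Ω) ^ p = (s.hom σ ⟨y ^ p, comp_le_univ hy2⟩ : Ω) := by
      have h2 : (⟨y ^ p, comp_le_univ hy2⟩ : univCover k K Ω) = ⟨y, hy1⟩ ^ p := rfl
      rw [h2, map_pow]
      rfl
    rw [h1]
    refine adjoin_inv (s.hom σ) comp_le_univ ?_ _ hy2
    intro z hz
    rw [s.isSection σ ⟨z, comp_le_univ (subset_adjoin K _ hz)⟩ hz]
    exact subset_adjoin K _ (σ ⟨z, hz⟩).2

theorem act_nhds (s : SectionData k K Ω) (x : univCover k K Ω) :
    {σ : algebraicClosure k Ω ≃ₐ[k] algebraicClosure k Ω | s.hom σ x = x} ∈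
      nhds (1 : algebraicClosure k Ω ≃ₐ[k] algebraicClosure k Ω) := by
  obtain ⟨F, hF, h2⟩ := act_cont s x
  rw [krullTopology_mem_nhds_one_iff]
  exact ⟨F, hF, fun τ hτ => h2 τ hτ⟩

/-- restriction of a section -/
noncomputable def restrHom (p : ℕ) (s : SectionData k K Ω) :
    (algebraicClosure k Ω ≃ₐ[k] algebraicClosure k Ω) →*
      (elemCover p k K Ω ≃ₐ[K] elemCover p k K Ω) :=
  restrRep (L := univCover k K Ω) (M := elemCover p k K Ω) (elem_le_univ (p := p)) s.hom
    (fun σ x hx => act_elem s σ x hx)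

theorem restrHom_coe (s : SectionData k K Ω) (σ) (x : elemCover p k K Ω) :
    (restrHom p s σ x : Ω) = (s.hom σ ⟨(x : Ω), elem_le_univ x.2⟩ : Ω) :=
  restrRep_coe (L := univCover k K Ω) (M := elemCover p k K Ω) (elem_le_univ (p := p)) s.hom
    (fun σ x hx => act_elem s σ x hx) σ x

theorem restrHom_cont (s : SectionData k K Ω) : Continuous (restrHom p s) :=
  restrRep_cont (L := univCover k K Ω) (M := elemCover p k K Ω) (elem_le_univ (p := p)) s.hom
    (fun σ x hx => act_elem s σ x hx) (act_nhds s)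

theorem restrHom_lift (s : SectionData k K Ω) (σ : algebraicClosure k Ω ≃ₐ[k] algebraicClosure k Ω)
    (x : elemCover p k K Ω) (hx : (x : Ω) ∈ algebraicClosure k Ω) :
    (restrHom p s σ x : Ω) = (σ ⟨(x : Ω), hx⟩ : Ω) := by
  rw [restrHom_coe]
  exact s.isSection σ ⟨(x : Ω), elem_le_univ x.2⟩ hx

end

/-- a constructor -/
noncomputable def ElemSection.mk'
    (f : (algebraicClosure k Ω ≃ₐ[k] algebraicClosure k Ω) →*
      (elemCover p k K Ω ≃ₐ[K] elemCover p k K Ω)) (hf : Continuous f)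
    (hl : ∀ (σ : algebraicClosure k Ω ≃ₐ[k] algebraicClosure k Ω)
    (x : elemCover p k K Ω) (hx : (x : Ω) ∈ algebraicClosure k Ω),
    (f σ x : Ω) = (σ ⟨(x : Ω), hx⟩ : Ω)) : ElemSection p k K Ω where
  hom := f
  cont := hf
  isLift := by
    intro σ x a hxa
    have h0 : (x : elemCover p k K Ω).1 ∈ algebraicClosure k Ω := by
      have h1 : (x : elemCover p k K Ω).1 = (a : algebraicClosure k Ω).1 := hxa
      rw [h1]
      exact (a : algebraicClosure k Ω).2
    have h2 := hl σ x h0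
    have h3 : (⟨(x : elemCover p k K Ω).1, h0⟩ : algebraicClosure k Ω) = a := Subtype.ext hxa
    rw [h3] at h2
    exact h2

/-- a section of `π₁` gives a section for `elemCover` -/
noncomputable def ElemSection.ofPiOne [CharZero k] [Algebra.IsAlgebraic K Ω] (p : ℕ)
    (s : PiOneSection k K Ω) : ElemSection p k K Ω :=
  ElemSection.mk' (restrHom p s.toData) (restrHom_cont s.toData) (restrHom_lift s.toData)

end WNT
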