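import Pool.Agent.MSG.Uq
import Pool.Agent.MSG.Um
import Pool.Agent.MSG.Un
import Pool.Agent.MSG.Sub

/-!
# WNT / Kum: roots of unity, logarithms, Kummer characters for all `n > 1`

The statements of MSG/Km, MSG/Um, MSG/Un which are used in WNT/Sym, for the structure `PP` (a primitive `n`-th root of unity, `n > 1`) instead of `MSG.PP` (which also has the field: `n` is odd).  The proofs are the same.
-/

set_option autoImplicit false
set_option linter.unusedVariables false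

namespace WNT

universe u v w

open Pool.Agent.Helper14.Massey

open MSG (rt lg zp km GA Fx Co Cu CuN Zu cy cont_of h90cont cy_eq smul_zp km_cont)

/-- `ζ` is a primitive `n`-th root of unity, `n > 1`. -/
structure PP (n : ℕ) {Ω : Type v} [Field Ω] (ζ : Ω) : Prop where
  /-- `n > 1` -/
  one_lt : 1 < n
  /-- `ζ` is a primitive root of unity -/
  prim : IsPrimitiveRoot ζ n

section fld

variable {Ω : Type v} [Field Ω] {n : ℕ} {ζ : Ω}

theorem PP.neZero (hz : PP n ζ) : NeZero n := ⟨by have := hz.one_lt; omega⟩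

theorem PP.cast_ne (hz : PP n ζ) : (n : Ω) ≠ 0 := by
  have := hz.neZero
  exact (hz.prim.neZero').out

theorem zp_zero (hz : PP n ζ) : zp ζ (0 : ZMod n) = 1 := by
  have := hz.neZero
  unfold zp
  rw [ZMod.val_zero, pow_zero]

theorem zp_nat (hz : PP n ζ) (k : ℕ) : zp ζ (k : ZMod n) = ζ ^ k := by
  have := hz.neZero
  unfold zp
  rw [ZMod.val_natCast]
  conv_rhs => rw [← Nat.mod_add_div k n, pow_add, pow_mul, hz.prim.pow_eq_one, one_pow, mul_one]

theorem zp_add (hz : PP n ζ) (i j : ZMod n) : zp ζ (i + j) = zp ζ i * zp ζ j := by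
  have := hz.neZero
  have hi : ((i.val : ℕ) : ZMod n) = i := ZMod.natCast_zmod_val i
  have hj : ((j.val : ℕ) : ZMod n) = j := ZMod.natCast_zmod_val j
  have h : zp ζ (i + j) = zp ζ ((i.val + j.val : ℕ) : ZMod n) := by
    rw [Nat.cast_add, hi, hj]
  rw [h, zp_nat hz, pow_add]
  rfl

theorem zp_ne (hz : PP n ζ) (i : ZMod n) : zp ζ i ≠ 0 := by
  have := hz.neZero
  exact pow_ne_zero _ (hz.prim.ne_zero (by have := hz.one_lt; omega))

theorem zp_neg (hz : PP n ζ) (i : ZMod n) : zp ζ (-i) = (zp ζ i)⁻¹ := by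
  have h := zp_add hz (-i) i
  rw [neg_add_cancel, zp_zero hz] at h
  exact eq_inv_of_mul_eq_one_left h.symm

theorem zp_pow (hz : PP n ζ) (i : ZMod n) : zp ζ i ^ n = 1 := by
  unfold zp
  rw [← pow_mul, mul_comm, pow_mul, hz.prim.pow_eq_one, one_pow]

theorem zp_inj (hz : PP n ζ) {i j : ZMod n} (h : zp ζ i = zp ζ j) : i = j := by
  have := hz.neZero
  exact ZMod.val_injective n (hz.prim.pow_inj (ZMod.val_lt i) (ZMod.val_lt j) h)

theorem zp_lg (hz : PP n ζ) {x : Ω} (hx : x ^ n = 1) : zp ζ (lg n ζ x) = x := by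
  have := hz.neZero
  have h : ∃ j : ℕ, x = ζ ^ j := by
    obtain ⟨i, _, hi⟩ := hz.prim.eq_pow_of_pow_eq_one hx
    exact ⟨i, hi.symm⟩
  unfold lg
  rw [dif_pos h, zp_nat hz]
  exact h.choose_spec.symm

theorem lg_zp (hz : PP n ζ) (i : ZMod n) : lg n ζ (zp ζ i) = i :=
  zp_inj hz (zp_lg hz (zp_pow hz i))

theorem lg_mul (hz : PP n ζ) {x y : Ω} (hx : x ^ n = 1) (hy : y ^ n = 1) :
    lg n ζ (x * y) = lg n ζ x + lg n ζ y := by
  apply zp_inj hz
  rw [zp_add hz, zp_lg hz hx, zp_lg hz hy, zp_lg hz (by rw [mul_pow, hx, hy, one_mul])]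

theorem lg_one (hz : PP n ζ) : lg n ζ (1 : Ω) = 0 := by
  have h := lg_zp hz 0
  rwa [zp_zero hz] at h

theorem rt_pow [IsAlgClosed Ω] (hz : PP n ζ) (a : Ω) : rt n a ^ n = a := by
  have h : ∃ r : Ω, r ^ n = a := IsAlgClosed.exists_pow_nat_eq a (by have := hz.one_lt; omega)
  unfold rt
  rw [dif_pos h]
  exact h.choose_spec

theorem rt_ne [IsAlgClosed Ω] (hz : PP n ζ) {a : Ω} (ha : a ≠ 0) : rt n a ≠ 0 := by
  intro h
  have h2 := rt_pow hz a
  rw [h, zero_pow (by have := hz.one_lt; omega)] at h2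
  exact ha h2.symm

end fld

section act

variable {G : Type u} {Ω : Type v} [Group G] [Field Ω] [MulSemiringAction G Ω] {n : ℕ} {ζ : Ω}

variable [IsAlgClosed Ω]

theorem km_root (hz : PP n ζ) {a r : Ω} (ha : a ≠ 0) (hr : r ^ n = a) {g : G} (hg : g • ζ = ζ)
    (hga : g • a = a) : g • r = zp ζ (km n ζ a g) * r := by
  have hrt : rt n a ≠ 0 := rt_ne hz ha
  have h1 : (g • rt n a / rt n a) ^ n = 1 := by
    rw [div_pow, ← smul_pow', rt_pow hz, hga, div_self ha]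
  have h2 : g • rt n a = zp ζ (km n ζ a g) * rt n a := by
    unfold km
    rw [zp_lg hz h1, div_mul_cancel₀ _ hrt]
  have h3 : (r / rt n a) ^ n = 1 := by
    rw [div_pow, hr, rt_pow hz, div_self ha]
  have h4 : r = zp ζ (lg n ζ (r / rt n a)) * rt n a := by
    rw [zp_lg hz h3, div_mul_cancel₀ _ hrt]
  rw [h4, smul_mul', smul_zp hg, h2]
  ring

theorem km_eq (hz : PP n ζ) {a r : Ω} (ha : a ≠ 0) (hr : r ^ n = a) {g : G} (hg : g • ζ = ζ)
    (hga : g • a = a) {j : ZMod n} (h : g • r = zp ζ j * r) : km n ζ a g = j := by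
  have hr0 : r ≠ 0 := by
    intro h0
    rw [h0, zero_pow (by have := hz.one_lt; omega)] at hr
    exact ha hr.symm
  apply zp_inj hz
  have h1 := km_root hz ha hr hg hga
  rw [h] at h1
  exact (mul_right_cancel₀ hr0 h1).symm

theorem km_hom (hz : PP n ζ) {a : Ω} (ha : a ≠ 0) {g h : G} (hg : g • ζ = ζ) (hh : h • ζ = ζ)
    (hga : g • a = a) (hha : h • a = a) : km n ζ a (g * h) = km n ζ a g + km n ζ a h := by
  apply km_eq hz ha (rt_pow hz a) (by rw [mul_smul, hh, hg]) (by rw [mul_smul, hha, hga])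
  rw [mul_smul, km_root hz ha (rt_pow hz a) hh hha, smul_mul', smul_zp hg,
    km_root hz ha (rt_pow hz a) hg hga, zp_add hz]
  ring

theorem km_mul (hz : PP n ζ) {a b : Ω} (ha : a ≠ 0) (hb : b ≠ 0) {g : G} (hg : g • ζ = ζ)
    (hga : g • a = a) (hgb : g • b = b) : km n ζ (a * b) g = km n ζ a g + km n ζ b g := by
  apply km_eq hz (mul_ne_zero ha hb) (r := rt n a * rt n b) (by rw [mul_pow, rt_pow hz, rt_pow hz]) hg
    (by rw [smul_mul', hga, hgb])
  rw [smul_mul', km_root hz ha (rt_pow hz a) hg hga, km_root hz hb (rt_pow hz b) hg hgb, zp_add hz]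
  ring

theorem km_one (hz : PP n ζ) {g : G} (hg : g • ζ = ζ) : km n ζ (1 : Ω) g = 0 := by
  apply km_eq hz one_ne_zero (r := 1) (one_pow n) hg (smul_one g)
  rw [smul_one, zp_zero hz, one_mul]

theorem km_inv (hz : PP n ζ) {a : Ω} (ha : a ≠ 0) {g : G} (hg : g • ζ = ζ)
    (hga : g • a = a) : km n ζ a⁻¹ g = - km n ζ a g := by
  have hga' : g • a⁻¹ = a⁻¹ := by rw [smul_inv'', hga]
  have h := km_mul hz (inv_ne_zero ha) ha hg hga' hga
  rw [inv_mul_cancel₀ ha, km_one hz hg] at h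
  exact eq_neg_of_add_eq_zero_left h.symm

theorem km_pow (hz : PP n ζ) {x : Ω} (hx : x ≠ 0) {g : G} (hg : g • ζ = ζ) (hgx : g • x = x) :
    km n ζ (x ^ n) g = 0 := by
  apply km_eq hz (pow_ne_zero n hx) (r := x) rfl hg (by rw [smul_pow', hgx])
  rw [zp_zero hz, one_mul, hgx]

end act

section top

variable {G : Type u} {Ω : Type v} [Group G] [TopologicalSpace G] [Field Ω] [MulSemiringAction G Ω] {n : ℕ} {ζ : Ω}

theorem km_zero_iff (hG : GA G Ω) (hz : PP n ζ) (hζ : ∀ g : G, g • ζ = ζ) {a : Ω} (ha : Fx G a) :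
    (∀ g : G, km n ζ a g = 0) ↔ ∃ x : Ω, Fx G x ∧ x ^ n = a := by
  have := hG.alg
  constructor
  · intro h
    refine ⟨rt n a, ⟨rt_ne hz ha.1, fun g => ?_⟩, rt_pow hz a⟩
    have h1 := km_root hz ha.1 (rt_pow hz a) (hζ g) (ha.2 g)
    rwa [h g, zp_zero hz, one_mul] at h1
  · rintro ⟨x, hx, rfl⟩ g
    exact km_pow hz hx.1 (hζ g) (hx.2 g)

end top

section um

variable {G : Type u} {Ω : Type v} [Group G] [TopologicalSpace G] [Field Ω] [MulSemiringAction G Ω] {n : ℕ} {ζ : Ω}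

theorem Cu_of_Co (hz : PP n ζ) (hζ : ∀ g : G, g • ζ = ζ) {F F' : G → G → ZMod n} (h : Co F F') :
    Cu (fun g h => zp ζ (F g h)) (fun g h => zp ζ (F' g h)) := by
  obtain ⟨χ, hχ, h⟩ := h
  refine ⟨fun g => zp ζ (χ g), fun g => zp_ne hz _,
    ((IsLocallyConstant.iff_continuous χ).2 hχ).comp (zp ζ), fun g l => ?_⟩
  change zp ζ (F g l) = zp ζ (F' g l) * (zp ζ (χ g) * g • zp ζ (χ l) / zp ζ (χ (g * l)))
  rw [smul_zp (hζ g), h, sub_eq_add_neg, zp_add hz, zp_add hz, zp_add hz, zp_neg hz, div_eq_mul_inv]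

private theorem um_lc_smul (hG : GA G Ω) (x : Ω) : IsLocallyConstant (fun g : G => g • x) := by
  let _ : TopologicalSpace Ω := ⊥
  have : DiscreteTopology Ω := ⟨rfl⟩
  exact (IsLocallyConstant.iff_continuous _).2 (cont_of hG x _ fun g h e => e)

theorem Co_of_Cu (hG : GA G Ω) (hz : PP n ζ) (hζ : ∀ g : G, g • ζ = ζ) {F F' : G → G → ZMod n}
    (h : Cu (fun g h => zp ζ (F g h)) (fun g h => zp ζ (F' g h))) : Co F F' := by
  have := hG.alg
  obtain ⟨Ξ, h0, hl, h⟩ := h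
  have h' : ∀ g l, zp ζ (F g l) = zp ζ (F' g l) * (Ξ g * g • Ξ l / Ξ (g * l)) := h
  have hpow : ∀ g l, (fun g => Ξ g ^ n) (g * l) = (fun g => Ξ g ^ n) g * g • (fun g => Ξ g ^ n) l := by
    intro g l
    change Ξ (g * l) ^ n = Ξ g ^ n * g • Ξ l ^ n
    have h1 := congrArg (fun x : Ω => x ^ n) (h' g l)
    change zp ζ (F g l) ^ n = (zp ζ (F' g l) * (Ξ g * g • Ξ l / Ξ (g * l))) ^ n at h1
    rw [mul_pow, zp_pow hz, zp_pow hz, one_mul, div_pow, eq_div_iff (pow_ne_zero _ (h0 _)),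
      one_mul, mul_pow] at h1
    rw [h1, smul_pow']
  obtain ⟨θ, hθ, hΞ⟩ := h90cont hG (fun g => Ξ g ^ n) (fun g => pow_ne_zero _ (h0 g))
    (hl.comp fun x : Ω => x ^ n) hpow
  have hτ : rt n θ ^ n = θ := rt_pow hz θ
  have hτ0 : rt n θ ≠ 0 := rt_ne hz hθ
  set τ : Ω := rt n θ with hτdef
  have hgτ : ∀ g : G, g • τ ≠ 0 := fun g => (smul_ne_zero_iff_ne g).2 hτ0
  have hχ : ∀ g, zp ζ (lg n ζ (Ξ g * τ / (g • τ))) = Ξ g * τ / (g • τ) := by
    intro g
    apply zp_lg hz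
    have h1 : Ξ g ^ n = g • θ / θ := hΞ g
    have h2 : g • θ ≠ 0 := (smul_ne_zero_iff_ne g).2 hθ
    rw [div_pow, mul_pow, ← smul_pow', hτ, h1]
    field_simp
  refine ⟨fun g => lg n ζ (Ξ g * τ / (g • τ)),
    (hl.comp₂ (um_lc_smul hG τ) fun a b => lg n ζ (a * τ / b)).continuous, fun g l => ?_⟩
  change F g l = F' g l + (lg n ζ (Ξ g * τ / (g • τ)) + lg n ζ (Ξ l * τ / (l • τ)) -
    lg n ζ (Ξ (g * l) * τ / ((g * l) • τ)))
  apply zp_inj hz
  have h3 : zp ζ (lg n ζ (Ξ l * τ / (l • τ))) = g • Ξ l * g • τ / ((g * l) • τ) := by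
    rw [← smul_zp (hζ g), hχ l, smul_div₀', smul_mul', smul_smul]
  rw [sub_eq_add_neg, zp_add hz, zp_add hz, zp_add hz, zp_neg hz, h3, hχ, hχ, h' g l]
  have e1 := hgτ g
  have e2 := hgτ (g * l)
  have e3 := h0 (g * l)
  field_simp

end um

section un

variable {G : Type u} {Ω : Type v} [Group G] [TopologicalSpace G] [Field Ω] [MulSemiringAction G Ω]

theorem zp_val_pow {q : ℕ} {ζ : Ω} (hz : PP q ζ) (κ : ZMod q) (l : ℕ) :
    zp ζ κ ^ l = zp ζ (κ * (l : ZMod q)) := by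
  induction l with
  | zero => rw [pow_zero, Nat.cast_zero, mul_zero, zp_zero hz]
  | succ l ih => rw [pow_succ, ih, Nat.cast_succ, mul_add, mul_one, zp_add hz]

/-- comparison of `c ^ cy` with the cup product -/
theorem cy_km (hG : GA G Ω) {q : ℕ} {ζ : Ω} (hz : PP q ζ) (hζ : ∀ g : G, g • ζ = ζ) {θ : G → ZMod q} (hθ : Continuous θ)
    (hadd : ∀ g h, θ (g * h) = θ g + θ h) {c : Ω} (hc : Fx G c) :
    Cu (fun g h : G => zp ζ (km q ζ c g * θ h) * c ^ cy θ g h) (fun _ _ => 1) := by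
  have := hz.neZero
  have := hG.alg
  have hr : rt q c ^ q = c := rt_pow hz c
  have hr0 : rt q c ≠ 0 := rt_ne hz hc.1
  refine ⟨fun g => rt q c ^ (θ g).val, fun g => pow_ne_zero _ hr0, ?_, fun g h => ?_⟩
  · exact ((IsLocallyConstant.iff_continuous _).2 hθ).comp (fun z : ZMod q => rt q c ^ z.val)
  · have h1 : g • rt q c = zp ζ (km q ζ c g) * rt q c := km_root hz hc.1 hr (hζ g) (hc.2 g)
    have h2 : zp ζ (km q ζ c g) ^ (θ h).val = zp ζ (km q ζ c g * θ h) := by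
      rw [zp_val_pow hz, ZMod.natCast_zmod_val]
    rw [one_mul, smul_pow', h1, mul_pow, h2, eq_div_iff (pow_ne_zero _ hr0)]
    have h3 : rt q c ^ (θ g).val * rt q c ^ (θ h).val =
        c ^ cy θ g h * rt q c ^ (θ (g * h)).val := by
      rw [← pow_add, cy_eq hadd g h, pow_add, pow_mul, hr]
      ring
    calc zp ζ (km q ζ c g * θ h) * c ^ cy θ g h * rt q c ^ (θ (g * h)).val
        = zp ζ (km q ζ c g * θ h) * (c ^ cy θ g h * rt q c ^ (θ (g * h)).val) := by ring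
      _ = rt q c ^ (θ g).val * (zp ζ (km q ζ c g * θ h) * rt q c ^ (θ h).val) := by
          rw [← h3]; ring

end un

end WNT
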