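import Mathlib

/-!
# WNT / LO: discrete valuation rings of mixed characteristic containing the `p`-th roots of unity

`LO O F p`: the valuation `v` of the fraction field `F` of the discrete valuation ring `O` (with integer values, `v 0` is junk), a uniformizer `ϖ`, a primitive `p`-th root of unity `ζ`, `p` a prime in the maximal ideal, not `0`.
-/

set_option autoImplicit false

namespace WNT

open IsLocalRing

/-- see the header -/
structure LO (O F : Type*) [CommRing O] [IsDomain O] [IsDiscreteValuationRing O] [Field F]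
    [Algebra O F] [IsFractionRing O F] (p : ℕ) where
  v : F → ℤ
  ϖ : O
  ζ : O
  prime : p.Prime
  ne : (p : O) ≠ 0
  mem : (p : O) ∈ maximalIdeal O
  irr : Irreducible ϖ
  prim : IsPrimitiveRoot ζ p
  v_mul : ∀ x y, x ≠ 0 → y ≠ 0 → v (x * y) = v x + v y
  v_add : ∀ x y, x ≠ 0 → y ≠ 0 → x + y ≠ 0 → min (v x) (v y) ≤ v (x + y)
  v_pi : v (algebraMap O F ϖ) = 1
  int : ∀ x : F, (x = 0 ∨ 0 ≤ v x) ↔ ∃ a, algebraMap O F a = x

namespace LO

variable {O F : Type*} [CommRing O] [IsDomain O] [IsDiscreteValuationRing O] [Field F]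
    [Algebra O F] [IsFractionRing O F] {p : ℕ} (L : LO O F p)

omit [IsDomain O] [IsDiscreteValuationRing O] in
theorem inj : Function.Injective (algebraMap O F) := IsFractionRing.injective O F

omit [IsDomain O] [IsDiscreteValuationRing O] in
theorem map_ne {a : O} (ha : a ≠ 0) : algebraMap O F a ≠ 0 :=
  fun h => ha (inj (h.trans (map_zero _).symm))

theorem v_one : L.v 1 = 0 := by
  have h := L.v_mul 1 1 one_ne_zero one_ne_zero
  rw [mul_one] at h
  omega

theorem v_inv (x : F) (hx : x ≠ 0) : L.v x⁻¹ = - L.v x := by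
  have h := L.v_mul x x⁻¹ hx (inv_ne_zero hx)
  rw [mul_inv_cancel₀ hx, L.v_one] at h
  omega

theorem v_div (x y : F) (hx : x ≠ 0) (hy : y ≠ 0) : L.v (x / y) = L.v x - L.v y := by
  rw [div_eq_mul_inv, L.v_mul _ _ hx (inv_ne_zero hy), L.v_inv _ hy]
  ring

theorem v_pow (x : F) (hx : x ≠ 0) (n : ℕ) : L.v (x ^ n) = n * L.v x := by
  induction n with
  | zero => rw [pow_zero, L.v_one]; simp
  | succ n ih =>
    rw [pow_succ, L.v_mul _ _ (pow_ne_zero _ hx) hx, ih]
    push_cast
    ring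

theorem v_int (a : O) (ha : a ≠ 0) : 0 ≤ L.v (algebraMap O F a) := by
  have h := (L.int (algebraMap O F a)).2 ⟨a, rfl⟩
  exact h.resolve_left (map_ne ha)

/-- units have valuation `0` -/
theorem v_unit (a : O) (ha : IsUnit a) : L.v (algebraMap O F a) = 0 := by
  obtain ⟨b, hb⟩ := isUnit_iff_exists_inv.1 ha
  have ha0 : a ≠ 0 := ha.ne_zero
  have hb0 : b ≠ 0 := by
    rintro rfl
    rw [mul_zero] at hb
    exact one_ne_zero hb.symm
  have h := L.v_mul (algebraMap O F a) (algebraMap O F b) (map_ne ha0) (map_ne hb0)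
  rw [← map_mul, hb, map_one, L.v_one] at h
  have h1 := L.v_int a ha0
  have h2 := L.v_int b hb0
  omega

/-- membership in a power of the maximal ideal -/
theorem mem_pow (n : ℕ) (a : O) : (∃ b, a = L.ϖ ^ n * b) ↔
    (algebraMap O F a = 0 ∨ (n : ℤ) ≤ L.v (algebraMap O F a)) := by
  have hϖ : L.ϖ ^ n ≠ 0 := pow_ne_zero _ L.irr.ne_zero
  have hv : L.v (algebraMap O F (L.ϖ ^ n)) = n := by
    rw [map_pow, L.v_pow _ (map_ne L.irr.ne_zero), L.v_pi, mul_one]
  constructor
  · rintro ⟨b, rfl⟩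
    by_cases hb : b = 0
    · left
      rw [hb, mul_zero, map_zero]
    · right
      rw [map_mul, L.v_mul _ _ (map_ne hϖ) (map_ne hb), hv]
      have := L.v_int b hb
      omega
  · rintro (h | h)
    · exact ⟨0, by rw [mul_zero]; exact inj (h.trans (map_zero _).symm)⟩
    · by_cases ha : a = 0
      · exact ⟨0, by rw [mul_zero, ha]⟩
      have h1 : algebraMap O F a / algebraMap O F (L.ϖ ^ n) = 0 ∨
          0 ≤ L.v (algebraMap O F a / algebraMap O F (L.ϖ ^ n)) := by
        right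
        rw [L.v_div _ _ (map_ne ha) (map_ne hϖ), hv]
        omega
      obtain ⟨b, hb⟩ := (L.int _).1 h1
      refine ⟨b, inj (F := F) ?_⟩
      rw [map_mul, hb, mul_div_cancel₀ _ (map_ne hϖ)]

theorem mem_max (a : O) : a ∈ maximalIdeal O ↔
    (algebraMap O F a = 0 ∨ 1 ≤ L.v (algebraMap O F a)) := by
  rw [L.irr.maximalIdeal_eq, Ideal.mem_span_singleton]
  have h := L.mem_pow 1 a
  rw [pow_one] at h
  exact h

/-- `e₁ = v (1 - ζ)` and `E = p e₁` -/
def e₁ : ℤ := L.v (1 - algebraMap O F L.ζ)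

/-- `E = p v (1 - ζ)` -/
def E : ℤ := p * L.e₁

/-- `lam = 1 - ζ` -/
def lam : O := 1 - L.ζ

end LO

end WNT
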