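import Pool.Agent.WNT.LO

/-!
# WNT / Lam: `λ = 1 - ζ` and the `p`-th power of `1 - λ τ`

PROOFS.
* `lam_mem`: modulo the maximal ideal `ζ ^ p = 1` gives `(ζ - 1) ^ p = 0` (`p ∈ m`, `add_pow_char` in the residue field).
* `e₁_pos`: `lam ≠ 0` (`p > 1`), `lam ∈ m`.
* `p_eq`: `p = ∏ i ∈ (range (p - 1)), (1 - ζ ^ (i + 1))` (`IsPrimitiveRoot.prod_one_sub_pow_eq_order`), `1 - ζ ^ (i + 1) = λ * ∑ j ≤ i, ζ ^ j`, and `∑ j ≤ i, ζ ^ j ≡ i + 1` modulo `m`.  So `p = λ ^ (p - 1) * w`, `w ≡ (p - 1)! ≡ - 1` (Wilson, `ZMod.wilsons_lemma`, mapped to the residue field).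
* `v_p`: from `p_eq`.
* `pow_exp`: `(1 - λ T) ^ p = ∑ C(p,k) (-λ T) ^ k`: `k = 0`: `1`; `k = 1`: `- p λ T = - w λ ^ p T`; `k = p`: `(-λ) ^ p T ^ p = - λ ^ p T ^ p`; `2 ≤ k ≤ p - 1`: `C(p,k) = p * c_k` (`Nat.Prime.dvd_choose_self`), `C(p,k) (-λ) ^ k = λ ^ p * λ * (± w c_k λ ^ (k - 2))`.  So
  `(1 - λ T) ^ p = 1 - λ ^ p ε (T ^ p + w T + λ R)` with `R : O[X]` of degree `< p`, `ε = 1` (`ε = -1`, `w = -1`, `R = 0` for `p = 2`).
* `sum_zeta`: `(1 - ζ ^ i) = λ * ℓ`, `ℓ ≡ i` modulo `m` (used in Unr).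
-/

set_option autoImplicit false

namespace WNT

open IsLocalRing Polynomial

private theorem exp_poly_h75 {O : Type*} [CommRing O] {p q : ℕ} (hq : p = q + 2) (hodd : Odd p)
    (l w : O) (hw : (p : O) = l ^ (p - 1) * w) (c : ℕ → ℕ)
    (hc : ∀ k ∈ Finset.range q, p.choose (k + 2) = p * c k) :
    (1 - C l * X : O[X]) ^ p = 1 - C (l ^ p) * (X ^ p + C w * X + C l *
      -∑ k ∈ Finset.range q, C ((-1) ^ k * l ^ k * w * (c k : O)) * X ^ (k + 2)) := by
  subst hq
  have e1 : (1 - C l * X : O[X]) = -(C l * X) + 1 := by ring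
  have hP : ((q + 2 : ℕ) : O[X]) = C l ^ (q + 1) * C w := by
    have h1 := congrArg (C : O → O[X]) hw
    rw [map_natCast, map_mul, map_pow] at h1
    exact h1
  rw [e1, add_pow]
  simp only [one_pow, mul_one]
  rw [Finset.sum_range_succ, Finset.sum_range_succ', Finset.sum_range_succ', Nat.choose_self,
    Nat.cast_one, mul_one, hodd.neg_pow]
  have h2 : ∑ k ∈ Finset.range q, (-(C l * X)) ^ (k + 1 + 1) * (((q + 2).choose (k + 1 + 1) : ℕ) : O[X])
      = C (l ^ (q + 2)) * (C l * ∑ k ∈ Finset.range q,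
        C ((-1) ^ k * l ^ k * w * (c k : O)) * X ^ (k + 2)) := by
    rw [Finset.mul_sum, Finset.mul_sum]
    refine Finset.sum_congr rfl fun k hk => ?_
    rw [hc k hk, Nat.cast_mul, hP, neg_pow]
    simp only [map_mul, map_pow, map_neg, map_one, map_natCast]
    ring
  rw [h2]
  simp only [zero_add, pow_one, pow_zero, Nat.choose_one_right, Nat.choose_zero_right, Nat.cast_one,
    mul_one]
  rw [hP]
  simp only [map_mul, map_pow]
  ring

namespace LO

variable {O F : Type*} [CommRing O] [IsDomain O] [IsDiscreteValuationRing O] [Field F]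
    [Algebra O F] [IsFractionRing O F] {p : ℕ} (L : LO O F p)

include L in
private theorem charP_res_h75 : CharP (ResidueField O) p := by
  refine (CharP.charP_iff_prime_eq_zero L.prime).2 ?_
  have h := (residue_eq_zero_iff (R := O) (p : O)).2 L.mem
  rwa [map_natCast] at h

private theorem res_zeta_h75 : residue O L.ζ = 1 := by
  have := L.charP_res_h75
  have : Fact p.Prime := ⟨L.prime⟩
  have h1 : (1 - residue O L.ζ) ^ p = 0 := by
    rw [sub_pow_char, one_pow, ← map_pow, L.prim.pow_eq_one, map_one, sub_self]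
  have h2 := pow_eq_zero_iff (L.prime.ne_zero) |>.1 h1
  exact (sub_eq_zero.1 h2).symm

theorem lam_ne : L.lam ≠ 0 := by
  unfold lam
  exact sub_ne_zero.2 (L.prim.ne_one L.prime.one_lt).symm

theorem lam_mem : L.lam ∈ maximalIdeal O := by
  rw [← residue_eq_zero_iff]
  unfold lam
  rw [map_sub, map_one, L.res_zeta_h75, sub_self]

theorem v_lam : L.v (algebraMap O F L.lam) = L.e₁ := by
  unfold lam e₁
  rw [map_sub, map_one]

theorem e₁_pos : 0 < L.e₁ := by
  have h := (L.mem_max _).1 L.lam_mem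
  rw [L.v_lam] at h
  have h1 := h.resolve_left (map_ne L.lam_ne)
  omega

theorem v_lam_pow : L.v (algebraMap O F (L.lam ^ p)) = L.E := by
  rw [map_pow, L.v_pow _ (map_ne L.lam_ne), L.v_lam]
  rfl

theorem sum_zeta (i : ℕ) : ∃ l : O, 1 - L.ζ ^ i = L.lam * l ∧ l - (i : O) ∈ maximalIdeal O := by
  refine ⟨∑ j ∈ Finset.range i, L.ζ ^ j, ?_, ?_⟩
  · unfold lam
    rw [mul_neg_geom_sum]
  · rw [← residue_eq_zero_iff, map_sub, map_sum]
    simp only [map_pow, L.res_zeta_h75, one_pow, Finset.sum_const, Finset.card_range, nsmul_eq_mul,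
      mul_one, map_natCast, sub_self]

theorem p_eq : ∃ w : O, (p : O) = L.lam ^ (p - 1) * w ∧ w + 1 ∈ maximalIdeal O := by
  classical
  choose l hl hlm using L.sum_zeta
  refine ⟨∏ k ∈ Finset.range (p - 1), l (k + 1), ?_, ?_⟩
  · have h1 : IsPrimitiveRoot L.ζ ((p - 1) + 1) := by
      rw [Nat.sub_add_cancel L.prime.one_lt.le]
      exact L.prim
    have h2 := h1.prod_one_sub_pow_eq_order
    have h3 : ((p - 1 : ℕ) : O) + 1 = (p : O) := by
      have h4 : (((p - 1) + 1 : ℕ) : O) = (p : O) := by rw [Nat.sub_add_cancel L.prime.one_lt.le]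
      rw [← h4]
      push_cast
      rfl
    rw [h3] at h2
    rw [← h2]
    simp only [hl]
    rw [Finset.prod_mul_distrib, Finset.prod_const, Finset.card_range]
  · rw [← residue_eq_zero_iff, map_add, map_one, map_prod]
    have h1 : ∀ k ∈ Finset.range (p - 1), residue O (l (k + 1)) = ((k + 1 : ℕ) : ResidueField O) := by
      intro k _
      have h2 := (residue_eq_zero_iff (R := O) _).2 (hlm (k + 1))
      rw [map_sub, map_natCast] at h2
      exact sub_eq_zero.1 h2
    rw [Finset.prod_congr rfl h1, ← Nat.cast_prod, Finset.prod_range_add_one_eq_factorial]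
    have : Fact p.Prime := ⟨L.prime⟩
    have h2 := ZMod.wilsons_lemma p
    have h3 : (((p - 1).factorial + 1 : ℕ) : ZMod p) = 0 := by
      push_cast
      rw [h2]
      ring
    rw [ZMod.natCast_eq_zero_iff] at h3
    have h4 := L.charP_res_h75
    have h5 := (CharP.cast_eq_zero_iff (ResidueField O) p _).2 h3
    push_cast at h5
    exact h5

private theorem unit_w_h75 {O : Type*} [CommRing O] [IsLocalRing O] {w : O}
    (hw : w + 1 ∈ maximalIdeal O) : IsUnit w := by
  by_contra h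
  have h1 : w ∈ maximalIdeal O := (mem_maximalIdeal w).2 h
  have h2 : (1 : O) ∈ maximalIdeal O := by
    have h3 := (maximalIdeal O).sub_mem hw h1
    rwa [add_sub_cancel_left] at h3
  exact (mem_maximalIdeal (1 : O)).1 h2 isUnit_one

theorem v_p : L.v (algebraMap O F (p : O)) = (p - 1) * L.e₁ := by
  obtain ⟨w, hw, hwm⟩ := L.p_eq
  have hu := unit_w_h75 hwm
  rw [hw, map_mul, L.v_mul _ _ (map_ne (pow_ne_zero _ L.lam_ne)) (map_ne hu.ne_zero), L.v_unit w hu,
    map_pow, L.v_pow _ (map_ne L.lam_ne), L.v_lam, add_zero, Nat.cast_pred L.prime.pos]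

private theorem two_root_h56 {R : Type*} [CommRing R] [IsDomain R] {q : ℕ} (hq : q = 2) {z : R}
    (h : IsPrimitiveRoot z q) : z = -1 := by
  subst hq
  exact h.eq_neg_one_of_two_right

theorem pow_exp : ∃ (ε w : O) (R : O[X]), ε * ε = 1 ∧ ε - 1 ∈ maximalIdeal O ∧
    w + 1 ∈ maximalIdeal O ∧ R.natDegree < p ∧
    (1 - C L.lam * X) ^ p = 1 - C (L.lam ^ p * ε) * (X ^ p + C w * X + C L.lam * R) := by
  by_cases hp2 : p = 2
  · have hz : L.ζ = -1 := two_root_h56 hp2 L.prim
    have hl : L.lam = 2 := by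
      unfold lam
      rw [hz]
      norm_num
    have hm : (2 : O) ∈ maximalIdeal O := by
      have h := L.mem
      rw [hp2] at h
      exact_mod_cast h
    refine ⟨-1, -1, 0, by ring, ?_, ?_, ?_, ?_⟩
    · have h := (maximalIdeal O).neg_mem hm
      have h1 : (-1 : O) - 1 = -2 := by ring
      rw [h1]
      exact h
    · rw [neg_add_cancel]
      exact (maximalIdeal O).zero_mem
    · rw [natDegree_zero]
      exact L.prime.pos
    · rw [hl, hp2]
      simp only [C_mul, C_pow, C_neg, C_1, mul_zero, add_zero, C_ofNat]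
      ring
  obtain ⟨w, hw, hwm⟩ := L.p_eq
  have h3 : 3 ≤ p := by
    have h1 := L.prime.two_le
    omega
  obtain ⟨q, hq⟩ : ∃ q, p = q + 2 := ⟨p - 2, by omega⟩
  have hc : ∀ k : ℕ, ∃ c : ℕ, k ∈ Finset.range q → p.choose (k + 2) = p * c := by
    intro k
    by_cases hk : k ∈ Finset.range q
    · obtain ⟨c, hc⟩ := L.prime.dvd_choose_self (k := k + 2) (by omega)
        (by rw [Finset.mem_range] at hk; omega)
      exact ⟨c, fun _ => hc⟩
    · exact ⟨0, fun h => absurd h hk⟩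
  choose c hc using hc
  refine ⟨1, w, -∑ k ∈ Finset.range q, C ((-1) ^ k * L.lam ^ k * w * (c k : O)) * X ^ (k + 2),
    one_mul 1, ?_, hwm, ?_, ?_⟩
  · rw [sub_self]
    exact (maximalIdeal O).zero_mem
  · rw [natDegree_neg]
    refine lt_of_le_of_lt (natDegree_sum_le_of_forall_le _ _ (n := q + 1) fun k hk => ?_) (by omega)
    rw [Finset.mem_range] at hk
    exact (natDegree_C_mul_X_pow_le _ _).trans (by omega)
  · rw [mul_one]
    exact exp_poly_h75 hq (L.prime.odd_of_ne_two hp2) L.lam w hw c hc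

end LO

end WNT
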