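import Pool.Agent.WNT.Om

/-!
# WNT / Lin: the function `x` is linear

`x : F → ZMod p` as in `om`.  Let `κ = f b - cl (z - b) ∈ W j` (`kap`), `κ = cl (1 - k)`, `k ∈ D j`.

PROOF of `lin1` (`p` does not divide `j`).  Let `c ∈ A`, `v (c - b) = m - j - 1`, `s = (c - b) / (z - b)`, `v s = E - j ≥ 1`.  `rel' c b`: `h (cl (1 - s) + x • η) (cl s - κ) = 0` (`cl (c - b) = cl s + cl (z - b)`), i.e. (`S.stein`)
`- h (cl (1 - s)) κ + x * val (cl s - κ) = 0`; `val (cl s) = E - j = - j` in `ZMod p` (`p ∣ E`), `val κ = 0`; `h (cl (1 - s)) (cl (1 - k)) = v s * lam (s k) = - j * lam (s k)` (`top_eq`, `s k ∈ D E`).  So `- j x = - j lam (s k)`, `x = lam (s k)`.  If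
`c - b ∈ D (m - j)`: `x = 0` and `s k ∈ D (E + 1)`, `lam_zero`.  The `k` of the statement is this `k`.

PROOF of `lin2` (`p` divides `j`, so `1 ≤ j ≤ E - 3`: `p ∣ E`, `p ≥ 3`, `j < E`).  By `net` take `e ∈ A` with `v (e - b) = m - j - 2` (`≥ -2E`: `m ≥ -E`, `j + 2 ≤ E - 1`), `s = (e - b) / (z - b)`, `v s = E - j - 1 ≥ 2`, `ω = f e - f b - cl (1 - s)`.
For `c ∈ A`, `c - b ∈ D (m - j - 1)`: `t = (c - b) / (e - b) ∈ D 1`, `x = x c`, `f c = f b + cl (1 - s t) + x • η`.  `rel' e c`: `h (cl (1 - s) + ω - cl (1 - s t) - x • η) (cl s + cl (1 - t) - κ - cl (1 - s t) - x • η) = 0`.  Subtract `stein3`, use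
`h _ η = - val`, `h η _ = val`, `val (cl (1 - s)) = val (cl (1 - t)) = val (cl (1 - s t)) = val κ = 0`, `val (cl s) = - j - 1`:
  `h ω (cl s + cl (1 - t) - κ - cl (1 - s t)) + x * val ω + x * (j + 1) - h (cl (1 - s) - cl (1 - s t)) κ = 0`.  Subtract the same for `c = b` (`t = 0`, `x = 0`):
  (G) `h ω (cl (1 - t) - cl (1 - s t)) + x * (val ω + j + 1) + h (cl (1 - s t)) κ = 0`.
For `u ∈ D 2` there is `c ∈ A` with `t - u ∈ D (E + 1)` (`near`, `k = 2`), `c - b ∈ D (m - j)`, `x = 0`; `s t ∈ D (E - j + 1)`, so `h (cl (1 - s t)) κ = 0` (`orth`): `h ω (cl (1 - u)) = h ω (cl (1 - s u))` for all `u ∈ D 2`.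
Descending induction on `i`, `2 ≤ i ≤ E + 1`: `h ω (cl (1 - u)) = 0` for `u ∈ D i`: `i = E + 1`: `cl_big`; `i = E`: `s u ∈ D (E + 1)`; `i ≤ E - 1`: `ω ∈ W (E - i)` (`du` with `i + 1`), `cl (1 - s u) ∈ W (E - j - 1 + i)`, sum `2 E - j - 1 ≥ E + 1`.
So `ω ∈ W (E - 1)` (`du`, `i = 2`), `ω = cl (1 - w)`, `w ∈ D (E - 1)`, `val ω = 0`.  For `t ∈ D 1`: `cl (1 - s t) ∈ W (E - j)`, `(E - j) + (E - 1) ≥ E + 1`: `h ω (cl (1 - s t)) = 0`.  `h (cl (1 - s t)) κ = v (s t) * lam (s t k)` (`top_eq`; `t ≠ 0`): if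
`v (s t) = E - j` this is `0` because `p ∣ E - j`; if `v (s t) > E - j` then `s t k ∈ D (E + 1)`.  So (G) becomes `h ω (cl (1 - t)) + x = 0` (`p ∣ j`), `x = h (cl (1 - t)) ω = v t * lam (t w) = lam (t w)` (`v t = 1`, or `t w ∈ D (E + 1)`; `t = 0`: both `0`).
Put `k' = w (z - b) / (e - b) ∈ D ((E - 1) + (m - 1 - E) - (m - j - 2)) = D j`; `(c - b) / (z - b) * k' = t w`.

PROOF of `step`.  `k` from `lin1`, `lin2`; `z' = b + (z - b) / (1 + k)` (`1 + k` is a unit, `v (z' - b) = v (z - b)`).  For `c ∈ A`, `c - b ∈ D (m - j - 1)`, `s = (c - b) / (z - b) ∈ D (E - j)`: `s k ∈ D E`, `f c = f b + cl (1 - s) + lam (s k) • η = f b + cl ((1 - s) (1 - s k))`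
(`lam_spec`), `(1 - s) (1 - s k) = 1 - s (1 + k) + s ^ 2 k`, `s ^ 2 k ∈ D (2 E - j) ⊆ D (E + 1)`, so (`cl_congr`) `= f b + cl (1 - s (1 + k))` and `(c - b) / (z' - b) = s (1 + k)`.
-/

set_option autoImplicit false

namespace WNT

universe u w

namespace Nt

variable {F : Type u} {V : Type w} [Field F] [AddCommGroup V] {p : ℕ} [Module (ZMod p) V]
  {S : SS F V p} {T : Nt S}

private theorem lin_cast_E (S : SS F V p) {j : ℤ} : ((S.E - j : ℤ) : ZMod p) = -(j : ZMod p) := by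
  have h : ((S.E : ℤ) : ZMod p) = 0 := (CharP.intCast_eq_zero_iff (ZMod p) p _).2 S.E_dvd
  rw [Int.cast_sub, h, zero_sub]

private theorem lin_exp (S : SS F V p) {A B ω κ : V} (x : ZMod p) (hAB : S.h A B = 0)
    (hA : S.val A = 0) (hκ : S.val κ = 0) :
    S.h (A + ω - x • S.η) (B - κ - x • S.η) =
      -S.h A κ + S.h ω (B - κ) + x * S.val ω - x * S.val B := by
  have e1 : ∀ w, S.h S.η w = S.val w := fun _ => rfl
  simp only [map_add, map_sub, map_smul, LinearMap.add_apply, LinearMap.sub_apply,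
    LinearMap.smul_apply, smul_eq_mul, S.h_eta_right, e1, hAB, hA, hκ, S.val_eta]
  ring

private theorem lin_cl_zero (S : SS F V p) {i : ℤ} (hi : S.E + 1 ≤ i) {u : F} (hu : u ∈ S.D i) :
    S.cl (1 - u) = 0 := S.cl_big u (S.D_mono hi hu)

private theorem lin_val_one_sub (S : SS F V p) {t : F} (ht : t ∈ S.D 1) :
    S.val (S.cl (1 - t)) = 0 := by
  obtain ⟨h1, h2⟩ := S.v_one_sub ht
  rw [S.val_cl _ h1, h2, Int.cast_zero]

theorem lin1 {b z : F} {m j : ℤ} (h : T.Gd b m) (h1 : 1 ≤ j) (hE : j ≤ S.E - 1)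
    (hz : T.Hj b m j z) (hp : ¬ (p : ℤ) ∣ j) (x : F → ZMod p)
    (hx : ∀ c ∈ T.A, c - b ∈ S.D (m - j - 1) →
      T.f c = T.f b + S.cl (1 - (c - b) / (z - b)) + x c • S.η)
    (hx0 : ∀ c ∈ T.A, c - b ∈ S.D (m - j) → x c = 0) :
    ∃ k ∈ S.D j, ∀ c ∈ T.A, c - b ∈ S.D (m - j - 1) → x c = S.lam ((c - b) / (z - b) * k) := by
  have : Fact p.Prime := ⟨S.prime⟩
  obtain ⟨k, hk, hκ⟩ := (S.mem_W h1).1 (kap h h1 (by omega) hz)
  refine ⟨k, hk, fun c hc hcb => ?_⟩
  have hvz := hz.vz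
  by_cases hcj : c - b ∈ S.D (m - j)
  · rw [hx0 c hc hcj]
    symm
    apply S.lam_zero
    have h2 := S.D_div hcj hz.ne hvz
    exact S.D_mul' h2 hk (by omega)
  · have hc0 : c - b ≠ 0 := S.ne_of_not_mem hcj
    have hvc : S.v (c - b) = m - j - 1 :=
      S.v_eq_of hcb (by rw [show m - j - 1 + 1 = m - j by ring]; exact hcj)
    set s : F := (c - b) / (z - b) with hs
    have hs0 : s ≠ 0 := div_ne_zero hc0 hz.ne
    have hvs : S.v s = S.E - j := by
      rw [hs, S.v_div _ _ hc0 hz.ne, hvc, hvz]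
      ring
    have hs1 : s ∈ S.D 1 := Or.inr (by omega)
    have hsE : s ∈ S.D (S.E - j) := Or.inr hvs.ge
    have hk1 : k ∈ S.D 1 := S.D_mono h1 hk
    have hcs : c - b = s * (z - b) := by
      rw [hs, div_mul_cancel₀ _ hz.ne]
    have hcl : S.cl (c - b) = S.cl s + S.cl (z - b) := by
      rw [hcs, S.cl_mul _ _ hs0 hz.ne]
    have hrel := T.rel' hc h.bA (fun h0 => hc0 (sub_eq_zero.2 h0))
    have e1 : T.f c - T.f b = S.cl (1 - s) + x c • S.η := by
      rw [hx c hc hcb]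
      abel
    have e2 : S.cl (c - b) - T.f b = S.cl s - S.cl (1 - k) := by
      rw [← hκ, hcl]
      abel
    rw [e1, e2] at hrel
    have h3 : S.h (S.cl (1 - s)) (S.cl s) = 0 := by
      rw [S.anti, S.stein s hs0 (S.one_sub_ne hs1), neg_zero]
    have h4 := S.top_eq hs0 hs1 hk1 (S.D_mul' hsE hk (by omega))
    have h5 : S.val (S.cl s) = ((S.E - j : ℤ) : ZMod p) := by rw [S.val_cl _ hs0, hvs]
    have h6 : S.val (S.cl (1 - k)) = 0 := lin_val_one_sub S hk1
    have e3 : ∀ w, S.h S.η w = S.val w := fun _ => rfl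
    simp only [map_add, map_sub, map_smul, LinearMap.add_apply, LinearMap.smul_apply,
      smul_eq_mul, e3, h3, h4, h5, h6, hvs] at hrel
    have hne : ((S.E - j : ℤ) : ZMod p) ≠ 0 := by
      rw [lin_cast_E, neg_ne_zero]
      intro h7
      exact hp ((CharP.intCast_eq_zero_iff (ZMod p) p _).1 h7)
    apply mul_left_cancel₀ hne
    linear_combination hrel

theorem lin2 {b z : F} {m j : ℤ} (h : T.Gd b m) (h1 : 1 ≤ j) (hE : j ≤ S.E - 1)
    (hz : T.Hj b m j z) (hp : (p : ℤ) ∣ j) (x : F → ZMod p)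
    (hx : ∀ c ∈ T.A, c - b ∈ S.D (m - j - 1) →
      T.f c = T.f b + S.cl (1 - (c - b) / (z - b)) + x c • S.η)
    (hx0 : ∀ c ∈ T.A, c - b ∈ S.D (m - j) → x c = 0) :
    ∃ k ∈ S.D j, ∀ c ∈ T.A, c - b ∈ S.D (m - j - 1) → x c = S.lam ((c - b) / (z - b) * k) := by
  have : Fact p.Prime := ⟨S.prime⟩
  have hE3 := S.two_le_E
  have hp3 : (2 : ℤ) ≤ p := by
    have h2 := S.prime.two_le
    omega
  have hj3 : j ≤ S.E - 2 := by
    have h2 : (p : ℤ) ∣ S.E - j := dvd_sub S.E_dvd hp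
    have h3 := Int.le_of_dvd (by omega) h2
    omega
  have hjc : ((j : ℤ) : ZMod p) = 0 := (CharP.intCast_eq_zero_iff (ZMod p) p _).2 hp
  obtain ⟨k, hk, hκ⟩ := (S.mem_W h1).1 (kap h h1 (by omega) hz)
  have hκW : T.f b - S.cl (z - b) ∈ S.W j := kap h h1 (by omega) hz
  have hk1 : k ∈ S.D 1 := S.D_mono h1 hk
  have hvz := hz.vz
  have hlo := h.lo
  have hhi := h.hi
  -- the point `e`
  obtain ⟨e, he, heb0, hveb⟩ : ∃ e ∈ T.A, e - b ≠ 0 ∧ S.v (e - b) = m - j - 2 := by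
    obtain ⟨e, he, h2⟩ := T.net (b + S.pi ^ (m - j - 2)) (add_mem h.bD (by
      right
      rw [S.v_pi_zpow]
      omega))
    have h3 := S.v_add_eq (S.pi_zpow_ne (m - j - 2)) (y := e - (b + S.pi ^ (m - j - 2))) (by
      rw [S.v_pi_zpow]
      exact S.D_mono (by omega) h2)
    rw [S.v_pi_zpow, show S.pi ^ (m - j - 2) + (e - (b + S.pi ^ (m - j - 2))) = e - b by ring] at h3
    exact ⟨e, he, h3.1, h3.2⟩
  set s : F := (e - b) / (z - b) with hs
  have hs0 : s ≠ 0 := div_ne_zero heb0 hz.ne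
  have hvs : S.v s = S.E - j - 1 := by
    rw [hs, S.v_div _ _ heb0 hz.ne, hveb, hvz]
    ring
  have hsE : s ∈ S.D (S.E - j - 1) := Or.inr hvs.ge
  have hs1 : s ∈ S.D 1 := Or.inr (by omega)
  have hes : e - b = s * (z - b) := by
    rw [hs, div_mul_cancel₀ _ hz.ne]
  have hcles : S.cl (e - b) = S.cl s + S.cl (z - b) := by
    rw [hes, S.cl_mul _ _ hs0 hz.ne]
  obtain ⟨ω, hω⟩ : ∃ ω, ω = T.f e - T.f b - S.cl (1 - s) := ⟨_, rfl⟩
  -- the first relation
  have hraw : ∀ c ∈ T.A, c - b ∈ S.D (m - j - 1) →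
      -S.h (S.cl (1 - s) - S.cl (1 - s * ((c - b) / (e - b)))) (S.cl (1 - k)) +
        S.h ω (S.cl s + S.cl (1 - (c - b) / (e - b)) - S.cl (1 - s * ((c - b) / (e - b))) -
          S.cl (1 - k)) + x c * S.val ω + x c = 0 := by
    intro c hc hcb
    set t : F := (c - b) / (e - b) with ht
    have ht1 : t ∈ S.D 1 := by
      have := S.D_div' (k := 1) hcb heb0 hveb (by omega)
      exact this
    have hst : s * t ∈ S.D 1 := S.D_mul' hsE ht1 (by omega)
    have h1t := S.one_sub_ne ht1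
    have hcbt : c - b = t * (e - b) := by
      rw [ht, div_mul_cancel₀ _ heb0]
    have hstc : (c - b) / (z - b) = s * t := by
      rw [hcbt, hs]
      field_simp
    have hec : e - c = (e - b) * (1 - t) := by linear_combination -hcbt
    have hec0 : e - c ≠ 0 := by
      rw [hec]
      exact mul_ne_zero heb0 h1t
    have hcl : S.cl (e - c) = S.cl s + S.cl (z - b) + S.cl (1 - t) := by
      rw [hec, S.cl_mul _ _ heb0 h1t, hcles]
    have hrel := T.rel' he hc (sub_ne_zero.1 hec0)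
    have hfc := hx c hc hcb
    rw [hstc] at hfc
    have e1 : T.f e - T.f c = (S.cl (1 - s) - S.cl (1 - s * t)) + ω - x c • S.η := by
      rw [hfc, hω]
      abel
    have e2 : S.cl (e - c) - T.f c = (S.cl s + S.cl (1 - t) - S.cl (1 - s * t)) -
        S.cl (1 - k) - x c • S.η := by
      rw [hfc, hcl, ← hκ]
      abel
    have hst3 := S.stein3 hs0 (S.one_sub_ne hs1) h1t (S.one_sub_ne hst)
    have hvA : S.val (S.cl (1 - s) - S.cl (1 - s * t)) = 0 := by
      rw [map_sub, lin_val_one_sub S hs1, lin_val_one_sub S hst, sub_zero]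
    have hvB : S.val (S.cl s + S.cl (1 - t) - S.cl (1 - s * t)) = -1 := by
      rw [map_sub, map_add, lin_val_one_sub S ht1, lin_val_one_sub S hst, S.val_cl _ hs0, hvs,
        add_zero, sub_zero, Int.cast_sub, lin_cast_E, hjc]
      simp
    rw [e1, e2, lin_exp S (x c) hst3 hvA (lin_val_one_sub S hk1), hvB] at hrel
    linear_combination hrel
  have hb0 : x b = 0 := hx0 b h.bA (by rw [sub_self]; exact zero_mem _)
  have hrawb := hraw b h.bA (by rw [sub_self]; exact zero_mem _)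
  rw [sub_self, zero_div, mul_zero, sub_zero, S.cl_one, hb0] at hrawb
  have G : ∀ c ∈ T.A, c - b ∈ S.D (m - j - 1) →
      S.h ω (S.cl (1 - (c - b) / (e - b))) - S.h ω (S.cl (1 - s * ((c - b) / (e - b)))) +
        x c * (S.val ω + 1) + S.h (S.cl (1 - s * ((c - b) / (e - b)))) (S.cl (1 - k)) = 0 := by
    intro c hc hcb
    have h2 := hraw c hc hcb
    simp only [map_add, map_sub, map_zero, LinearMap.sub_apply, LinearMap.zero_apply] at h2 hrawb
    linear_combination h2 - hrawb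
  -- `ω` is in `W (E - 1)`
  have hstar : ∀ u ∈ S.D 2, S.h ω (S.cl (1 - u)) = S.h ω (S.cl (1 - s * u)) := by
    intro u hu
    obtain ⟨a, ha, -, hau⟩ := near (T := T) (k := 2) h.bD heb0 hu (by omega) (by omega)
    set t : F := (a - b) / (e - b) with ht
    have ht2 : t ∈ S.D 2 := by
      have h2 : t = u + (t - u) := by ring
      rw [h2]
      exact add_mem hu (S.D_mono (by omega) hau)
    have hab : a - b = t * (e - b) := by
      rw [ht, div_mul_cancel₀ _ heb0]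
    have habD : a - b ∈ S.D (m - j) := by
      rw [hab]
      have h2 : e - b ∈ S.D (m - j - 2) := Or.inr hveb.ge
      exact S.D_mul' ht2 h2 (by omega)
    have h3 := G a ha (S.D_mono (by omega) habD)
    rw [hx0 a ha habD, ← ht] at h3
    have hst : s * t ∈ S.D (S.E - j + 1) := S.D_mul' hsE ht2 (by omega)
    have h4 : S.h (S.cl (1 - s * t)) (S.cl (1 - k)) = 0 :=
      S.orth (i := S.E - j + 1) (j := j) (by omega) h1 (by omega) (S.cl_mem_W hst)
        (S.cl_mem_W hk)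
    have hu1 : u ∈ S.D 1 := S.D_mono (by omega) hu
    have h5 := S.v_one_sub hu1
    have h6 := (S.cl_congr (x := 1 - u) (y := 1 - t) h5.1 (by
      rw [h5.2, show (1 - t) - (1 - u) = -(t - u) by ring, zero_add]
      exact neg_mem hau)).2.2
    have hsu1 : s * u ∈ S.D 1 := S.D_mul' hsE hu1 (by omega)
    have h7 := S.v_one_sub hsu1
    have h8 := (S.cl_congr (x := 1 - s * u) (y := 1 - s * t) h7.1 (by
      rw [h7.2, show (1 - s * t) - (1 - s * u) = -(s * (t - u)) by ring, zero_add]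
      exact neg_mem (S.D_mul' hsE hau (by omega)))).2.2
    rw [h4, h6, h8] at h3
    linear_combination h3
  have hdesc : ∀ n : ℕ, ∀ i : ℤ, 2 ≤ i → i + n = S.E + 1 → ∀ u ∈ S.D i,
      S.h ω (S.cl (1 - u)) = 0 := by
    intro n
    induction n with
    | zero =>
      intro i hi hin u hu
      rw [lin_cl_zero S (i := i) (by push_cast at hin; omega) hu, map_zero]
    | succ n ih =>
      intro i hi hin u hu
      push_cast at hin
      rw [hstar u (S.D_mono hi hu)]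
      rcases eq_or_lt_of_le (show i ≤ S.E by omega) with hiE | hiE
      · have h2 : s * u ∈ S.D (S.E + 1) := S.D_mul' hsE hu (by omega)
        rw [lin_cl_zero S le_rfl h2, map_zero]
      · have h3 := S.du (i := i + 1) (w := ω) (by omega) (by omega)
          (ih (i + 1) (by omega) (by omega))
        exact S.orth (i := S.E + 1 - (i + 1)) (j := S.E - j - 1 + i) (by omega) (by omega)
          (by omega) h3 (S.cl_mem_W (S.D_mul hsE hu))
  have hωW : ω ∈ S.W (S.E - 1) := by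
    have h2 := S.du (i := 2) (w := ω) (by omega) (by omega)
      (hdesc (S.E - 1).toNat 2 le_rfl (by omega))
    rw [show S.E + 1 - 2 = S.E - 1 by ring] at h2
    exact h2
  obtain ⟨w, hw, hww⟩ := (S.mem_W (by omega)).1 hωW
  have hω0 : S.val ω = 0 := S.val_W (by omega) hωW
  have hw1 : w ∈ S.D 1 := S.D_mono (by omega) hw
  have hlam0 : S.lam 0 = 0 := S.lam_zero (zero_mem _)
  -- the values
  have hval : ∀ c ∈ T.A, c - b ∈ S.D (m - j - 1) → x c = S.lam ((c - b) / (e - b) * w) := by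
    intro c hc hcb
    have h2 := G c hc hcb
    set t : F := (c - b) / (e - b) with ht
    have ht1 : t ∈ S.D 1 := by
      have := S.D_div' (k := 1) hcb heb0 hveb (by omega)
      exact this
    have hst : s * t ∈ S.D (S.E - j) := S.D_mul' hsE ht1 (by omega)
    have h3 : S.h ω (S.cl (1 - s * t)) = 0 :=
      S.orth (i := S.E - 1) (j := S.E - j) (by omega) (by omega) (by omega) hωW (S.cl_mem_W hst)
    by_cases ht0 : t = 0
    · rw [ht0, mul_zero, sub_zero, S.cl_one, hω0] at h2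
      simp only [map_zero, LinearMap.zero_apply] at h2
      rw [ht0, zero_mul, hlam0]
      linear_combination h2
    have hst0 : s * t ≠ 0 := mul_ne_zero hs0 ht0
    have h4 : S.h (S.cl (1 - s * t)) (S.cl (1 - k)) = 0 := by
      rw [S.top_eq hst0 (S.D_mono (by omega) hst) hk1 (S.D_mul' hst hk (by omega))]
      by_cases h5 : s * t ∈ S.D (S.E - j + 1)
      · rw [S.lam_zero (S.D_mul' h5 hk (by omega)), mul_zero]
      · rw [S.v_eq_of hst h5, lin_cast_E, hjc, neg_zero, zero_mul]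
    rw [h3, h4, hω0] at h2
    have h6 : x c = S.h (S.cl (1 - t)) ω := by
      rw [S.anti]
      linear_combination h2
    rw [h6, hww, S.top_eq ht0 ht1 hw1 (S.D_mul' ht1 hw (by omega))]
    by_cases h7 : t ∈ S.D 2
    · rw [S.lam_zero (S.D_mul' h7 hw (by omega)), mul_zero]
    · rw [S.v_eq_of ht1 h7, Int.cast_one, one_mul]
  refine ⟨w * (z - b) / (e - b), ?_, fun c hc hcb => ?_⟩
  · have h2 : z - b ∈ S.D (m - 1 - S.E) := Or.inr hvz.ge
    exact S.D_div' (S.D_mul hw h2) heb0 hveb (by omega)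
  · rw [hval c hc hcb]
    congr 1
    have hz0 := hz.ne
    field_simp

theorem step {b z : F} {m j : ℤ} (h : T.Gd b m) (h1 : 1 ≤ j) (hE : j ≤ S.E - 1)
    (hz : T.Hj b m j z) : ∃ z', T.Hj b m (j + 1) z' := by
  obtain ⟨x, hx, hx0⟩ := om h h1 hE hz
  obtain ⟨k, hk, hkx⟩ : ∃ k ∈ S.D j, ∀ c ∈ T.A, c - b ∈ S.D (m - j - 1) →
      x c = S.lam ((c - b) / (z - b) * k) := by
    by_cases hp : (p : ℤ) ∣ j
    · exact lin2 h h1 hE hz hp x hx hx0
    · exact lin1 h h1 hE hz hp x hx hx0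
  have hk1 : k ∈ S.D 1 := S.D_mono h1 hk
  have hkk := S.v_one_sub (t := -k) (neg_mem hk1)
  rw [sub_neg_eq_add] at hkk
  have hvz := hz.vz
  have hne := div_ne_zero hz.ne hkk.1
  refine ⟨b + (z - b) / (1 + k), ?_, ?_, ?_⟩
  · rw [add_sub_cancel_left]
    exact hne
  · rw [add_sub_cancel_left, S.v_div _ _ hz.ne hkk.1, hkk.2, hvz, sub_zero]
  · intro a ha hab
    rw [show m - (j + 1) = m - j - 1 by ring] at hab
    rw [hx a ha hab, hkx a ha hab, add_sub_cancel_left]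
    set s : F := (a - b) / (z - b) with hs
    have hsE : s ∈ S.D (S.E - j) := S.D_div' hab hz.ne hvz (by omega)
    have hs1 : s ∈ S.D 1 := S.D_mono (by omega) hsE
    have hskE : s * k ∈ S.D S.E := S.D_mul' hsE hk (by omega)
    have hE0 := S.E_pos
    have hsk1 : s * k ∈ S.D 1 := S.D_mono (by omega) hskE
    have e1 : (a - b) / ((z - b) / (1 + k)) = s * (1 + k) := by
      have hz0 := hz.ne
      have hk0 := hkk.1
      rw [hs]
      field_simp
    rw [e1, ← S.lam_spec hskE, add_assoc, ← S.cl_mul _ _ (S.one_sub_ne hs1) (S.one_sub_ne hsk1)]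
    congr 1
    have h1k : (1 + k) ∈ S.D 0 := Or.inr hkk.2.ge
    have h2 : s * (1 + k) ∈ S.D 1 := S.D_mul' hs1 h1k (by omega)
    have h3 := S.v_one_sub h2
    refine (S.cl_congr (x := 1 - s * (1 + k)) h3.1 ?_).2.2
    rw [h3.2, show (1 - s) * (1 - s * k) - (1 - s * (1 + k)) = s * (s * k) by ring]
    exact S.D_mul' hsE hskE (by omega)

end Nt

end WNT
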