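import Mathlib

/-!
# WNT / NR: the norm relation

`NR p ζ α β`: `β` is the norm of an element of the algebra `k[X] / (X ^ p - α)`, written as a divisibility of polynomials (`ζ` a primitive `p`-th root of unity in `k`).

PROOFS.
* `nr_map`: apply `Polynomial.map`.
* `nr_scale`: multiply `P` with `C c`: the product is multiplied with `c ^ p`.
* `nr_of_pow` (`α = c ^ p`, `c ≠ 0`): `X ^ p - C (c ^ p) = ∏ i < p, (X - C (ζ ^ i * c))` (distinct roots).  Take the interpolation polynomial `P` (`Lagrange.interpolate`) with `P (c) = β`, `P (ζ ^ i c) = 1` for `0 < i < p`; the value of `∏ i, P (ζ ^ i X)` at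
  `X = ζ ^ j c` is `∏ i, P (ζ ^ (i + j) c) = β`; all linear factors (pairwise coprime) divide.  Also `α = 0` is not needed.
* `nr_of_root`: `α` is not a `p`-th power in `k`, `ε` in an extension field `L` with `ε ^ p = α` and `β = ∏ i < p, P (ζ ^ i ε)`: the minimal polynomial of `ε` is `X ^ p - C α` (`X_pow_sub_C_irreducible_of_prime`), and `ε` is a root of `∏ i, P (ζ ^ i X) - C β`: `minpoly.dvd`.
* `root_of_nr`: evaluate at `ε`.
-/

set_option autoImplicit false

namespace WNT

open Polynomial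

/-- `β` is a norm from `k[X] / (X ^ p - α)` -/
def NR {k : Type*} [Field k] (p : ℕ) (ζ α β : k) : Prop :=
  ∃ P : k[X], (X ^ p - C α) ∣ (∏ i ∈ Finset.range p, P.comp (C (ζ ^ i) * X)) - C β

theorem nr_map {k F : Type*} [Field k] [Field F] (φ : k →+* F) {p : ℕ} {ζ α β : k}
    (h : NR p ζ α β) : NR p (φ ζ) (φ α) (φ β) := by
  obtain ⟨P, hP⟩ := h
  refine ⟨P.map φ, ?_⟩
  have h1 := Polynomial.map_dvd φ hP
  simpa [Polynomial.map_prod, Polynomial.map_comp] using h1

theorem nr_scale {k : Type*} [Field k] {p : ℕ} {ζ α β : k} (u : k) (hu : u ≠ 0)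
    (h : NR p ζ α (β * u ^ p)) : NR p ζ α β := by
  obtain ⟨P, hP⟩ := h
  refine ⟨C u⁻¹ * P, ?_⟩
  have e1 : (∏ i ∈ Finset.range p, (C u⁻¹ * P).comp (C (ζ ^ i) * X)) =
      C u⁻¹ ^ p * ∏ i ∈ Finset.range p, P.comp (C (ζ ^ i) * X) := by
    have e2 : ∀ i ∈ Finset.range p, (C u⁻¹ * P).comp (C (ζ ^ i) * X) =
        C u⁻¹ * P.comp (C (ζ ^ i) * X) := by
      intro i _
      rw [mul_comp, C_comp]
    rw [Finset.prod_congr rfl e2, Finset.prod_mul_distrib, Finset.prod_const, Finset.card_range]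
  have e3 : (∏ i ∈ Finset.range p, (C u⁻¹ * P).comp (C (ζ ^ i) * X)) - C β =
      C u⁻¹ ^ p * ((∏ i ∈ Finset.range p, P.comp (C (ζ ^ i) * X)) - C (β * u ^ p)) := by
    have e4 : C u⁻¹ ^ p * C (β * u ^ p) = C β := by
      rw [← C_pow, ← C_mul]
      congr 1
      have : u ^ p ≠ 0 := pow_ne_zero _ hu
      rw [inv_pow]
      field_simp
    rw [e1, mul_sub, e4]
  rw [e3]
  exact Dvd.dvd.mul_left hP _

theorem nr_of_pow {k : Type*} [Field k] {p : ℕ} {ζ : k} (hζ : IsPrimitiveRoot ζ p) (hp : 0 < p)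
    {c : k} (hc : c ≠ 0) (β : k) : NR p ζ (c ^ p) β := by
  classical
  obtain ⟨v, hv⟩ : ∃ v : ℕ → k, ∀ i, v i = ζ ^ i * c := ⟨_, fun _ => rfl⟩
  have hinj : ∀ i ∈ Finset.range p, ∀ j ∈ Finset.range p, v i = v j → i = j := by
    intro i hi j hj hij
    rw [hv, hv] at hij
    exact hζ.pow_inj (Finset.mem_range.1 hi) (Finset.mem_range.1 hj) (mul_right_cancel₀ hc hij)
  obtain ⟨r, hr⟩ : ∃ r : ℕ → k, ∀ i, r i = if i = 0 then β else 1 := ⟨_, fun _ => rfl⟩
  have hev : ∀ i ∈ Finset.range p, eval (v i) (Lagrange.interpolate (Finset.range p) v r) = r i :=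
    fun i hi => Lagrange.eval_interpolate_at_node r (fun a ha b hb h => hinj a ha b hb h) hi
  refine ⟨Lagrange.interpolate (Finset.range p) v r, ?_⟩
  rw [X_pow_sub_C_eq_prod hζ hp (rfl : c ^ p = c ^ p)]
  refine Finset.prod_dvd_of_coprime ?_ ?_
  · intro i hi j hj hij
    have h1 : v i ≠ v j := fun h => hij (hinj i hi j hj h)
    rw [hv, hv] at h1
    exact isCoprime_X_sub_C_of_isUnit_sub (sub_ne_zero.2 h1).isUnit
  · intro j hj
    rw [dvd_iff_isRoot, IsRoot.def, eval_sub, eval_C, eval_prod, sub_eq_zero]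
    have hj' := Finset.mem_range.1 hj
    have h1 : ∀ i ∈ Finset.range p,
        eval (ζ ^ j * c) ((Lagrange.interpolate (Finset.range p) v r).comp (C (ζ ^ i) * X)) =
          if (i + j) % p = 0 then β else 1 := by
      intro i _
      rw [eval_comp, eval_mul, eval_C, eval_X]
      have h2 : ζ ^ i * (ζ ^ j * c) = v ((i + j) % p) := by
        rw [hv, ← mul_assoc, ← pow_add]
        congr 1
        conv_lhs => rw [← Nat.div_add_mod (i + j) p, pow_add, pow_mul, hζ.pow_eq_one, one_pow,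
          one_mul]
      rw [h2, hev _ (Finset.mem_range.2 (Nat.mod_lt _ hp)), hr]
    rw [Finset.prod_congr rfl h1]
    rcases Nat.eq_zero_or_pos j with h0 | h0
    · subst h0
      rw [Finset.prod_eq_single 0]
      · simp
      · intro i hi hi0
        rw [if_neg]
        rw [add_zero, Nat.mod_eq_of_lt (Finset.mem_range.1 hi)]
        exact hi0
      · intro h2
        exact absurd (Finset.mem_range.2 hp) h2
    · rw [Finset.prod_eq_single (p - j)]
      · rw [if_pos]
        rw [Nat.sub_add_cancel hj'.le, Nat.mod_self]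
      · intro i hi hi0
        rw [if_neg]
        intro h2
        have hi' := Finset.mem_range.1 hi
        rcases Nat.lt_or_ge (i + j) p with h3 | h3
        · rw [Nat.mod_eq_of_lt h3] at h2
          omega
        · rw [Nat.mod_eq_sub_mod h3, Nat.mod_eq_of_lt (by omega)] at h2
          omega
      · intro h2
        exact absurd (Finset.mem_range.2 (by omega)) h2

theorem nr_of_root {k L : Type*} [Field k] [Field L] [Algebra k L] {p : ℕ} (hp : p.Prime)
    {ζ α β : k} (hα : ∀ c : k, c ^ p ≠ α) {ε : L} (hε : ε ^ p = algebraMap k L α) (P : k[X])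
    (h : algebraMap k L β = ∏ i ∈ Finset.range p, aeval (algebraMap k L (ζ ^ i) * ε) P) :
    NR p ζ α β := by
  refine ⟨P, ?_⟩
  have hirr := X_pow_sub_C_irreducible_of_prime hp hα
  have hmin : X ^ p - C α = minpoly k ε := by
    refine minpoly.eq_of_irreducible_of_monic hirr ?_ (monic_X_pow_sub_C α hp.ne_zero)
    rw [map_sub, map_pow, aeval_X, aeval_C, hε, sub_self]
  rw [hmin]
  refine minpoly.dvd k ε ?_
  rw [map_sub, map_prod, aeval_C, h, sub_eq_zero]
  refine Finset.prod_congr rfl fun i _ => ?_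
  rw [aeval_comp, map_mul, aeval_C, aeval_X]

theorem root_of_nr {k L : Type*} [Field k] [Field L] [Algebra k L] {p : ℕ} {ζ α β : k}
    (h : NR p ζ α β) : ∃ P : k[X], ∀ ε : L, ε ^ p = algebraMap k L α →
    algebraMap k L β = ∏ i ∈ Finset.range p, aeval (algebraMap k L (ζ ^ i) * ε) P := by
  obtain ⟨P, Q, hQ⟩ := h
  refine ⟨P, fun ε hε => ?_⟩
  have h1 := congrArg (aeval ε) hQ
  rw [map_sub, map_prod, aeval_C, map_mul, map_sub, map_pow, aeval_X, aeval_C, hε, sub_self,
    zero_mul, sub_eq_zero] at h1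
  rw [← h1]
  refine Finset.prod_congr rfl fun i _ => ?_
  rw [aeval_comp, map_mul, aeval_C, aeval_X]

end WNT
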