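import Pool.Agent.WNT.AS
import Pool.Agent.WNT.NR

/-!
# WNT / Unr: the uniformizer is not a norm from the unramified extension

`η₀ = 1 - λ ^ p u₀`, `t ^ p - t ≠ u₀` for all `t` in the residue field `κ`.  CLAIM: `¬ NR p ζ η₀ ϖ` (over `F`).

PROOF.  Let `P : F[X]`, `(X ^ p - C η₀) ∣ ∏ i < p, P (ζ ^ i X) - C ϖ`.  Reduce `P` modulo `X ^ p - C η₀` (invariant under `X ↦ ζ ^ i X`): we may assume `deg P < p`; `P ≠ 0`.  Let `Q₀ = P (1 - λ T) : F[T]` (degree `< p`, `≠ 0`).  Let `n` be the least valuation of the coefficients of `Q₀`: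
`Q₀ = ϖ ^ n Q` with `Q` the image of a polynomial over `O`, of degree `< p`, whose reduction `Q̄` to `κ[T]` is not `0`.  For `i < p`: `P (ζ ^ i (1 - λ T)) = Q₀ (ζ ^ i T + l_i)`, `1 - ζ ^ i = λ l_i`, `l_i ≡ i` (`sum_zeta`; indeed `ζ ^ i (1 - λ T) = 1 - λ (ζ ^ i T + l_i)`).
So `∏ i, P (ζ ^ i (1 - λ T)) = ϖ ^ (p n) ∏ i, Q (ζ ^ i T + l_i)`.  By `pow_exp`: `(1 - λ T) ^ p - η₀ = - λ ^ p ε g`, `g = T ^ p + w T + λ R - ε u₀`, a monic polynomial over `O` with reduction `T ^ p - T - u₀` (`w ≡ -1`).  Substitution of `1 - λ T` for `X` gives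
  `g ∣ ϖ ^ (p n) ∏ i, Q (ζ ^ i T + l_i) - ϖ` in `F[T]`, so `∏ i, Q (ζ ^ i T + l_i) ≡ ϖ ^ (1 - p n)` modulo `g` in `F[T]`.  `g` is monic over `O`: let `r` be the remainder of `M = ∏ i, Q (ζ ^ i T + l_i) ∈ O[T]` divided by `g` (`modByMonic`, compatible with maps): its image in `F[T]` is the constant
  `ϖ ^ (1 - p n)`.  So `1 - p n ≥ 0` (the constant is in `O`), `1 - p n ≠ 0` (`p ≥ 2`), hence the reduction of `r` is `0`: the reduction of `g` divides `∏ i, Q̄ (T + i)` (`ζ ≡ 1`, `l_i ≡ i`).  It is irreducible (`irr_as`), so prime, and divides some `Q̄ (T + i)`, which has degree `< p` and is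
  not `0`: contradiction.
-/

set_option autoImplicit false

namespace WNT

open IsLocalRing Polynomial

namespace LO

variable {O F : Type*} [CommRing O] [IsDomain O] [IsDiscreteValuationRing O] [Field F]
    [Algebra O F] [IsFractionRing O F] {p : ℕ} (L : LO O F p)

private theorem unr_zpow (n : ℤ) : L.v (algebraMap O F L.ϖ ^ n) = n := by
  have h0 : algebraMap O F L.ϖ ≠ 0 := map_ne L.irr.ne_zero
  cases n with
  | ofNat n =>
    rw [Int.ofNat_eq_natCast, zpow_natCast, L.v_pow _ h0, L.v_pi, mul_one]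
  | negSucc n =>
    rw [zpow_negSucc, L.v_inv _ (pow_ne_zero _ h0), L.v_pow _ h0, L.v_pi, Int.negSucc_eq]
    push_cast
    ring

/-- normalisation of a polynomial over `F` -/
private theorem unr_norm (Q₀ : F[X]) (h0 : Q₀ ≠ 0) : ∃ (n : ℤ) (Q : O[X]),
    Q₀ = C (algebraMap O F L.ϖ ^ n) * Q.map (algebraMap O F) ∧ Q.map (residue O) ≠ 0 ∧
      Q.natDegree = Q₀.natDegree := by
  have hϖ : algebraMap O F L.ϖ ≠ 0 := map_ne L.irr.ne_zero
  obtain ⟨j0, hj0, hmin⟩ := Finset.exists_min_image Q₀.support (fun j => L.v (Q₀.coeff j))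
    (support_nonempty.2 h0)
  set n : ℤ := L.v (Q₀.coeff j0) with hn
  set c : F := algebraMap O F L.ϖ ^ (-n) with hc
  have hc0 : c ≠ 0 := zpow_ne_zero _ hϖ
  have hvc : L.v c = -n := L.unr_zpow (-n)
  have hlift : C c * Q₀ ∈ lifts (algebraMap O F) := by
    rw [lifts_iff_coeff_lifts]
    intro j
    rw [coeff_C_mul]
    by_cases hj : Q₀.coeff j = 0
    · exact ⟨0, by rw [hj, mul_zero, map_zero]⟩
    · have h1 := hmin j (mem_support_iff.2 hj)
      obtain ⟨a, ha⟩ := (L.int (c * Q₀.coeff j)).1 (by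
        right
        rw [L.v_mul _ _ hc0 hj, hvc]
        omega)
      exact ⟨a, ha⟩
  obtain ⟨Q, hQ⟩ := (mem_lifts _).1 hlift
  refine ⟨n, Q, ?_, ?_, ?_⟩
  · rw [hQ, ← mul_assoc, ← C_mul, hc, ← zpow_add₀ hϖ, add_neg_cancel, zpow_zero, C_1, one_mul]
  · intro hres
    have h1 : residue O (Q.coeff j0) = 0 := by
      have h2 := congrArg (fun q => q.coeff j0) hres
      simpa [coeff_map] using h2
    have hj : Q₀.coeff j0 ≠ 0 := mem_support_iff.1 hj0
    have h3 : algebraMap O F (Q.coeff j0) = c * Q₀.coeff j0 := by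
      have h4 := congrArg (fun q => q.coeff j0) hQ
      simpa [coeff_map, coeff_C_mul] using h4
    rw [residue_eq_zero_iff, L.mem_max, h3] at h1
    rcases h1 with h1 | h1
    · exact (mul_ne_zero hc0 hj) h1
    · rw [L.v_mul _ _ hc0 hj, hvc] at h1
      omega
  · rw [← natDegree_map_eq_of_injective (inj (O := O) (F := F)) Q, hQ, natDegree_C_mul hc0]

private theorem unr_dC {k : Type*} [Semiring k] (a : k) (f : k[X]) :
    (C a * f).degree ≤ f.degree := by
  rw [← smul_eq_C_mul]
  exact degree_smul_le a f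

private theorem unr_comp_ne {k : Type*} [Field k] {Q : k[X]} (hQ : Q ≠ 0) {a b : k} (ha : a ≠ 0) :
    Q.comp (C a * X + C b) ≠ 0 := by
  intro h
  rw [comp_eq_zero_iff] at h
  rcases h with h | ⟨-, h⟩
  · exact hQ h
  · have h1 := congrArg (fun q => q.coeff 1) h
    simp at h1
    exact ha h1

private theorem unr_comp_deg {k : Type*} [Field k] (Q : k[X]) (a b : k) :
    (Q.comp (C a * X + C b)).natDegree ≤ Q.natDegree := by
  refine (natDegree_comp_le).trans ?_
  have h1 : (C a * X + C b : k[X]).natDegree ≤ 1 := by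
    refine (natDegree_add_le _ _).trans (max_le ?_ ?_)
    · exact (natDegree_C_mul_le _ _).trans natDegree_X_le
    · rw [natDegree_C]; exact Nat.zero_le _
  calc Q.natDegree * (C a * X + C b : k[X]).natDegree ≤ Q.natDegree * 1 :=
        Nat.mul_le_mul_left _ h1
    _ = Q.natDegree := Nat.mul_one _

theorem unr [Finite (ResidueField O)] {u₀ : O}
    (hu₀ : ∀ t : ResidueField O, t ^ p - t ≠ residue O u₀) :
    ¬ NR p (algebraMap O F L.ζ) (algebraMap O F (1 - L.lam ^ p * u₀)) (algebraMap O F L.ϖ) := by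
  rintro ⟨P, hP⟩
  have hp1 : 1 < p := L.prime.one_lt
  have hp0 : p ≠ 0 := L.prime.ne_zero
  set φ : O →+* F := algebraMap O F with hφ
  have hφi : Function.Injective φ := inj
  have hϖ : φ L.ϖ ≠ 0 := map_ne L.irr.ne_zero
  have hlam : L.lam ≠ 0 := L.lam_ne
  have hlamF : φ L.lam ≠ 0 := map_ne hlam
  have hζp : (φ L.ζ) ^ p = 1 := by rw [← map_pow, L.prim.pow_eq_one, map_one]
  set η : F := φ (1 - L.lam ^ p * u₀) with hη
  set G : F[X] := X ^ p - C η with hG
  have hGm : G.Monic := monic_X_pow_sub_C η hp0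
  have hGd : G.natDegree = p := natDegree_X_pow_sub_C
  have hGcomp : ∀ i : ℕ, G.comp (C (φ L.ζ ^ i) * X) = G := by
    intro i
    rw [hG, sub_comp, pow_comp, X_comp, C_comp, mul_pow, ← C_pow, ← pow_mul, mul_comm i p, pow_mul,
      hζp, one_pow, C_1, one_mul]
  -- reduce modulo `G`
  set P' : F[X] := P %ₘ G with hP'
  have hPd : P'.natDegree < p := by
    have h1 := natDegree_modByMonic_lt P hGm (by
      intro h
      rw [h, natDegree_one] at hGd
      exact hp0 hGd.symm)
    rwa [hGd] at h1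
  have hdiv : G ∣ (∏ i ∈ Finset.range p, P'.comp (C (φ L.ζ ^ i) * X)) - C (φ L.ϖ) := by
    rw [← AdjoinRoot.mk_eq_mk] at hP ⊢
    rw [← hP, map_prod, map_prod]
    refine Finset.prod_congr rfl fun i _ => ?_
    rw [AdjoinRoot.mk_eq_mk]
    have h1 : P' - P = G * (-(P /ₘ G)) := by
      have h2 := modByMonic_add_div P G
      rw [← hP'] at h2
      linear_combination h2
    rw [← sub_comp, h1, mul_comp, hGcomp]
    exact Dvd.intro _ rfl
  have hP0 : P' ≠ 0 := by
    intro h
    rw [h] at hdiv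
    simp only [zero_comp] at hdiv
    rw [Finset.prod_const, Finset.card_range, zero_pow hp0, zero_sub, dvd_neg] at hdiv
    refine hGm.not_dvd_of_natDegree_lt (C_ne_zero.2 hϖ) ?_ hdiv
    rw [natDegree_C, hGd]
    exact L.prime.pos
  -- the substitution
  set q : F[X] := 1 - C (φ L.lam) * X with hq
  have hqd : q.natDegree ≤ 1 := by
    rw [hq]
    refine (natDegree_sub_le _ _).trans (max_le ?_ ?_)
    · rw [natDegree_one]; exact Nat.zero_le _
    · exact (natDegree_C_mul_le _ _).trans natDegree_X_le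
  have hQ0 : P'.comp q ≠ 0 := by
    intro h
    rw [comp_eq_zero_iff] at h
    rcases h with h | ⟨-, h⟩
    · exact hP0 h
    · have h1 := congrArg (fun r => r.coeff 1) h
      simp [hq, coeff_one] at h1
      exact hlamF h1
  have hQ0d : (P'.comp q).natDegree < p := by
    refine lt_of_le_of_lt ?_ hPd
    refine (natDegree_comp_le).trans ?_
    calc P'.natDegree * q.natDegree ≤ P'.natDegree * 1 := Nat.mul_le_mul_left _ hqd
      _ = P'.natDegree := Nat.mul_one _
  obtain ⟨n, Q, hQ, hQres, hQd⟩ := L.unr_norm (P'.comp q) hQ0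
  rw [← hφ] at hQ
  choose l hl1 hl2 using L.sum_zeta
  obtain ⟨ε, w, R, hεε, hε, hw, hRd, hpe⟩ := L.pow_exp
  -- the polynomial `g`
  set g : O[X] := X ^ p + (C w * X + C L.lam * R - C (ε * u₀)) with hg
  have hlow : (C w * X + C L.lam * R - C (ε * u₀) : O[X]).degree < p := by
    refine (degree_sub_le _ _).trans_lt (max_lt ((degree_add_le _ _).trans_lt (max_lt ?_ ?_)) ?_)
    · refine (degree_C_mul_X_le _).trans_lt ?_
      exact_mod_cast hp1
    · refine (unr_dC _ _).trans_lt (degree_le_natDegree.trans_lt ?_)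
      exact_mod_cast hRd
    · refine degree_C_le.trans_lt ?_
      exact_mod_cast L.prime.pos
  have hgm : g.Monic := monic_X_pow_add hlow
  have hgd : g.degree = p := by
    rw [hg, degree_add_eq_left_of_degree_lt (by rw [degree_X_pow]; exact hlow), degree_X_pow]
  have hgF : (g.map φ).degree = p := by rw [hgm.degree_map, hgd]
  have hGq : G.comp q = -(C (φ L.lam ^ p * φ ε) * g.map φ) := by
    have hεε' : (C (φ ε) * C (φ ε) : F[X]) = 1 := by
      rw [← C_mul, ← map_mul, hεε, map_one, C_1]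
    have h1 : q ^ p = 1 - C (φ L.lam ^ p * φ ε) * (X ^ p + C (φ w) * X + C (φ L.lam) * R.map φ) := by
      have h2 := congrArg (Polynomial.map φ) hpe
      simpa [hq] using h2
    rw [hG, sub_comp, pow_comp, X_comp, C_comp, h1, hη, hg]
    simp only [Polynomial.map_add, Polynomial.map_sub, Polynomial.map_mul, Polynomial.map_pow,
      map_X, map_C, map_sub, map_mul, map_one, map_pow, C_sub, C_mul, C_1]
    linear_combination (-(C (φ L.lam) ^ p * C (φ u₀))) * hεε'
  set y : ℕ → O[X] := fun i => C (L.ζ ^ i) * X + C (l i) with hy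
  have hEi : ∀ i : ℕ, (P'.comp (C (φ L.ζ ^ i) * X)).comp q = (P'.comp q).comp ((y i).map φ) := by
    intro i
    rw [comp_assoc, comp_assoc]
    congr 1
    have h1 : φ L.ζ ^ i = 1 - φ L.lam * φ (l i) := by
      have h2 := congrArg φ (hl1 i)
      rw [map_sub, map_one, map_pow, map_mul] at h2
      linear_combination -h2
    have h3 : (C (φ L.ζ ^ i) : F[X]) = 1 - C (φ L.lam) * C (φ (l i)) := by
      rw [h1, C_sub, C_mul, C_1]
    have h4 : (y i).map φ = C (φ L.ζ ^ i) * X + C (φ (l i)) := by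
      rw [hy]
      simp only [Polynomial.map_add, Polynomial.map_mul, map_C, map_X]
      rw [RingHom.map_pow φ]
    rw [h4, h3]
    simp only [hq, mul_comp, sub_comp, one_comp, C_comp, X_comp]
    ring
  set M : O[X] := ∏ i ∈ Finset.range p, Q.comp (y i) with hM
  have hdvd : g.map φ ∣ C ((φ L.ϖ ^ n) ^ p) * M.map φ - C (φ L.ϖ) := by
    obtain ⟨K, hK⟩ := hdiv
    have h1 := congrArg (fun r => r.comp q) hK
    simp only [sub_comp, mul_comp, C_comp, prod_comp] at h1
    rw [hGq] at h1
    have h2 : ∏ i ∈ Finset.range p, (P'.comp (C (φ L.ζ ^ i) * X)).comp q =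
        C ((φ L.ϖ ^ n) ^ p) * M.map φ := by
      rw [hM, Polynomial.map_prod, C_pow]
      have h3 : ∀ i ∈ Finset.range p, (P'.comp (C (φ L.ζ ^ i) * X)).comp q =
          C (φ L.ϖ ^ n) * (Q.comp (y i)).map φ := by
        intro i _
        rw [hEi, hQ, mul_comp, C_comp, map_comp]
      rw [Finset.prod_congr rfl h3, Finset.prod_mul_distrib, Finset.prod_const, Finset.card_range]
    rw [h2] at h1
    rw [h1]
    exact ⟨-(C (φ L.lam ^ p * φ ε)) * K.comp q, by ring⟩
  -- the remainder
  set r : O[X] := M %ₘ g with hr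
  have hMr : r + g * (M /ₘ g) = M := modByMonic_add_div M g
  have hrd : r.degree < p := by
    have h1 := degree_modByMonic_lt M hgm
    rwa [hgd] at h1
  have hrF : C ((φ L.ϖ ^ n) ^ p) * r.map φ - C (φ L.ϖ) = 0 := by
    refine eq_zero_of_dvd_of_degree_lt (p := g.map φ) ?_ ?_
    · have h1 : C ((φ L.ϖ ^ n) ^ p) * r.map φ - C (φ L.ϖ) =
          (C ((φ L.ϖ ^ n) ^ p) * M.map φ - C (φ L.ϖ)) -
            g.map φ * (C ((φ L.ϖ ^ n) ^ p) * (M /ₘ g).map φ) := by
        have h2 := congrArg (Polynomial.map φ) hMr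
        rw [Polynomial.map_add, Polynomial.map_mul] at h2
        rw [← h2]
        ring
      rw [h1]
      exact dvd_sub hdvd (Dvd.intro _ rfl)
    · rw [hgF]
      refine (degree_sub_le _ _).trans_lt (max_lt ?_ ?_)
      · refine (unr_dC _ _).trans_lt ?_
        exact degree_map_le.trans_lt hrd
      · refine degree_C_le.trans_lt ?_
        exact_mod_cast L.prime.pos
  have ha0 : (φ L.ϖ ^ n) ^ p ≠ 0 := pow_ne_zero _ (zpow_ne_zero _ hϖ)
  have hcoef : ∀ j, j ≠ 0 → r.coeff j = 0 := by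
    intro j hj
    have h1 := congrArg (fun s => s.coeff j) hrF
    simp only [coeff_sub, coeff_C_mul, coeff_map, coeff_C, if_neg hj, sub_zero, coeff_zero] at h1
    rcases mul_eq_zero.1 h1 with h2 | h2
    · exact absurd h2 ha0
    · exact hφi (h2.trans (map_zero _).symm)
  have hcoef0 : residue O (r.coeff 0) = 0 := by
    have h1 := congrArg (fun s => s.coeff 0) hrF
    simp only [coeff_sub, coeff_C_mul, coeff_map, coeff_C, if_true, coeff_zero] at h1
    have h2 : (φ L.ϖ ^ n) ^ p * φ (r.coeff 0) = φ L.ϖ := sub_eq_zero.1 h1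
    have h3 : φ (r.coeff 0) ≠ 0 := by
      intro h
      rw [h, mul_zero] at h2
      exact hϖ h2.symm
    have h4 : L.v ((φ L.ϖ ^ n) ^ p * φ (r.coeff 0)) = 1 := by rw [h2]; exact L.v_pi
    rw [L.v_mul _ _ ha0 h3, L.v_pow _ (zpow_ne_zero _ hϖ), L.unr_zpow] at h4
    rw [residue_eq_zero_iff, L.mem_max]
    right
    have h5 := L.v_int (r.coeff 0) (fun h => h3 (by rw [h, map_zero]))
    rw [← hφ] at h5 ⊢
    by_contra hcon
    have h6 : L.v (φ (r.coeff 0)) = 0 := by omega
    rw [h6, add_zero] at h4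
    have h7 : (p : ℤ) ∣ 1 := ⟨n, h4.symm⟩
    have h8 : (p : ℤ) ≤ 1 := Int.le_of_dvd one_pos h7
    have h9 : (1 : ℤ) < p := by exact_mod_cast hp1
    omega
  have hrres : r.map (residue O) = 0 := by
    ext j
    rw [coeff_map, coeff_zero]
    by_cases hj : j = 0
    · rw [hj]; exact hcoef0
    · rw [hcoef j hj, map_zero]
  -- the reduction
  have hgres : g.map (residue O) = X ^ p - X - C (residue O u₀) := by
    have h1 : residue O w = -1 := by
      have h2 := (residue_eq_zero_iff (w + 1)).2 hw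
      rw [map_add, map_one] at h2
      linear_combination h2
    have h3 : residue O L.lam = 0 := (residue_eq_zero_iff _).2 L.lam_mem
    have h5 : residue O ε = 1 := by
      have h2 := (residue_eq_zero_iff (ε - 1)).2 hε
      rw [map_sub, map_one] at h2
      exact sub_eq_zero.1 h2
    rw [hg]
    simp only [Polynomial.map_add, Polynomial.map_sub, Polynomial.map_mul, Polynomial.map_pow,
      map_X, map_C, map_mul, h1, h3, h5, one_mul, C_neg, C_1, C_0]
    ring
  have hdr : (X ^ p - X - C (residue O u₀) : (ResidueField O)[X]) ∣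
      ∏ i ∈ Finset.range p, (Q.comp (y i)).map (residue O) := by
    have h1 := congrArg (Polynomial.map (residue O)) hMr
    rw [Polynomial.map_add, hrres, zero_add, Polynomial.map_mul, hgres] at h1
    rw [← Polynomial.map_prod, ← hM, ← h1]
    exact Dvd.intro _ rfl
  obtain ⟨i, -, hi⟩ := (L.irr_as hu₀).prime.exists_mem_finset_dvd hdr
  have hζu : residue O (L.ζ ^ i) ≠ 0 := by
    intro h
    rw [map_pow] at h
    have h1 := (pow_eq_zero_iff (n := i) (a := residue O L.ζ) (by
      rintro rfl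
      rw [pow_zero] at h
      exact one_ne_zero h)).1 h
    have h2 := congrArg (residue O) L.prim.pow_eq_one
    rw [map_pow, h1, map_one, zero_pow hp0] at h2
    exact zero_ne_one h2
  have hyres : (Q.comp (y i)).map (residue O) =
      (Q.map (residue O)).comp (C (residue O (L.ζ ^ i)) * X + C (residue O (l i))) := by
    rw [map_comp, hy]
    simp only [Polynomial.map_add, Polynomial.map_mul, map_C, map_X]
  rw [hyres] at hi
  have hne := unr_comp_ne (b := residue O (l i)) hQres hζu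
  have h1 := natDegree_le_of_dvd hi hne
  have h2 := (unr_comp_deg (Q.map (residue O)) (residue O (L.ζ ^ i)) (residue O (l i)))
  have h3 : (Q.map (residue O)).natDegree ≤ Q.natDegree := natDegree_map_le
  have h4 : (X ^ p - X - C (residue O u₀) : (ResidueField O)[X]).natDegree = p := by
    rw [natDegree_sub_C]
    exact FiniteField.X_pow_card_sub_X_natDegree_eq _ hp1
  rw [h4] at h1
  omega

end LO

end WNT
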