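import Pool.Agent.WNT.Sym
import Pool.Agent.WNT.Unr
import Pool.Agent.WNT.Defs

/-!
# WNT / Loc: a henselian field with finite residue field has a symbol structure `SS`

PROOF.  `V = Additive (Fˣ ⧸ (powMonoidHom p).range)`, a `ZMod p`-module (`AddCommGroup.zmodModule`), `cl x` = class of `x` (`0` for `x = 0`).  `s`, `B` from `exists_symbol` (for `algebraMap ζ`; primitive root in `F` by injectivity).  `u₀` from `exists_as`, `η₀ = algebraMap (1 - λ ^ p u₀)`, `g = s η₀ ϖ ≠ 0` by `unr` and the last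
clause of `exists_symbol`.  `B` is a vector space over the field `ZMod p`: there is a linear `φ : B → ZMod p` with `φ g = 1` (`Module.exists_dual_forall_apply_eq_zero..`, or a basis / `LinearMap.exists_extend`).  `h (cl x) (cl y) = φ (s x y)`: well defined (`s x (z ^ p) = p • s x z = 0`), bilinear.
* `stein`: from `s`.  `cl_surj`: units.  `E = p v (1 - ζ)`, `E_pos`: `e₁_pos`.  `cl_big`: `big`.  `unit`, `drop`: `LO.unit`, `LO.drop` (`cl (z ^ p) = 0`).  `top`, `eta`: `LO.top`, `η = cl η₀`, `η₀ = 1 - λ ^ p u₀`, `v (λ ^ p u₀) ≥ E` (`v_lam_pow`).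
* `h_eta`: `x = ϖ ^ n * u`, `v u = 0`, `u = (1 - y) z ^ p`, `y ∈ D 1`: it is enough that `s η₀ (1 - y) = 0`: `η₀ = 1 - α`, `α = λ ^ p u₀`.  `α y ∈ D (E + 1)`, so `1 - α y` is a `p`-th power (`big`).  Steinberg for `X = (1 - α) / (1 - α y)`, `1 - X = α (1 - y) / (1 - α y)`:
  `0 = s (1 - α) (α (1 - y))` up to `p`-th powers `= s (1 - α) α + s (1 - α) (1 - y) = s (1 - α) (1 - y)` (`α ≠ 0` because `u₀` is not `0`: `t = 0` in `exists_as`; `y = 0` trivial).  So `h η (cl x) = n φ g = n`.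
* `fin`: `finV`.
* `NR p ζ α β` gives `s α β = 0`, `h (cl α) (cl β) = 0`.
-/

set_option autoImplicit false

namespace WNT

open IsLocalRing

universe u

private theorem lin78 {V : Type*} [AddCommGroup V] {p : ℕ} [Module (ZMod p) V]
    (f : V → V → ZMod p) (h1 : ∀ v v' w, f (v + v') w = f v w + f v' w)
    (h2 : ∀ v w w', f v (w + w') = f v w + f v w') :
    ∃ h : V →ₗ[ZMod p] V →ₗ[ZMod p] ZMod p, ∀ v w, h v w = f v w := by
  have e1 : ∀ (c : ZMod p) (v w : V), f (c • v) w = c • f v w := by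
    intro c v w
    exact ((AddMonoidHom.mk' (fun v => f v w) (fun a b => h1 a b w)).toZModLinearMap p).map_smul c v
  have e2 : ∀ (c : ZMod p) (v w : V), f v (c • w) = c • f v w := by
    intro c v w
    exact ((AddMonoidHom.mk' (fun w => f v w) (fun a b => h2 v a b)).toZModLinearMap p).map_smul c w
  exact ⟨LinearMap.mk₂ (ZMod p) f h1 e1 h2 e2, fun v w => rfl⟩

private theorem dual78 {p : ℕ} [Fact p.Prime] {B : Type*} [AddCommGroup B] [Module (ZMod p) B] {g : B}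
    (hg : g ≠ 0) : ∃ φ : B →ₗ[ZMod p] ZMod p, φ g = 1 := by
  obtain ⟨φ, hφ⟩ := LinearMap.exists_leftInverse_of_injective
    (LinearMap.toSpanSingleton (ZMod p) B g) (LinearMap.ker_toSpanSingleton (ZMod p) hg)
  refine ⟨φ, ?_⟩
  have h := LinearMap.congr_fun hφ 1
  rw [LinearMap.comp_apply, LinearMap.toSpanSingleton_apply, one_smul, LinearMap.id_apply] at h
  exact h

/-- the class of a nonzero element modulo `p`-th powers -/
private theorem cl78 (F : Type u) [Field F] {p : ℕ} (hp : p.Prime) :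
    ∃ (V : Type u) (_ : AddCommGroup V) (_ : Module (ZMod p) V) (cl : F → V),
      (∀ x y, x ≠ 0 → y ≠ 0 → cl (x * y) = cl x + cl y) ∧
      (∀ w, ∃ x, x ≠ 0 ∧ cl x = w) ∧
      (∀ x y, x ≠ 0 → y ≠ 0 → cl x = cl y → ∃ z : F, z ≠ 0 ∧ x = y * z ^ p) ∧
      (Finite (Fˣ ⧸ (powMonoidHom p : Fˣ →* Fˣ).range) → Finite V) ∧
      Nat.card V = (powMonoidHom p : Fˣ →* Fˣ).range.index := by
  classical
  have hV : ∀ x : Additive (Fˣ ⧸ (powMonoidHom p : Fˣ →* Fˣ).range), p • x = 0 := by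
    intro x
    obtain ⟨y, rfl⟩ := Additive.ofMul.surjective x
    obtain ⟨z, rfl⟩ := QuotientGroup.mk_surjective y
    rw [← ofMul_pow, ← QuotientGroup.mk_pow, ← ofMul_one]
    congr 1
    rw [QuotientGroup.eq_one_iff]
    exact ⟨z, rfl⟩
  refine ⟨Additive (Fˣ ⧸ (powMonoidHom p : Fˣ →* Fˣ).range), inferInstance,
    AddCommGroup.zmodModule hV, fun x => if hx : x = 0 then 0 else
      Additive.ofMul (QuotientGroup.mk (Units.mk0 x hx)), ?_, ?_, ?_, ?_, ?_⟩
  · intro x y hx hy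
    beta_reduce
    rw [dif_neg hx, dif_neg hy, dif_neg (mul_ne_zero hx hy), ← ofMul_mul, ← QuotientGroup.mk_mul]
    congr 2
    ext
    simp
  · intro w
    obtain ⟨y, rfl⟩ := Additive.ofMul.surjective w
    obtain ⟨z, rfl⟩ := QuotientGroup.mk_surjective y
    refine ⟨z, z.ne_zero, ?_⟩
    beta_reduce
    rw [dif_neg z.ne_zero, Units.mk0_val]
  · intro x y hx hy h
    beta_reduce at h
    rw [dif_neg hx, dif_neg hy] at h
    have h1 := Additive.ofMul.injective h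
    rw [eq_comm, QuotientGroup.eq] at h1
    obtain ⟨z, hz⟩ := h1
    refine ⟨z, z.ne_zero, ?_⟩
    have h2 := congrArg (fun u : Fˣ => (u : F)) hz
    simp only [powMonoidHom_apply, Units.val_pow_eq_pow_val, Units.val_mul, Units.val_inv_eq_inv_val,
      Units.val_mk0] at h2
    rw [h2, mul_inv_cancel_left₀ hy]
  · intro h
    exact h
  · rfl

namespace LO

variable {O : Type*} {F : Type u} [CommRing O] [IsDomain O] [IsDiscreteValuationRing O] [Field F]
    [CharZero F] [Algebra O F] [IsFractionRing O F] {p : ℕ} (L : LO O F p)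

theorem exists_SS [HenselianLocalRing O] [Finite (ResidueField O)] :
    ∃ (V : Type u) (_ : AddCommGroup V) (_ : Module (ZMod p) V) (S : SS F V p),
      S.v = L.v ∧ S.E = L.E ∧
      (∀ x y : F, x ≠ 0 → y ≠ 0 → S.cl x = S.cl y → ∃ z : F, z ≠ 0 ∧ x = y * z ^ p) ∧
      (∀ x y : F, x ≠ 0 → y ≠ 0 → NR p (algebraMap O F L.ζ) x y → S.h (S.cl x) (S.cl y) = 0) ∧
      Nat.card V = (powMonoidHom p : Fˣ →* Fˣ).range.index := by
  classical
  have i5 : Fact p.Prime := ⟨L.prime⟩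
  have hζ : IsPrimitiveRoot (algebraMap O F L.ζ) p := L.prim.map_of_injective inj
  obtain ⟨B, iB, iBm, s, s_mul, s_mul', s_st, s_nr⟩ := exists_symbol F L.prime hζ
  obtain ⟨V, iV, iVm, cl, cl_mul, cl_surj, cl_eq, cl_fin, cl_card⟩ := cl78 F L.prime
  obtain ⟨u₀, hu₀, hu₁⟩ := L.exists_as
  have hpi : algebraMap O F L.ϖ ≠ 0 := map_ne L.irr.ne_zero
  have hE : 0 < L.E := by
    have h1 := L.e₁_pos
    have h2 := L.prime.pos
    unfold E
    positivity
  have hu0 : u₀ ≠ 0 := by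
    rintro rfl
    apply hu₀ 0
    rw [zero_pow L.prime.ne_zero, sub_zero, map_zero]
  obtain ⟨α, hα⟩ : ∃ α, α = algebraMap O F (L.lam ^ p * u₀) := ⟨_, rfl⟩
  have hη : algebraMap O F (1 - L.lam ^ p * u₀) = 1 - α := by rw [map_sub, map_one, hα]
  have hα0 : α ≠ 0 := by
    rw [hα]
    exact map_ne (mul_ne_zero (pow_ne_zero _ L.lam_ne) hu0)
  have hαv : L.E ≤ L.v α := by
    rw [hα, map_mul, L.v_mul _ _ (map_ne (pow_ne_zero _ L.lam_ne)) (map_ne hu0), L.v_lam_pow]
    have := L.v_int u₀ hu0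
    omega
  have hone : ∀ x : F, 1 ≤ L.v x → 1 - x ≠ 0 := by
    intro x hx h
    have h1 : x = 1 := (sub_eq_zero.1 h).symm
    rw [h1, L.v_one] at hx
    omega
  have hη0 : 1 - α ≠ 0 := hone α (by omega)
  -- the symbol of `η₀` and `ϖ`
  have hg : s (1 - α) (algebraMap O F L.ϖ) ≠ 0 := by
    intro h
    apply L.unr hu₀
    rw [hη]
    exact (s_nr _ _ hη0 hpi).1 h
  obtain ⟨φ, hφ⟩ := dual78 (p := p) hg
  -- classes
  have cl_one : cl 1 = 0 := by
    have h := cl_mul 1 1 one_ne_zero one_ne_zero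
    rw [mul_one] at h
    exact left_eq_add.1 h
  have psm : ∀ w : V, p • w = 0 := fun w => by
    rw [← Nat.cast_smul_eq_nsmul (ZMod p), ZMod.natCast_self, zero_smul]
  have psB : ∀ w : B, p • w = 0 := fun w => by
    rw [← Nat.cast_smul_eq_nsmul (ZMod p), ZMod.natCast_self, zero_smul]
  have cl_pow : ∀ (x : F), x ≠ 0 → ∀ n : ℕ, cl (x ^ n) = n • cl x := by
    intro x hx n
    induction n with
    | zero => rw [pow_zero, cl_one, zero_smul]
    | succ n ih => rw [pow_succ, cl_mul _ _ (pow_ne_zero _ hx) hx, ih, succ_nsmul]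
  have cl_inv : ∀ x : F, x ≠ 0 → cl x⁻¹ = - cl x := by
    intro x hx
    have h := cl_mul x x⁻¹ hx (inv_ne_zero hx)
    rw [mul_inv_cancel₀ hx, cl_one] at h
    exact (neg_eq_of_add_eq_zero_right h.symm).symm
  have cl_pp : ∀ z : F, z ≠ 0 → cl (z ^ p) = 0 := fun z hz => by rw [cl_pow z hz, psm]
  have cl_mp : ∀ a z : F, z ≠ 0 → cl (a * z ^ p) = cl a := by
    intro a z hz
    by_cases ha : a = 0
    · rw [ha, zero_mul]
    · rw [cl_mul _ _ ha (pow_ne_zero _ hz), cl_pp z hz, add_zero]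
  have cl_zpow : ∀ (x : F), x ≠ 0 → ∀ n : ℤ, cl (x ^ n) = n • cl x := by
    intro x hx n
    cases n with
    | ofNat n => rw [Int.ofNat_eq_natCast, zpow_natCast, cl_pow x hx, natCast_zsmul]
    | negSucc n =>
      rw [zpow_negSucc, cl_inv _ (pow_ne_zero _ hx), cl_pow x hx, negSucc_zsmul]
  have v_zpow : ∀ n : ℤ, L.v (algebraMap O F L.ϖ ^ n) = n := by
    intro n
    cases n with
    | ofNat n => rw [Int.ofNat_eq_natCast, zpow_natCast, L.v_pow _ hpi, L.v_pi, mul_one]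
    | negSucc n =>
      rw [zpow_negSucc, L.v_inv _ (pow_ne_zero _ hpi), L.v_pow _ hpi, L.v_pi, Int.negSucc_eq]
      push_cast
      ring
  -- the symbol
  have s_one : ∀ x : F, x ≠ 0 → s x 1 = 0 := by
    intro x hx
    have h := s_mul' x 1 1 hx one_ne_zero one_ne_zero
    rw [mul_one] at h
    exact left_eq_add.1 h
  have s_one' : ∀ x : F, x ≠ 0 → s 1 x = 0 := by
    intro x hx
    have h := s_mul 1 1 x one_ne_zero one_ne_zero hx
    rw [mul_one] at h
    exact left_eq_add.1 h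
  have s_pow : ∀ x y : F, x ≠ 0 → y ≠ 0 → ∀ n : ℕ, s x (y ^ n) = n • s x y := by
    intro x y hx hy n
    induction n with
    | zero => rw [pow_zero, s_one x hx, zero_smul]
    | succ n ih => rw [pow_succ, s_mul' _ _ _ hx (pow_ne_zero _ hy) hy, ih, succ_nsmul]
  have s_pow' : ∀ x y : F, x ≠ 0 → y ≠ 0 → ∀ n : ℕ, s (x ^ n) y = n • s x y := by
    intro x y hx hy n
    induction n with
    | zero => rw [pow_zero, s_one' y hy, zero_smul]
    | succ n ih => rw [pow_succ, s_mul _ _ _ (pow_ne_zero _ hx) hx hy, ih, succ_nsmul]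
  choose r hr0 hr using cl_surj
  have hs : ∀ x y : F, x ≠ 0 → y ≠ 0 → s (r (cl x)) (r (cl y)) = s x y := by
    intro x y hx hy
    obtain ⟨z, hz, h1⟩ := cl_eq _ _ (hr0 (cl x)) hx (hr (cl x))
    obtain ⟨z', hz', h2⟩ := cl_eq _ _ (hr0 (cl y)) hy (hr (cl y))
    rw [h1, h2, s_mul _ _ _ hx (pow_ne_zero _ hz) (mul_ne_zero hy (pow_ne_zero _ hz')),
      s_pow' _ _ hz (mul_ne_zero hy (pow_ne_zero _ hz')), psB, add_zero,
      s_mul' _ _ _ hx hy (pow_ne_zero _ hz'), s_pow _ _ hx hz', psB, add_zero]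
  obtain ⟨h, hh⟩ := lin78 (p := p) (fun v w => φ (s (r v) (r w))) (by
      intro v v' w
      beta_reduce
      have e1 : v + v' = cl (r v * r v') := by rw [cl_mul _ _ (hr0 _) (hr0 _), hr, hr]
      have e2 := hs (r v * r v') (r w) (mul_ne_zero (hr0 _) (hr0 _)) (hr0 _)
      rw [← e1, hr] at e2
      rw [e2, s_mul _ _ _ (hr0 _) (hr0 _) (hr0 _), map_add]) (by
      intro v w w'
      beta_reduce
      have e1 : w + w' = cl (r w * r w') := by rw [cl_mul _ _ (hr0 _) (hr0 _), hr, hr]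
      have e2 := hs (r v) (r w * r w') (hr0 _) (mul_ne_zero (hr0 _) (hr0 _))
      rw [← e1, hr] at e2
      rw [e2, s_mul' _ _ _ (hr0 _) (hr0 _) (hr0 _), map_add])
  have hcl : ∀ x y : F, x ≠ 0 → y ≠ 0 → h (cl x) (cl y) = φ (s x y) := by
    intro x y hx hy
    rw [hh, hs x y hx hy]
  have stein : ∀ x, x ≠ 0 → 1 - x ≠ 0 → h (cl x) (cl (1 - x)) = 0 := by
    intro x hx hx'
    rw [hcl _ _ hx hx', s_st x hx hx', map_zero]
  -- the symbol of `η₀` and a principal unit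
  have hprin : ∀ y : F, (y = 0 ∨ 1 ≤ L.v y) → h (cl (1 - α)) (cl (1 - y)) = 0 := by
    intro y hy
    by_cases hy0 : y = 0
    · rw [hy0, sub_zero, cl_one, map_zero]
    have hy1 := hy.resolve_left hy0
    have hy' : 1 - y ≠ 0 := hone y hy1
    obtain ⟨c, hc, hcp⟩ := L.big (x := α * y) (by
      right
      rw [L.v_mul _ _ hα0 hy0]
      omega)
    have hc' : 1 - α * y ≠ 0 := by
      rw [hcp]
      exact pow_ne_zero _ hc
    have hX : 1 - (1 - α) / (1 - α * y) = α * (1 - y) / (1 - α * y) := by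
      field_simp
      ring
    have hX0 : (1 - α) / (1 - α * y) ≠ 0 := div_ne_zero hη0 hc'
    have hX1 : α * (1 - y) / (1 - α * y) ≠ 0 := div_ne_zero (mul_ne_zero hα0 hy') hc'
    have h1 := stein _ hX0 (by rw [hX]; exact hX1)
    rw [hX] at h1
    have e0 : cl (1 - α * y)⁻¹ = 0 := by
      rw [cl_inv _ hc', hcp, cl_pp c hc, neg_zero]
    have e1 : cl ((1 - α) / (1 - α * y)) = cl (1 - α) := by
      rw [div_eq_mul_inv, cl_mul _ _ hη0 (inv_ne_zero hc'), e0, add_zero]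
    have e2 : cl (α * (1 - y) / (1 - α * y)) = cl α + cl (1 - y) := by
      rw [div_eq_mul_inv, cl_mul _ _ (mul_ne_zero hα0 hy') (inv_ne_zero hc'), e0, add_zero,
        cl_mul _ _ hα0 hy']
    rw [e1, e2, map_add] at h1
    have h2 := stein (1 - α) hη0 (by rw [sub_sub_cancel]; exact hα0)
    rw [sub_sub_cancel] at h2
    rw [h2, zero_add] at h1
    exact h1
  refine ⟨V, iV, iVm,
    { v := L.v
      pi := algebraMap O F L.ϖ
      cl := cl
      h := h
      η := cl (1 - α)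
      E := L.E
      prime := L.prime
      v_mul := L.v_mul
      v_add := L.v_add
      pi_ne := hpi
      v_pi := L.v_pi
      cl_mul := cl_mul
      cl_surj := fun w => ⟨r w, hr0 w, hr w⟩
      stein := stein
      E_pos := hE
      E_dvd := ⟨L.e₁, rfl⟩
      cl_big := ?_
      unit := ?_
      drop := ?_
      top := ?_
      eta := ⟨α, Or.inr hαv, rfl⟩
      h_eta := ?_
      fin := cl_fin L.finV }, rfl, rfl, cl_eq, ?_, cl_card⟩
  · intro x hx
    obtain ⟨y, hy, h1⟩ := L.big hx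
    rw [h1, cl_pp y hy]
  · intro x hx hv
    obtain ⟨y, z, hy, hz, h1⟩ := L.unit hx hv
    exact ⟨y, hy, by rw [h1, cl_mp _ _ hz]⟩
  · intro i x h1 h2 h3 hx
    obtain ⟨y, z, hy, hz, h4⟩ := L.drop h1 h2 h3 hx
    exact ⟨y, hy, by rw [h4, cl_mp _ _ hz]⟩
  · intro x hx
    obtain ⟨c, z, hz, h1⟩ := L.top hu₁ hx
    refine ⟨(c : ZMod p), ?_⟩
    rw [h1, cl_mp _ _ hz, hη, cl_pow _ hη0, Nat.cast_smul_eq_nsmul]
  · intro x hx
    have hu : L.v (x / algebraMap O F L.ϖ ^ L.v x) = 0 := by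
      rw [L.v_div _ _ hx (zpow_ne_zero _ hpi), v_zpow]
      omega
    have hu0' : x / algebraMap O F L.ϖ ^ L.v x ≠ 0 := div_ne_zero hx (zpow_ne_zero _ hpi)
    obtain ⟨y, z, hy, hz, h1⟩ := L.unit hu0' hu
    have e1 : cl (x / algebraMap O F L.ϖ ^ L.v x) = cl (1 - y) := by rw [h1, cl_mp _ _ hz]
    have e2 : x = (algebraMap O F L.ϖ ^ L.v x) * (x / algebraMap O F L.ϖ ^ L.v x) := by
      rw [mul_div_cancel₀ _ (zpow_ne_zero _ hpi)]
    have e3 : cl x = L.v x • cl (algebraMap O F L.ϖ) + cl (1 - y) := by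
      rw [← e1, ← cl_zpow _ hpi, ← cl_mul _ _ (zpow_ne_zero _ hpi) hu0', ← e2]
    rw [e3, map_add, hprin y hy, add_zero, map_zsmul, hcl _ _ hη0 hpi, hφ, zsmul_one]
  · intro x y hx hy hn
    show h (cl x) (cl y) = 0
    rw [hcl _ _ hx hy, (s_nr x y hx hy).2 hn, map_zero]

end LO

end WNT
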