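import Pool.Agent.WNT.Ex

/-!
# WNT / Mob: the transformation `x ↦ 1 / (x - c)`

`c ∈ A`.  `invA A c` is the image of `A ∪ {∞}` without `∞`: `0` (from `∞`) and `(a - c)⁻¹` for `a ∈ A`, `a ≠ c`.  `invf S f c` is the transformed function.  All proofs are formal computations with `cl_mul`, `cl_inv`, `cl_div`, `cl_neg`, `two_cl_neg_one` (`2 cl (-1) = 0`), `stein`, `anti`, `self` (`h w w = - h w (cl (-1))`).

PROOF of `rels_inv`.  Let `x ≠ y` be in `invA A c`.
* `x = 0`, `b = c + y⁻¹`: the first entry is `- (f c + cl y)`, the second one is `f b - f c + cl y + cl (-1) - cl (- y) = f b - f c`.  The relation for `c`, `b` (`b - c = y⁻¹`) is `h X (f b - cl (-1) + cl y) = 0`, `X = f c + cl y`.  `f b - f c = (f b - cl (-1) + cl y) - X + cl (-1)` and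
  `h X X = - h X (cl (-1))`, so `h X (f b - f c) = 2 h X (cl (-1)) = 0`.
* `y = 0`: the same with `anti`.
* `x, y ≠ 0`, `a = c + x⁻¹`, `b = c + y⁻¹`, `a ≠ b`, `a, b ≠ c`, `a - b = (y - x) / (x y)`.  Put `u = cl (a - b)`, `v = cl (b - c)`, `w = cl (c - a)`, `m = cl (-1)`, so `cl (b - a) = u + m`, `cl (c - b) = v + m`, `cl (a - c) = w + m`, `cl x = - (w + m)`, `cl y = - v`,
  `A = f a - u - m`, `B = f b - u`, `C = f c - v`, `D = f c - w - m`.  The entries are `A - C` and `B - D`.  The relations are: `(a, b)`: `h A B = 0`; `(b, c)`: `h (f b - v - m) C = 0`; `(a, c)`: `h (f a - w) D = 0`.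
  `h A D = h (f a - w) D + h (w - u - m) D`, `h C B = h C (f b - v - m) + h C (v + m - u)`, `C = D + (w + m - v)`, so
  `h (A - C) (B - D) = - h (w - u - m) D - h C (v + m - u) + h C D = h (3 m) D + h D D - h (w + m - v) (v + m - u)`, `h (3 m) D + h D D = 2 h m D = 0`, and `h (w + m - v) (v + m - u) = 0` by `stein` for `(a - c) / (b - c)`, `1 - (a - c) / (b - c) = (a - b) / (c - b)`.

PROOF of `kn_inv`: `z' = (z - c)⁻¹ ∈ D 1` because `z ∉ D 0`, `c ∈ D 0`.  Let `x ∈ invA A c`, `z' - x ∉ D 1`.  Then `x ∉ D 1`, `x ≠ 0`, `x⁻¹ ∈ D 0`, `a = c + x⁻¹ ∈ A`, `a ∈ D 0`, `f a = cl (z - a)`, `f c = cl (z - c) = - cl z'`, and `z' - x = - (z - a) * z' * x`.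

PROOF of `back`: `0 ∈ invA A c`.  Case `z' ≠ 0`: then `- f c = cl z'`; take `z = c + z'⁻¹`: `z - c = z'⁻¹`; for `a ≠ c`, `x = (a - c)⁻¹`: `z - a = (x - z') / (z' * x)`, `z' ≠ x` if `z ≠ a`.
Case `z' = 0`: for `x ≠ 0` in `invA A c` the hypothesis is `f a - f c + cl x + cl (-1) = cl (- x)`, so `f a = f c` for all `a ∈ A`.  `f c = cl y`, `z = y * π ^ (- p k)` with `k` large: `cl z = cl y` (`p_smul`), `v z + E + 1 ≤ B`; for `a ∈ A ⊆ D B`: `cl (z - a) = cl z` (`cl_congr`).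
-/

set_option autoImplicit false

namespace WNT

universe u w

variable {F : Type u} {V : Type w} [Field F] [AddCommGroup V] {p : ℕ} [Module (ZMod p) V]

/-- the image of `A ∪ {∞}` under `x ↦ 1 / (x - c)`, without `∞` -/
def invA (A : Set F) (c : F) : Set F := {x | x = 0 ∨ (x ≠ 0 ∧ c + x⁻¹ ∈ A)}

open Classical in
/-- the transformed function -/
noncomputable def invf (S : SS F V p) (f : F → V) (c x : F) : V :=
  if x = 0 then - f c else f (c + x⁻¹) - f c + S.cl x + S.cl (-1)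

variable {S : SS F V p} {A : Set F} {f : F → V}

theorem rel_key (S : SS F V p) {fa fb fc u v w m : V} (hm : m = S.cl (-1))
    (hab : S.h (fa - u - m) (fb - u) = 0) (hbc : S.h (fb - v - m) (fc - v) = 0)
    (hac : S.h (fa - w) (fc - w - m) = 0) (hst : S.h (w + m - v) (u - v - m) = 0) :
    S.h (fa - fc + m - u + v) (fb - fc + m - u + w) = 0 := by
  have hmm : m + m = 0 := by rw [hm]; exact S.two_cl_neg_one
  have e1 : fa - fc + m - u + v = (fa - u - m) - (fc - v) := by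
    have h1 : fa - fc + m - u + v = (fa - u - m) - (fc - v) + (m + m) := by abel
    rw [h1, hmm, add_zero]
  have e2 : fb - fc + m - u + w = (fb - u) - (fc - w - m) := by abel
  rw [e1, e2]
  have h1 := S.anti (fb - v - m) (fc - v)
  have h2 := S.self (fc - w - m)
  rw [← hm] at h2
  have h3 := S.anti m (fc - w - m)
  have h4 : S.h (fc - w - m) (m + m) = 0 := by rw [hmm, map_zero]
  have h5 := S.anti (fc - w - m) (v + m - u)
  simp only [map_add, map_sub, LinearMap.add_apply, LinearMap.sub_apply] at hab hbc hac hst h1 h2 h3 h4 h5 ⊢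
  linear_combination hab - hac - h1 + hbc + hst - h5 + h2 + 3 * h3 - 2 * h4

theorem rel_zero (hr : Rels S A f) {c : F} (hc : c ∈ A) {y : F} (hy : y ≠ 0) (hb : c + y⁻¹ ∈ A) :
    S.h (invf S f c 0 - S.cl (y - 0)) (invf S f c y - S.cl (0 - y)) = 0 := by
  have hy' : y⁻¹ ≠ 0 := inv_ne_zero hy
  have h1 := hr c hc (c + y⁻¹) hb (by
    intro h
    exact hy' (left_eq_add.1 h))
  have e1 : c + y⁻¹ - c = y⁻¹ := by ring
  have e2 : c - (c + y⁻¹) = -y⁻¹ := by ring
  rw [e1, e2, S.cl_neg _ hy', S.cl_inv _ hy] at h1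
  have e3 : invf S f c 0 = - f c := by unfold invf; rw [if_pos rfl]
  have e4 : invf S f c y = f (c + y⁻¹) - f c + S.cl y + S.cl (-1) := by
    unfold invf; rw [if_neg hy]
  rw [e3, e4, sub_zero, zero_sub, S.cl_neg _ hy]
  have h2 := S.self (f c + S.cl y)
  have h4 : S.h (f c + S.cl y) (S.cl (-1) + S.cl (-1)) = 0 := by
    rw [S.two_cl_neg_one, map_zero]
  simp only [map_add, map_sub, map_neg, LinearMap.add_apply, LinearMap.sub_apply,
    LinearMap.neg_apply] at h1 h2 h4 ⊢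
  linear_combination -h1 + h2 - h4

theorem rels_inv (hr : Rels S A f) {c : F} (hc : c ∈ A) : Rels S (invA A c) (invf S f c) := by
  intro x hx y hy hxy
  rcases hx with hx | ⟨hx0, hxA⟩
  · rcases hy with hy | ⟨hy0, hyA⟩
    · exact absurd (hx.trans hy.symm) hxy
    · subst hx
      exact rel_zero hr hc hy0 hyA
  · rcases hy with hy | ⟨hy0, hyA⟩
    · subst hy
      rw [S.anti, rel_zero hr hc hx0 hxA, neg_zero]
    · obtain ⟨a, ha⟩ : ∃ a, a = c + x⁻¹ := ⟨_, rfl⟩
      obtain ⟨b, hb⟩ : ∃ b, b = c + y⁻¹ := ⟨_, rfl⟩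
      have hx' : x⁻¹ = a - c := by rw [ha]; ring
      have hy' : y⁻¹ = b - c := by rw [hb]; ring
      have hac0 : a - c ≠ 0 := by rw [← hx']; exact inv_ne_zero hx0
      have hbc0 : b - c ≠ 0 := by rw [← hy']; exact inv_ne_zero hy0
      have hca0 : c - a ≠ 0 := by rw [← neg_sub]; exact neg_ne_zero.2 hac0
      have hcb0 : c - b ≠ 0 := by rw [← neg_sub]; exact neg_ne_zero.2 hbc0
      have hxa : x = (a - c)⁻¹ := by rw [← hx', inv_inv]
      have hyb : y = (b - c)⁻¹ := by rw [← hy', inv_inv]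
      have hab0 : a - b ≠ 0 := by
        intro h
        apply hxy
        rw [hxa, hyb, sub_eq_zero.1 h]
      have hba0 : b - a ≠ 0 := by rw [← neg_sub]; exact neg_ne_zero.2 hab0
      have e1 : invf S f c x = f a - f c + S.cl x + S.cl (-1) := by
        unfold invf; rw [if_neg hx0, ← ha]
      have e2 : invf S f c y = f b - f c + S.cl y + S.cl (-1) := by
        unfold invf; rw [if_neg hy0, ← hb]
      rw [← ha] at hxA
      rw [← hb] at hyA
      have hab := hr a hxA b hyA (sub_ne_zero.1 hab0)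
      have hbc := hr b hyA c hc (sub_ne_zero.1 hbc0)
      have hac := hr a hxA c hc (sub_ne_zero.1 hac0)
      have c1 : S.cl (b - a) = S.cl (-1) + S.cl (a - b) := by rw [← S.cl_neg _ hab0, neg_sub]
      have c2 : S.cl (c - b) = S.cl (-1) + S.cl (b - c) := by rw [← S.cl_neg _ hbc0, neg_sub]
      have c3 : S.cl (a - c) = S.cl (-1) + S.cl (c - a) := by rw [← S.cl_neg _ hca0, neg_sub]
      have c4 : S.cl x = - (S.cl (-1) + S.cl (c - a)) := by rw [hxa, S.cl_inv _ hac0, c3]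
      have c5 : S.cl y = - S.cl (b - c) := by rw [hyb, S.cl_inv _ hbc0]
      have c6 : S.cl (y - x) = S.cl (a - b) + S.cl x + S.cl y := by
        have h1 : y - x = (a - b) * x * y := by
          rw [hxa, hyb]
          field_simp
          ring
        rw [h1, S.cl_mul _ _ (mul_ne_zero hab0 hx0) hy0, S.cl_mul _ _ hab0 hx0]
      have hyx0 : y - x ≠ 0 := sub_ne_zero.2 (fun h => hxy h.symm)
      have c7 : S.cl (x - y) = S.cl (-1) + S.cl (y - x) := by rw [← S.cl_neg _ hyx0, neg_sub]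
      have hst : S.h (S.cl (c - a) + S.cl (-1) - S.cl (b - c))
          (S.cl (a - b) - S.cl (b - c) - S.cl (-1)) = 0 := by
        have h1 : (1 : F) - (a - c) / (b - c) = (a - b) / (c - b) := by
          have h2 : c - b = -(b - c) := by ring
          rw [h2]
          field_simp
          ring
        have h3 := S.stein ((a - c) / (b - c)) (div_ne_zero hac0 hbc0)
          (by rw [h1]; exact div_ne_zero hab0 hcb0)
        rw [h1, S.cl_div _ _ hac0 hbc0, S.cl_div _ _ hab0 hcb0, c2, c3] at h3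
        have h4 : S.cl (c - a) + S.cl (-1) - S.cl (b - c) =
            S.cl (-1) + S.cl (c - a) - S.cl (b - c) := by abel
        have h5 : S.cl (a - b) - S.cl (b - c) - S.cl (-1) =
            S.cl (a - b) - (S.cl (-1) + S.cl (b - c)) := by abel
        rw [h4, h5]
        exact h3
      have hk := rel_key S (fa := f a) (fb := f b) (fc := f c) (u := S.cl (a - b))
        (v := S.cl (b - c)) (w := S.cl (c - a)) (m := S.cl (-1)) rfl
        (by rw [sub_sub, add_comm (S.cl (a - b)), ← c1]; exact hab)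
        (by rw [sub_sub, add_comm (S.cl (b - c)), ← c2]; exact hbc)
        (by rw [sub_sub (f c), add_comm (S.cl (c - a)), ← c3]; exact hac) hst
      have hmm := S.two_cl_neg_one
      have e3 : invf S f c x - S.cl (y - x) =
          f a - f c + S.cl (-1) - S.cl (a - b) + S.cl (b - c) := by
        rw [e1, c6, c5]
        abel
      have e4 : invf S f c y - S.cl (x - y) =
          f b - f c + S.cl (-1) - S.cl (a - b) + S.cl (c - a) := by
        rw [e2, c7, c6, c4]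
        abel
      rw [e3, e4]
      exact hk

theorem kn_inv {c z : F} (hc : c ∈ A) (hc0 : c ∈ S.D 0) (hz : z ∉ S.D 0)
    (hk : ∀ a ∈ A, a ∈ S.D 0 → f a = S.cl (z - a)) :
    (z - c)⁻¹ ∈ S.D 1 ∧ Kn S (invA A c) (invf S f c) (z - c)⁻¹ 0 := by
  have hzc : z - c ∉ S.D 0 := by
    intro h
    apply hz
    have h1 := (S.D 0).add_mem h hc0
    rwa [sub_add_cancel] at h1
  have hzc0 := S.ne_of_not_mem hzc
  have hv := S.v_lt_of_not_mem hzc
  have hz' : (z - c)⁻¹ ∈ S.D 1 := by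
    right
    rw [S.v_inv _ hzc0]
    omega
  refine ⟨hz', ?_⟩
  intro x hx hzx
  rw [zero_add] at hzx
  have hxD : x ∉ S.D 1 := fun h => hzx ((S.D 1).sub_mem hz' h)
  have hx0 := S.ne_of_not_mem hxD
  have hvx := S.v_lt_of_not_mem hxD
  obtain ⟨_, hxA⟩ := hx.resolve_left hx0
  have hxi : x⁻¹ ∈ S.D 0 := by
    right
    rw [S.v_inv _ hx0]
    omega
  have haD : c + x⁻¹ ∈ S.D 0 := (S.D 0).add_mem hc0 hxi
  have hza : z - (c + x⁻¹) ≠ 0 := by
    intro h
    apply hz
    rw [sub_eq_zero.1 h]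
    exact haD
  have e1 : invf S f c x = f (c + x⁻¹) - f c + S.cl x + S.cl (-1) := by
    unfold invf; rw [if_neg hx0]
  have e2 : (z - c)⁻¹ - x = (-1) * (z - (c + x⁻¹)) * (z - c)⁻¹ * x := by
    field_simp
    ring
  have hm1 : (-1 : F) ≠ 0 := neg_ne_zero.2 one_ne_zero
  have hzi : (z - c)⁻¹ ≠ 0 := inv_ne_zero hzc0
  rw [e1, e2, S.cl_mul _ _ (mul_ne_zero (mul_ne_zero hm1 hza) hzi) hx0,
    S.cl_mul _ _ (mul_ne_zero hm1 hza) hzi, S.cl_mul _ _ hm1 hza, S.cl_inv _ hzc0,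
    hk _ hxA haD, hk c hc hc0]
  abel

theorem back {c : F} (hc : c ∈ A) {B : ℤ} (hB : ∀ a ∈ A, a ∈ S.D B) {z' : F}
    (h : ∀ x ∈ invA A c, z' ≠ x → invf S f c x = S.cl (z' - x)) :
    ∃ z : F, ∀ a ∈ A, z ≠ a → f a = S.cl (z - a) := by
  have hmm := S.two_cl_neg_one
  by_cases hz' : z' = 0
  · subst hz'
    obtain ⟨y, hy0, hy⟩ := S.cl_surj (f c)
    have hconst : ∀ a ∈ A, f a = f c := by
      intro a ha
      by_cases hac : a = c
      · rw [hac]
      have hac0 : a - c ≠ 0 := sub_ne_zero.2 hac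
      have hx0 : (a - c)⁻¹ ≠ 0 := inv_ne_zero hac0
      have e1 : c + ((a - c)⁻¹)⁻¹ = a := by rw [inv_inv]; ring
      have h1 := h (a - c)⁻¹ (Or.inr ⟨hx0, by rw [e1]; exact ha⟩) hx0.symm
      unfold invf at h1
      rw [if_neg hx0, e1, zero_sub, S.cl_neg _ hx0] at h1
      have h2 : f a - f c = (f a - f c + S.cl (a - c)⁻¹ + S.cl (-1)) -
          (S.cl (-1) + S.cl (a - c)⁻¹) := by abel
      rw [h1, sub_self] at h2
      exact sub_eq_zero.1 h2
    have hp1 : (1 : ℤ) ≤ p := by exact_mod_cast S.prime.one_lt.le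
    obtain ⟨k, hk⟩ : ∃ k : ℕ, S.v y - p * k + S.E + 1 ≤ B := by
      refine ⟨(S.v y + S.E + 1 - B).toNat, ?_⟩
      have h1 := Int.self_le_toNat (S.v y + S.E + 1 - B)
      have h2 : (0 : ℤ) ≤ ((S.v y + S.E + 1 - B).toNat : ℤ) := Int.natCast_nonneg _
      nlinarith
    have hq0 : S.pi ^ (-(k : ℤ)) ≠ 0 := S.pi_zpow_ne _
    have hqp0 : (S.pi ^ (-(k : ℤ))) ^ p ≠ 0 := pow_ne_zero _ hq0
    have hclp : ∀ (q : F) (n : ℕ), q ≠ 0 → S.cl (q ^ n) = n • S.cl q := by
      intro q n hq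
      induction n with
      | zero => rw [pow_zero, S.cl_one, zero_smul]
      | succ n ih => rw [pow_succ, S.cl_mul _ _ (pow_ne_zero _ hq) hq, ih, succ_nsmul]
    obtain ⟨z, hz⟩ : ∃ z, z = y * (S.pi ^ (-(k : ℤ))) ^ p := ⟨_, rfl⟩
    have hz0 : z ≠ 0 := by rw [hz]; exact mul_ne_zero hy0 hqp0
    have hclz : S.cl z = f c := by
      rw [hz, S.cl_mul _ _ hy0 hqp0, hclp _ _ hq0, SS.p_smul (p := p), add_zero, hy]
    have hvz : S.v z = S.v y - p * k := by
      rw [hz, S.v_mul _ _ hy0 hqp0, S.v_pow _ hq0, S.v_pi_zpow]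
      ring
    refine ⟨z, fun a ha _ => ?_⟩
    have h1 := S.cl_congr (x := z) (y := z - a) hz0 (by
      have e : z - a - z = -a := by ring
      rw [e, hvz]
      exact (S.D _).neg_mem (S.D_mono hk (hB a ha)))
    rw [h1.2.2, hclz, hconst a ha]
  · have hzi : z'⁻¹ ≠ 0 := inv_ne_zero hz'
    have hc' : f c = - S.cl z' := by
      have h1 := h 0 (Or.inl rfl) hz'
      unfold invf at h1
      rw [if_pos rfl, sub_zero] at h1
      rw [← h1, neg_neg]
    refine ⟨c + z'⁻¹, fun a ha hza => ?_⟩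
    by_cases hac : a = c
    · have e1 : c + z'⁻¹ - a = z'⁻¹ := by rw [hac]; ring
      rw [e1, S.cl_inv _ hz', hac, hc']
    have hac0 : a - c ≠ 0 := sub_ne_zero.2 hac
    obtain ⟨x, hx⟩ : ∃ x, x = (a - c)⁻¹ := ⟨_, rfl⟩
    have hx0 : x ≠ 0 := by rw [hx]; exact inv_ne_zero hac0
    have hxi : x⁻¹ = a - c := by rw [hx, inv_inv]
    have e1 : c + x⁻¹ = a := by rw [hxi]; ring
    have hzx : z' ≠ x := by
      intro h1
      apply hza
      rw [h1, e1]
    have h1 := h x (Or.inr ⟨hx0, by rw [e1]; exact ha⟩) hzx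
    unfold invf at h1
    rw [if_neg hx0, e1] at h1
    have hzx0 : z' - x ≠ 0 := sub_ne_zero.2 hzx
    have e2 : c + z'⁻¹ - a = (-1) * (z' - x) * z'⁻¹ * x⁻¹ := by
      have e3 : c + z'⁻¹ - a = z'⁻¹ - x⁻¹ := by rw [hxi]; ring
      rw [e3]
      field_simp
      ring
    have hm1 : (-1 : F) ≠ 0 := neg_ne_zero.2 one_ne_zero
    rw [e2, S.cl_mul _ _ (mul_ne_zero (mul_ne_zero hm1 hzx0) hzi) (inv_ne_zero hx0),
      S.cl_mul _ _ (mul_ne_zero hm1 hzx0) hzi, S.cl_mul _ _ hm1 hzx0, S.cl_inv _ hz',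
      S.cl_inv _ hx0, ← h1, hc']
    have e4 : S.cl (-1) + (f a - -S.cl z' + S.cl x + S.cl (-1)) + -S.cl z' + -S.cl x =
        f a + (S.cl (-1) + S.cl (-1)) := by abel
    rw [e4, hmm, add_zero]

end WNT
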