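import Pool.Agent.Helper36.Superelliptic
import Pool.Agent.Helper36.SecConv

/-!
# WNT / Ms: sections for an intermediate field `M` of `Ω / K` instead of the universal cover

`MSec M`: `M` contains the algebraic closure of `k` in `Ω`, and there is a continuous homomorphism `Gal(kbar / k) → Gal(M / K)` which is a section of the restriction map.  The results of Helper36/SecMain, SecThm, Superelliptic for such an `M`; the proofs are the same.  The Kummer generators used must lie in `M`.
-/

set_option autoImplicit false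

namespace WNT

open Pool.Agent.Helper36

open Polynomial IntermediateField

/-- a section of `Gal(M / K) → Gal(kbar / k)` -/
structure MSec (k K Ω : Type*) [Field k] [Field K] [Field Ω] [Algebra k K] [Algebra K Ω]
    [Algebra k Ω] [IsScalarTower k K Ω] (M : IntermediateField K Ω) where
  mem : ∀ x : algebraicClosure k Ω, (x : Ω) ∈ M
  hom : (algebraicClosure k Ω ≃ₐ[k] algebraicClosure k Ω) →* (M ≃ₐ[K] M)
  cont : ∀ x : M, ∃ F : IntermediateField k (algebraicClosure k Ω), FiniteDimensional k F ∧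
    ∀ τ ∈ F.fixingSubgroup, hom τ x = x
  isSection : ∀ (σ : algebraicClosure k Ω ≃ₐ[k] algebraicClosure k Ω) (x : M)
    (hx : (x : Ω) ∈ algebraicClosure k Ω), (hom σ x : Ω) = (σ ⟨(x : Ω), hx⟩ : Ω)

variable {k K Ω : Type*} [Field k] [Field K] [Field Ω] [Algebra k K] [Algebra K Ω] [Algebra k Ω]
  [IsScalarTower k K Ω] {M : IntermediateField K Ω}

namespace MSec

/-- inclusion of the algebraic closure of `k` in `M` -/
noncomputable def incl (s : MSec k K Ω M) : algebraicClosure k Ω →+* M where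
  toFun x := ⟨(x : Ω), s.mem x⟩
  map_one' := rfl
  map_mul' _ _ := rfl
  map_zero' := rfl
  map_add' _ _ := rfl

/-- the action on `M` -/
noncomputable def act (s : MSec k K Ω M) :
    (algebraicClosure k Ω ≃ₐ[k] algebraicClosure k Ω) →* (M ≃+* M) where
  toFun σ := (s.hom σ).toRingEquiv
  map_one' := by rw [map_one]; rfl
  map_mul' _ _ := by rw [map_mul]; rfl

theorem act_incl (s : MSec k K Ω M) (σ) (x : algebraicClosure k Ω) :
    s.act σ (s.incl x) = s.incl (σ x) :=
  Subtype.ext (s.isSection σ (s.incl x) x.2)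

theorem incl_pow (s : MSec k K Ω M) (z : M) (n : ℕ) (hn : n ≠ 0)
    (h : z ^ n ∈ Set.range s.incl) : z ∈ Set.range s.incl := by
  obtain ⟨x, hx⟩ := h
  have h1 : IsAlgebraic k ((z : Ω) ^ n) := by
    have : (z : Ω) ^ n = (x : Ω) := congrArg Subtype.val hx.symm
    rw [this]
    exact mem_algebraicClosure_iff.mp x.2
  have h2 : IsAlgebraic k (z : Ω) := h1.of_pow (Nat.pos_of_ne_zero hn)
  exact ⟨⟨(z : Ω), mem_algebraicClosure_iff.mpr h2⟩, rfl⟩

theorem incl_algebraMap (s : MSec k K Ω M) (c : k) :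
    s.incl (algebraMap k (algebraicClosure k Ω) c) = algebraMap k M c := Subtype.ext rfl

theorem act_alg (s : MSec k K Ω M) (τ) (y : K) :
    s.act τ (algebraMap K M y) = algebraMap K M y :=
  (s.hom τ).commutes y

theorem le (s : MSec k K Ω M) (k' : IntermediateField k Ω) [FiniteDimensional k k'] :
    adjoin K (k' : Set Ω) ≤ M := by
  rw [adjoin_le_iff]
  intro x hx
  exact s.mem ⟨x, le_algebraicClosure k Ω k' hx⟩

theorem of_cont [Algebra.IsAlgebraic K Ω]
    (f : (algebraicClosure k Ω ≃ₐ[k] algebraicClosure k Ω) →* (M ≃ₐ[K] M)) (hf : Continuous f)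
    (x : M) :
    ∃ F : IntermediateField k (algebraicClosure k Ω), FiniteDimensional k F ∧
      ∀ τ ∈ F.fixingSubgroup, f τ x = x := by
  have h1 : IsOpen ((MulAction.stabilizer (M ≃ₐ[K] M) x : Subgroup _) : Set (M ≃ₐ[K] M)) :=
    stabilizer_isOpen_of_isIntegral x
  have h2 := h1.preimage hf
  have h3 : (f ⁻¹' ((MulAction.stabilizer (M ≃ₐ[K] M) x : Subgroup _) :
      Set (M ≃ₐ[K] M))) ∈ nhds 1 := by
    apply h2.mem_nhds
    rw [Set.mem_preimage, map_one]
    exact one_mem _
  rw [krullTopology_mem_nhds_one_iff] at h3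
  obtain ⟨F, hF, hFx⟩ := h3
  exact ⟨F, hF, fun τ hτ => hFx hτ⟩

section

theorem act_cont (s : MSec k K Ω M) (x : M) :
    ∃ F : IntermediateField k (algebraicClosure k Ω), FiniteDimensional k F ∧
      ∀ τ ∈ F.fixingSubgroup, s.act τ x = x := s.cont x

variable [CharZero k] [IsAlgClosed Ω]

/-- the embedding of `K k'` attached to an embedding of `k'` -/
noncomputable def emb (s : MSec k K Ω M) (k' : IntermediateField k Ω)
    [FiniteDimensional k k'] (φ : toClosure k' →ₐ[k] algebraicClosure k Ω) :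
    adjoin K (k' : Set Ω) →ₐ[K] Ω :=
  M.val.comp (((s.hom (liftEmb (toClosure k') φ) : M ≃ₐ[K] M) : M →ₐ[K] M).comp
    (inclusion (s.le k')))

theorem emb_const (s : MSec k K Ω M) (k' : IntermediateField k Ω)
    [FiniteDimensional k k'] (φ : toClosure k' →ₐ[k] algebraicClosure k Ω)
    (x : Ω) (hx : x ∈ k') :
    s.emb k' φ ⟨x, subset_adjoin K _ hx⟩ =
      (φ ⟨⟨x, le_algebraicClosure k Ω k' hx⟩, mem_toClosure.mpr hx⟩ : Ω) := by
  have h0 : s.emb k' φ ⟨x, subset_adjoin K _ hx⟩ = ((s.act (liftEmb (toClosure k') φ)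
    (inclusion (s.le k') ⟨x, subset_adjoin K _ hx⟩) : M) : Ω) := rfl
  rw [h0]
  have h1 : inclusion (s.le k') ⟨x, subset_adjoin K _ hx⟩ =
    s.incl ⟨x, le_algebraicClosure k Ω k' hx⟩ := rfl
  rw [h1, act_incl]
  have h2 := liftEmb_apply (toClosure k') φ
    ⟨⟨x, le_algebraicClosure k Ω k' hx⟩, mem_toClosure.mpr hx⟩
  exact congrArg Subtype.val h2

theorem act_fix (s : MSec k K Ω M) (k' : IntermediateField k Ω)
    [FiniteDimensional k k'] (τ) (hτ : τ ∈ (toClosure k').fixingSubgroup)
    (x : adjoin K (k' : Set Ω)) :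
    s.act τ (inclusion (s.le k') x) = inclusion (s.le k') x := by
  have h : ((s.hom τ : M ≃ₐ[K] M) : M →ₐ[K] M).comp (inclusion (s.le k')) =
      inclusion (s.le k') := by
    apply adjoin_algHom_ext
    intro y hy
    have h1 : inclusion (s.le k') ⟨y, subset_adjoin K _ hy⟩ =
      s.incl ⟨y, le_algebraicClosure k Ω k' hy⟩ := rfl
    show s.act τ (inclusion (s.le k') ⟨y, subset_adjoin K _ hy⟩) = _
    rw [h1, act_incl]
    congr 1
    rw [IntermediateField.mem_fixingSubgroup_iff] at hτ
    exact hτ _ (mem_toClosure.mpr hy)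
  exact DFunLike.congr_fun h x

theorem emb_constMap (s : MSec k K Ω M) (k' : IntermediateField k Ω)
    [FiniteDimensional k k'] (φ : toClosure k' →ₐ[k] algebraicClosure k Ω) (a : k') :
    s.emb k' φ (constMap K k' a) = embEquiv k' φ a :=
  s.emb_const k' φ a a.2

theorem prod_conj_eval (s : MSec k K Ω M) (k' : IntermediateField k Ω)
    [FiniteDimensional k k'] (f : k'[X]) (P : k[X])
    (hP : P.map (algebraMap k Ω) = ∏ φ : (k' →ₐ[k] Ω), f.map (φ : k' →+* Ω)) (x : K) :
    ∏ φ : toClosure k' →ₐ[k] algebraicClosure k Ω, conj s.act (toClosure k')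
      (inclusion (s.le k')
        (f.eval₂ (constMap K k') (algebraMap K (adjoin K (k' : Set Ω)) x))) φ =
      algebraMap K M (aeval x P) := by
  apply (algebraMap M Ω).injective
  rw [map_prod, ← IsScalarTower.algebraMap_apply]
  have h1 : algebraMap K Ω (aeval x P) = (P.map (algebraMap k Ω)).eval (algebraMap K Ω x) := by
    rw [eval_map, ← aeval_def, aeval_algebraMap_apply]
  rw [h1, hP, eval_prod]
  refine Fintype.prod_bijective (embEquiv k') (embEquiv_bijective k') _ _ (fun φ => ?_)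
  have h2 : algebraMap M Ω (conj s.act (toClosure k')
      (inclusion (s.le k')
        (f.eval₂ (constMap K k') (algebraMap K (adjoin K (k' : Set Ω)) x))) φ) =
      s.emb k' φ (f.eval₂ (constMap K k') (algebraMap K (adjoin K (k' : Set Ω)) x)) := rfl
  rw [h2]
  have h3 := hom_eval₂ f (constMap K k') (s.emb k' φ : adjoin K (k' : Set Ω) →+* Ω)
    (algebraMap K (adjoin K (k' : Set Ω)) x)
  rw [AlgHom.coe_toRingHom] at h3
  rw [h3, eval_map, AlgHom.commutes]
  congr 1
  ext a
  exact s.emb_constMap k' φ a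

/-- the norm obstruction for one field -/
theorem norm_one (s : MSec k K Ω M) (k' : IntermediateField k Ω) [FiniteDimensional k k'] {n : ℕ}
    (hn : n ≠ 0) (g : adjoin K (k' : Set Ω)) (hg : g ≠ 0) (hγ : ∃ γ ∈ M, γ ^ n = (g : Ω))
    (c : k) (hc : c ≠ 0) (y : K)
    (hcy : algebraMap k M c * (∏ φ : toClosure k' →ₐ[k] algebraicClosure k Ω,
        conj s.act (toClosure k') (inclusion (s.le k') g) φ) = algebraMap K M y ^ n) :
    ∃ u : k, u ≠ 0 ∧ ∃ δ : k', δ ≠ 0 ∧ c * Algebra.norm k δ = u ^ n := by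
  obtain ⟨γ₀, hγM, hγn⟩ := hγ
  obtain ⟨γ, hγ0, hγ⟩ : ∃ γ : M, γ ≠ 0 ∧ γ ^ n = inclusion (s.le k') g := by
    refine ⟨⟨γ₀, hγM⟩, ?_, ?_⟩
    · intro h0
      have h1 : γ₀ = 0 := congrArg Subtype.val h0
      rw [h1, zero_pow hn] at hγn
      apply hg
      apply (algebraMap (adjoin K (k' : Set Ω)) Ω).injective
      rw [map_zero]
      exact hγn.symm
    · apply (algebraMap M Ω).injective
      rw [map_pow]
      exact hγn
  obtain ⟨u, hu, δ, hδ, hcδ⟩ := norm_arg (ι := s.incl) (ρ := s.act) s.act_incl s.act_cont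
    (fun z n hn h => s.incl_pow z n hn h) (fun _ : Unit => toClosure k') hn (fun _ => γ)
    (fun _ => hγ0)
    (by
      intro _ τ hτ
      rw [hγ]
      exact s.act_fix k' τ hτ g) (fun _ => 1) c hc (algebraMap K M y)
    (by
      intro τ
      exact s.act_alg τ y)
    (by
      rw [← hcy, s.incl_algebraMap]
      simp only [Finset.univ_unique, Finset.prod_singleton, zpow_one]
      rw [hγ])
  refine ⟨u, hu, (toClosureEquiv k').symm (δ ()), ?_, ?_⟩
  · intro h0
    exact hδ () ((map_eq_zero_iff _ (toClosureEquiv k').symm.injective).mp h0)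
  · rw [← hcδ]
    simp only [Finset.univ_unique, Finset.prod_singleton, zpow_one]
    congr 1
    exact norm_toClosure k' (δ ())

end

end MSec

end WNT
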