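import Pool.Agent.WNT.Ms

/-!
# WNT / MsB: base change of `MSec` to a finite extension of the constants
-/

set_option autoImplicit false

namespace WNT

open Pool.Agent.Helper36

open IntermediateField

/-- the compositum `K k0` as a `k0`-algebra -/
noncomputable abbrev algK (K : Type*) {k Ω : Type*} [Field k] [Field K] [Field Ω] [Algebra K Ω]
    [Algebra k Ω] (k0 : IntermediateField k Ω) : Algebra k0 (adjoin K (k0 : Set Ω)) :=
  (constMap K k0).toAlgebra

theorem towK (K : Type*) {k Ω : Type*} [Field k] [Field K] [Field Ω] [Algebra K Ω]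
    [Algebra k Ω] (k0 : IntermediateField k Ω) :
    letI := algK K k0
    IsScalarTower k0 (adjoin K (k0 : Set Ω)) Ω := by
  let := algK K k0
  exact IsScalarTower.of_algebraMap_eq fun _ => rfl

section

variable {k Ω : Type*} [Field k] [CharZero k] [Field Ω] [Algebra k Ω]

theorem isAlg_iff (k0 : IntermediateField k Ω) [FiniteDimensional k k0] (x : Ω) :
    IsAlgebraic k0 x ↔ IsAlgebraic k x :=
  ⟨fun h => h.restrictScalars k, fun h => h.tower_top k0⟩

theorem mem_cl_iff (k0 : IntermediateField k Ω) [FiniteDimensional k k0] (x : Ω) :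
    x ∈ algebraicClosure k0 Ω ↔ x ∈ algebraicClosure k Ω := by
  rw [mem_algebraicClosure_iff, mem_algebraicClosure_iff]
  exact isAlg_iff k0 x

/-- an automorphism over `k0` is an automorphism over `k` -/
noncomputable def down (k0 : IntermediateField k Ω) [FiniteDimensional k k0] :
    (algebraicClosure k0 Ω ≃ₐ[k0] algebraicClosure k0 Ω) →*
      (algebraicClosure k Ω ≃ₐ[k] algebraicClosure k Ω) where
  toFun σ :=
    { toFun := fun x => ⟨(σ ⟨(x : Ω), (mem_cl_iff k0 _).2 x.2⟩ : Ω), (mem_cl_iff k0 _).1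
        (σ ⟨(x : Ω), (mem_cl_iff k0 _).2 x.2⟩).2⟩
      invFun := fun x => ⟨(σ.symm ⟨(x : Ω), (mem_cl_iff k0 _).2 x.2⟩ : Ω), (mem_cl_iff k0 _).1
        (σ.symm ⟨(x : Ω), (mem_cl_iff k0 _).2 x.2⟩).2⟩
      left_inv := fun x => by
        apply Subtype.ext
        exact (congrArg Subtype.val (σ.symm_apply_apply ⟨(x : Ω), (mem_cl_iff k0 _).2 x.2⟩) :)
      right_inv := fun x => by
        apply Subtype.ext
        exact (congrArg Subtype.val (σ.apply_symm_apply ⟨(x : Ω), (mem_cl_iff k0 _).2 x.2⟩) :)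
      map_mul' := fun x y => by
        apply Subtype.ext
        exact (congrArg Subtype.val (map_mul σ ⟨(x : Ω), (mem_cl_iff k0 _).2 x.2⟩
          ⟨(y : Ω), (mem_cl_iff k0 _).2 y.2⟩) :)
      map_add' := fun x y => by
        apply Subtype.ext
        exact (congrArg Subtype.val (map_add σ ⟨(x : Ω), (mem_cl_iff k0 _).2 x.2⟩
          ⟨(y : Ω), (mem_cl_iff k0 _).2 y.2⟩) :)
      commutes' := fun c => by
        apply Subtype.ext
        exact (congrArg Subtype.val (σ.commutes (algebraMap k k0 c)) :) }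
  map_one' := by
    ext x
    rfl
  map_mul' σ τ := by
    ext x
    rfl

theorem down_coe (k0 : IntermediateField k Ω) [FiniteDimensional k k0]
    (σ : algebraicClosure k0 Ω ≃ₐ[k0] algebraicClosure k0 Ω) (x : algebraicClosure k Ω) :
    (down k0 σ x : Ω) = (σ ⟨(x : Ω), (mem_cl_iff k0 _).2 x.2⟩ : Ω) := rfl

/-- `k0` is fixed -/
theorem down_mem (k0 : IntermediateField k Ω) [FiniteDimensional k k0]
    (σ : algebraicClosure k0 Ω ≃ₐ[k0] algebraicClosure k0 Ω) :
    down k0 σ ∈ (toClosure k0).fixingSubgroup := by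
  rw [IntermediateField.mem_fixingSubgroup_iff]
  intro x hx
  apply Subtype.ext
  rw [down_coe]
  exact (congrArg Subtype.val (σ.commutes ⟨(x : Ω), mem_toClosure.1 hx⟩) :)

/-- the finite extension of `k0` generated by a finite extension of `k` -/
theorem exists_up (k0 : IntermediateField k Ω) [FiniteDimensional k k0]
    (E : IntermediateField k (algebraicClosure k Ω)) (hE : FiniteDimensional k E) :
    ∃ E' : IntermediateField k0 (algebraicClosure k0 Ω), FiniteDimensional k0 E' ∧
      ∀ τ ∈ E'.fixingSubgroup, down k0 τ ∈ E.fixingSubgroup := by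
  obtain ⟨S, hS⟩ : E.FG :=
    essFiniteType_iff.1 (inferInstance : Algebra.EssFiniteType k E)
  let g : algebraicClosure k Ω → algebraicClosure k0 Ω :=
    fun x => ⟨(x : Ω), (mem_cl_iff k0 _).2 x.2⟩
  refine ⟨adjoin k0 (g '' (S : Set (algebraicClosure k Ω))), ?_, ?_⟩
  · have : Finite (g '' (S : Set (algebraicClosure k Ω))) := (S.finite_toSet.image g).to_subtype
    apply finiteDimensional_adjoin
    intro x _
    exact (Algebra.IsAlgebraic.isAlgebraic (R := k0) x).isIntegral
  · intro τ hτ
    rw [← hS, IntermediateField.mem_fixingSubgroup_iff]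
    intro x hx
    have h1 : ∀ y ∈ S, down k0 τ y = y := by
      intro y hy
      apply Subtype.ext
      rw [down_coe]
      rw [IntermediateField.mem_fixingSubgroup_iff] at hτ
      exact (congrArg Subtype.val (hτ (g y) (subset_adjoin k0 _ ⟨y, hy, rfl⟩)) :)
    have h2 : adjoin k (S : Set (algebraicClosure k Ω)) ≤
        fixedField (Subgroup.zpowers (down k0 τ)) := by
      rw [adjoin_le_iff]
      intro y hy
      show y ∈ fixedField (Subgroup.zpowers (down k0 τ))
      rw [mem_fixedField_iff]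
      intro f hf
      obtain ⟨n, rfl⟩ := Subgroup.mem_zpowers_iff.1 hf
      have h3 : down k0 τ ∈ MulAction.stabilizer (algebraicClosure k Ω ≃ₐ[k]
        algebraicClosure k Ω) y := h1 y hy
      exact Subgroup.zpow_mem _ h3 n
    have h3 := h2 hx
    rw [mem_fixedField_iff] at h3
    exact h3 _ (Subgroup.mem_zpowers _)

end

section

variable {k K Ω : Type*} [Field k] [CharZero k] [Field K] [Field Ω] [Algebra k K] [Algebra K Ω]
  [Algebra k Ω] [IsScalarTower k K Ω] [IsAlgClosed Ω] {M : IntermediateField K Ω}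

/-- the homomorphism over `K0` -/
noncomputable def MSec.homUp (s : MSec k K Ω M) (k0 : IntermediateField k Ω)
    [FiniteDimensional k k0] :
    (algebraicClosure k0 Ω ≃ₐ[k0] algebraicClosure k0 Ω) →*
      (extendScalars (s.le k0) ≃ₐ[adjoin K (k0 : Set Ω)] extendScalars (s.le k0)) where
  toFun σ :=
    { toFun := fun x => ⟨(s.hom (down k0 σ) ⟨(x : Ω), x.2⟩ : Ω),
        (s.hom (down k0 σ) ⟨(x : Ω), x.2⟩).2⟩
      invFun := fun x => ⟨((s.hom (down k0 σ)).symm ⟨(x : Ω), x.2⟩ : Ω),
        ((s.hom (down k0 σ)).symm ⟨(x : Ω), x.2⟩).2⟩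
      left_inv := fun x => by
        apply Subtype.ext
        exact (congrArg Subtype.val ((s.hom (down k0 σ)).symm_apply_apply ⟨(x : Ω), x.2⟩) :)
      right_inv := fun x => by
        apply Subtype.ext
        exact (congrArg Subtype.val ((s.hom (down k0 σ)).apply_symm_apply ⟨(x : Ω), x.2⟩) :)
      map_mul' := fun x y => by
        apply Subtype.ext
        exact (congrArg Subtype.val (map_mul (s.hom (down k0 σ)) (⟨(x : Ω), x.2⟩ : M)
          (⟨(y : Ω), y.2⟩ : M)) :)
      map_add' := fun x y => by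
        apply Subtype.ext
        exact (congrArg Subtype.val (map_add (s.hom (down k0 σ)) (⟨(x : Ω), x.2⟩ : M)
          (⟨(y : Ω), y.2⟩ : M)) :)
      commutes' := fun c => by
        apply Subtype.ext
        exact (congrArg Subtype.val (s.act_fix k0 (down k0 σ) (down_mem k0 σ) c) :) }
  map_one' := by
    ext x
    show (s.hom (down k0 1) ⟨(x : Ω), x.2⟩ : Ω) = (x : Ω)
    rw [map_one, map_one]
    rfl
  map_mul' σ τ := by
    ext x
    show (s.hom (down k0 (σ * τ)) ⟨(x : Ω), x.2⟩ : Ω) = _
    rw [map_mul, map_mul]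
    rfl

theorem MSec.homUp_coe (s : MSec k K Ω M) (k0 : IntermediateField k Ω)
    [FiniteDimensional k k0] (σ : algebraicClosure k0 Ω ≃ₐ[k0] algebraicClosure k0 Ω)
    (x : extendScalars (s.le k0)) :
    (s.homUp k0 σ x : Ω) = (s.hom (down k0 σ) ⟨(x : Ω), x.2⟩ : Ω) := rfl

/-- base change -/
noncomputable def MSec.up (s : MSec k K Ω M) (k0 : IntermediateField k Ω)
    [FiniteDimensional k k0] :
    letI := algK K k0
    haveI := towK K k0
    MSec k0 (adjoin K (k0 : Set Ω)) Ω (extendScalars (s.le k0)) :=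
  letI := algK K k0
  haveI := towK K k0
  { mem := fun x => s.mem ⟨(x : Ω), (mem_cl_iff k0 _).1 x.2⟩
    hom := s.homUp k0
    cont := by
      intro x
      obtain ⟨E, hE, h⟩ := s.cont ⟨(x : Ω), x.2⟩
      obtain ⟨E', hE', h'⟩ := exists_up k0 E hE
      refine ⟨E', hE', fun τ hτ => ?_⟩
      apply Subtype.ext
      rw [s.homUp_coe, h _ (h' τ hτ)]
    isSection := by
      intro σ x hx
      rw [s.homUp_coe, s.isSection (down k0 σ) ⟨(x : Ω), x.2⟩ ((mem_cl_iff k0 _).1 hx), down_coe] }

end

end WNT
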