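import Pool.Agent.WNT.MsA
import Pool.Agent.WNT.Ext

/-!
# WNT / MsO: `MSec` over a field `K'` which is fixed by the section
-/

set_option autoImplicit false

namespace WNT

open Pool.Agent.Helper36

open Polynomial IntermediateField

variable {k K Ω : Type*} [Field k] [Field K] [Field Ω] [Algebra k K] [Algebra K Ω]
  [Algebra k Ω] [IsScalarTower k K Ω] {M : IntermediateField K Ω}

section

variable (s : MSec k K Ω M) (K' : IntermediateField K Ω) (hK : K' ≤ M)
  (hfix : ∀ σ, ∀ x (hx : x ∈ K'), (s.hom σ ⟨x, hK hx⟩ : Ω) = x)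

/-- the homomorphism over `K'` -/
noncomputable def MSec.homOver :
    (algebraicClosure k Ω ≃ₐ[k] algebraicClosure k Ω) →*
      (extendScalars hK ≃ₐ[K'] extendScalars hK) where
  toFun σ :=
    { toFun := fun x => ⟨(s.hom σ ⟨(x : Ω), x.2⟩ : Ω), (s.hom σ ⟨(x : Ω), x.2⟩).2⟩
      invFun := fun x => ⟨((s.hom σ).symm ⟨(x : Ω), x.2⟩ : Ω),
        ((s.hom σ).symm ⟨(x : Ω), x.2⟩).2⟩
      left_inv := fun x => by
        apply Subtype.ext
        exact (congrArg Subtype.val ((s.hom σ).symm_apply_apply ⟨(x : Ω), x.2⟩) :)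
      right_inv := fun x => by
        apply Subtype.ext
        exact (congrArg Subtype.val ((s.hom σ).apply_symm_apply ⟨(x : Ω), x.2⟩) :)
      map_mul' := fun x y => by
        apply Subtype.ext
        exact (congrArg Subtype.val (map_mul (s.hom σ) (⟨(x : Ω), x.2⟩ : M)
          (⟨(y : Ω), y.2⟩ : M)) :)
      map_add' := fun x y => by
        apply Subtype.ext
        exact (congrArg Subtype.val (map_add (s.hom σ) (⟨(x : Ω), x.2⟩ : M)
          (⟨(y : Ω), y.2⟩ : M)) :)
      commutes' := fun c => by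
        apply Subtype.ext
        exact hfix σ c c.2 }
  map_one' := by
    ext x
    show (s.hom 1 ⟨(x : Ω), x.2⟩ : Ω) = (x : Ω)
    rw [map_one]
    rfl
  map_mul' σ τ := by
    ext x
    show (s.hom (σ * τ) ⟨(x : Ω), x.2⟩ : Ω) = _
    rw [map_mul]
    rfl

theorem MSec.homOver_coe (σ : algebraicClosure k Ω ≃ₐ[k] algebraicClosure k Ω)
    (x : extendScalars hK) :
    (s.homOver K' hK hfix σ x : Ω) = (s.hom σ ⟨(x : Ω), x.2⟩ : Ω) := rfl

/-- the section over `K'` -/
noncomputable def MSec.over : MSec k K' Ω (extendScalars hK) where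
  mem := fun x => s.mem x
  hom := s.homOver K' hK hfix
  cont := by
    intro x
    obtain ⟨E, hE, h⟩ := s.cont ⟨(x : Ω), x.2⟩
    refine ⟨E, hE, fun τ hτ => ?_⟩
    apply Subtype.ext
    rw [s.homOver_coe, h τ hτ]
  isSection := by
    intro σ x hx
    rw [s.homOver_coe]
    exact s.isSection σ ⟨(x : Ω), x.2⟩ hx

end

/-- Kummer theory for the section: `y ^ n ∈ K` -/
theorem MSec.split [CharZero k] [IsAlgClosed Ω] (s : MSec k K Ω M) {n : ℕ} (hn : n ≠ 0) {g : K}
    (hg : g ≠ 0) {y : Ω} (hyM : y ∈ M) (hy : y ^ n = algebraMap K Ω g) :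
    ∃ d : k, d ≠ 0 ∧ ∃ m : M, algebraMap K Ω g = algebraMap k Ω d * (m : Ω) ^ n ∧
      (∀ σ, s.hom σ m = m) ∧ ∃ e : Ω, IsAlgebraic k e ∧ (m : Ω) = y * e := by
  have hg' : algebraMap K Ω g ≠ 0 := (map_ne_zero_iff _ (algebraMap K Ω).injective).2 hg
  have hy0 : y ≠ 0 := by
    intro h0
    rw [h0, zero_pow hn] at hy
    exact hg' hy.symm
  obtain ⟨γ, hγ⟩ : ∃ γ : M, γ = ⟨y, hyM⟩ := ⟨_, rfl⟩
  have hγ0 : γ ≠ 0 := by
    rw [hγ]
    intro h
    exact hy0 (congrArg Subtype.val h)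
  have hγn : γ ^ n = algebraMap K M g := by
    rw [hγ]
    apply Subtype.ext
    exact hy
  obtain ⟨δ, hδ, m, hm0, hm, hmσ⟩ := kummer_split (ι := s.incl) (ρ := s.act) s.act_incl s.act_cont
    (fun z n hn h => s.incl_pow z n hn h) (⊥ : IntermediateField k (algebraicClosure k Ω)) hn hγ0
    (by
      intro τ _
      rw [hγn]
      exact s.act_alg τ g)
  obtain ⟨d, hd⟩ := mem_bot.1 δ.2
  refine ⟨d, ?_, m, ?_, ?_, ?_⟩
  · intro h0
    apply hδ
    apply Subtype.ext
    rw [← hd, h0, map_zero]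
    rfl
  · have h1 := congrArg (fun x : M => (x : Ω)) hm
    have h2 : ((γ ^ n : M) : Ω) = algebraMap K Ω g := by
      rw [hγn]
      rfl
    have h3 : ((s.incl (δ : algebraicClosure k Ω) * m ^ n : M) : Ω) =
        ((δ : algebraicClosure k Ω) : Ω) * (m : Ω) ^ n := rfl
    have h4 : (((δ : algebraicClosure k Ω)) : Ω) = algebraMap k Ω d := by
      rw [← hd]
      rfl
    rw [h2, h3, h4] at h1
    exact h1
  · intro σ
    exact hmσ σ (by
      rw [IntermediateField.mem_fixingSubgroup_iff]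
      intro x hx
      obtain ⟨c, rfl⟩ := mem_bot.1 hx
      exact σ.commutes c)
  · have hq : ((m / γ : M)) ^ n ∈ Set.range s.incl := by
      refine ⟨((δ : algebraicClosure k Ω))⁻¹, ?_⟩
      rw [div_pow, map_inv₀, hm]
      have h5 : s.incl (δ : algebraicClosure k Ω) ≠ 0 := by
        rw [map_ne_zero_iff _ s.incl.injective]
        intro h
        exact hδ (Subtype.ext h)
      have h6 : m ^ n ≠ 0 := pow_ne_zero _ hm0
      field_simp
    obtain ⟨z, hz⟩ := s.incl_pow _ n hn hq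
    refine ⟨(z : Ω), mem_algebraicClosure_iff.mp z.2, ?_⟩
    have h7 : m = γ * s.incl z := by
      rw [hz]
      field_simp
    rw [h7, hγ]
    rfl

end WNT
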