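import Pool.Agent.WNT.RelG
import Pool.Agent.WNT.MsB

/-!
# WNT / MsR: `MSec` gives the norm relation, with a correcting function `G`
-/

set_option autoImplicit false

namespace WNT

open Pool.Agent.Helper36

open Polynomial IntermediateField

private theorem msr_min {k Ω : Type*} [Field k] [Field Ω] [Algebra k Ω] {p : ℕ} (hp : p.Prime)
    {α : k} (hα : ∀ c : k, c ^ p ≠ α) {ε : Ω} (hε : ε ^ p = algebraMap k Ω α) :
    X ^ p - C α = minpoly k ε := by
  refine minpoly.eq_of_irreducible_of_monic (X_pow_sub_C_irreducible_of_prime hp hα) ?_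
    (monic_X_pow_sub_C α hp.ne_zero)
  rw [map_sub, map_pow, aeval_X, aeval_C, hε, sub_self]

private theorem msr_emb {k Ω : Type*} [Field k] [Field Ω] [Algebra k Ω] [CharZero k]
    [IsAlgClosed Ω] {p : ℕ} (hp : p.Prime) {ζ α : k} (hζ : IsPrimitiveRoot ζ p)
    (hα : ∀ c : k, c ^ p ≠ α) {ε : Ω} (hε : ε ^ p = algebraMap k Ω α)
    (k' : IntermediateField k Ω) [FiniteDimensional k k'] (hk : k' = k⟮ε⟯) (e : k')
    (he : (e : Ω) = ε) {M : Type*} [CommMonoid M] (F : Ω → M) :
    ∏ φ : k' →ₐ[k] Ω, F (φ e) = ∏ i ∈ Finset.range p, F (algebraMap k Ω (ζ ^ i) * ε) := by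
  classical
  have hint : IsIntegral k ε := by
    refine ⟨X ^ p - C α, monic_X_pow_sub_C α hp.ne_zero, ?_⟩
    rw [eval₂_sub, eval₂_pow, eval₂_X, eval₂_C, hε, sub_self]
  have hε0 : ε ≠ 0 := by
    intro h0
    apply hα 0
    rw [h0, zero_pow hp.ne_zero] at hε
    rw [zero_pow hp.ne_zero]
    apply (algebraMap k Ω).injective
    rw [map_zero, hε]
  have hζ' : IsPrimitiveRoot (algebraMap k Ω ζ) p :=
    hζ.map_of_injective (algebraMap k Ω).injective
  have hinj1 : ∀ i ∈ Finset.range p, ∀ j ∈ Finset.range p,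
      algebraMap k Ω (ζ ^ i) * ε = algebraMap k Ω (ζ ^ j) * ε → i = j := by
    intro i hi j hj hij
    have h1 := mul_right_cancel₀ hε0 hij
    rw [map_pow, map_pow] at h1
    exact hζ'.pow_inj (Finset.mem_range.1 hi) (Finset.mem_range.1 hj) h1
  have hdeg : Module.finrank k k' = p := by
    subst hk
    rw [adjoin.finrank hint, ← msr_min hp hα hε, natDegree_X_pow_sub_C]
  have hinj2 : ∀ φ ψ : k' →ₐ[k] Ω, φ e = ψ e → φ = ψ := by
    subst hk
    intro φ ψ h
    refine (adjoin.powerBasis hint).algHom_ext ?_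
    have h1 : (adjoin.powerBasis hint).gen = e := by
      rw [adjoin.powerBasis_gen]
      apply Subtype.ext
      rw [he]
      rfl
    rw [h1, h]
  have hcard : Fintype.card (k' →ₐ[k] Ω) = p := by
    rw [AlgHom.card, hdeg]
  have hroot : ∀ φ : k' →ₐ[k] Ω, ∃ i ∈ Finset.range p, algebraMap k Ω (ζ ^ i) * ε = φ e := by
    intro φ
    have h1 : e ^ p = algebraMap k k' α := by
      apply Subtype.ext
      have : ((e ^ p : k') : Ω) = (e : Ω) ^ p := rfl
      rw [this, he, hε]
      rfl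
    have h2 : (φ e) ^ p = algebraMap k Ω α := by
      rw [← map_pow, h1, AlgHom.commutes]
    have h3 : (φ e / ε) ^ p = 1 := by
      rw [div_pow, h2, hε, div_self]
      rw [← hε]
      exact pow_ne_zero _ hε0
    have : NeZero p := ⟨hp.ne_zero⟩
    obtain ⟨i, hi, hi2⟩ := hζ'.eq_pow_of_pow_eq_one h3
    refine ⟨i, Finset.mem_range.2 hi, ?_⟩
    rw [map_pow, hi2, div_mul_cancel₀ _ hε0]
  have himg : (Finset.univ : Finset (k' →ₐ[k] Ω)).image (fun φ => φ e) =
      (Finset.range p).image (fun i => algebraMap k Ω (ζ ^ i) * ε) := by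
    apply Finset.eq_of_subset_of_card_le
    · intro x hx
      rw [Finset.mem_image] at hx
      obtain ⟨φ, -, rfl⟩ := hx
      obtain ⟨i, hi, hi2⟩ := hroot φ
      exact Finset.mem_image.2 ⟨i, hi, hi2⟩
    · rw [Finset.card_image_of_injective _ (fun φ ψ h => hinj2 φ ψ h), Finset.card_univ, hcard]
      exact Finset.card_image_le.trans (Finset.card_range p).le
  rw [← Finset.prod_image (s := (Finset.univ : Finset (k' →ₐ[k] Ω))) (g := fun φ => φ e)
    (f := F) (fun φ _ ψ _ h => hinj2 φ ψ h), himg,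
    Finset.prod_image (fun i hi j hj h => hinj1 i hi j hj h)]

theorem MSec.rel {k K Ω : Type*} [Field k] [CharZero k] [Field K] [Field Ω] [Algebra k K]
    [Algebra K Ω] [Algebra k Ω] [IsScalarTower k K Ω] [Algebra.IsAlgebraic K Ω] [IsAlgClosed Ω]
    {M : IntermediateField K Ω} {p : ℕ} (hp : p.Prime)
    {ζ : k} (hζ : IsPrimitiveRoot ζ p) {a b da db : k} (hab : a ≠ b) (hda : da ≠ 0)
    (hdb : db ≠ 0) {x ya yb : K} (ha : x - algebraMap k K a = algebraMap k K da * ya ^ p)
    (hb : x - algebraMap k K b = algebraMap k K db * yb ^ p)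
    (hxb : x ≠ algebraMap k K b) {G : K} (hG : G ≠ 0)
    (hr : ∀ ε : Ω, ε ^ p = algebraMap k Ω (da / (b - a)) →
      ∃ γ ∈ M, γ ^ p = (1 - ε * algebraMap K Ω ya) * algebraMap K Ω G)
    (s : MSec k K Ω M) : NR p ζ (da / (b - a)) (db / (a - b)) := by
  classical
  have hba : b - a ≠ 0 := sub_ne_zero.2 (Ne.symm hab)
  have hab' : a - b ≠ 0 := sub_ne_zero.2 hab
  obtain ⟨α, hαd⟩ : ∃ α : k, α = da / (b - a) := ⟨_, rfl⟩
  obtain ⟨β, hβd⟩ : ∃ β : k, β = db / (a - b) := ⟨_, rfl⟩
  have hα0 : α ≠ 0 := by rw [hαd]; exact div_ne_zero hda hba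
  have hβ0 : β ≠ 0 := by rw [hβd]; exact div_ne_zero hdb hab'
  rw [← hαd, ← hβd]
  by_cases hα : ∃ c : k, c ^ p = α
  · obtain ⟨c, hc⟩ := hα
    have hc0 : c ≠ 0 := by
      rintro rfl
      rw [zero_pow hp.ne_zero] at hc
      exact hα0 hc.symm
    rw [← hc]
    exact nr_of_pow hζ hp.pos hc0 β
  push Not at hα
  obtain ⟨ε, hε⟩ := IsAlgClosed.exists_pow_nat_eq (algebraMap k Ω α) hp.pos
  have hε0 : ε ≠ 0 := by
    intro h0
    rw [h0, zero_pow hp.ne_zero] at hε
    apply hα0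
    apply (algebraMap k Ω).injective
    rw [map_zero, hε]
  have hint : IsIntegral k ε := by
    refine ⟨X ^ p - C α, monic_X_pow_sub_C α hp.ne_zero, ?_⟩
    rw [eval₂_sub, eval₂_pow, eval₂_X, eval₂_C, hε, sub_self]
  obtain ⟨k', hk'⟩ : ∃ k' : IntermediateField k Ω, k' = k⟮ε⟯ := ⟨_, rfl⟩
  have hfd : FiniteDimensional k k' := by
    rw [hk']
    exact adjoin.finiteDimensional hint
  have hmem : ε ∈ k' := by
    rw [hk']
    exact mem_adjoin_simple_self k ε
  obtain ⟨e, he⟩ : ∃ e : k', (e : Ω) = ε := ⟨⟨ε, hmem⟩, rfl⟩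
  obtain ⟨f, hf⟩ : ∃ f : k'[X], f = 1 - C e * X := ⟨_, rfl⟩
  obtain ⟨Pα, hPα⟩ : ∃ P : k[X], P = 1 - C α * X ^ p := ⟨_, rfl⟩
  have hP : Pα.map (algebraMap k Ω) = ∏ φ : (k' →ₐ[k] Ω), f.map (φ : k' →+* Ω) := by
    have h1 : ∀ φ : k' →ₐ[k] Ω, f.map (φ : k' →+* Ω) = 1 - C (φ e) * X := by
      intro φ
      rw [hf]
      simp
    rw [Finset.prod_congr rfl fun φ _ => h1 φ,
      msr_emb hp hζ hα hε k' hk' e he (fun x => (1 - C x * X : Polynomial Ω))]
    have hζ' : IsPrimitiveRoot (C (algebraMap k Ω ζ)) p :=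
      (hζ.map_of_injective (algebraMap k Ω).injective).map_of_injective C_injective
    have h2 := relG_prod hζ' hp.pos (C ε * X)
    have h3 : ∀ i ∈ Finset.range p, (1 - C (algebraMap k Ω (ζ ^ i) * ε) * X : Polynomial Ω) =
        1 - C (algebraMap k Ω ζ) ^ i * (C ε * X) := by
      intro i _
      rw [map_pow, C_mul, C_pow, mul_assoc]
    rw [Finset.prod_congr rfl h3, h2, hPα, mul_pow, ← C_pow, hε]
    simp
  have hBA : algebraMap k K b - algebraMap k K a ≠ 0 := by
    rw [← map_sub]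
    exact (map_ne_zero_iff _ (algebraMap k K).injective).2 hba
  have hAB : algebraMap k K a - algebraMap k K b ≠ 0 := by
    rw [← map_sub]
    exact (map_ne_zero_iff _ (algebraMap k K).injective).2 hab'
  have hid : aeval ya Pα = algebraMap k K β * yb ^ p := by
    have e1 : aeval ya Pα = 1 - algebraMap k K α * ya ^ p := by
      rw [hPα]
      simp
    rw [e1, hαd, hβd, map_div₀, map_div₀, map_sub, map_sub, div_mul_eq_mul_div,
      div_mul_eq_mul_div, ← ha, ← hb]
    field_simp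
    ring
  have hyb : yb ≠ 0 := by
    intro h0
    rw [h0, zero_pow hp.ne_zero, mul_zero, sub_eq_zero] at hb
    exact hxb hb
  have hid0 : aeval ya Pα ≠ 0 := by
    rw [hid]
    exact mul_ne_zero ((map_ne_zero_iff _ (algebraMap k K).injective).2 hβ0) (pow_ne_zero _ hyb)
  obtain ⟨h, hh⟩ := exists_cofactor k' Pα f hP
  have hg0 := eval_ne_zero (K := K) k' Pα f h hh ya hid0
  have hG' : algebraMap K (adjoin K (k' : Set Ω)) G ≠ 0 :=
    (map_ne_zero_iff _ (algebraMap K (adjoin K (k' : Set Ω))).injective).2 hG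
  have hroot : ∃ γ ∈ M, γ ^ p = ((f.eval₂ (constMap K k')
      (algebraMap K (adjoin K (k' : Set Ω)) ya) *
      algebraMap K (adjoin K (k' : Set Ω)) G : adjoin K (k' : Set Ω)) : Ω) := by
    obtain ⟨γ, h1, h2⟩ := hr ε (by rw [hε, hαd])
    refine ⟨γ, h1, ?_⟩
    rw [h2, hf, eval₂_sub, eval₂_one, eval₂_mul, eval₂_C, eval₂_X, ← he]
    rfl
  have hmain := s.norm_one k' hp.ne_zero
    (f.eval₂ (constMap K k') (algebraMap K (adjoin K (k' : Set Ω)) ya) *
      algebraMap K (adjoin K (k' : Set Ω)) G)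
    (mul_ne_zero hg0 hG') hroot β⁻¹ (inv_ne_zero hβ0) (yb * G) ?_
  · obtain ⟨u, hu, δ, -, hδ⟩ := hmain
    refine nr_scale u hu ?_
    have hN : Algebra.norm k (δ) = β * u ^ p := by
      rw [← hδ]
      rw [mul_inv_cancel_left₀ hβ0]
    have hδP : ∃ P : k[X], δ = aeval e P := by
      generalize δ = d
      have h1 : ∀ d : k⟮ε⟯, ∃ P : k[X], d = aeval (AdjoinSimple.gen k ε) P := by
        intro d
        obtain ⟨P, hP⟩ := (adjoin.powerBasis hint).exists_eq_aeval' d
        rw [adjoin.powerBasis_gen] at hP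
        exact ⟨P, hP⟩
      subst hk'
      obtain ⟨P, hP⟩ := h1 d
      refine ⟨P, ?_⟩
      have h2 : AdjoinSimple.gen k ε = e := by
        apply Subtype.ext
        rw [he]
        rfl
      rw [← h2]
      exact hP
    obtain ⟨P, hPd⟩ := hδP
    refine nr_of_root hp hα hε P ?_
    rw [← hN, Algebra.norm_eq_prod_embeddings k Ω]
    have h1 : ∀ φ : k' →ₐ[k] Ω, φ (δ) = aeval (φ e) P := by
      intro φ
      rw [hPd, aeval_algHom_apply]
    rw [Finset.prod_congr rfl fun φ _ => h1 φ]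
    exact msr_emb hp hζ hα hε k' hk' e he (fun x => aeval x P)
  · have hcard : Fintype.card (toClosure k' →ₐ[k] algebraicClosure k Ω) = p := by
      rw [AlgHom.card, ← (toClosureEquiv k').toLinearEquiv.finrank_eq, hk', adjoin.finrank hint,
        ← msr_min hp hα hε, natDegree_X_pow_sub_C]
    have hconj : ∀ φ : toClosure k' →ₐ[k] algebraicClosure k Ω,
        conj s.act (toClosure k') (inclusion (s.le k')
          (f.eval₂ (constMap K k') (algebraMap K (adjoin K (k' : Set Ω)) ya) *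
            algebraMap K (adjoin K (k' : Set Ω)) G)) φ =
        conj s.act (toClosure k') (inclusion (s.le k')
          (f.eval₂ (constMap K k') (algebraMap K (adjoin K (k' : Set Ω)) ya))) φ *
          algebraMap K (M) G := by
      intro φ
      rw [map_mul, Pool.Agent.Helper36.conj_mul]
      congr 1
      unfold conj
      rw [AlgHom.commutes, s.act_alg]
    rw [Finset.prod_congr rfl fun φ _ => hconj φ, Finset.prod_mul_distrib, Finset.prod_const,
      Finset.card_univ, hcard, s.prod_conj_eval k' f Pα hP ya, hid, map_mul, map_pow,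
      ← IsScalarTower.algebraMap_apply, map_mul, mul_pow, ← mul_assoc, ← mul_assoc, ← map_mul,
      inv_mul_cancel₀ hβ0, map_one, one_mul]

end WNT
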