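import Pool.Agent.WNT.W

/-!
# WNT / Net: first properties of nets

PROOFS.
* `rel'`: `X = f a - d`, `Y = f b - d`, `d = cl (a - b)`, `h X Y = 0`: `f a - f b = X - Y`, `d - f b = - Y`, `h (X - Y) (- Y) = - h X Y + h Y Y = 0`.
* `smooth` (`f` constant on `b + D m`, `v (a - b) = m - i`): for `u ∈ D i` the point `c = b + u (a - b)` lies in `D (- 2 E)`; take `b' ∈ A` with `b' - c ∈ D N`; `b' - b ∈ D m`, so `f b' = f b`.
  `a - b' = (a - b) (1 - u) - (b' - c)`, so `cl (a - b') = cl (a - b) + cl (1 - u)` (`cl_congr`, `N ≥ v (a - b) + E + 1`); compare `rel' a b'` and `rel' a b`.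
* `gd_val`: `smooth` with `i = 1` and `du` (`i = 1`), `W_E`: `f a = f b + x • η` for `v (a - b) = m - 1`; if `a - b ∈ D m`, `f a = f b` and `x = 0`.  By `ncst` there is `a` with `f a ≠ f b`, `a - b ∈ D (m - 1)`, so `v (a - b) = m - 1`
  and `x ≠ 0`; `rel' a b`: `h (x • η) (cl (a - b) - f b) = x * (v (a - b) - val (f b)) = 0`.
* `near`: the net point near `b + t (c - b)`; everything is `cl_congr`.
* `Cst_mono`, `Cst_center`: clear.
* `radius_unique`: `Cst_mono`.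
-/

set_option autoImplicit false

namespace WNT

universe u w

namespace Nt

variable {F : Type u} {V : Type w} [Field F] [AddCommGroup V] {p : ℕ} [Module (ZMod p) V]
  {S : SS F V p} (T : Nt S)

theorem rel' {a b : F} (ha : a ∈ T.A) (hb : b ∈ T.A) (hab : a ≠ b) :
    S.h (T.f a - T.f b) (S.cl (a - b) - T.f b) = 0 := by
  have h1 := T.rel a ha b hb hab
  have hba : S.cl (b - a) = S.cl (-1) + S.cl (a - b) := by
    rw [← neg_sub, S.cl_neg _ (sub_ne_zero.2 hab)]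
  have h2 := S.self (T.f b - S.cl (a - b))
  have h3 := S.anti (S.cl (-1)) (T.f b - S.cl (a - b))
  obtain ⟨Y, hY⟩ : ∃ Y, Y = T.f b - S.cl (a - b) := ⟨_, rfl⟩
  have e1 : T.f a - T.f b = (T.f a - S.cl (b - a)) - Y + S.cl (-1) := by
    rw [hY, hba]
    abel
  have e2 : S.cl (a - b) - T.f b = -Y := by
    rw [hY]
    abel
  rw [← hY] at h1 h2 h3
  rw [e1, e2, map_neg, map_add, map_sub S.h, LinearMap.add_apply, LinearMap.sub_apply, h1, h2, h3]
  ring

variable {T}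

theorem Cst_mono {b : F} {m m' : ℤ} (h : T.Cst b m) (hm : m ≤ m') : T.Cst b m' := by
  intro a ha a' ha' h1 h2
  exact h a ha a' ha' (S.D_mono hm h1) (S.D_mono hm h2)

theorem Cst_center {b c : F} {m : ℤ} (hbc : b - c ∈ S.D m) (h : T.Cst b m) : T.Cst c m := by
  intro a ha a' ha' h1 h2
  have e1 : ∀ y : F, y - c ∈ S.D m → y - b ∈ S.D m := by
    intro y hy
    have h3 := (S.D m).sub_mem hy hbc
    have e : y - c - (b - c) = y - b := by ring
    rwa [e] at h3
  exact h a ha a' ha' (e1 a h1) (e1 a' h2)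

theorem radius_unique {b : F} {m m' : ℤ} (h1 : T.Cst b m) (h2 : ¬ T.Cst b (m - 1))
    (h3 : T.Cst b m') (h4 : ¬ T.Cst b (m' - 1)) : m = m' := by
  rcases lt_trichotomy m m' with h | h | h
  · exact absurd (Cst_mono h1 (by omega)) h4
  · exact h
  · exact absurd (Cst_mono h3 (by omega)) h2

/-- the net contains a good approximation of `b + t (c - b)` -/
theorem near {b c t : F} {k : ℤ} (hb : b ∈ S.D (-(2 * S.E))) (hcb : c - b ≠ 0) (ht : t ∈ S.D k)
    (hlo : -(2 * S.E) ≤ k + S.v (c - b)) (hhi : S.v (c - b) + S.E + 1 ≤ T.N) :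
    ∃ a ∈ T.A, a - (b + t * (c - b)) ∈ S.D T.N ∧
      (a - b) / (c - b) - t ∈ S.D (S.E + 1) := by
  have h1 : t * (c - b) ∈ S.D (k + S.v (c - b)) := S.D_mul ht (Or.inr le_rfl)
  have h2 : b + t * (c - b) ∈ S.D (-(2 * S.E)) := (S.D _).add_mem hb (S.D_mono hlo h1)
  obtain ⟨a, ha, ha2⟩ := T.net _ h2
  refine ⟨a, ha, ha2, ?_⟩
  have e1 : (a - b) / (c - b) - t = (a - (b + t * (c - b))) / (c - b) := by
    field_simp
    ring
  rw [e1]
  exact S.D_div' ha2 hcb rfl (by omega)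

theorem smooth {b a : F} {m i : ℤ} (hb : b ∈ T.A) (hbD : b ∈ S.D (-(2 * S.E)))
    (hm : -(2 * S.E) ≤ m) (hi : 1 ≤ i) (hN : m - i + S.E + 1 ≤ T.N) (hc : T.Cst b m) (ha : a ∈ T.A)
    (hab : a - b ≠ 0) (hv : S.v (a - b) = m - i) :
    ∀ u ∈ S.D i, S.h (T.f a - T.f b) (S.cl (1 - u)) = 0 := by
  intro u hu
  by_cases hiE : S.E + 1 ≤ i
  · have h1 : S.cl (1 - u) = 0 := S.cl_big u (by
      rcases hu with hu | hu
      · exact Or.inl hu
      · exact Or.inr (by omega))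
    rw [h1, map_zero]
  have h1 : u * (a - b) ∈ S.D m := S.D_mul' hu (Or.inr hv.ge : a - b ∈ S.D (m - i)) (by omega)
  have h2 : b + u * (a - b) ∈ S.D (-(2 * S.E)) := (S.D _).add_mem hbD (S.D_mono hm h1)
  obtain ⟨b', hb', hb2⟩ := T.net _ h2
  have h3 : b' - b ∈ S.D m := by
    have h4 := (S.D m).add_mem (S.D_mono (by omega) hb2) h1
    have e : b' - (b + u * (a - b)) + u * (a - b) = b' - b := by ring
    rwa [e] at h4
  have h5 : T.f b' = T.f b := hc b' hb' b hb h3 (by rw [sub_self]; exact (S.D m).zero_mem)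
  have hu1 := S.v_one_sub (S.D_mono hi hu)
  have hx : (a - b) * (1 - u) ≠ 0 := mul_ne_zero hab hu1.1
  have hvx : S.v ((a - b) * (1 - u)) = m - i := by
    rw [S.v_mul _ _ hab hu1.1, hv, hu1.2, add_zero]
  have h6 := S.cl_congr (y := a - b') hx (by
    rw [hvx]
    have h7 := (S.D T.N).neg_mem hb2
    have e : -(b' - (b + u * (a - b))) = a - b' - (a - b) * (1 - u) := by ring
    rw [e] at h7
    exact S.D_mono hN h7)
  have h7 : a ≠ b' := sub_ne_zero.1 h6.1
  have h8 := T.rel' ha hb' h7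
  have h9 := T.rel' ha hb (sub_ne_zero.1 hab)
  rw [h5, h6.2.2, S.cl_mul _ _ hab hu1.1] at h8
  have e1 : S.cl (a - b) + S.cl (1 - u) - T.f b = (S.cl (a - b) - T.f b) + S.cl (1 - u) := by abel
  rw [e1, map_add, h9, zero_add] at h8
  exact h8

theorem gd_val {b : F} {m : ℤ} (h : T.Gd b m) :
    S.val (T.f b) = ((m - 1 : ℤ) : ZMod p) ∧
    (∀ a ∈ T.A, a - b ∈ S.D (m - 1) → ∃ x : ZMod p, T.f a = T.f b + x • S.η) ∧
    (∀ a ∈ T.A, a - b ∈ S.D m → T.f a = T.f b) ∧
    ∃ a ∈ T.A, a - b ∈ S.D (m - 1) ∧ T.f a ≠ T.f b := by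
  have hE := S.E_pos
  have hlo := h.lo
  have hhi := h.hi
  have hbb : ∀ k : ℤ, b - b ∈ S.D k := fun k => by rw [sub_self]; exact (S.D k).zero_mem
  have h3 : ∀ a ∈ T.A, a - b ∈ S.D m → T.f a = T.f b :=
    fun a ha hab => h.cst a ha b h.bA hab (hbb m)
  have h4 : ∃ a ∈ T.A, a - b ∈ S.D (m - 1) ∧ T.f a ≠ T.f b := by
    by_contra h5
    push Not at h5
    apply h.ncst
    intro a ha a' ha' h6 h7
    rw [h5 a ha h6, h5 a' ha' h7]
  have h2 : ∀ a ∈ T.A, a - b ∈ S.D (m - 1) → ∃ x : ZMod p, T.f a = T.f b + x • S.η := by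
    intro a ha hab
    by_cases hm : a - b ∈ S.D m
    · exact ⟨0, by rw [h3 a ha hm, zero_smul, add_zero]⟩
    · have hne := S.ne_of_not_mem hm
      have hv : S.v (a - b) = m - 1 := S.v_eq_of hab (by
        rw [sub_add_cancel]
        exact hm)
      have h5 := smooth (i := 1) h.bA h.bD (by omega) le_rfl (by omega) h.cst ha hne hv
      have h6 := S.du le_rfl (by omega) h5
      rw [add_sub_cancel_right] at h6
      obtain ⟨x, hx⟩ := S.W_E h6
      exact ⟨x, by rw [← hx]; abel⟩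
  refine ⟨?_, h2, h3, h4⟩
  obtain ⟨a, ha, hab, hne⟩ := h4
  have hm : a - b ∉ S.D m := fun h5 => hne (h3 a ha h5)
  have hne0 := S.ne_of_not_mem hm
  have hv : S.v (a - b) = m - 1 := S.v_eq_of hab (by
    rw [sub_add_cancel]
    exact hm)
  obtain ⟨x, hx⟩ := h2 a ha hab
  have hx0 : x ≠ 0 := by
    rintro rfl
    rw [zero_smul, add_zero] at hx
    exact hne hx
  have h5 := T.rel' ha h.bA (sub_ne_zero.1 hne0)
  have e1 : T.f a - T.f b = x • S.η := by rw [hx]; abel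
  rw [e1, map_smul, LinearMap.smul_apply, smul_eq_mul] at h5
  have : Fact p.Prime := ⟨S.prime⟩
  rcases mul_eq_zero.1 h5 with h6 | h6
  · exact absurd h6 hx0
  · have h7 : S.val (S.cl (a - b)) - S.val (T.f b) = 0 := by
      rw [← map_sub]
      exact h6
    rw [S.val_cl _ hne0, hv] at h7
    exact (sub_eq_zero.1 h7).symm

end Nt

end WNT
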