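import Pool.Agent.WNT.Net

/-!
# WNT / Om: `κ` and `ω`

PROOF of `kap`.  `κ = f b - cl (z - b)`.  For `r ∈ D (E + 1 - j)` the point `b + r (z - b)` lies in `b + D (m - j)` (`v (z - b) = m - 1 - E`); `near` (with `z` in place of `c`; `k = E + 1 - j`; `m - j ≥ m - E ≥ -2E`; `v (z - b) + E + 1 = m ≤ N`) gives
`a ∈ A` with `(a - b) / (z - b) - r ∈ D (E + 1)`, so `a - b ∈ D (m - j)` and `f a = f b + cl (1 - r)` (`Hj.rep`, `cl_congr`).  For `r ≠ 0` with `v r ≤ E`: `a ≠ b`, `cl (a - b) = cl r + cl (z - b)` (`cl_congr`?  only if `v r = 0`; in general use `r' = (a - b) / (z - b)`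
exactly: `cl (1 - r') = cl (1 - r)`, `cl (a - b) = cl r' + cl (z - b)`); `rel' a b`: `h (cl (1 - r')) (cl r' + cl (z - b) - f b) = 0`, i.e. (`S.stein`: `h (cl r') (cl (1 - r')) = 0` and antisymmetry) `h (cl (1 - r')) κ = 0`.  So `κ` is
orthogonal to all `cl (1 - r)`, `r ∈ D (E + 1 - j)` (trivial for `r ∈ D (E+1)`), and `du` with `i = E + 1 - j` gives `κ ∈ W j`.

PROOF of `om`.  Let `c ∈ A`, `c - b ∈ D (m - j - 1)`.  If `c - b ∈ D (m - j)`: `x c = 0` by `Hj.rep`.  Otherwise `v (c - b) = m - j - 1`, `s = (c - b) / (z - b)`, `v s = E - j ≥ 1`, `ω = f c - f b - cl (1 - s)`.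
For `t ∈ D 1` take `a ∈ A` by `near` (`k = 1`), `t' = (a - b) / (c - b)`, `t' - t ∈ D (E + 1)`; `a - b ∈ D (m - j)`, so `f a = f b + cl (1 - s t')` (`(a - b) / (z - b) = s t'`).  `rel' c a` with `cl (c - a) = cl (c - b) + cl (1 - t')`, `cl (c - b) = cl s + cl (z - b)`,
`f b = cl (z - b) + κ`: `h (cl (1 - s) + ω - cl (1 - s t')) (cl s + cl (1 - t') - κ - cl (1 - s t')) = 0`; subtract `stein3`: `h ω (cl s + cl (1 - t') - κ - cl (1 - s t')) - h (cl (1 - s) - cl (1 - s t')) κ = 0`; subtract the same for `t' = 0` (this is `rel' c b`):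
`h ω (cl (1 - t') - cl (1 - s t')) + h (cl (1 - s t')) κ = 0`.  `κ ∈ W j` (`kap`), `s t' ∈ D (E - j + 1)`: `orth` gives
  (1) `h ω (cl (1 - t)) = h ω (cl (1 - s t))` for all `t ∈ D 1` (`cl_congr` to replace `t'` by `t`).
CLAIM: `h ω (cl (1 - t)) = 0` for all `t ∈ D i`, `1 ≤ i ≤ E + 1`, by descending induction on `i`.  `i = E + 1`: `cl_big`.  `i = E`: `s t ∈ D (E + 1)`, so the right side of (1) is `0`.  `i ≤ E - 1`: by induction and `du` (with `i + 1`) `ω ∈ W (E - i)`, and `cl (1 - s t) ∈ W (E - j + i)`,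
`(E - i) + (E - j + i) = 2 E - j ≥ E + 1`: `orth`.  So `ω` is orthogonal to all `cl (1 - t)`, `t ∈ D 1`: `du`, `W_E`: `ω = x • η`.
-/

set_option autoImplicit false

namespace WNT

universe u w

namespace Nt

variable {F : Type u} {V : Type w} [Field F] [AddCommGroup V] {p : ℕ} [Module (ZMod p) V]
  {S : SS F V p} {T : Nt S}

private theorem om_aux {i : ℤ} (hi : 1 ≤ i) {r r' : F} (hr : r ∈ S.D i) (h : r' - r ∈ S.D (S.E + 1)) :
    S.cl (1 - r') = S.cl (1 - r) := by
  obtain ⟨h1, h2⟩ := S.v_one_sub (S.D_mono hi hr)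
  refine (S.cl_congr h1 (y := 1 - r') ?_).2.2
  rw [h2, zero_add]
  have h3 : 1 - r' - (1 - r) = -(r' - r) := by ring
  rw [h3]
  exact (S.D _).neg_mem h

theorem kap {b z : F} {m j : ℤ} (h : T.Gd b m) (h1 : 1 ≤ j) (hE : j ≤ S.E) (hz : T.Hj b m j z) :
    T.f b - S.cl (z - b) ∈ S.W j := by
  have hlo := h.lo
  have hhi := h.hi
  have hEp := S.E_pos
  have key : T.f b - S.cl (z - b) ∈ S.W (S.E + 1 - (S.E + 1 - j)) := by
    refine S.du (i := S.E + 1 - j) (by omega) (by omega) ?_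
    intro r hr
    have hv := hz.vz
    obtain ⟨a, ha, -, har⟩ := T.near (t := r) (k := S.E + 1 - j) h.bD hz.ne hr (by omega) (by omega)
    set r' := (a - b) / (z - b) with hr'
    have hr1 : r' ∈ S.D (S.E + 1 - j) := by
      have h2 : r' = r + (r' - r) := by ring
      rw [h2]
      exact (S.D _).add_mem hr (S.D_mono (by omega) har)
    rw [← om_aux (by omega) hr har]
    have hab : a - b = r' * (z - b) := by
      rw [hr', div_mul_cancel₀ _ hz.ne]
    by_cases h0 : r' = 0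
    · rw [h0, sub_zero, S.cl_one, map_zero]
    have hD : a - b ∈ S.D (m - j) := by
      rw [hab]
      exact S.D_mul' hr1 (S.mem_D.2 (Or.inr le_rfl)) (by omega)
    have hf := hz.rep a ha hD
    rw [← hr'] at hf
    have hne : a ≠ b := by
      intro h3
      apply h0
      rw [hr', h3, sub_self, zero_div]
    have hrel := T.rel' ha h.bA hne
    have hu : 1 - r' ≠ 0 := S.one_sub_ne (S.D_mono (by omega) hr1)
    rw [hf, hab, S.cl_mul _ _ h0 hz.ne, add_sub_cancel_left] at hrel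
    have hst := S.stein r' h0 hu
    have hst' : S.h (S.cl (1 - r')) (S.cl r') = 0 := by rw [S.anti, hst, neg_zero]
    have hk : S.h (S.cl (1 - r')) (T.f b - S.cl (z - b)) = 0 := by
      have h4 : S.cl r' + S.cl (z - b) - T.f b = S.cl r' - (T.f b - S.cl (z - b)) := by abel
      rw [h4, map_sub, hst', zero_sub, neg_eq_zero] at hrel
      exact hrel
    rw [S.anti, hk, neg_zero]
  have h5 : S.E + 1 - (S.E + 1 - j) = j := by ring
  rwa [h5] at key

private theorem om_c {b z : F} {m j : ℤ} (h : T.Gd b m) (h1 : 1 ≤ j) (hE : j ≤ S.E - 1)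
    (hz : T.Hj b m j z) {c : F} (hc : c ∈ T.A) (hcD : c - b ∈ S.D (m - j - 1))
    (hcn : c - b ∉ S.D (m - j)) :
    ∃ x : ZMod p, T.f c = T.f b + S.cl (1 - (c - b) / (z - b)) + x • S.η := by
  have hlo := h.lo
  have hhi := h.hi
  have hEp := S.E_pos
  have hzv := hz.vz
  have hcb : c - b ≠ 0 := S.ne_of_not_mem hcn
  have hvc : S.v (c - b) = m - j - 1 := by
    have h2 := S.v_lt_of_not_mem hcn
    have h3 := S.le_v hcD hcb
    omega
  set s := (c - b) / (z - b) with hs
  have hs0 : s ≠ 0 := div_ne_zero hcb hz.ne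
  have hvs : S.v s = S.E - j := by
    rw [hs, S.v_div _ _ hcb hz.ne, hvc, hzv]
    ring
  have hsD : s ∈ S.D (S.E - j) := Or.inr hvs.ge
  have hs1 : 1 - s ≠ 0 := S.one_sub_ne (S.D_mono (by omega) hsD)
  have hcs : c - b = s * (z - b) := by rw [hs, div_mul_cancel₀ _ hz.ne]
  set κ := T.f b - S.cl (z - b) with hκ
  have hκW : κ ∈ S.W j := kap h h1 (by omega) hz
  set ω := T.f c - T.f b - S.cl (1 - s) with hω
  have hfc : T.f c = T.f b + S.cl (1 - s) + ω := by rw [hω]; abel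
  have hfb : T.f b = S.cl (z - b) + κ := by rw [hκ]; abel
  -- the relation at `b`
  have hss : S.h (S.cl (1 - s)) (S.cl s) = 0 := by
    rw [S.anti, S.stein s hs0 hs1, neg_zero]
  have hb0 : S.h ω (S.cl s - κ) - S.h (S.cl (1 - s)) κ = 0 := by
    have hne : c ≠ b := sub_ne_zero.1 hcb
    have hr := T.rel' hc h.bA hne
    have e1 : T.f c - T.f b = ω + S.cl (1 - s) := by rw [hfc]; abel
    have e2 : S.cl (c - b) - T.f b = S.cl s - κ := by
      rw [hcs, S.cl_mul _ _ hs0 hz.ne, hfb]; abel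
    rw [e1, e2, map_add, LinearMap.add_apply] at hr
    have e3 : S.h (S.cl (1 - s)) (S.cl s - κ) = - S.h (S.cl (1 - s)) κ := by
      rw [map_sub, hss, zero_sub]
    rw [e3] at hr
    linear_combination hr
  have one : ∀ t ∈ S.D 1, S.h ω (S.cl (1 - t)) = S.h ω (S.cl (1 - s * t)) := by
    intro t ht
    obtain ⟨a, ha, -, hat⟩ := T.near (c := c) (t := t) (k := 1) h.bD hcb ht (by omega) (by omega)
    set t' := (a - b) / (c - b) with ht'
    have ht1 : t' ∈ S.D 1 := by
      have h2 : t' = t + (t' - t) := by ring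
      rw [h2]
      exact (S.D _).add_mem ht (S.D_mono (by omega) hat)
    have hab : a - b = t' * (c - b) := by rw [ht', div_mul_cancel₀ _ hcb]
    have habD : a - b ∈ S.D (m - j) := by
      rw [hab]
      exact S.D_mul' ht1 hcD (by omega)
    have hfa := hz.rep a ha habD
    have hst : (a - b) / (z - b) = s * t' := by
      rw [hab, hs]
      ring
    rw [hst] at hfa
    have hstD : s * t' ∈ S.D (S.E - j + 1) := S.D_mul hsD ht1
    have hu : 1 - t' ≠ 0 := S.one_sub_ne ht1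
    have hw : 1 - s * t' ≠ 0 := S.one_sub_ne (S.D_mono (by omega) hstD)
    have hca : c - a = (c - b) * (1 - t') := by
      have h2 : c - a = (c - b) - (a - b) := by ring
      rw [h2, hab]
      ring
    have hne : c ≠ a := by
      rw [← sub_ne_zero, hca]
      exact mul_ne_zero hcb hu
    have hr := T.rel' hc ha hne
    have e1 : T.f c - T.f a = ω + (S.cl (1 - s) - S.cl (1 - s * t')) := by rw [hfc, hfa]; abel
    have e2 : S.cl (c - a) - T.f a = (S.cl s + S.cl (1 - t') - S.cl (1 - s * t')) - κ := by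
      rw [hca, S.cl_mul _ _ hcb hu, hcs, S.cl_mul _ _ hs0 hz.ne, hfa, hfb]; abel
    rw [e1, e2, map_add, LinearMap.add_apply, map_sub, map_sub _ _ κ] at hr
    have h3 := S.stein3 hs0 hs1 hu hw
    rw [h3] at hr
    have e4 : S.h (S.cl (1 - s) - S.cl (1 - s * t')) κ =
        S.h (S.cl (1 - s)) κ - S.h (S.cl (1 - s * t')) κ := by
      rw [map_sub S.h, LinearMap.sub_apply]
    rw [e4] at hr
    have h5 : S.h (S.cl (1 - s * t')) κ = 0 :=
      S.orth (i := S.E - j + 1) (j := j) (by omega) h1 (by omega) (S.cl_mem_W hstD) hκW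
    rw [h5] at hr
    rw [map_sub] at hb0
    have e6 : S.h ω (S.cl s + S.cl (1 - t') - S.cl (1 - s * t')) =
        S.h ω (S.cl s) + S.h ω (S.cl (1 - t')) - S.h ω (S.cl (1 - s * t')) := by
      rw [map_sub, map_add]
    rw [e6] at hr
    have h7 : S.h ω (S.cl (1 - t')) = S.h ω (S.cl (1 - s * t')) := by
      linear_combination hr - hb0
    rw [om_aux le_rfl ht hat] at h7
    have hst2 : s * t' - s * t ∈ S.D (S.E + 1) := by
      rw [← mul_sub]
      exact S.D_mul' hsD hat (by omega)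
    have h8 : s * t ∈ S.D (S.E - j + 1) := S.D_mul hsD ht
    rw [om_aux (i := S.E - j + 1) (by omega) h8 hst2] at h7
    exact h7
  have claim : ∀ n : ℕ, 1 ≤ S.E + 1 - n → ∀ t ∈ S.D (S.E + 1 - n), S.h ω (S.cl (1 - t)) = 0 := by
    intro n
    induction n with
    | zero =>
      intro _ t ht
      rw [Nat.cast_zero, sub_zero] at ht
      rw [S.cl_big t ht, map_zero]
    | succ n ih =>
      intro hn t ht
      push_cast at hn ht
      rw [one t (S.D_mono (by omega) ht)]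
      have hstD : s * t ∈ S.D (S.E - j + (S.E + 1 - (n + 1))) := S.D_mul hsD ht
      rcases Nat.eq_zero_or_pos n with hn0 | hn0
      · subst hn0
        have h2 : s * t ∈ S.D (S.E + 1) := by
          refine S.D_mono ?_ hstD
          push_cast
          omega
        rw [S.cl_big _ h2, map_zero]
      · have h2 : ω ∈ S.W (S.E + 1 - (S.E + 1 - n)) :=
          S.du (i := S.E + 1 - n) (by omega) (by omega) (ih (by omega))
        exact S.orth (by omega) (by omega) (by omega) h2 (S.cl_mem_W hstD)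
  have hW : ω ∈ S.W (S.E + 1 - 1) := by
    refine S.du (i := 1) le_rfl (by omega) ?_
    intro u hu
    refine claim S.E.toNat ?_ u ?_
    · omega
    · have : S.E + 1 - (S.E.toNat : ℤ) = 1 := by omega
      rw [this]
      exact hu
  rw [add_sub_cancel_right] at hW
  obtain ⟨x, hx⟩ := S.W_E hW
  exact ⟨x, by rw [hfc, hx]⟩

theorem om {b z : F} {m j : ℤ} (h : T.Gd b m) (h1 : 1 ≤ j) (hE : j ≤ S.E - 1)
    (hz : T.Hj b m j z) :
    ∃ x : F → ZMod p, (∀ c ∈ T.A, c - b ∈ S.D (m - j - 1) →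
      T.f c = T.f b + S.cl (1 - (c - b) / (z - b)) + x c • S.η) ∧
      ∀ c ∈ T.A, c - b ∈ S.D (m - j) → x c = 0 := by
  classical
  refine ⟨fun c => if hc : c ∈ T.A ∧ c - b ∈ S.D (m - j - 1) ∧ c - b ∉ S.D (m - j) then
    (om_c h h1 hE hz hc.1 hc.2.1 hc.2.2).choose else 0, ?_, ?_⟩
  · intro c hc hcD
    beta_reduce
    by_cases hcn : c - b ∈ S.D (m - j)
    · rw [dif_neg (fun h2 => h2.2.2 hcn), zero_smul, add_zero]
      exact hz.rep c hc hcn
    · have h2 : c ∈ T.A ∧ c - b ∈ S.D (m - j - 1) ∧ c - b ∉ S.D (m - j) := ⟨hc, hcD, hcn⟩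
      rw [dif_pos h2]
      exact (om_c h h1 hE hz h2.1 h2.2.1 h2.2.2).choose_spec
  · intro c hc hcD
    exact dif_neg (fun h2 => h2.2.2 hcD)

end Nt

end WNT
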