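import Pool.Agent.WNT.Mob

/-!
# WNT / Pn: projective nets

`PN S A N`: the map from `A ∪ {∞}` to the projective line over `O / π ^ N` is onto and two to one, and the two points in a class are different modulo `π ^ (N + 1)`.  `Ln S A N`: what is used near the integral points.

PROOFS.
* `PN.bdd`: `a ∉ D 0`: `a⁻¹ ∈ D 1`; if `a⁻¹ ∈ D N` then `a = b0` (`top`) and `v a = - N`; otherwise `v a > - N`.
* `PN.net`: `c ∈ D (- 2 E)`.  If `c ∈ D 0`: `zero`.  Otherwise `v c = - j`, `1 ≤ j ≤ 2 E < N`, `y = c⁻¹ ∈ D 1`, `∉ D N`, `inf`: `b0⁻¹ - y ∈ D N`, so `v (b0⁻¹) = v y = j` and `b0 - c = - b0 c (b0⁻¹ - c⁻¹) ∈ D (N - 2 j)`.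
* `PN.ln`: `pair` is `zero`.  `full`: `y ∈ D 0`, `c ≠ 0`, `1 - E ≤ v c ≤ N - 1`.  If `v c ≥ 0`: `y + c ∈ D 0`, `zero`, `N ≥ v c + 1`.  If `v c = - j < 0`: `v (y + c) = - j`, as in `net` for `y + c` (`j ≤ E - 1`): `a - (y + c) ∈ D (N - 2 j)`, `N - 2 j ≥ - j + 1`.
* `PN.inv`: `c ∈ A`, `c ∈ D 0`, `A' = invA A c`.
  `pair`: `y ∈ D 0`.  (i) `y ∈ D N`: `b0' = 0`, `b1' = (b0 - c)⁻¹` for the `b0` of `top` (`v b0 = - N`, so `v (b0 - c) = - N`, `v b1' = N`).  If `x ∈ A'`, `x - y ∈ D N`, then `x ∈ D N`; if `x ≠ 0`: `a = c + x⁻¹ ∈ A`, `v a = v (x⁻¹) ≤ - N`, `a⁻¹ ∈ D N`, `a = b0`, `x = b1'`.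
  (ii) `y ∈ D 1`, `y ∉ D N`: `v y = j`, `1 ≤ j < N`; `t = c + y⁻¹`, `v t = - j`; `inf` for `t⁻¹` (`v = j`) gives `b0`, `b1`; `b_i' = (b_i - c)⁻¹`.  For `a` with `v a = - j`: `(a - c)⁻¹ - y = (t - a) / ((a - c) (t - c))` has the valuation `v (t - a) + 2 j = v (a⁻¹ - t⁻¹)`; the same for `b0' - b1'` and `b0⁻¹ - b1⁻¹`.  If `x ∈ A'`, `x - y ∈ D N`: `v x = j`, `a = c + x⁻¹`, `v a = - j`, `a⁻¹ - t⁻¹ ∈ D N`.
  (iii) `v y = 0`: `t = c + y⁻¹ ∈ D 0`, `v (t - c) = 0`; `zero` for `t` gives `b0`, `b1`, `v (b_i - c) = 0`, `b_i' = (b_i - c)⁻¹`; `(a - c)⁻¹ - y = (t - a) / ((a - c) (t - c))` has the valuation `v (t - a)`.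
  `full`: `y ∈ D 0`, `d ≠ 0`, `1 - E ≤ v d ≤ N - 1`.  If `v d ≥ 0`: `pair` for `y + d`.  If `v d = - j < 0`: `v (y + d) = - j`, `t = c + (y + d)⁻¹ ∈ D 0`, `v (t - c) = j ≤ E - 1 < N`; `zero` for `t` gives `a` with `a - t ∈ D N`, `v (a - c) = j`, `x = (a - c)⁻¹`, `x - (y + d) = (t - a) / ((a - c) (t - c)) ∈ D (N - 2 j)`, `N - 2 j ≥ - j + 1`.
-/

set_option autoImplicit false

namespace WNT

universe u w

variable {F : Type u} {V : Type w} [Field F] [AddCommGroup V] {p : ℕ} [Module (ZMod p) V]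

/-- a projective net, see the header -/
structure PN (S : SS F V p) (A : Set F) (N : ℤ) : Prop where
  zero : ∀ y ∈ S.D 0, ∃ b₀ ∈ A, ∃ b₁ ∈ A, b₀ - y ∈ S.D N ∧ b₁ - y ∈ S.D N ∧
    b₀ - b₁ ∉ S.D (N + 1) ∧ ∀ a ∈ A, a - y ∈ S.D N → a = b₀ ∨ a = b₁
  inf : ∀ y ∈ S.D 1, y ∉ S.D N → ∃ b₀ ∈ A, ∃ b₁ ∈ A, b₀ ≠ 0 ∧ b₁ ≠ 0 ∧ b₀⁻¹ - y ∈ S.D N ∧
    b₁⁻¹ - y ∈ S.D N ∧ b₀⁻¹ - b₁⁻¹ ∉ S.D (N + 1) ∧
    ∀ a ∈ A, a ≠ 0 → a⁻¹ - y ∈ S.D N → a = b₀ ∨ a = b₁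
  top : ∃ b₀ ∈ A, b₀ ≠ 0 ∧ b₀⁻¹ ∈ S.D N ∧ b₀⁻¹ ∉ S.D (N + 1) ∧
    ∀ a ∈ A, a ≠ 0 → a⁻¹ ∈ S.D N → a = b₀

/-- the properties of a net near the integral points -/
structure Ln (S : SS F V p) (A : Set F) (N : ℤ) : Prop where
  pair : ∀ y ∈ S.D 0, ∃ b₀ ∈ A, ∃ b₁ ∈ A, b₀ - y ∈ S.D N ∧ b₁ - y ∈ S.D N ∧
    b₀ - b₁ ∉ S.D (N + 1) ∧ ∀ a ∈ A, a - y ∈ S.D N → a = b₀ ∨ a = b₁
  full : ∀ y ∈ S.D 0, Fu S A y (1 - S.E) (N - 1)

variable {S : SS F V p} {A : Set F} {N : ℤ}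

/-! ## helpers -/

private theorem pn_shift (S : SS F V p) {x y : F} (hx : x ≠ 0) (h : y - x ∈ S.D (S.v x + 1)) :
    y ≠ 0 ∧ S.v y = S.v x := by
  have h1 := S.v_add_eq hx h
  rwa [add_sub_cancel] at h1

private theorem pn_unit (S : SS F V p) {x w : F} {M : ℤ} (hw : w ≠ 0) (hv : S.v w = 0) :
    x * w ∈ S.D M ↔ x ∈ S.D M := by
  by_cases hx : x = 0
  · rw [hx, zero_mul]
  rw [S.mem_D_of_ne (mul_ne_zero hx hw), S.mem_D_of_ne hx, S.v_mul _ _ hx hw, hv, add_zero]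

private theorem pn_inv_diff {a t c : F} (ha : a - c ≠ 0) (ht : t - c ≠ 0) :
    (a - c)⁻¹ - (t - c)⁻¹ = (t - a) / ((a - c) * (t - c)) := by
  field_simp
  ring

private theorem pn_mem_inv {a c : F} (ha : a ∈ A) (hac : a - c ≠ 0) : (a - c)⁻¹ ∈ invA A c :=
  Or.inr ⟨inv_ne_zero hac, by rw [inv_inv, add_sub_cancel]; exact ha⟩

private theorem pn_neg (S : SS F V p) {x : F} {M : ℤ} : -x ∈ S.D M ↔ x ∈ S.D M := by
  constructor
  · intro h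
    have := (S.D M).neg_mem h
    rwa [neg_neg] at this
  · exact fun h => (S.D M).neg_mem h

private theorem pn_far (h : PN S A N) {c : F} (hc0 : c ≠ 0) (h1 : S.v c ≤ -1)
    (h2 : - S.v c < N) : ∃ a ∈ A, a - c ∈ S.D (N + 2 * S.v c) := by
  have hv : S.v c⁻¹ = - S.v c := S.v_inv c hc0
  have hci : c⁻¹ ≠ 0 := inv_ne_zero hc0
  have h3 : c⁻¹ ∈ S.D 1 := Or.inr (by omega)
  have h4 : c⁻¹ ∉ S.D N := by
    rw [S.mem_D_of_ne hci]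
    omega
  obtain ⟨b, hb, -, -, hb0, -, hbc, -⟩ := h.inf c⁻¹ h3 h4
  have h5 := pn_shift S hci (S.D_mono (by omega) hbc)
  have h6 : S.v b = S.v c := by
    have h7 := S.v_inv b hb0
    omega
  refine ⟨b, hb, ?_⟩
  have e : b - c = b * c * -(b⁻¹ - c⁻¹) := by
    field_simp
    ring
  rw [e]
  have h8 : b * c ∈ S.D (2 * S.v c) := by
    right
    rw [S.v_mul _ _ hb0 hc0]
    omega
  exact S.D_mul' h8 ((S.D N).neg_mem hbc) (by omega)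

theorem PN.bdd (h : PN S A N) (hN : 1 ≤ N) : ∀ a ∈ A, a ∈ S.D (-N) := by
  intro a ha
  by_cases h0 : a ∈ S.D 0
  · exact S.D_mono (by omega) h0
  have h1 := S.ne_of_not_mem h0
  have h3 := S.v_inv a h1
  right
  by_cases h4 : a⁻¹ ∈ S.D N
  · obtain ⟨b, hb, hb0, h5, h6, h7⟩ := h.top
    have h8 := h7 a ha h1 h4
    rw [← h8] at h6
    have h9 := S.v_lt_of_not_mem h6
    omega
  · have h5 := S.v_lt_of_not_mem h4
    omega

theorem PN.net (h : PN S A N) (hN : 4 * S.E < N) :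
    ∀ c ∈ S.D (-(2 * S.E)), ∃ a ∈ A, a - c ∈ S.D (N - 4 * S.E) := by
  intro c hc
  have hE := S.E_pos
  by_cases h0 : c ∈ S.D 0
  · obtain ⟨b, hb, -, -, h1, -⟩ := h.zero c h0
    exact ⟨b, hb, S.D_mono (by omega) h1⟩
  have h1 := S.ne_of_not_mem h0
  have h2 := S.v_lt_of_not_mem h0
  have h3 := S.le_v hc h1
  obtain ⟨a, ha, hac⟩ := pn_far h h1 (by omega) (by omega)
  exact ⟨a, ha, S.D_mono (by omega) hac⟩

theorem PN.ln (h : PN S A N) (hN : 4 * S.E < N) : Ln S A N := by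
  refine ⟨h.zero, ?_⟩
  intro y hy c hc h1 h2
  have hE := S.E_pos
  by_cases h3 : 0 ≤ S.v c
  · obtain ⟨b, hb, -, -, h4, -⟩ := h.zero (y + c) ((S.D 0).add_mem hy (Or.inr h3))
    exact ⟨b, hb, S.D_mono (by omega) h4⟩
  · have h4 : y + c ≠ 0 ∧ S.v (y + c) = S.v c := pn_shift S hc (by
      rw [add_sub_cancel_right]
      exact S.D_mono (by omega) hy)
    obtain ⟨a, ha, hac⟩ := pn_far h h4.1 (by omega) (by omega)
    exact ⟨a, ha, S.D_mono (by omega) hac⟩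

private theorem pn_pair1 (h : PN S A N) (hN : 1 ≤ N) {c : F} (hc0 : c ∈ S.D 0)
    {y : F} (hy : y ∈ S.D N) : ∃ b₀ ∈ invA A c, ∃ b₁ ∈ invA A c, b₀ - y ∈ S.D N ∧
      b₁ - y ∈ S.D N ∧ b₀ - b₁ ∉ S.D (N + 1) ∧
      ∀ a ∈ invA A c, a - y ∈ S.D N → a = b₀ ∨ a = b₁ := by
  obtain ⟨b, hb, hb0, h1, h2, h3⟩ := h.top
  have h4 := S.v_eq_of h1 h2
  have h5 := S.v_inv b hb0
  have h6 : b - c ≠ 0 ∧ S.v (b - c) = S.v b := pn_shift S hb0 (by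
    have e : b - c - b = -c := by ring
    rw [e, pn_neg S]
    exact S.D_mono (by omega) hc0)
  have h7 := S.v_inv (b - c) h6.1
  have h8 : (b - c)⁻¹ ∈ S.D N := Or.inr (by omega)
  refine ⟨0, Or.inl rfl, (b - c)⁻¹, pn_mem_inv hb h6.1, ?_, (S.D N).sub_mem h8 hy, ?_, ?_⟩
  · exact (S.D N).sub_mem (S.D N).zero_mem hy
  · rw [zero_sub, pn_neg S, S.mem_D_of_ne (inv_ne_zero h6.1)]
    omega
  · rintro x hx hxy
    have hxN : x ∈ S.D N := by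
      have h9 := (S.D N).add_mem hxy hy
      rwa [sub_add_cancel] at h9
    rcases hx with hx | ⟨hx0, hxa⟩
    · exact Or.inl hx
    · right
      have h9 := S.v_inv x hx0
      have h10 := S.le_v hxN hx0
      have h11 : c + x⁻¹ ≠ 0 ∧ S.v (c + x⁻¹) = S.v x⁻¹ := pn_shift S (inv_ne_zero hx0) (by
        rw [add_sub_cancel_right]
        exact S.D_mono (by omega) hc0)
      have h12 := S.v_inv (c + x⁻¹) h11.1
      have h13 := h3 _ hxa h11.1 (Or.inr (by omega))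
      rw [← h13, add_sub_cancel_left, inv_inv]

private theorem pn_pair2 (h : PN S A N) {c : F} (hc0 : c ∈ S.D 0)
    {y : F} (hy : y ∈ S.D 1) (hyN : y ∉ S.D N) :
    ∃ b₀ ∈ invA A c, ∃ b₁ ∈ invA A c, b₀ - y ∈ S.D N ∧
      b₁ - y ∈ S.D N ∧ b₀ - b₁ ∉ S.D (N + 1) ∧
      ∀ a ∈ invA A c, a - y ∈ S.D N → a = b₀ ∨ a = b₁ := by
  have hy0 := S.ne_of_not_mem hyN
  have h1 := S.le_v hy hy0
  have h2 := S.v_lt_of_not_mem hyN
  have h3 := S.v_inv y hy0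
  obtain ⟨t, ht⟩ : ∃ t, t = c + y⁻¹ := ⟨_, rfl⟩
  have htc : t - c = y⁻¹ := by rw [ht]; ring
  have htc0 : t - c ≠ 0 := by rw [htc]; exact inv_ne_zero hy0
  have hyt : y = (t - c)⁻¹ := by rw [htc, inv_inv]
  have h4 : t ≠ 0 ∧ S.v t = S.v y⁻¹ := pn_shift S (inv_ne_zero hy0) (by
    rw [ht, add_sub_cancel_right]
    exact S.D_mono (by omega) hc0)
  have h5 := S.v_inv t h4.1
  have hti : t⁻¹ ≠ 0 := inv_ne_zero h4.1
  obtain ⟨b₀, hb₀, b₁, hb₁, n₀, n₁, d₀, d₁, d, hu⟩ := h.inf t⁻¹ (Or.inr (by omega)) (by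
    rw [S.mem_D_of_ne hti]
    omega)
  -- valuations
  have val : ∀ a : F, a ≠ 0 → a⁻¹ - t⁻¹ ∈ S.D N → S.v a = - S.v y := by
    intro a ha had
    have h6 := pn_shift S hti (S.D_mono (by omega) had)
    have h7 := S.v_inv a ha
    omega
  have valc : ∀ a : F, a ≠ 0 → S.v a = - S.v y → a - c ≠ 0 ∧ S.v (a - c) = - S.v y := by
    intro a ha had
    have h6 := pn_shift S (y := a - c) ha (by
      have e : a - c - a = -c := by ring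
      rw [e, pn_neg S]
      exact S.D_mono (by omega) hc0)
    exact ⟨h6.1, by omega⟩
  have key : ∀ a b : F, a ≠ 0 → b ≠ 0 → S.v a = - S.v y → S.v b = - S.v y → ∀ M : ℤ,
      ((a - c)⁻¹ - (b - c)⁻¹ ∈ S.D M ↔ a⁻¹ - b⁻¹ ∈ S.D M) := by
    intro a b ha hb va vb M
    obtain ⟨ha1, ha2⟩ := valc a ha va
    obtain ⟨hb1, hb2⟩ := valc b hb vb
    have e : (a - c)⁻¹ - (b - c)⁻¹ = (a⁻¹ - b⁻¹) * ((a * b) / ((a - c) * (b - c))) := by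
      rw [pn_inv_diff ha1 hb1]
      field_simp
    rw [e]
    refine pn_unit S (div_ne_zero (mul_ne_zero ha hb) (mul_ne_zero ha1 hb1)) ?_
    rw [S.v_div _ _ (mul_ne_zero ha hb) (mul_ne_zero ha1 hb1), S.v_mul _ _ ha hb,
      S.v_mul _ _ ha1 hb1]
    omega
  have v₀ := val b₀ n₀ d₀
  have v₁ := val b₁ n₁ d₁
  have vt : S.v t = - S.v y := by omega
  refine ⟨(b₀ - c)⁻¹, pn_mem_inv hb₀ (valc b₀ n₀ v₀).1, (b₁ - c)⁻¹,
    pn_mem_inv hb₁ (valc b₁ n₁ v₁).1, ?_, ?_, ?_, ?_⟩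
  · rw [hyt]; exact (key b₀ t n₀ h4.1 v₀ vt N).2 d₀
  · rw [hyt]; exact (key b₁ t n₁ h4.1 v₁ vt N).2 d₁
  · exact fun h6 => d ((key b₀ b₁ n₀ n₁ v₀ v₁ (N + 1)).1 h6)
  · intro x hx hxy
    have h6 := pn_shift S hy0 (S.D_mono (by omega) hxy)
    rcases hx with hx | ⟨hx0, hxa⟩
    · exact absurd hx h6.1
    · have h7 := S.v_inv x hx0
      have h8 : c + x⁻¹ ≠ 0 ∧ S.v (c + x⁻¹) = S.v x⁻¹ := pn_shift S (inv_ne_zero hx0) (by
        rw [add_sub_cancel_right]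
        exact S.D_mono (by omega) hc0)
      have hxx : x = (c + x⁻¹ - c)⁻¹ := by rw [add_sub_cancel_left, inv_inv]
      have h9 : (c + x⁻¹)⁻¹ - t⁻¹ ∈ S.D N := by
        refine (key _ t h8.1 h4.1 (by omega) vt N).1 ?_
        rw [← hxx, ← hyt]
        exact hxy
      rcases hu _ hxa h8.1 h9 with h10 | h10
      · left
        rw [← h10]; exact hxx
      · right
        rw [← h10]; exact hxx

private theorem pn_pair3 (h : PN S A N) (hN : 1 ≤ N) {c : F} (hc0 : c ∈ S.D 0)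
    {y : F} (hy : y ∈ S.D 0) (hy1 : y ∉ S.D 1) :
    ∃ b₀ ∈ invA A c, ∃ b₁ ∈ invA A c, b₀ - y ∈ S.D N ∧
      b₁ - y ∈ S.D N ∧ b₀ - b₁ ∉ S.D (N + 1) ∧
      ∀ a ∈ invA A c, a - y ∈ S.D N → a = b₀ ∨ a = b₁ := by
  have hy0 := S.ne_of_not_mem hy1
  have h1 := S.le_v hy hy0
  have h2 := S.v_lt_of_not_mem hy1
  have h3 := S.v_inv y hy0
  obtain ⟨t, ht⟩ : ∃ t, t = c + y⁻¹ := ⟨_, rfl⟩
  have htc : t - c = y⁻¹ := by rw [ht]; ring
  have htc0 : t - c ≠ 0 := by rw [htc]; exact inv_ne_zero hy0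
  have hvt : S.v (t - c) = 0 := by rw [htc]; omega
  have hyt : y = (t - c)⁻¹ := by rw [htc, inv_inv]
  have htD : t ∈ S.D 0 := by
    rw [ht]
    exact (S.D 0).add_mem hc0 (Or.inr (by omega))
  obtain ⟨b₀, hb₀, b₁, hb₁, d₀, d₁, d, hu⟩ := h.zero t htD
  have valc : ∀ a : F, a - t ∈ S.D N → a - c ≠ 0 ∧ S.v (a - c) = 0 := by
    intro a had
    have h6 := pn_shift S (y := a - c) htc0 (by
      have e : a - c - (t - c) = a - t := by ring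
      rw [e]
      exact S.D_mono (by omega) had)
    exact ⟨h6.1, by omega⟩
  have key : ∀ a b : F, a - c ≠ 0 → b - c ≠ 0 → S.v (a - c) = 0 → S.v (b - c) = 0 → ∀ M : ℤ,
      ((a - c)⁻¹ - (b - c)⁻¹ ∈ S.D M ↔ a - b ∈ S.D M) := by
    intro a b ha1 hb1 ha2 hb2 M
    have e : (a - c)⁻¹ - (b - c)⁻¹ = -((a - b) * ((a - c) * (b - c))⁻¹) := by
      rw [pn_inv_diff ha1 hb1]
      field_simp
      ring
    rw [e, pn_neg S]
    refine pn_unit S (inv_ne_zero (mul_ne_zero ha1 hb1)) ?_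
    rw [S.v_inv _ (mul_ne_zero ha1 hb1), S.v_mul _ _ ha1 hb1]
    omega
  obtain ⟨m₀, v₀⟩ := valc b₀ d₀
  obtain ⟨m₁, v₁⟩ := valc b₁ d₁
  refine ⟨(b₀ - c)⁻¹, pn_mem_inv hb₀ m₀, (b₁ - c)⁻¹, pn_mem_inv hb₁ m₁, ?_, ?_, ?_, ?_⟩
  · rw [hyt]; exact (key b₀ t m₀ htc0 v₀ hvt N).2 d₀
  · rw [hyt]; exact (key b₁ t m₁ htc0 v₁ hvt N).2 d₁
  · exact fun h6 => d ((key b₀ b₁ m₀ m₁ v₀ v₁ (N + 1)).1 h6)
  · intro x hx hxy
    have h6 := pn_shift S hy0 (S.D_mono (by omega) hxy)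
    rcases hx with hx | ⟨hx0, hxa⟩
    · exact absurd hx h6.1
    · have h7 := S.v_inv x hx0
      have e : c + x⁻¹ - c = x⁻¹ := by ring
      have hxx : x = (c + x⁻¹ - c)⁻¹ := by rw [e, inv_inv]
      have h8 : c + x⁻¹ - c ≠ 0 := by rw [e]; exact inv_ne_zero hx0
      have h9 : S.v (c + x⁻¹ - c) = 0 := by rw [e]; omega
      have h10 : (c + x⁻¹) - t ∈ S.D N := by
        refine (key _ t h8 htc0 h9 hvt N).1 ?_
        rw [← hxx, ← hyt]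
        exact hxy
      rcases hu _ hxa h10 with h11 | h11
      · left
        rw [← h11]; exact hxx
      · right
        rw [← h11]; exact hxx

theorem PN.inv (h : PN S A N) (hN : 4 * S.E < N) {c : F} (hc : c ∈ A) (hc0 : c ∈ S.D 0) :
    Ln S (invA A c) N := by
  have hE := S.E_pos
  have hpair : ∀ y ∈ S.D 0, ∃ b₀ ∈ invA A c, ∃ b₁ ∈ invA A c, b₀ - y ∈ S.D N ∧
      b₁ - y ∈ S.D N ∧ b₀ - b₁ ∉ S.D (N + 1) ∧
      ∀ a ∈ invA A c, a - y ∈ S.D N → a = b₀ ∨ a = b₁ := by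
    intro y hy
    by_cases h1 : y ∈ S.D 1
    · by_cases h2 : y ∈ S.D N
      · exact pn_pair1 h (by omega) hc0 h2
      · exact pn_pair2 h hc0 h1 h2
    · exact pn_pair3 h (by omega) hc0 hy h1
  refine ⟨hpair, ?_⟩
  intro y hy d hd h1 h2
  by_cases h3 : 0 ≤ S.v d
  · obtain ⟨b, hb, -, -, h4, -⟩ := hpair (y + d) ((S.D 0).add_mem hy (Or.inr h3))
    exact ⟨b, hb, S.D_mono (by omega) h4⟩
  · have h4 : y + d ≠ 0 ∧ S.v (y + d) = S.v d := pn_shift S hd (by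
      rw [add_sub_cancel_right]
      exact S.D_mono (by omega) hy)
    have h5 := S.v_inv (y + d) h4.1
    obtain ⟨t, ht⟩ : ∃ t, t = c + (y + d)⁻¹ := ⟨_, rfl⟩
    have htc : t - c = (y + d)⁻¹ := by rw [ht]; ring
    have htc0 : t - c ≠ 0 := by rw [htc]; exact inv_ne_zero h4.1
    have hvt : S.v (t - c) = - S.v d := by rw [htc]; omega
    have hyt : y + d = (t - c)⁻¹ := by rw [htc, inv_inv]
    have htD : t ∈ S.D 0 := by
      rw [ht]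
      exact (S.D 0).add_mem hc0 (Or.inr (by omega))
    obtain ⟨a, ha, -, -, d₀, -⟩ := h.zero t htD
    have h6 := pn_shift S (y := a - c) htc0 (by
      have e : a - c - (t - c) = a - t := by ring
      rw [e]
      exact S.D_mono (by omega) d₀)
    refine ⟨(a - c)⁻¹, pn_mem_inv ha h6.1, ?_⟩
    rw [hyt, pn_inv_diff h6.1 htc0]
    have h7 : t - a ∈ S.D N := by
      have h8 := (S.D N).neg_mem d₀
      rwa [neg_sub] at h8
    refine S.D_div' h7 (mul_ne_zero h6.1 htc0) (n := - S.v d - S.v d) ?_ (by omega)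
    rw [S.v_mul _ _ h6.1 htc0]
    omega

end WNT
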