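import Pool.Agent.WNT.NR
import Pool.Agent.Helper36.SecConv
import Pool.Agent.Helper36.SecThm
import Pool.Agent.Helper36.Superelliptic

/-!
# WNT / Rel: a section gives the norm relation

`x - a = da * ya ^ p`, `x - b = db * yb ^ p`; at the poles of `x` the valuation of `x` is divisible by `p ^ 2`.

PROOF.  `α = da / (b - a)`.  If `α = c ^ p` with `c : k` (`c ≠ 0`): `nr_of_pow`.  Otherwise let `ε : Ω` with `ε ^ p = α` (`ε` lies in the algebraic closure of `k` in `Ω`), `k' = k(ε)` (`IntermediateField.adjoin k {ε}`, finite dimensional, `[k' : k] = p`), `L = adjoin K k'`, `g = 1 - ε * ya ∈ L`, `g ≠ 0` because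
`∏ i < p, (1 - ζ ^ i ε ya) = 1 - α ya ^ p = 1 - (x - a) / (b - a) = (x - b) / (a - b) = (db / (a - b)) * yb ^ p ≠ 0`.
Divisor: let `v` be a place of `L` over `k`; `v` is trivial on the nonzero elements algebraic over `k` (`ε`, `1 - ζ ^ i`).  Its restriction to `K` (`Valuation.comap`) is a place of `K` (nontrivial because `L / K` is algebraic).
 If `v ya > 1`: `v g = v ya`; `v x = v (x - a) = v ya ^ p > 1` and by hypothesis `v x = v h ^ (p ^ 2)`, so `v ya = v h ^ p` (`pow_left_injective` in a linearly ordered group with zero).  If `v ya ≤ 1` and `v g = 1` take `h = 1`.  If `v g < 1`: for `0 < i < p`, `1 - ζ ^ i ε ya = (1 - ζ ^ i) + ζ ^ i g` has value `1`,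
 so `v g = v (∏ i, ..) = v (db / (a - b)) * v yb ^ p = v yb ^ p`.
`norm_obstruction_conj` (SecThm) for `I = Unit`, `n = p`, `e = 1`, `c = (db / (a - b))⁻¹`, `y = yb`: the conjugates of `g` under the `k`-embeddings `φ` of `k'` are `1 - φ(ε) ya` (the action of the section fixes `K`, and is `σ` on the algebraic elements), `φ(ε)` runs through the `ζ ^ i ε` (all `p` of them, `α` is not a `p`-th
power).  It gives `δ ∈ k'` and `u ≠ 0` with `c * N δ = u ^ p`, `N δ = (db / (a - b)) * u ^ p`, `δ = P(ε)`, `N δ = ∏ i < p, P (ζ ^ i ε)`; `nr_of_root`, `nr_scale`.  (Or use `norm_obstruction` with `Algebra.norm` if that is easier; but `[L : K] = p` is then needed.)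
-/

set_option autoImplicit false

namespace WNT

open Pool.Agent.Helper36

open Polynomial IntermediateField

private theorem rel_prod {R : Type*} [CommRing R] [IsDomain R] {p : ℕ} {ζ : R}
    (hζ : IsPrimitiveRoot ζ p) (hp : 0 < p) (z : R) :
    ∏ i ∈ Finset.range p, (1 - ζ ^ i * z) = 1 - z ^ p := by
  have h := congrArg (Polynomial.eval 1) (X_pow_sub_C_eq_prod hζ hp (rfl : z ^ p = z ^ p))
  rw [eval_sub, eval_pow, eval_X, eval_C, one_pow, eval_prod] at h
  rw [h]
  refine Finset.prod_congr rfl fun i _ => ?_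
  rw [eval_sub, eval_X, eval_C]

private theorem rel_min {k Ω : Type*} [Field k] [Field Ω] [Algebra k Ω] {p : ℕ} (hp : p.Prime)
    {α : k} (hα : ∀ c : k, c ^ p ≠ α) {ε : Ω} (hε : ε ^ p = algebraMap k Ω α) :
    X ^ p - C α = minpoly k ε := by
  refine minpoly.eq_of_irreducible_of_monic (X_pow_sub_C_irreducible_of_prime hp hα) ?_
    (monic_X_pow_sub_C α hp.ne_zero)
  rw [map_sub, map_pow, aeval_X, aeval_C, hε, sub_self]

private theorem rel_emb {k Ω : Type*} [Field k] [Field Ω] [Algebra k Ω] [CharZero k]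
    [IsAlgClosed Ω] {p : ℕ} (hp : p.Prime) {ζ α : k} (hζ : IsPrimitiveRoot ζ p)
    (hα : ∀ c : k, c ^ p ≠ α) {ε : Ω} (hε : ε ^ p = algebraMap k Ω α)
    (k' : IntermediateField k Ω) [FiniteDimensional k k'] (hk : k' = k⟮ε⟯) (e : k')
    (he : (e : Ω) = ε) {M : Type*} [CommMonoid M] (F : Ω → M) :
    ∏ φ : k' →ₐ[k] Ω, F (φ e) = ∏ i ∈ Finset.range p, F (algebraMap k Ω (ζ ^ i) * ε) := by
  classical
  have hint : IsIntegral k ε := by
    refine ⟨X ^ p - C α, monic_X_pow_sub_C α hp.ne_zero, ?_⟩
    rw [eval₂_sub, eval₂_pow, eval₂_X, eval₂_C, hε, sub_self]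
  have hε0 : ε ≠ 0 := by
    intro h0
    apply hα 0
    rw [h0, zero_pow hp.ne_zero] at hε
    rw [zero_pow hp.ne_zero]
    apply (algebraMap k Ω).injective
    rw [map_zero, hε]
  have hζ' : IsPrimitiveRoot (algebraMap k Ω ζ) p :=
    hζ.map_of_injective (algebraMap k Ω).injective
  have hinj1 : ∀ i ∈ Finset.range p, ∀ j ∈ Finset.range p,
      algebraMap k Ω (ζ ^ i) * ε = algebraMap k Ω (ζ ^ j) * ε → i = j := by
    intro i hi j hj hij
    have h1 := mul_right_cancel₀ hε0 hij
    rw [map_pow, map_pow] at h1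
    exact hζ'.pow_inj (Finset.mem_range.1 hi) (Finset.mem_range.1 hj) h1
  have hdeg : Module.finrank k k' = p := by
    subst hk
    rw [adjoin.finrank hint, ← rel_min hp hα hε, natDegree_X_pow_sub_C]
  have hinj2 : ∀ φ ψ : k' →ₐ[k] Ω, φ e = ψ e → φ = ψ := by
    subst hk
    intro φ ψ h
    refine (adjoin.powerBasis hint).algHom_ext ?_
    have h1 : (adjoin.powerBasis hint).gen = e := by
      rw [adjoin.powerBasis_gen]
      apply Subtype.ext
      rw [he]
      rfl
    rw [h1, h]
  have hcard : Fintype.card (k' →ₐ[k] Ω) = p := by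
    rw [AlgHom.card, hdeg]
  have hroot : ∀ φ : k' →ₐ[k] Ω, ∃ i ∈ Finset.range p, algebraMap k Ω (ζ ^ i) * ε = φ e := by
    intro φ
    have h1 : e ^ p = algebraMap k k' α := by
      apply Subtype.ext
      have : ((e ^ p : k') : Ω) = (e : Ω) ^ p := rfl
      rw [this, he, hε]
      rfl
    have h2 : (φ e) ^ p = algebraMap k Ω α := by
      rw [← map_pow, h1, AlgHom.commutes]
    have h3 : (φ e / ε) ^ p = 1 := by
      rw [div_pow, h2, hε, div_self]
      rw [← hε]
      exact pow_ne_zero _ hε0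
    have : NeZero p := ⟨hp.ne_zero⟩
    obtain ⟨i, hi, hi2⟩ := hζ'.eq_pow_of_pow_eq_one h3
    refine ⟨i, Finset.mem_range.2 hi, ?_⟩
    rw [map_pow, hi2, div_mul_cancel₀ _ hε0]
  have himg : (Finset.univ : Finset (k' →ₐ[k] Ω)).image (fun φ => φ e) =
      (Finset.range p).image (fun i => algebraMap k Ω (ζ ^ i) * ε) := by
    apply Finset.eq_of_subset_of_card_le
    · intro x hx
      rw [Finset.mem_image] at hx
      obtain ⟨φ, -, rfl⟩ := hx
      obtain ⟨i, hi, hi2⟩ := hroot φ
      exact Finset.mem_image.2 ⟨i, hi, hi2⟩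
    · rw [Finset.card_image_of_injective _ (fun φ ψ h => hinj2 φ ψ h), Finset.card_univ, hcard]
      exact Finset.card_image_le.trans (Finset.card_range p).le
  rw [← Finset.prod_image (s := (Finset.univ : Finset (k' →ₐ[k] Ω))) (g := fun φ => φ e)
    (f := F) (fun φ _ ψ _ h => hinj2 φ ψ h), himg,
    Finset.prod_image (fun i hi j hj h => hinj1 i hi j hj h)]

/-- the divisor of `1 - ε ya` -/
private theorem rel_div {k L : Type*} [Field k] [Field L] [Algebra k L] {p : ℕ} (hp : p.Prime)
    {ζ : k} (hζ : IsPrimitiveRoot ζ p) {v : Valuation L (WithZero (Multiplicative ℤ))}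
    (hv : ∀ c : k, c ≠ 0 → v (algebraMap k L c) = 1) {ε ya yb g B : L} (hg : g = 1 - ε * ya)
    (hve : v ε = 1) (hvB : v B = 1)
    (hprod : ∏ i ∈ Finset.range p, (1 - algebraMap k L (ζ ^ i) * (ε * ya)) = B * yb ^ p)
    (hpole : 1 < v ya → ∃ h : L, v ya = v h ^ p) : ∃ h : L, v g = v h ^ p := by
  rcases le_or_gt (v ya) 1 with hy | hy
  · rcases eq_or_lt_of_le (show v g ≤ 1 by
      rw [hg]
      refine (v.map_sub _ _).trans ?_
      rw [map_one, map_mul, hve, one_mul]
      exact max_le le_rfl hy) with h1 | h1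
    · exact ⟨1, by rw [h1, map_one, one_pow]⟩
    · refine ⟨yb, ?_⟩
      have h2 : ∀ i ∈ Finset.range p, i ≠ 0 →
          v (1 - algebraMap k L (ζ ^ i) * (ε * ya)) = 1 := by
        intro i hi hi0
        have h3 : 1 - algebraMap k L (ζ ^ i) * (ε * ya) =
            algebraMap k L (1 - ζ ^ i) + algebraMap k L (ζ ^ i) * g := by
          rw [hg, map_sub, map_one]
          ring
        have h4 : (1 : k) - ζ ^ i ≠ 0 := by
          rw [sub_ne_zero]
          intro h5
          exact hζ.pow_ne_one_of_pos_of_lt hi0 (Finset.mem_range.1 hi) h5.symm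
        have h5 : ζ ^ i ≠ 0 := pow_ne_zero _ (hζ.ne_zero hp.ne_zero)
        have h6 : v (algebraMap k L (1 - ζ ^ i)) = 1 := hv _ h4
        have h7 : v (algebraMap k L (ζ ^ i) * g) < v (algebraMap k L (1 - ζ ^ i)) := by
          rw [h6, map_mul, hv _ h5, one_mul]
          exact h1
        rw [h3, v.map_add_eq_of_lt_left h7, h6]
      have h3 := congrArg v hprod
      rw [map_prod, map_mul, map_pow, hvB, one_mul, Finset.prod_eq_single 0] at h3
      · rw [← h3, pow_zero, map_one, one_mul, hg]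
      · intro i hi hi0
        exact h2 i hi hi0
      · intro h4
        exact absurd (Finset.mem_range.2 hp.pos) h4
  · obtain ⟨h, hh⟩ := hpole hy
    refine ⟨h, ?_⟩
    rw [← hh, hg]
    have h1 : v (1 : L) < v (ε * ya) := by
      rw [map_one, map_mul, hve, one_mul]
      exact hy
    rw [Valuation.map_sub_swap, v.map_sub_eq_of_lt_left h1, map_mul, hve, one_mul]

theorem rel_of_section {k K Ω : Type*} [Field k] [CharZero k] [Field K] [Field Ω] [Algebra k K]
    [Algebra K Ω] [Algebra k Ω] [IsScalarTower k K Ω] [IsAlgClosure K Ω] {p : ℕ} (hp : p.Prime)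
    {ζ : k} (hζ : IsPrimitiveRoot ζ p) {a b da db : k} (hab : a ≠ b) (hda : da ≠ 0)
    (hdb : db ≠ 0) {x ya yb : K} (ha : x - algebraMap k K a = algebraMap k K da * ya ^ p)
    (hb : x - algebraMap k K b = algebraMap k K db * yb ^ p) (hxa : x ≠ algebraMap k K a)
    (hxb : x ≠ algebraMap k K b)
    (hpole : ∀ v : Valuation K (WithZero (Multiplicative ℤ)), IsPlace k v → 1 < v x →
      ∃ h : K, v x = v h ^ (p ^ 2))
    (s : PiOneSection k K Ω) : NR p ζ (da / (b - a)) (db / (a - b)) := by
  classical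
  have hΩ : IsAlgClosed Ω := IsAlgClosure.isAlgClosed K
  have hKΩ : Algebra.IsAlgebraic K Ω := IsAlgClosure.isAlgebraic
  have hba : b - a ≠ 0 := sub_ne_zero.2 (Ne.symm hab)
  have hab' : a - b ≠ 0 := sub_ne_zero.2 hab
  obtain ⟨α, hαd⟩ : ∃ α : k, α = da / (b - a) := ⟨_, rfl⟩
  obtain ⟨β, hβd⟩ : ∃ β : k, β = db / (a - b) := ⟨_, rfl⟩
  have hα0 : α ≠ 0 := by rw [hαd]; exact div_ne_zero hda hba
  have hβ0 : β ≠ 0 := by rw [hβd]; exact div_ne_zero hdb hab'
  rw [← hαd, ← hβd]
  by_cases hα : ∃ c : k, c ^ p = α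
  · obtain ⟨c, hc⟩ := hα
    have hc0 : c ≠ 0 := by
      rintro rfl
      rw [zero_pow hp.ne_zero] at hc
      exact hα0 hc.symm
    rw [← hc]
    exact nr_of_pow hζ hp.pos hc0 β
  push Not at hα
  obtain ⟨ε, hε⟩ := IsAlgClosed.exists_pow_nat_eq (algebraMap k Ω α) hp.pos
  have hε0 : ε ≠ 0 := by
    intro h0
    rw [h0, zero_pow hp.ne_zero] at hε
    apply hα0
    apply (algebraMap k Ω).injective
    rw [map_zero, hε]
  have hint : IsIntegral k ε := by
    refine ⟨X ^ p - C α, monic_X_pow_sub_C α hp.ne_zero, ?_⟩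
    rw [eval₂_sub, eval₂_pow, eval₂_X, eval₂_C, hε, sub_self]
  obtain ⟨k', hk'⟩ : ∃ k' : IntermediateField k Ω, k' = k⟮ε⟯ := ⟨_, rfl⟩
  have hfd : FiniteDimensional k k' := by
    rw [hk']
    exact adjoin.finiteDimensional hint
  have hmem : ε ∈ k' := by
    rw [hk']
    exact mem_adjoin_simple_self k ε
  obtain ⟨e, he⟩ : ∃ e : k', (e : Ω) = ε := ⟨⟨ε, hmem⟩, rfl⟩
  obtain ⟨f, hf⟩ : ∃ f : k'[X], f = 1 - C e * X := ⟨_, rfl⟩
  obtain ⟨Pα, hPα⟩ : ∃ P : k[X], P = 1 - C α * X ^ p := ⟨_, rfl⟩
  have hP : Pα.map (algebraMap k Ω) = ∏ φ : (k' →ₐ[k] Ω), f.map (φ : k' →+* Ω) := by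
    have h1 : ∀ φ : k' →ₐ[k] Ω, f.map (φ : k' →+* Ω) = 1 - C (φ e) * X := by
      intro φ
      rw [hf]
      simp
    rw [Finset.prod_congr rfl fun φ _ => h1 φ,
      rel_emb hp hζ hα hε k' hk' e he (fun x => (1 - C x * X : Polynomial Ω))]
    have hζ' : IsPrimitiveRoot (C (algebraMap k Ω ζ)) p :=
      (hζ.map_of_injective (algebraMap k Ω).injective).map_of_injective C_injective
    have h2 := rel_prod hζ' hp.pos (C ε * X)
    have h3 : ∀ i ∈ Finset.range p, (1 - C (algebraMap k Ω (ζ ^ i) * ε) * X : Polynomial Ω) =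
        1 - C (algebraMap k Ω ζ) ^ i * (C ε * X) := by
      intro i _
      rw [map_pow, C_mul, C_pow, mul_assoc]
    rw [Finset.prod_congr rfl h3, h2, hPα, mul_pow, ← C_pow, hε]
    simp
  have hBA : algebraMap k K b - algebraMap k K a ≠ 0 := by
    rw [← map_sub]
    exact (map_ne_zero_iff _ (algebraMap k K).injective).2 hba
  have hAB : algebraMap k K a - algebraMap k K b ≠ 0 := by
    rw [← map_sub]
    exact (map_ne_zero_iff _ (algebraMap k K).injective).2 hab'
  have hid : aeval ya Pα = algebraMap k K β * yb ^ p := by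
    have e1 : aeval ya Pα = 1 - algebraMap k K α * ya ^ p := by
      rw [hPα]
      simp
    rw [e1, hαd, hβd, map_div₀, map_div₀, map_sub, map_sub, div_mul_eq_mul_div,
      div_mul_eq_mul_div, ← ha, ← hb]
    field_simp
    ring
  have hyb : yb ≠ 0 := by
    intro h0
    rw [h0, zero_pow hp.ne_zero, mul_zero, sub_eq_zero] at hb
    exact hxb hb
  have hid0 : aeval ya Pα ≠ 0 := by
    rw [hid]
    exact mul_ne_zero ((map_ne_zero_iff _ (algebraMap k K).injective).2 hβ0) (pow_ne_zero _ hyb)
  obtain ⟨h, hh⟩ := exists_cofactor k' Pα f hP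
  have hg0 := eval_ne_zero (K := K) k' Pα f h hh ya hid0
  have hmain := norm_obstruction_conj s.toData (fun _ : Unit => k') hp.ne_zero
    (fun _ => f.eval₂ (constMap K k') (algebraMap K (adjoin K (k' : Set Ω)) ya))
    (fun _ => hg0) ?_ (fun _ => 1) β⁻¹ (inv_ne_zero hβ0) yb ?_
  · obtain ⟨u, hu, δ, -, hδ⟩ := hmain
    refine nr_scale u hu ?_
    have hN : Algebra.norm k (δ ()) = β * u ^ p := by
      rw [← hδ]
      simp only [Finset.univ_unique, Finset.prod_singleton, zpow_one]
      rw [mul_inv_cancel_left₀ hβ0]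
    have hδP : ∃ P : k[X], δ () = aeval e P := by
      generalize δ () = d
      have h1 : ∀ d : k⟮ε⟯, ∃ P : k[X], d = aeval (AdjoinSimple.gen k ε) P := by
        intro d
        obtain ⟨P, hP⟩ := (adjoin.powerBasis hint).exists_eq_aeval' d
        rw [adjoin.powerBasis_gen] at hP
        exact ⟨P, hP⟩
      subst hk'
      obtain ⟨P, hP⟩ := h1 d
      refine ⟨P, ?_⟩
      have h2 : AdjoinSimple.gen k ε = e := by
        apply Subtype.ext
        rw [he]
        rfl
      rw [← h2]
      exact hP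
    obtain ⟨P, hPd⟩ := hδP
    refine nr_of_root hp hα hε P ?_
    rw [← hN, Algebra.norm_eq_prod_embeddings k Ω]
    have h1 : ∀ φ : k' →ₐ[k] Ω, φ (δ ()) = aeval (φ e) P := by
      intro φ
      rw [hPd, aeval_algHom_apply]
    rw [Finset.prod_congr rfl fun φ _ => h1 φ]
    exact rel_emb hp hζ hα hε k' hk' e he (fun x => aeval x P)
  · intro _ v hv
    have hve : v (constMap K k' e) = 1 := by
      refine val_constMap k' hv e ?_
      intro h0
      apply hε0
      rw [← he, h0]
      rfl
    refine rel_div (ε := constMap K k' e) (ya := algebraMap K (adjoin K (k' : Set Ω)) ya)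
      (yb := algebraMap K (adjoin K (k' : Set Ω)) yb)
      (B := algebraMap k (adjoin K (k' : Set Ω)) β) hp hζ hv.1 ?_ hve (hv.1 β hβ0) ?_ ?_
    · show f.eval₂ (constMap K k') (algebraMap K (adjoin K (k' : Set Ω)) ya) = _
      rw [hf, eval₂_sub, eval₂_one, eval₂_mul, eval₂_C, eval₂_X]
    · have hζ' : IsPrimitiveRoot (algebraMap k (adjoin K (k' : Set Ω)) ζ) p :=
        hζ.map_of_injective (algebraMap k (adjoin K (k' : Set Ω))).injective
      have h2 := rel_prod hζ' hp.pos
        (constMap K k' e * algebraMap K (adjoin K (k' : Set Ω)) ya)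
      have h3 : ∀ i ∈ Finset.range p, (1 - algebraMap k (adjoin K (k' : Set Ω)) (ζ ^ i) *
          (constMap K k' e * algebraMap K (adjoin K (k' : Set Ω)) ya)) =
          1 - algebraMap k (adjoin K (k' : Set Ω)) ζ ^ i *
          (constMap K k' e * algebraMap K (adjoin K (k' : Set Ω)) ya) := by
        intro i _
        rw [map_pow]
      rw [Finset.prod_congr rfl h3, h2, mul_pow]
      have h4 : constMap K k' e ^ p = algebraMap K (adjoin K (k' : Set Ω)) (algebraMap k K α) := by
        rw [← map_pow]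
        have h5 : e ^ p = algebraMap k k' α := by
          apply Subtype.ext
          have : ((e ^ p : k') : Ω) = (e : Ω) ^ p := rfl
          rw [this, he, hε]
          rfl
        rw [h5, constMap_algebraMap, IsScalarTower.algebraMap_apply k K]
      rw [h4, IsScalarTower.algebraMap_apply k K (adjoin K (k' : Set Ω)) β, ← map_pow, ← map_pow,
        ← map_mul, ← map_mul, ← hid, hPα]
      simp
    · intro hy
      have hx1 : v (algebraMap K (adjoin K (k' : Set Ω)) x) =
          v (algebraMap K (adjoin K (k' : Set Ω)) ya) ^ p := by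
        have e1 : algebraMap K (adjoin K (k' : Set Ω)) x =
            algebraMap k (adjoin K (k' : Set Ω)) a +
              algebraMap k (adjoin K (k' : Set Ω)) da *
                algebraMap K (adjoin K (k' : Set Ω)) ya ^ p := by
          rw [IsScalarTower.algebraMap_apply k K (adjoin K (k' : Set Ω)) a,
            IsScalarTower.algebraMap_apply k K (adjoin K (k' : Set Ω)) da, ← map_pow, ← map_mul,
            ← map_add, ← ha]
          congr 1
          ring
        have e2 : v (algebraMap k (adjoin K (k' : Set Ω)) da *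
                algebraMap K (adjoin K (k' : Set Ω)) ya ^ p) =
            v (algebraMap K (adjoin K (k' : Set Ω)) ya) ^ p := by
          rw [map_mul, hv.1 da hda, one_mul, map_pow]
        have e3 : v (algebraMap k (adjoin K (k' : Set Ω)) a) <
            v (algebraMap k (adjoin K (k' : Set Ω)) da *
                algebraMap K (adjoin K (k' : Set Ω)) ya ^ p) := by
          rw [e2]
          refine lt_of_le_of_lt ?_ (one_lt_pow₀ hy hp.ne_zero)
          by_cases ha0 : a = 0
          · rw [ha0, map_zero, map_zero]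
            exact zero_le_one
          · exact (hv.1 a ha0).le
        rw [e1, v.map_add_eq_of_lt_right e3, e2]
      have hplace : IsPlace k (v.comap (algebraMap K (adjoin K (k' : Set Ω)))) := by
        refine ⟨?_, ya, ?_, ?_⟩
        · intro c hc
          rw [Valuation.comap_apply, ← IsScalarTower.algebraMap_apply]
          exact hv.1 c hc
        · intro h0
          rw [h0, map_zero, map_zero] at hy
          exact absurd hy (not_lt.2 zero_le_one)
        · rw [Valuation.comap_apply]
          exact hy.ne'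
      have hx2 : 1 < v.comap (algebraMap K (adjoin K (k' : Set Ω))) x := by
        rw [Valuation.comap_apply, hx1]
        exact one_lt_pow₀ hy hp.ne_zero
      obtain ⟨h, hh⟩ := hpole _ hplace hx2
      rw [Valuation.comap_apply, Valuation.comap_apply, hx1, sq, pow_mul] at hh
      refine ⟨algebraMap K (adjoin K (k' : Set Ω)) h, ?_⟩
      exact (pow_left_inj hp.ne_zero).mp hh
  · simp only [Finset.univ_unique, Finset.prod_singleton, zpow_one]
    rw [prod_conj_eval s.toData k' f Pα hP ya, hid, map_mul, map_pow,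
      ← IsScalarTower.algebraMap_apply, ← mul_assoc, ← map_mul, inv_mul_cancel₀ hβ0, map_one,
      one_mul]

end WNT
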