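import Pool.Agent.WNT.RelG
import Pool.Agent.WNT.Bc

/-!
# WNT / RelB: the norm relations from a section, without a condition at the poles of `x`

There is one pair `a₀`, `b₀` such that `δ a₀ / (b₀ - a₀)` is a `p`-th power in `F`.  `ε₀ ∈ Ω` with `ε₀ ^ p = δ a₀ / (b₀ - a₀)`, `k0 = k(ε₀)` embeds in `F`; over `k0` the function `G = (1 - ε₀ y a₀)⁻¹` corrects the poles (`rel_of_data`).
-/

set_option autoImplicit false

namespace WNT

open Pool.Agent.Helper36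

open Polynomial IntermediateField

theorem nonempty_emb {k F Ω : Type*} [Field k] [Field F] [Field Ω] [Algebra k F] [Algebra k Ω]
    {p : ℕ} (hp : 0 < p) {ζ : F} (hζ : IsPrimitiveRoot ζ p) {α : k} {c : F}
    (hc : c ^ p = algebraMap k F α) {ε : Ω} (hε : ε ^ p = algebraMap k Ω α) :
    Nonempty (k⟮ε⟯ →ₐ[k] F) := by
  have hint : IsIntegral k ε := by
    refine ⟨X ^ p - C α, monic_X_pow_sub_C α hp.ne', ?_⟩
    rw [eval₂_sub, eval₂_pow, eval₂_X, eval₂_C, hε, sub_self]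
  apply nonempty_algHom_adjoin_of_splits
  intro s hs
  rw [Set.mem_singleton_iff] at hs
  subst hs
  refine ⟨hint, ?_⟩
  have h1 : minpoly k s ∣ X ^ p - C α := by
    apply minpoly.dvd
    rw [map_sub, map_pow, aeval_X, aeval_C, hε, sub_self]
  have h2 := Polynomial.map_dvd (algebraMap k F) h1
  have h3 : (X ^ p - C α).map (algebraMap k F) = X ^ p - C (c ^ p) := by
    rw [Polynomial.map_sub, Polynomial.map_pow, map_X, map_C, hc]
  rw [h3] at h2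
  refine Splits.of_dvd ?_ (monic_X_pow_sub_C _ hp.ne').ne_zero h2
  rw [X_pow_sub_C_eq_prod hζ hp (rfl : c ^ p = c ^ p)]
  exact Splits.prod fun i _ => Splits.X_sub_C _

theorem rel_all {F k K Ω : Type*} [Field F] [Field k] [CharZero k] [Algebra k F] [Field K]
    [Field Ω] [Algebra k K] [Algebra K Ω] [Algebra k Ω] [IsScalarTower k K Ω]
    [IsAlgClosure K Ω] {p : ℕ} (hp : p.Prime) {ζ : k} (hζ : IsPrimitiveRoot ζ p) {A : Set k}
    {x : K} (hx : Transcendental k x) {δ : k → k} {y : k → K} (hδ : ∀ a ∈ A, δ a ≠ 0)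
    (hxy : ∀ a ∈ A, x - algebraMap k K a = algebraMap k K (δ a) * y a ^ p)
    {a₀ b₀ : k} (ha₀ : a₀ ∈ A) (hb₀ : b₀ ∈ A) (hab₀ : a₀ ≠ b₀) {c : F}
    (hc : c ^ p = algebraMap k F (δ a₀ / (b₀ - a₀))) (s : PiOneSection k K Ω)
    {a b : k} (ha : a ∈ A) (hb : b ∈ A) (hab : a ≠ b) :
    NR p (algebraMap k F ζ) (algebraMap k F (δ a / (b - a))) (algebraMap k F (δ b / (a - b))) := by
  have hΩ : IsAlgClosed Ω := IsAlgClosure.isAlgClosed K
  have hKΩ : Algebra.IsAlgebraic K Ω := IsAlgClosure.isAlgebraic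
  obtain ⟨α, hα⟩ : ∃ α : k, α = δ a₀ / (b₀ - a₀) := ⟨_, rfl⟩
  rw [← hα] at hc
  have hba₀ : b₀ - a₀ ≠ 0 := sub_ne_zero.2 (Ne.symm hab₀)
  have hab₀' : a₀ - b₀ ≠ 0 := sub_ne_zero.2 hab₀
  have hα0 : α ≠ 0 := by rw [hα]; exact div_ne_zero (hδ _ ha₀) hba₀
  obtain ⟨ε, hε⟩ := IsAlgClosed.exists_pow_nat_eq (algebraMap k Ω α) hp.pos
  have hint : IsIntegral k ε := by
    refine ⟨X ^ p - C α, monic_X_pow_sub_C α hp.ne_zero, ?_⟩
    rw [eval₂_sub, eval₂_pow, eval₂_X, eval₂_C, hε, sub_self]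
  obtain ⟨ψ⟩ := nonempty_emb (F := F) hp.pos (hζ.map_of_injective (algebraMap k F).injective) hc hε
  have hfd : FiniteDimensional k k⟮ε⟯ := adjoin.finiteDimensional hint
  letI := algK K k⟮ε⟯
  have htow := towK K k⟮ε⟯
  obtain ⟨s0⟩ := base_change s.toData k⟮ε⟯
  obtain ⟨e, he⟩ : ∃ e : k⟮ε⟯, e = AdjoinSimple.gen k ε := ⟨_, rfl⟩
  have hep : e ^ p = algebraMap k k⟮ε⟯ α := by
    apply (algebraMap k⟮ε⟯ Ω).injective
    rw [he, map_pow, AdjoinSimple.algebraMap_gen, hε]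
    rfl
  have hcomp : ∀ c : k, algebraMap k⟮ε⟯ (adjoin K (k⟮ε⟯ : Set Ω)) (algebraMap k k⟮ε⟯ c) =
      algebraMap K (adjoin K (k⟮ε⟯ : Set Ω)) (algebraMap k K c) := by
    intro c
    apply (algebraMap (adjoin K (k⟮ε⟯ : Set Ω)) Ω).injective
    rw [← IsScalarTower.algebraMap_apply, ← IsScalarTower.algebraMap_apply,
      ← IsScalarTower.algebraMap_apply, ← IsScalarTower.algebraMap_apply]
  have hk : ∀ c : k, c ≠ 0 → algebraMap k k⟮ε⟯ c ≠ 0 := fun c hc0 =>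
    (map_ne_zero_iff _ (algebraMap k k⟮ε⟯).injective).2 hc0
  have hxK : ∀ c : k, algebraMap K (adjoin K (k⟮ε⟯ : Set Ω)) x ≠
      algebraMap k⟮ε⟯ (adjoin K (k⟮ε⟯ : Set Ω)) (algebraMap k k⟮ε⟯ c) := by
    intro c h
    rw [hcomp] at h
    apply hx
    rw [(algebraMap K (adjoin K (k⟮ε⟯ : Set Ω))).injective h]
    exact isAlgebraic_algebraMap c
  have hxy0 : ∀ a ∈ A, algebraMap K (adjoin K (k⟮ε⟯ : Set Ω)) x -
      algebraMap k⟮ε⟯ (adjoin K (k⟮ε⟯ : Set Ω)) (algebraMap k k⟮ε⟯ a) =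
      algebraMap k⟮ε⟯ (adjoin K (k⟮ε⟯ : Set Ω)) (algebraMap k k⟮ε⟯ (δ a)) *
        algebraMap K (adjoin K (k⟮ε⟯ : Set Ω)) (y a) ^ p := by
    intro a ha
    rw [hcomp, hcomp, ← map_sub, hxy a ha, map_mul, map_pow]
  have hζ0 : IsPrimitiveRoot (algebraMap k k⟮ε⟯ ζ) p :=
    hζ.map_of_injective (algebraMap k k⟮ε⟯).injective
  -- the correcting function
  obtain ⟨g, hg⟩ : ∃ g, g = 1 - algebraMap k⟮ε⟯ (adjoin K (k⟮ε⟯ : Set Ω)) e *
    algebraMap K (adjoin K (k⟮ε⟯ : Set Ω)) (y a₀) := ⟨_, rfl⟩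
  obtain ⟨B, hB⟩ : ∃ B : k⟮ε⟯, B = algebraMap k k⟮ε⟯ (δ b₀ / (a₀ - b₀)) := ⟨_, rfl⟩
  have hB0 : B ≠ 0 := by rw [hB]; exact hk _ (div_ne_zero (hδ _ hb₀) hab₀')
  have hprod : ∏ i ∈ Finset.range p, (1 - algebraMap k⟮ε⟯ (adjoin K (k⟮ε⟯ : Set Ω))
      (algebraMap k k⟮ε⟯ ζ ^ i) * (algebraMap k⟮ε⟯ (adjoin K (k⟮ε⟯ : Set Ω)) e *
      algebraMap K (adjoin K (k⟮ε⟯ : Set Ω)) (y a₀))) =
      algebraMap k⟮ε⟯ (adjoin K (k⟮ε⟯ : Set Ω)) B *
        algebraMap K (adjoin K (k⟮ε⟯ : Set Ω)) (y b₀) ^ p := by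
    have h1 := relG_prod (hζ0.map_of_injective
      (algebraMap k⟮ε⟯ (adjoin K (k⟮ε⟯ : Set Ω))).injective) hp.pos
      (algebraMap k⟮ε⟯ (adjoin K (k⟮ε⟯ : Set Ω)) e *
        algebraMap K (adjoin K (k⟮ε⟯ : Set Ω)) (y a₀))
    simp only [map_pow] at h1 ⊢
    rw [h1, mul_pow, ← map_pow, ← map_pow, hep, hcomp, hB, hcomp, ← map_mul, ← map_pow, ← map_mul,
      ← map_one (algebraMap K (adjoin K (k⟮ε⟯ : Set Ω))), ← map_sub]
    congr 1
    have h2 := hxy _ ha₀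
    have h3 := hxy _ hb₀
    have h4 : algebraMap k K (b₀ - a₀) ≠ 0 :=
      (map_ne_zero_iff _ (algebraMap k K).injective).2 hba₀
    have h5 : algebraMap k K (a₀ - b₀) ≠ 0 :=
      (map_ne_zero_iff _ (algebraMap k K).injective).2 hab₀'
    rw [hα, map_div₀, map_div₀, div_mul_eq_mul_div, div_mul_eq_mul_div, ← h2, ← h3]
    rw [map_sub] at h4 h5
    rw [map_sub, map_sub]
    field_simp
    ring
  have hg0 : g ≠ 0 := by
    intro h0
    have h1 : (∏ i ∈ Finset.range p, (1 - algebraMap k⟮ε⟯ (adjoin K (k⟮ε⟯ : Set Ω))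
      (algebraMap k k⟮ε⟯ ζ ^ i) * (algebraMap k⟮ε⟯ (adjoin K (k⟮ε⟯ : Set Ω)) e *
      algebraMap K (adjoin K (k⟮ε⟯ : Set Ω)) (y a₀)))) = 0 := by
      refine Finset.prod_eq_zero (Finset.mem_range.2 hp.pos) ?_
      rw [pow_zero, map_one, one_mul, ← hg, h0]
    rw [hprod] at h1
    rcases mul_eq_zero.1 h1 with h2 | h2
    · exact hB0 ((map_eq_zero_iff _ (algebraMap k⟮ε⟯ (adjoin K (k⟮ε⟯ : Set Ω))).injective).1 h2)
    · have h3 := hxy0 _ hb₀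
      rw [h2, mul_zero, sub_eq_zero] at h3
      exact hxK _ h3
  have hve : ∀ v : Valuation (adjoin K (k⟮ε⟯ : Set Ω)) (WithZero (Multiplicative ℤ)),
      IsPlace k⟮ε⟯ v → v (algebraMap k⟮ε⟯ (adjoin K (k⟮ε⟯ : Set Ω)) e) = 1 := by
    intro v hv
    apply hv.1
    intro h0
    rw [h0, zero_pow hp.ne_zero] at hep
    exact hk _ hα0 hep.symm
  have hmain := rel_of_data (G := g⁻¹) hp hζ0 (a := algebraMap k k⟮ε⟯ a)
    (b := algebraMap k k⟮ε⟯ b) (fun h => hab ((algebraMap k k⟮ε⟯).injective h)) (hk _ (hδ a ha))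
    (hk _ (hδ b hb)) (hxy0 a ha) (hxy0 b hb) (hxK b) (inv_ne_zero hg0) (by
      intro v hv hvx
      obtain ⟨h, hh⟩ := relG_div hp hζ0 hv.1 hg (hve v hv) (hv.1 B hB0) hprod
        ((relG_int hp.ne_zero hv.1 (hk _ (hδ _ ha₀)) (hxy0 _ ha₀)).1 hvx)
      exact ⟨h⁻¹, by rw [map_inv₀, map_inv₀, hh, inv_pow]⟩) (by
      intro v hv hvx
      have h1 : 1 < v (algebraMap K (adjoin K (k⟮ε⟯ : Set Ω)) (y a₀)) := by
        by_contra h2
        exact absurd ((relG_int hp.ne_zero hv.1 (hk _ (hδ _ ha₀)) (hxy0 _ ha₀)).2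
          (not_lt.1 h2)) (not_le.2 hvx)
      have h2 : 1 < v (algebraMap K (adjoin K (k⟮ε⟯ : Set Ω)) (y a)) := by
        by_contra h2
        exact absurd ((relG_int hp.ne_zero hv.1 (hk _ (hδ _ ha)) (hxy0 _ ha)).2
          (not_lt.1 h2)) (not_le.2 hvx)
      have h3 := relG_val hp.ne_zero hv.1 (hk _ (hδ _ ha₀)) (hxy0 _ ha₀) h1
      have h4 := relG_val hp.ne_zero hv.1 (hk _ (hδ _ ha)) (hxy0 _ ha) h2
      rw [h3] at h4
      have h5 := (pow_left_inj hp.ne_zero).mp h4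
      refine ⟨1, ?_⟩
      rw [← h5, map_inv₀, hg, relG_pole (hve v hv) h1, map_one, one_pow,
        mul_inv_cancel₀ (ne_of_gt (lt_trans zero_lt_one h1))]) s0
  have h1 := nr_map (ψ : k⟮ε⟯ →+* F) hmain
  have h2 : ∀ c : k, (ψ : k⟮ε⟯ →+* F) (algebraMap k k⟮ε⟯ c) = algebraMap k F c :=
    fun c => ψ.commutes c
  rw [← map_sub, ← map_sub, ← map_div₀, ← map_div₀, h2, h2, h2] at h1
  exact h1

end WNT
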