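import Pool.Agent.WNT.Base
import Pool.Agent.WNT.Lin

/-!
# WNT / RepI: a good point gives a point `z`

PROOF.  `base` and `step` (induction on `j = 1, ..., E`) give `z` with `Hj b m E z`; `kap` with `j = E` and `W_E`: `f b = cl (z - b) + k • η`; for `a - b ∈ D (m - E) = D (ν + 1)`, `ν = m - 1 - E`: `f a = f b + cl (1 - (a - b) / (z - b)) = cl (z - a) + k • η`
(`(a - b) / (z - b) ∈ D 1`, so `1 - ... ≠ 0`, `cl_mul`).
-/

set_option autoImplicit false

namespace WNT

universe u w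

namespace Nt

variable {F : Type u} {V : Type w} [Field F] [AddCommGroup V] {p : ℕ} [Module (ZMod p) V]
  {S : SS F V p} {T : Nt S}

private theorem hj_all {b : F} {m : ℤ} (h : T.Gd b m) :
    ∀ n : ℕ, (n : ℤ) + 1 ≤ S.E → ∃ z, T.Hj b m ((n : ℤ) + 1) z := by
  intro n
  induction n with
  | zero =>
    intro _
    obtain ⟨z, hz⟩ := base h
    exact ⟨z, by simpa using hz⟩
  | succ n ih =>
    intro hn
    obtain ⟨z, hz⟩ := ih (by push_cast at hn; omega)
    obtain ⟨z', hz'⟩ := step h (by omega) (by push_cast at hn; omega) hz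
    refine ⟨z', ?_⟩
    push_cast
    exact hz'

theorem rep_of_gd {b : F} {m : ℤ} (h : T.Gd b m) : ∃ z, T.Rep b (m - 1 - S.E) z := by
  have hE := S.E_pos
  obtain ⟨z, hz⟩ := hj_all h (S.E - 1).toNat (by rw [Int.toNat_of_nonneg (by omega)]; omega)
  rw [Int.toNat_of_nonneg (by omega), sub_add_cancel] at hz
  have hk := kap h (by omega) le_rfl hz
  obtain ⟨k, hk⟩ := S.W_E hk
  refine ⟨z, h.bA, h.bD, hz.ne, hz.vz, k, fun a ha hab => ?_⟩
  have h1 := hz.rep a ha (S.D_mono (by omega) hab)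
  have h2 : (a - b) / (z - b) ∈ S.D 1 := S.D_div' hab hz.ne hz.vz (by omega)
  have h3 : z - a = (z - b) * (1 - (a - b) / (z - b)) := by
    have := hz.ne
    field_simp
    ring
  rw [h1, h3, S.cl_mul _ _ hz.ne (S.one_sub_ne h2), sub_eq_iff_eq_add.1 hk]
  abel

end Nt

end WNT
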