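import Pool.Agent.WNT.NR
import Pool.Agent.WNT.Kum

/-!
# WNT / Sym: the Galois symbol of a field

PROOF.  `Ω = AlgebraicClosure F`, `G = Gal(Ω/F)`, `GA G Ω` (`GA.gal`, MSG/Sub), `z = algebraMap ζ`, `PZ p z`, `g • z = z`.  `B` = the additive group of all functions `G → G → ZMod p` modulo the subgroup of the coboundaries (`Co f 0`; a `ZMod p`-submodule),
`s x y` = class of `(g, h) ↦ km p z x g * km p z y h` (`x`, `y` mapped to `Ω`).
* bilinear: `km_mul` (`Fx G x` for `x` in the image of `F`, `x ≠ 0`).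
* Steinberg: `tH_steinberg` (TS3) for the one point set `S = Unit` (see `hs_steinberg` in Uh for the way it is used), or `hs_steinberg` and `Co_of_Cu` (Um).
* `s x x = 0`: `χ = km x` is a homomorphism, `χ g * χ h = - 2⁻¹ (χ g ^ 2 + χ h ^ 2 - χ (g h) ^ 2)` (`p` odd).
* norm criterion.  If `a` is a `p`-th power in `F` then `km a = 0`, so `s a b = 0`, and `NR` holds by `nr_of_pow`.  Otherwise `θ = km a` is a continuous nonzero homomorphism, so there is `g₀` with `θ g₀ = 1`; `N` = its kernel; `ε = rt p a`, `g₀ • ε = z ε`; the field fixed by `N` is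
  `F(ε)` (`N` fixes `ε`; if `y` is fixed by `N` it lies in `F(ε)` by Galois theory: `N` is the fixing subgroup of `F(ε)`), so `y = P(ε)` with `P : F[X]`, `g₀ ^ i • y = P (z ^ i ε)`.
  `s a b = 0` iff `km a ∪ km b ~ 0` iff `km b ∪ km a ~ 0` (antisymmetry) iff (`cy_km` with `c = b`, `θ = km a`, `Cu_of_Co`, `Co_of_Cu`) `b ^ cy θ ~ 1` in `Ωˣ` iff (`norm_of_cy`, `cy_of_norm`) `b = ∏ i < p, g₀ ^ i • y` for some `y ≠ 0` fixed by `N` iff (`nr_of_root`, `root_of_nr`)
  `NR p ζ a b` (`b ≠ 0`).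
-/

set_option autoImplicit false

namespace WNT

universe u

open MSG (rt lg zp km GA Fx Co Cu CuN Zu cy cont_of h90cont cy_eq smul_zp km_cont Cu_mul Cu_inv hom_one norm_of_cy cy_of_norm)

open Polynomial

private theorem poly42 {F Ω : Type*} [Field F] [Field Ω] [Algebra F Ω] [IsGalois F Ω] (ε y : Ω)
    (h : ∀ g : Gal(Ω/F), g ε = ε → g y = y) : ∃ P : F[X], aeval ε P = y := by
  have h1 : y ∈ IntermediateField.fixedField
      (IntermediateField.fixingSubgroup (IntermediateField.adjoin F {ε})) := by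
    rw [IntermediateField.mem_fixedField_iff]
    intro g hg
    exact h g ((IntermediateField.mem_fixingSubgroup_iff _ _).1 hg ε
      (IntermediateField.mem_adjoin_simple_self F ε))
  rw [InfiniteGalois.fixedField_fixingSubgroup] at h1
  have hint : IsAlgebraic F ε := Algebra.IsAlgebraic.isAlgebraic ε
  have h3 : y ∈ Algebra.adjoin F {ε} := by
    rw [← IntermediateField.adjoin_simple_toSubalgebra_of_isAlgebraic hint]
    exact h1
  rw [Algebra.adjoin_singleton_eq_range_aeval] at h3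
  obtain ⟨P, hP⟩ := h3
  exact ⟨P, hP⟩

private theorem co_anti42 {G : Type*} [Group G] [TopologicalSpace G] {p : ℕ} {χ θ : G → ZMod p}
    (hχ : Continuous χ) (hθ : Continuous θ) (h1 : ∀ g h, χ (g * h) = χ g + χ h)
    (h2 : ∀ g h, θ (g * h) = θ g + θ h) (h : Co (fun g h => χ g * θ h) (fun _ _ => 0)) :
    Co (fun g h => θ g * χ h) (fun _ _ => 0) := by
  obtain ⟨c, hc, h⟩ := h
  refine ⟨fun g => -(χ g * θ g) - c g, ((hχ.mul hθ).neg).sub hc, fun g k => ?_⟩
  have h3 := h g k
  beta_reduce at h3 ⊢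
  rw [h1, h2]
  linear_combination -h3

private theorem crit42 {F Ω : Type u} [Field F] [Field Ω] [Algebra F Ω] [IsGalois F Ω]
    [IsAlgClosed Ω] {p : ℕ} (hp : p.Prime) {ζ : F} (hζ : IsPrimitiveRoot ζ p)
    (hz : PP p (algebraMap F Ω ζ)) {a b : F} (ha : a ≠ 0) (hb : b ≠ 0) :
    Co (fun g h : Gal(Ω/F) => km p (algebraMap F Ω ζ) (algebraMap F Ω a) g *
      km p (algebraMap F Ω ζ) (algebraMap F Ω b) h) (fun _ _ => 0) ↔ NR p ζ a b := by
  have hG : GA Gal(Ω/F) Ω := GA.gal F Ω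
  have i5 := Fact.mk hp
  have := NeZero.of_pos hp.pos
  have hfx : ∀ (x : F) (g : Gal(Ω/F)), g • algebraMap F Ω x = algebraMap F Ω x := fun x g =>
    g.commutes x
  have hne : ∀ {x : F}, x ≠ 0 → algebraMap F Ω x ≠ 0 := fun hx => (_root_.map_ne_zero _).2 hx
  have hFx : ∀ {x : F}, x ≠ 0 → Fx Gal(Ω/F) (algebraMap F Ω x) := fun hx => ⟨hne hx, hfx _⟩
  have hadd : ∀ {x : F}, x ≠ 0 → ∀ g h : Gal(Ω/F),
      km p (algebraMap F Ω ζ) (algebraMap F Ω x) (g * h) =
      km p (algebraMap F Ω ζ) (algebraMap F Ω x) g + km p (algebraMap F Ω ζ) (algebraMap F Ω x) h :=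
    fun hx g h => km_hom hz (hne hx) (hfx ζ g) (hfx ζ h) (hfx _ g) (hfx _ h)
  by_cases hpow : ∃ c : F, c ^ p = a
  · obtain ⟨c, rfl⟩ := hpow
    have hc : c ≠ 0 := by
      rintro rfl
      exact ha (zero_pow hp.ne_zero)
    refine ⟨fun _ => nr_of_pow hζ hp.pos hc b, fun _ => ⟨fun _ => 0, continuous_const, fun g h => ?_⟩⟩
    have h1 : km p (algebraMap F Ω ζ) (algebraMap F Ω (c ^ p)) g = 0 := by
      rw [map_pow]
      exact km_pow hz (hne hc) (hfx ζ g) (hfx c g)
    beta_reduce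
    rw [h1]
    ring
  · have hpow' : ∀ c : F, c ^ p ≠ a := fun c hc => hpow ⟨c, hc⟩
    obtain ⟨θ, hθ⟩ : ∃ θ : Gal(Ω/F) → ZMod p,
      θ = fun g => km p (algebraMap F Ω ζ) (algebraMap F Ω a) g := ⟨_, rfl⟩
    have hθc : Continuous θ := by
      rw [hθ]
      exact km_cont hG p _ _
    have hθa : ∀ g h, θ (g * h) = θ g + θ h := by
      rw [hθ]
      exact hadd ha
    obtain ⟨g₁, hg₁⟩ : ∃ g, θ g ≠ 0 := by
      by_contra hcon
      push Not at hcon
      have h1 := (km_zero_iff hG hz (fun g => hfx ζ g) (hFx ha)).1 (by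
        intro g
        have := hcon g
        rw [hθ] at this
        exact this)
      obtain ⟨x, hx, hxp⟩ := h1
      obtain ⟨c, hc⟩ := (InfiniteGalois.mem_range_algebraMap_iff_fixed x).2 fun g => hx.2 g
      apply hpow' c
      apply (algebraMap F Ω).injective
      rw [map_pow, hc, hxp]
    have hpw : ∀ (g : Gal(Ω/F)) (k : ℕ), θ (g ^ k) = k * θ g := by
      intro g k
      induction k with
      | zero => rw [pow_zero, hom_one hθa, Nat.cast_zero, zero_mul]
      | succ k ih => rw [pow_succ, hθa, ih, Nat.cast_succ, add_mul, one_mul]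
    obtain ⟨g₀, hg₀⟩ : ∃ g, θ g = 1 :=
      ⟨g₁ ^ ((θ g₁)⁻¹).val, by rw [hpw, ZMod.natCast_zmod_val, inv_mul_cancel₀ hg₁]⟩
    obtain ⟨N, hN⟩ : ∃ N : Subgroup Gal(Ω/F), ∀ g, g ∈ N ↔ θ g = 0 := by
      refine ⟨⟨⟨⟨{g | θ g = 0}, ?_⟩, hom_one hθa⟩, ?_⟩, fun g => Iff.rfl⟩
      · intro g h hg hh
        show θ (g * h) = 0
        rw [hθa, show θ g = 0 from hg, show θ h = 0 from hh, add_zero]
      · intro g hg
        have h1 := hθa g⁻¹ g
        rw [inv_mul_cancel, hom_one hθa, show θ g = 0 from hg, add_zero] at h1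
        exact h1.symm
    obtain ⟨ε, hε⟩ : ∃ ε : Ω, ε = rt p (algebraMap F Ω a) := ⟨_, rfl⟩
    have hεp : ε ^ p = algebraMap F Ω a := by
      rw [hε]
      exact rt_pow hz _
    have hεg : ∀ g : Gal(Ω/F), g • ε = zp (algebraMap F Ω ζ) (θ g) * ε := by
      intro g
      rw [hθ]
      exact km_root hz (hne ha) hεp (hfx ζ g) (hfx a g)
    have hz1 : zp (algebraMap F Ω ζ) (1 : ZMod p) = algebraMap F Ω ζ := by
      unfold zp
      rw [ZMod.val_one'' hp.ne_one, pow_one]
    have hεi : ∀ i : ℕ, g₀ ^ i • ε = algebraMap F Ω (ζ ^ i) * ε := by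
      intro i
      rw [hεg, hpw, hg₀, mul_one, map_pow]
      congr 1
      have h1 := zp_val_pow hz (1 : ZMod p) i
      rw [one_mul, hz1] at h1
      exact h1.symm
    have hPe : ∀ (P : F[X]) (g : Gal(Ω/F)) (x : Ω), g • aeval x P = aeval (g • x) P := by
      intro P g x
      show g (aeval x P) = aeval (g x) P
      rw [← Polynomial.aeval_algHom_apply]
    have hcy := cy_km hG hz (fun g => hfx ζ g) hθc hθa (hFx hb)
    have hK : Continuous fun g : Gal(Ω/F) => km p (algebraMap F Ω ζ) (algebraMap F Ω b) g :=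
      km_cont hG p _ _
    have hzone : (fun _ _ : Gal(Ω/F) => zp (algebraMap F Ω ζ) (0 : ZMod p)) =
        fun _ _ : Gal(Ω/F) => (1 : Ω) := by
      funext g h
      exact zp_zero hz
    have hθ' : (fun g h : Gal(Ω/F) => km p (algebraMap F Ω ζ) (algebraMap F Ω a) g *
        km p (algebraMap F Ω ζ) (algebraMap F Ω b) h) = fun g h => θ g *
        km p (algebraMap F Ω ζ) (algebraMap F Ω b) h := by
      rw [hθ]
    rw [hθ']
    constructor
    · intro h
      have h1 := co_anti42 hθc hK hθa (hadd hb) h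
      have h2 := Cu_of_Co hz (fun g => hfx ζ g) h1
      rw [hzone] at h2
      have h3 : Cu (fun g h : Gal(Ω/F) => algebraMap F Ω b ^ cy θ g h) (fun _ _ => 1) := by
        have h4 := Cu_mul (Cu_inv h2) hcy
        have e1 : (fun x y : Gal(Ω/F) => ((fun g h : Gal(Ω/F) => zp (algebraMap F Ω ζ)
            (km p (algebraMap F Ω ζ) (algebraMap F Ω b) g * θ h)) x y)⁻¹ *
            (fun g h : Gal(Ω/F) => zp (algebraMap F Ω ζ)
            (km p (algebraMap F Ω ζ) (algebraMap F Ω b) g * θ h) *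
            algebraMap F Ω b ^ cy θ g h) x y) =
            fun g h : Gal(Ω/F) => algebraMap F Ω b ^ cy θ g h := by
          funext g h
          beta_reduce
          rw [inv_mul_cancel_left₀ (zp_ne hz _)]
        have e2 : (fun x y : Gal(Ω/F) => ((fun _ _ : Gal(Ω/F) => (1 : Ω)) x y)⁻¹ *
            (fun _ _ : Gal(Ω/F) => (1 : Ω)) x y) = fun _ _ : Gal(Ω/F) => (1 : Ω) := by
          funext g h
          simp
        rw [e1, e2] at h4
        exact h4
      obtain ⟨y, hy0, hyN, hby⟩ := norm_of_cy hG hθc hθa hg₀ hN (hFx hb) h3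
      obtain ⟨P, hP⟩ := poly42 (F := F) ε y (by
        intro g hg
        apply hyN g
        rw [hN]
        apply zp_inj hz
        have h5 := hεg g
        have hε0 : ε ≠ 0 := by
          rw [hε]
          exact rt_ne hz (hne ha)
        rw [zp_zero hz]
        have h6 : g • ε = ε := hg
        rw [h6] at h5
        exact (mul_right_cancel₀ hε0 (by rw [one_mul]; exact h5)).symm)
      refine nr_of_root hp hpow' hεp P ?_
      rw [hby]
      refine Finset.prod_congr rfl fun i _ => ?_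
      rw [← hP, hPe, hεi]
    · intro h
      obtain ⟨P, hP⟩ := root_of_nr (L := Ω) h
      have h1 := hP ε hεp
      obtain ⟨y, hy⟩ : ∃ y, y = aeval ε P := ⟨_, rfl⟩
      have h2 : algebraMap F Ω b = ∏ i ∈ Finset.range p, g₀ ^ i • y := by
        rw [h1]
        refine Finset.prod_congr rfl fun i _ => ?_
        rw [hy, hPe, hεi]
      have hy0 : y ≠ 0 := by
        rintro h3
        apply hne hb
        rw [h2]
        refine Finset.prod_eq_zero (Finset.mem_range.2 hp.pos) ?_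
        rw [h3, smul_zero]
      have hyN : ∀ g ∈ N, g • y = y := by
        intro g hg
        rw [hy, hPe, hεg, (hN g).1 hg, zp_zero hz, one_mul]
      have h3 := cy_of_norm hG hθc hθa hg₀ hN hy0 hyN
      rw [← h2] at h3
      have h4 := Cu_mul hcy (Cu_inv h3)
      have e1 : (fun x y : Gal(Ω/F) => (fun g h : Gal(Ω/F) => zp (algebraMap F Ω ζ)
          (km p (algebraMap F Ω ζ) (algebraMap F Ω b) g * θ h) *
          algebraMap F Ω b ^ cy θ g h) x y *
          ((fun g h : Gal(Ω/F) => algebraMap F Ω b ^ cy θ g h) x y)⁻¹) =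
          fun g h : Gal(Ω/F) => zp (algebraMap F Ω ζ)
          (km p (algebraMap F Ω ζ) (algebraMap F Ω b) g * θ h) := by
        funext g h
        beta_reduce
        rw [mul_inv_cancel_right₀ (pow_ne_zero _ (hne hb))]
      have e2 : (fun x y : Gal(Ω/F) => (fun _ _ : Gal(Ω/F) => (1 : Ω)) x y *
          ((fun _ _ : Gal(Ω/F) => (1 : Ω)) x y)⁻¹) =
          fun _ _ : Gal(Ω/F) => zp (algebraMap F Ω ζ) (0 : ZMod p) := by
        rw [hzone]
        funext g h
        simp
      rw [e1, e2] at h4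
      have h5 := Co_of_Cu hG hz (fun g => hfx ζ g) (F' := fun _ _ => (0 : ZMod p)) h4
      exact co_anti42 hK hθc (hadd hb) hθa h5

private theorem st42 {F : Type*} [Field F] {p : ℕ} (hp : 0 < p) {ζ : F} (hζ : IsPrimitiveRoot ζ p)
    (x : F) : NR p ζ x (1 - x) := by
  refine ⟨1 - X, ?_⟩
  have e1 : (∏ i ∈ Finset.range p, (1 - X : F[X]).comp (C (ζ ^ i) * X)) = 1 - X ^ p := by
    have e2 := congrArg (Polynomial.eval 1) (X_pow_sub_C_eq_prod
      (hζ.map_of_injective (C_injective (R := F))) hp (rfl : (X : F[X]) ^ p = X ^ p))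
    rw [eval_sub, eval_pow, eval_X, eval_C, one_pow, eval_prod] at e2
    rw [e2]
    refine Finset.prod_congr rfl fun i _ => ?_
    rw [sub_comp, one_comp, X_comp, eval_sub, eval_X, eval_C, C_pow]
  rw [e1, C_sub, C_1]
  exact ⟨-1, by ring⟩

theorem exists_symbol (F : Type u) [Field F] [CharZero F] {p : ℕ} (hp : p.Prime)
    {ζ : F} (hζ : IsPrimitiveRoot ζ p) :
    ∃ (B : Type u) (_ : AddCommGroup B) (_ : Module (ZMod p) B) (s : F → F → B),
      (∀ x x' y : F, x ≠ 0 → x' ≠ 0 → y ≠ 0 → s (x * x') y = s x y + s x' y) ∧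
      (∀ x y y' : F, x ≠ 0 → y ≠ 0 → y' ≠ 0 → s x (y * y') = s x y + s x y') ∧
      (∀ x : F, x ≠ 0 → 1 - x ≠ 0 → s x (1 - x) = 0) ∧
      ∀ a b : F, a ≠ 0 → b ≠ 0 → (s a b = 0 ↔ NR p ζ a b) := by
  have i5 := Fact.mk hp
  obtain ⟨Ω, iΩ, iA, iG, iC⟩ : ∃ (Ω : Type u) (_ : Field Ω) (_ : Algebra F Ω), IsGalois F Ω ∧
      IsAlgClosed Ω := ⟨AlgebraicClosure F, inferInstance, inferInstance, inferInstance, inferInstance⟩
  have hG : GA Gal(Ω/F) Ω := GA.gal F Ω
  have hz : PP p (algebraMap F Ω ζ) :=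
    ⟨hp.one_lt, hζ.map_of_injective (algebraMap F Ω).injective⟩
  have hfx : ∀ (x : F) (g : Gal(Ω/F)), g • algebraMap F Ω x = algebraMap F Ω x := fun x g =>
    g.commutes x
  have hne : ∀ {x : F}, x ≠ 0 → algebraMap F Ω x ≠ 0 := fun hx => (_root_.map_ne_zero _).2 hx
  have hadd : ∀ {x : F}, x ≠ 0 → ∀ g h : Gal(Ω/F),
      km p (algebraMap F Ω ζ) (algebraMap F Ω x) (g * h) =
      km p (algebraMap F Ω ζ) (algebraMap F Ω x) g + km p (algebraMap F Ω ζ) (algebraMap F Ω x) h :=
    fun hx g h => km_hom hz (hne hx) (hfx ζ g) (hfx ζ h) (hfx _ g) (hfx _ h)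
  have hmul : ∀ {x y : F}, x ≠ 0 → y ≠ 0 → ∀ g : Gal(Ω/F),
      km p (algebraMap F Ω ζ) (algebraMap F Ω (x * y)) g =
      km p (algebraMap F Ω ζ) (algebraMap F Ω x) g + km p (algebraMap F Ω ζ) (algebraMap F Ω y) g := by
    intro x y hx hy g
    rw [map_mul]
    exact km_mul hz (hne hx) (hne hy) (hfx ζ g) (hfx _ g) (hfx _ g)
  let C : Submodule (ZMod p) (Gal(Ω/F) → Gal(Ω/F) → ZMod p) :=
    { carrier := {f | Co f (fun _ _ => 0)}
      add_mem' := by
        rintro f f' ⟨c, hc, h⟩ ⟨c', hc', h'⟩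
        refine ⟨fun g => c g + c' g, hc.add hc', fun g k => ?_⟩
        have e1 := h g k
        have e2 := h' g k
        show f g k + f' g k = _
        rw [e1, e2]
        ring
      zero_mem' := ⟨fun _ => 0, continuous_const, fun g k => by
        show (0 : ZMod p) = _
        ring⟩
      smul_mem' := by
        rintro r f ⟨c, hc, h⟩
        refine ⟨fun g => r * c g, continuous_const.mul hc, fun g k => ?_⟩
        have e1 := h g k
        show r * f g k = _
        rw [e1]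
        ring }
  refine ⟨(Gal(Ω/F) → Gal(Ω/F) → ZMod p) ⧸ C, inferInstance, inferInstance,
    fun x y => C.mkQ (fun g h => km p (algebraMap F Ω ζ) (algebraMap F Ω x) g *
      km p (algebraMap F Ω ζ) (algebraMap F Ω y) h), ?_, ?_, ?_, ?_⟩
  · intro x x' y hx hx' hy
    beta_reduce
    rw [← map_add]
    congr 1
    funext g h
    rw [hmul hx hx', add_mul]
    rfl
  · intro x y y' hx hy hy'
    beta_reduce
    rw [← map_add]
    congr 1
    funext g h
    rw [hmul hy hy', mul_add]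
    rfl
  · intro x hx hx'
    beta_reduce
    rw [Submodule.mkQ_apply, Submodule.Quotient.mk_eq_zero]
    show Co _ _
    exact (crit42 hp hζ hz hx hx').2 (st42 hp.pos hζ x)
  · intro a b ha hb
    beta_reduce
    rw [Submodule.mkQ_apply, Submodule.Quotient.mk_eq_zero]
    exact crit42 hp hζ hz ha hb

end WNT
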