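import Pool.Agent.WNT.LO

/-!
# WNT / Val: the valuation of the fraction field of a discrete valuation ring

PROOF.  Every nonzero `x : F` is `ϖ ^ n * u` with a unique integer `n` and `u` the image of a unit: `x = a / b` (`IsFractionRing.div_surjective`), `a`, `b` are associated to powers of `ϖ` (`IsDiscreteValuationRing.associated_pow_irreducible`); uniqueness: `ϖ ^ n` with `n > 0` is
not the image of a unit.  `v x = n`.  Multiplicativity is clear; `0 ≤ v x` iff `x` lies in the image of `O`; `v_add`: divide by `ϖ ^ min`.  Alternatively use `IsDiscreteValuationRing.addVal`, `v (a / b) = addVal a - addVal b`.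
`p ≠ 0` in `O` because `F` has characteristic zero.
-/

set_option autoImplicit false

namespace WNT

open IsLocalRing

section

variable {O F : Type*} [CommRing O] [IsDomain O] [IsDiscreteValuationRing O] [Field F]
  [Algebra O F] [IsFractionRing O F]

omit [IsDomain O] [IsDiscreteValuationRing O] in
private theorem val_map_ne {a : O} (ha : a ≠ 0) : algebraMap O F a ≠ 0 :=
  fun h => ha (IsFractionRing.injective O F (h.trans (map_zero _).symm))

private theorem val_ex {ϖ : O} (hϖ : Irreducible ϖ) (x : F) (hx : x ≠ 0) :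
    ∃ (n : ℤ) (u : Oˣ), x = algebraMap O F u * (algebraMap O F ϖ) ^ n := by
  obtain ⟨a, b, hb, rfl⟩ := IsFractionRing.div_surjective O x
  have hb0 : b ≠ 0 := nonZeroDivisors.ne_zero hb
  have ha0 : a ≠ 0 := by
    rintro rfl
    rw [map_zero, zero_div] at hx
    exact hx rfl
  obtain ⟨m, u, hu⟩ := IsDiscreteValuationRing.eq_unit_mul_pow_irreducible ha0 hϖ
  obtain ⟨k, w, hw⟩ := IsDiscreteValuationRing.eq_unit_mul_pow_irreducible hb0 hϖ
  have hp : algebraMap O F ϖ ≠ 0 := val_map_ne hϖ.ne_zero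
  refine ⟨(m : ℤ) - k, u * w⁻¹, ?_⟩
  have hw1 : algebraMap O F ((w⁻¹ : Oˣ) : O) = (algebraMap O F (w : O))⁻¹ := by
    apply eq_inv_of_mul_eq_one_left
    rw [← map_mul, Units.inv_mul, map_one]
  rw [hu, hw, map_mul, map_mul, map_pow, map_pow, Units.val_mul, map_mul, hw1, zpow_sub₀ hp,
    zpow_natCast, zpow_natCast]
  have hw0 : algebraMap O F (w : O) ≠ 0 := val_map_ne w.ne_zero
  field_simp

private theorem val_lt {ϖ : O} (hϖ : Irreducible ϖ) {n m : ℤ} {u w : Oˣ}
    (h : algebraMap O F u * (algebraMap O F ϖ) ^ n = algebraMap O F w * (algebraMap O F ϖ) ^ m) :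
    ¬ n < m := by
  intro hnm
  have hp : algebraMap O F ϖ ≠ 0 := val_map_ne hϖ.ne_zero
  obtain ⟨k, hk⟩ := Int.eq_ofNat_of_zero_le (a := m - n - 1) (by omega)
  have hm : m = n + ((k + 1 : ℕ) : ℤ) := by push_cast; omega
  rw [hm, zpow_add₀ hp, zpow_natCast] at h
  have h1 : algebraMap O F u = algebraMap O F w * (algebraMap O F ϖ) ^ (k + 1) := by
    have h2 : (algebraMap O F ϖ) ^ n ≠ 0 := zpow_ne_zero _ hp
    apply mul_right_cancel₀ h2
    rw [h]
    ring
  rw [← map_pow, ← map_mul] at h1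
  have h3 := IsFractionRing.injective O F h1
  apply hϖ.not_isUnit
  apply isUnit_of_dvd_unit _ u.isUnit
  rw [h3, pow_succ]
  exact Dvd.intro_left ((w : O) * ϖ ^ k) (by ring)

private theorem val_uniq {ϖ : O} (hϖ : Irreducible ϖ) {n m : ℤ} {u w : Oˣ}
    (h : algebraMap O F u * (algebraMap O F ϖ) ^ n = algebraMap O F w * (algebraMap O F ϖ) ^ m) :
    n = m := by
  have h1 := val_lt hϖ h
  have h2 := val_lt hϖ h.symm
  omega

private theorem val_main {ϖ : O} (hϖ : Irreducible ϖ) : ∃ v : F → ℤ,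
    (∀ x y, x ≠ 0 → y ≠ 0 → v (x * y) = v x + v y) ∧
    (∀ x y, x ≠ 0 → y ≠ 0 → x + y ≠ 0 → min (v x) (v y) ≤ v (x + y)) ∧
    v (algebraMap O F ϖ) = 1 ∧
    ∀ x : F, (x = 0 ∨ 0 ≤ v x) ↔ ∃ a, algebraMap O F a = x := by
  classical
  have hp : algebraMap O F ϖ ≠ 0 := val_map_ne hϖ.ne_zero
  let v : F → ℤ := fun x => if h : x ≠ 0 then (val_ex (O := O) hϖ x h).choose else 0
  have hv : ∀ x : F, x ≠ 0 → ∃ u : Oˣ, x = algebraMap O F u * (algebraMap O F ϖ) ^ (v x) := by
    intro x hx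
    have h := (val_ex (O := O) hϖ x hx).choose_spec
    have h1 : v x = (val_ex (O := O) hϖ x hx).choose := dif_pos hx
    rw [h1]
    exact h
  have hv' : ∀ (x : F) (n : ℤ) (u : Oˣ), x = algebraMap O F u * (algebraMap O F ϖ) ^ n →
      v x = n := by
    intro x n u hx
    have hx0 : x ≠ 0 := by
      rw [hx]
      exact mul_ne_zero (val_map_ne u.ne_zero) (zpow_ne_zero _ hp)
    obtain ⟨w, hw⟩ := hv x hx0
    exact val_uniq hϖ (hw.symm.trans hx)
  have hmul : ∀ x y, x ≠ 0 → y ≠ 0 → v (x * y) = v x + v y := by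
    intro x y hx hy
    obtain ⟨u, hu⟩ := hv x hx
    obtain ⟨w, hw⟩ := hv y hy
    apply hv' _ _ (u * w)
    rw [Units.val_mul, map_mul, zpow_add₀ hp]
    calc x * y = (algebraMap O F u * (algebraMap O F ϖ) ^ (v x)) *
          (algebraMap O F w * (algebraMap O F ϖ) ^ (v y)) := by rw [← hu, ← hw]
      _ = _ := by ring
  have hint : ∀ x : F, (x = 0 ∨ 0 ≤ v x) ↔ ∃ a, algebraMap O F a = x := by
    intro x
    constructor
    · rintro (h | h)
      · exact ⟨0, by rw [map_zero, h]⟩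
      · by_cases hx : x = 0
        · exact ⟨0, by rw [map_zero, hx]⟩
        obtain ⟨u, hu⟩ := hv x hx
        obtain ⟨k, hk⟩ := Int.eq_ofNat_of_zero_le h
        refine ⟨u * ϖ ^ k, ?_⟩
        rw [map_mul, map_pow, hu, hk, zpow_natCast]
    · rintro ⟨a, rfl⟩
      by_cases ha : a = 0
      · left
        rw [ha, map_zero]
      · right
        obtain ⟨k, u, hu⟩ := IsDiscreteValuationRing.eq_unit_mul_pow_irreducible ha hϖ
        have h1 := hv' (algebraMap O F a) k u (by rw [zpow_natCast, ← map_pow, ← map_mul, ← hu])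
        rw [h1]
        positivity
  have hpw : ∀ n : ℤ, v ((algebraMap O F ϖ) ^ n) = n := by
    intro n
    apply hv' _ _ 1
    rw [Units.val_one, map_one, one_mul]
  refine ⟨v, hmul, ?_, ?_, hint⟩
  · intro x y hx hy hxy
    set k := min (v x) (v y) with hk
    have hk0 : (algebraMap O F ϖ) ^ (-k) ≠ 0 := zpow_ne_zero _ hp
    obtain ⟨a, ha⟩ := (hint (x * (algebraMap O F ϖ) ^ (-k))).1 (Or.inr (by
      rw [hmul _ _ hx hk0, hpw]
      have := min_le_left (v x) (v y)
      omega))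
    obtain ⟨b, hb⟩ := (hint (y * (algebraMap O F ϖ) ^ (-k))).1 (Or.inr (by
      rw [hmul _ _ hy hk0, hpw]
      have := min_le_right (v x) (v y)
      omega))
    have h1 := (hint ((x + y) * (algebraMap O F ϖ) ^ (-k))).2 ⟨a + b, by
      rw [map_add, ha, hb]; ring⟩
    have h2 := h1.resolve_left (mul_ne_zero hxy hk0)
    rw [hmul _ _ hxy hk0, hpw] at h2
    omega
  · have h := hpw 1
    rwa [zpow_one] at h

end

theorem exists_LO {O F : Type*} [CommRing O] [IsDomain O] [IsDiscreteValuationRing O] [Field F]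
    [CharZero F] [Algebra O F] [IsFractionRing O F] {p : ℕ} (hp : p.Prime)
    (hm : (p : O) ∈ maximalIdeal O) {ϖ : O} (hϖ : Irreducible ϖ) {ζ : O}
    (hζ : IsPrimitiveRoot ζ p) : ∃ L : LO O F p, L.ϖ = ϖ ∧ L.ζ = ζ := by
  obtain ⟨v, h1, h3, h4, h5⟩ := val_main (F := F) hϖ
  have hne : (p : O) ≠ 0 := by
    intro h
    have h6 : (p : F) = 0 := by
      rw [← map_natCast (algebraMap O F), h, map_zero]
    exact hp.ne_zero (Nat.cast_eq_zero.1 h6)
  exact ⟨⟨v, ϖ, ζ, hp, hne, hm, hϖ, hζ, h1, h3, h4, h5⟩, rfl, rfl⟩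

end WNT
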