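import Pool.Agent.WNT.Main
import Pool.Agent.WNT.Loc
import Pool.Agent.WNT.Val
import Pool.Agent.WNT.Rel

/-!
# WNT / Thm: the theorem on wild nets
-/

set_option autoImplicit false

namespace WNT

open Pool.Agent.Helper36 IsLocalRing

universe u

section

variable {O : Type*} {F : Type u} [CommRing O] [IsDomain O] [IsDiscreteValuationRing O] [Field F]
    [CharZero F] [Algebra O F] [IsFractionRing O F]

omit [IsDomain O] [IsDiscreteValuationRing O] [CharZero F] in
theorem exists_int_root {O : Type*} {F : Type u} [CommRing O] [IsDomain O]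
    [IsDiscreteValuationRing O] [Field F] [Algebra O F] [IsFractionRing O F] {p : ℕ} (hp : 0 < p)
    {ζ : F} (hζ : IsPrimitiveRoot ζ p) : ∃ ζ' : O, algebraMap O F ζ' = ζ ∧ IsPrimitiveRoot ζ' p := by
  have hint : IsIntegral O ζ := by
    refine ⟨Polynomial.X ^ p - Polynomial.C 1, Polynomial.monic_X_pow_sub_C _ hp.ne', ?_⟩
    simp [hζ.pow_eq_one]
  obtain ⟨z, hz⟩ := IsIntegrallyClosed.algebraMap_eq_of_integral hint
  refine ⟨z, hz, ?_⟩
  refine IsPrimitiveRoot.of_map_of_injective (f := algebraMap O F) ?_ (IsFractionRing.injective O F)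
  rw [hz]
  exact hζ

omit [CharZero F] in
theorem LO.E_eq {p : ℕ} (L : LO O F p) {e E : ℕ} (he : Associated (p : O) (L.ϖ ^ e))
    (hE : E * (p - 1) = p * e) : L.E = (E : ℤ) := by
  have hp := L.prime
  have h1 : L.v (algebraMap O F (p : O)) = e := by
    obtain ⟨u, hu⟩ := he.symm
    rw [← hu, map_mul, L.v_mul _ _ (LO.map_ne (pow_ne_zero _ L.irr.ne_zero))
      (LO.map_ne u.isUnit.ne_zero), L.v_unit _ u.isUnit, map_pow,
      L.v_pow _ (LO.map_ne L.irr.ne_zero), L.v_pi]
    ring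
  have h2 := L.v_p
  rw [h1] at h2
  have h3 : ((E : ℤ)) * ((p : ℤ) - 1) = p * e := by
    have h4 : ((E * (p - 1) : ℕ) : ℤ) = ((p * e : ℕ) : ℤ) := by rw [hE]
    rw [Nat.cast_mul, Nat.cast_mul, Nat.cast_sub hp.one_lt.le, Nat.cast_one] at h4
    exact h4
  have h5 : (0 : ℤ) < (p : ℤ) - 1 := by
    have := hp.one_lt
    omega
  have h6 : (L.E - E) * ((p : ℤ) - 1) = 0 := by
    unfold LO.E
    rw [sub_mul, h3, h2]
    ring
  rcases mul_eq_zero.1 h6 with h7 | h7
  · omega
  · omega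

omit [CharZero F] in
theorem LO.mem_zpow {p : ℕ} (L : LO O F p) (n : ℕ) (x : F) :
    (x = 0 ∨ (n : ℤ) ≤ L.v x) ↔ ∃ r : O, x = algebraMap O F (L.ϖ ^ n * r) := by
  constructor
  · rintro (h | h)
    · exact ⟨0, by rw [h, mul_zero, map_zero]⟩
    · obtain ⟨a, ha⟩ := (L.int x).1 (Or.inr (by omega))
      obtain ⟨b, hb⟩ := (L.mem_pow n a).2 (Or.inr (by rw [ha]; exact h))
      exact ⟨b, by rw [← hb, ha]⟩
  · rintro ⟨r, rfl⟩
    exact (L.mem_pow n _).1 ⟨r, rfl⟩

end

/-- wild nets -/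
theorem wild_nets {O : Type*} {F : Type u} {k K Ω : Type*} [CommRing O] [IsDomain O]
    [IsDiscreteValuationRing O] [HenselianLocalRing O] [Finite (ResidueField O)] [Field F]
    [CharZero F] [Algebra O F] [IsFractionRing O F] [Field k] [Algebra k F] [Field K] [Field Ω]
    [Algebra k K] [Algebra K Ω] [Algebra k Ω] [IsScalarTower k K Ω] [IsAlgClosure K Ω]
    {p : ℕ} (hp : p.Prime) (hpO : (p : O) ∈ maximalIdeal O) {ζ : k}
    (hζ : IsPrimitiveRoot ζ p) {ϖ : O} (hϖ : Irreducible ϖ) {e E : ℕ}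
    (he : Associated (p : O) (ϖ ^ e)) (hE : E * (p - 1) = p * e) (R : ℕ) (A : Set k)
    (hA : ∀ c : F, (∃ r : O, algebraMap O F (ϖ ^ (2 * E)) * c = algebraMap O F r) →
      ∃ a ∈ A, ∃ r : O, algebraMap k F a - c = algebraMap O F
        (ϖ ^ (R + 2 * ((E + 2) * (powMonoidHom p : Fˣ →* Fˣ).range.index) + 2 * E + 5) * r))
    (x : K) (hx : Transcendental k x) (δ : k → k) (y : k → K) (hδ : ∀ a ∈ A, δ a ≠ 0)
    (hxy : ∀ a ∈ A, x - algebraMap k K a = algebraMap k K (δ a) * y a ^ p)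
    (hpole : ∀ v : Valuation K (WithZero (Multiplicative ℤ)), IsPlace k v → 1 < v x →
      ∃ h : K, v x = v h ^ (p ^ 2))
    (s : PiOneSection k K Ω) :
    ∃ z : F, ∀ a ∈ A, (∃ r : O, algebraMap k F a = algebraMap O F r) →
      (¬ ∃ r : O, z - algebraMap k F a = algebraMap O F (ϖ ^ (R + 1) * r)) →
      ∃ w : F, z - algebraMap k F a = algebraMap k F (δ a) * w ^ p := by
  classical
  have hk0 : CharZero k := (algebraMap k F).charZero
  have hinj : Function.Injective (algebraMap k F) := (algebraMap k F).injective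
  have hζF : IsPrimitiveRoot (algebraMap k F ζ) p := hζ.map_of_injective hinj
  obtain ⟨ζ', hζ'1, hζ'2⟩ := exists_int_root (O := O) hp.pos hζF
  obtain ⟨L, hLϖ, hLζ⟩ := exists_LO (F := F) hp hpO hϖ hζ'2
  subst hLϖ
  obtain ⟨V, i1, i2, S, hSv, hSE, hScl, hSh, hSV⟩ := L.exists_SS
  have hLE : L.E = (E : ℤ) := L.E_eq he hE
  have hD : ∀ (n : ℕ) (x : F), x ∈ S.D n ↔ ∃ r : O, x = algebraMap O F (L.ϖ ^ n * r) := by
    intro n x
    rw [← L.mem_zpow, SS.mem_D, hSv]
  -- the function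
  set f : F → V := fun b => if h : ∃ a ∈ A, algebraMap k F a = b then
    S.cl (algebraMap k F (δ h.choose)) else 0 with hf
  have hfa : ∀ a ∈ A, f (algebraMap k F a) = S.cl (algebraMap k F (δ a)) := by
    intro a ha
    have h : ∃ a' ∈ A, algebraMap k F a' = algebraMap k F a := ⟨a, ha, rfl⟩
    have h1 : h.choose = a := hinj h.choose_spec.2
    simp only [hf]
    rw [dif_pos h, h1]
  have hδF : ∀ a ∈ A, algebraMap k F (δ a) ≠ 0 := fun a ha h0 =>
    hδ a ha (hinj (h0.trans (map_zero _).symm))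
  have hxa : ∀ a : k, x ≠ algebraMap k K a := by
    intro a h
    apply hx
    rw [h]
    exact isAlgebraic_algebraMap a
  let T : Nt S :=
    { A := algebraMap k F '' A
      f := f
      N := (R + 2 * ((E + 2) * (powMonoidHom p : Fˣ →* Fˣ).range.index) + 2 * E + 5 : ℕ)
      net := by
        intro c hc
        obtain ⟨a, ha, r, hr⟩ := hA c (by
          have h1 : algebraMap O F (L.ϖ ^ (2 * E)) ≠ 0 :=
            LO.map_ne (pow_ne_zero _ L.irr.ne_zero)
          have h2 := (L.int (algebraMap O F (L.ϖ ^ (2 * E)) * c)).1 (by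
            by_cases hc0 : c = 0
            · left
              rw [hc0, mul_zero]
            · right
              have h3 := S.le_v hc hc0
              rw [hSv, hSE, hLE] at h3
              rw [L.v_mul _ _ h1 hc0, map_pow, L.v_pow _ (LO.map_ne L.irr.ne_zero), L.v_pi]
              push_cast
              omega)
          obtain ⟨r, hr⟩ := h2
          exact ⟨r, hr.symm⟩)
        exact ⟨algebraMap k F a, ⟨a, ha, rfl⟩, (hD _ _).2 ⟨r, hr⟩⟩
      rel := by
        rintro _ ⟨a, ha, rfl⟩ _ ⟨b, hb, rfl⟩ hab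
        have hab' : a ≠ b := fun h => hab (by rw [h])
        have h1 := rel_of_section hp hζ hab' (hδ a ha) (hδ b hb) (hxy a ha) (hxy b hb) (hxa a)
          (hxa b) hpole s
        have h3 := nr_map (algebraMap k F) h1
        rw [← hζ'1, ← hLζ] at h3
        have hba0 : algebraMap k F (b - a) ≠ 0 := fun h0 =>
          hab' ((sub_eq_zero.1 (hinj (h0.trans (map_zero _).symm))).symm)
        have hab0 : algebraMap k F (a - b) ≠ 0 := fun h0 =>
          hab' (sub_eq_zero.1 (hinj (h0.trans (map_zero _).symm)))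
        have h4 := hSh _ _ (by rw [map_div₀]; exact div_ne_zero (hδF a ha) hba0)
          (by rw [map_div₀]; exact div_ne_zero (hδF b hb) hab0) h3
        have e1 : algebraMap k F (b - a) = algebraMap k F b - algebraMap k F a := map_sub _ _ _
        have e2 : algebraMap k F (a - b) = algebraMap k F a - algebraMap k F b := map_sub _ _ _
        rw [map_div₀, map_div₀, S.cl_div _ _ (hδF a ha) hba0, S.cl_div _ _ (hδF b hb) hab0,
          e1, e2] at h4
        rw [hfa a ha, hfa b hb]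
        exact h4 }
  obtain ⟨z, hz⟩ := T.main (R : ℤ) (by omega) (by
    show _ ≤ ((R + 2 * ((E + 2) * (powMonoidHom p : Fˣ →* Fˣ).range.index) + 2 * E + 5 : ℕ) : ℤ)
    rw [hSE, hLE, hSV]
    push_cast
    omega)
  refine ⟨z, fun a ha ⟨r, hr⟩ hza => ?_⟩
  have h1 : algebraMap k F a ∈ S.D 0 := by
    have := (hD 0 (algebraMap k F a)).2 ⟨r, by rw [pow_zero, one_mul, hr]⟩
    exact_mod_cast this
  have h3 : z - algebraMap k F a ∉ S.D ((R : ℤ) + 1) := by
    intro h
    apply hza
    have := (hD (R + 1) (z - algebraMap k F a)).1 (by exact_mod_cast h)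
    exact this
  have h4 := hz _ ⟨a, ha, rfl⟩ h1 h3
  have h5 : z - algebraMap k F a ≠ 0 := S.ne_of_not_mem h3
  have h6 : f (algebraMap k F a) = S.cl (z - algebraMap k F a) := h4
  rw [hfa a ha] at h6
  obtain ⟨w, _, hw⟩ := hScl _ _ h5 (hδF a ha) h6.symm
  exact ⟨w, hw⟩

end WNT
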