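import Pool.Agent.WNT.Thm1
import Pool.Agent.WNT.Fin2
import Pool.Agent.WNT.Epn

/-!
# WNT / Thm2: the exact theorem for `p = 2`
-/

set_option autoImplicit false

namespace WNT

open Pool.Agent.Helper36 IsLocalRing

universe u v w

theorem LO.cover {O : Type*} {F : Type u} [CommRing O] [IsDomain O] [IsDiscreteValuationRing O]
    [Field F] [Algebra O F] [IsFractionRing O F] [Finite (ResidueField O)] {p : ℕ}
    (L : LO O F p) (n : ℕ) : ∃ Y : Finset F, ∀ y : F, (y = 0 ∨ 0 ≤ L.v y) →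
      ∃ c ∈ Y, (y - c = 0 ∨ (n : ℤ) ≤ L.v (y - c)) := by
  classical
  have hfin0 : Finite (O ⧸ maximalIdeal O) := inferInstanceAs (Finite (ResidueField O))
  have hfin : Finite (O ⧸ maximalIdeal O ^ n) :=
    Ideal.finite_quotient_pow (IsNoetherian.noetherian _) n
  have : Fintype (O ⧸ maximalIdeal O ^ n) := Fintype.ofFinite _
  refine ⟨Finset.univ.image (fun q : O ⧸ maximalIdeal O ^ n => algebraMap O F (Quotient.out q)),
    fun y hy => ?_⟩
  obtain ⟨a, rfl⟩ := (L.int y).1 hy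
  obtain ⟨b, hb⟩ : ∃ b, b = Quotient.out (Ideal.Quotient.mk (maximalIdeal O ^ n) a) := ⟨_, rfl⟩
  refine ⟨algebraMap O F b, Finset.mem_image.2 ⟨_, Finset.mem_univ _, by rw [hb]⟩, ?_⟩
  have h1 : a - b ∈ maximalIdeal O ^ n := by
    rw [← Ideal.Quotient.eq, hb]
    exact (Quotient.out_eq _).symm
  rw [L.irr.maximalIdeal_eq, Ideal.span_singleton_pow, Ideal.mem_span_singleton] at h1
  have h2 := (L.mem_pow n _).1 h1
  rw [map_sub] at h2
  exact h2

/-- wild nets, exact version for `p = 2` -/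
theorem wild_nets2 {O : Type*} {F : Type u} {k : Type*} [CommRing O] [IsDomain O]
    [IsDiscreteValuationRing O] [HenselianLocalRing O] [Finite (ResidueField O)] [Field F]
    [CharZero F] [Algebra O F] [IsFractionRing O F] [Field k] [Algebra k F]
    (h2 : (2 : O) ∈ maximalIdeal O)
    (hd : ∀ (c : F) (r : O), r ≠ 0 → ∃ (a : k) (t : O), algebraMap k F a - c =
      algebraMap O F (r * t))
    (A₀ : Finset k) :
    ∃ A : Finset k, A₀ ⊆ A ∧ ∀ (K : Type v) (Ω : Type w) [Field K] [Field Ω] [Algebra k K]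
      [Algebra K Ω] [Algebra k Ω] [IsScalarTower k K Ω] [IsAlgClosure K Ω]
      (x : K) (δ : k → k) (y : k → K), Transcendental k x → (∀ a ∈ A, δ a ≠ 0) →
      (∀ a ∈ A, x - algebraMap k K a = algebraMap k K (δ a) * y a ^ 2) →
      Nonempty (ElemSection 2 k K Ω) →
      ∃ z : F, ∀ a ∈ A, ∃ w : F, z - algebraMap k F a = algebraMap k F (δ a) * w ^ 2 := by
  classical
  have hk0 : CharZero k := (algebraMap k F).charZero
  have hinj : Function.Injective (algebraMap k F) := (algebraMap k F).injective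
  have hOF : Function.Injective (algebraMap O F) := IsFractionRing.injective O F
  have hO0 : CharZero O := by
    refine ⟨fun m n h => ?_⟩
    have h1 : (m : F) = n := by
      rw [← map_natCast (algebraMap O F), h, map_natCast]
    exact_mod_cast h1
  have hp : Nat.Prime 2 := Nat.prime_two
  obtain ⟨ϖ, hϖ⟩ := IsDiscreteValuationRing.exists_irreducible O
  have hζO : IsPrimitiveRoot (-1 : O) 2 := by
    refine IsPrimitiveRoot.neg_one 0 ?_
    exact (by norm_num)
  have hζ : IsPrimitiveRoot (-1 : k) 2 := IsPrimitiveRoot.neg_one 0 (by norm_num)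
  obtain ⟨L, hLϖ, hLζ⟩ := exists_LO (F := F) hp (by exact_mod_cast h2) hϖ hζO
  subst hLϖ
  obtain ⟨V, i1, i2, S, hSv, hSE, hScl, hSh, hSV⟩ := L.exists_SS
  have hϖ0 : L.ϖ ≠ 0 := L.irr.ne_zero
  have hEpos := S.E_pos
  have hTT : 0 ≤ (S.E + 2) * (Nat.card V : ℤ) := mul_nonneg (by omega) (by positivity)
  obtain ⟨N, hN, A, hA, hP⟩ := exists_PN S (algebraMap k F) (by
    intro c n
    obtain ⟨a, t, hat⟩ := hd c (L.ϖ ^ n.toNat) (pow_ne_zero _ hϖ0)
    refine ⟨a, S.D_mono (by omega : n ≤ (n.toNat : ℤ)) ?_⟩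
    rw [hat, SS.mem_D, hSv]
    exact (L.mem_zpow _ _).2 ⟨t, rfl⟩) (by
    intro n
    obtain ⟨Y, hY⟩ := L.cover n.toNat
    refine ⟨Y, fun y hy => ?_⟩
    rw [SS.mem_D, hSv] at hy
    obtain ⟨c, hc, h3⟩ := hY y hy
    refine ⟨c, hc, S.D_mono (by omega : n ≤ (n.toNat : ℤ)) ?_⟩
    rw [SS.mem_D, hSv]
    exact h3) A₀ (2 * ((S.E + 2) * Nat.card V) + 8 * S.E + 5)
  refine ⟨A, hA, ?_⟩
  intro K Ω _ _ _ _ _ _ _ x δ y hx hδ hxy ⟨s⟩
  have hΩ : IsAlgClosed Ω := IsAlgClosure.isAlgClosed K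
  have hKΩ : Algebra.IsAlgebraic K Ω := IsAlgClosure.isAlgebraic
  -- the function
  set f : F → V := fun b => if h : ∃ a ∈ A, algebraMap k F a = b then
    S.cl (algebraMap k F (δ h.choose)) else 0 with hf
  have hfa : ∀ a ∈ A, f (algebraMap k F a) = S.cl (algebraMap k F (δ a)) := by
    intro a ha
    have h : ∃ a' ∈ A, algebraMap k F a' = algebraMap k F a := ⟨a, ha, rfl⟩
    have h1 : h.choose = a := hinj h.choose_spec.2
    simp only [hf]
    rw [dif_pos h, h1]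
  have hδF : ∀ a ∈ A, algebraMap k F (δ a) ≠ 0 := fun a ha h0 =>
    hδ a ha (hinj (h0.trans (map_zero _).symm))
  -- a pair with a trivial relation
  have hnet := hP.net (by linarith)
  obtain ⟨_, ⟨a₀, ha₀, rfl⟩, ha₀'⟩ := hnet 0 (S.D _).zero_mem
  rw [sub_zero] at ha₀'
  obtain ⟨_, ⟨b₀, hb₀, rfl⟩, hab₀, hcl₀⟩ := exists_diff S (S.D_mono (by linarith) ha₀')
    (N := N - 4 * S.E) (by linarith)
    (fun c hc => hnet c (S.D_mono (by omega) hc)) (S.cl (algebraMap k F (δ a₀)))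
  have hab₀' : a₀ ≠ b₀ := fun h => hab₀ (by rw [h])
  obtain ⟨t, ht, htp⟩ := hScl _ _ (sub_ne_zero.2 hab₀) (hδF a₀ ha₀) hcl₀
  have hc : (t⁻¹) ^ 2 = algebraMap k F (δ a₀ / (b₀ - a₀)) := by
    rw [map_div₀, map_sub, htp, inv_pow]
    have h1 := hδF a₀ ha₀
    field_simp
  have hrel : Rels S (algebraMap k F '' (A : Set k)) f := by
    rintro _ ⟨a, ha, rfl⟩ _ ⟨b, hb, rfl⟩ hab
    have hab' : a ≠ b := fun h => hab (by rw [h])
    have h3 := MSec.rel_all (A := (A : Set k)) hp hζ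
      (hasRoots_elem (k := k) (K := K) (Ω := Ω) hp.ne_zero) hx hδ hxy ha₀ hb₀ hab₀' hc s.toMSec
      ha hb hab'
    have h5 : algebraMap k F (-1) = algebraMap O F L.ζ := by
      rw [hLζ, map_neg, map_one, map_neg, map_one]
    rw [h5] at h3
    have hba0 : algebraMap k F (b - a) ≠ 0 := fun h0 =>
      hab' ((sub_eq_zero.1 (hinj (h0.trans (map_zero _).symm))).symm)
    have hab0 : algebraMap k F (a - b) ≠ 0 := fun h0 =>
      hab' (sub_eq_zero.1 (hinj (h0.trans (map_zero _).symm)))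
    have h4 := hSh _ _ (by rw [map_div₀]; exact div_ne_zero (hδF a ha) hba0)
      (by rw [map_div₀]; exact div_ne_zero (hδF b hb) hab0) h3
    have e1 : algebraMap k F (b - a) = algebraMap k F b - algebraMap k F a := map_sub _ _ _
    have e2 : algebraMap k F (a - b) = algebraMap k F a - algebraMap k F b := map_sub _ _ _
    rw [map_div₀, map_div₀, S.cl_div _ _ (hδF a ha) hba0, S.cl_div _ _ (hδF b hb) hab0,
      e1, e2] at h4
    rw [hfa a ha, hfa b hb]
    exact h4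
  obtain ⟨z, hz⟩ := main2 hrel hP hN
  refine ⟨z, fun a ha => ?_⟩
  by_cases hza : z = algebraMap k F a
  · exact ⟨0, by rw [hza, sub_self, zero_pow two_ne_zero, mul_zero]⟩
  have h4 := hz _ ⟨a, ha, rfl⟩ hza
  have h6 : f (algebraMap k F a) = S.cl (z - algebraMap k F a) := h4
  rw [hfa a ha] at h6
  obtain ⟨w, _, hw⟩ := hScl _ _ (sub_ne_zero.2 hza) (hδF a ha) h6.symm
  exact ⟨w, hw⟩

end WNT
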