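import Pool.Agent.WNT.Defs

/-!
# WNT / W: the filtration `W i` of `V` and the symbol

PROOFS.
* `mem_W`: the set is closed under sums (`(1 - u) (1 - u') = 1 - (u + u' - u u')`, `i ≥ 1`), contains `0` (`u = 0`), hence closed under
  multiplication with `c : ZMod p` (`c • w = c.val • w`: `Nat.cast_smul_eq_nsmul`, `ZMod.natCast_zmod_val`, `NeZero p` from `S.prime`); `Submodule.span_induction`.
* `W_big`: `S.cl_big`.  `lam_spec`: `S.top` gives `c`, and `h (c • η) (cl pi) = c` (`val_pi`).  `lam_add`: `(1 - u) (1 - u') = 1 - (u + u' - u u')`, and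
  `1 - (u + u' - u u') = (1 - (u + u')) (1 - x)` with `x = - u u' / (1 - (u + u')) ∈ D (2 E)`; `η` is killed only by `0` (apply `val` resp. `h _ (cl pi)`).
* `stein3`: `S.stein` for `x = (1 - s) / (1 - s t)`, `1 - x = s (1 - t) / (1 - s t)`.  `stein2`: `S.stein` for `x = (z - a) / (b - a)`, `1 - x = (z - b) / (a - b)`.
* `top_eq`: `stein3` with `s = α`, `t = β`... precisely: `0 = h (A - C) (L + B - C)` with `A = cl (1 - α)`, `B = cl (1 - β)`, `C = cl (1 - α β) = lam (α β) • η`, `L = cl α`;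
  `h A L = 0` (`S.stein`), `h A C = 0`, `h C B = 0` (units: `val A = val B = 0`), `h C C = 0`, `h C L = lam (α β) * v α`.
* `orth`: for `u ≠ 0` use `top_eq`: `u u' ∈ D (i + j) ⊆ D (E + 1)`, `lam_zero`.  For `u = 0` trivial.  `i + j ≥ E + 1`; if `u u'` is only in `D (E+1)`, fine.
* `eta_mem_W`, `W_E`: `S.eta`, `lam_spec`.
* `du`: claim: `w ∈ W j` for all `1 ≤ j ≤ E + 1 - i` by induction on `j`.  `j = 1`: `η ∈ W i`, so `val w = - h w η = 0`; `w = cl x`, `v x = p k`, `cl x = cl (x * (pi ^ k)⁻¹ ^ p)`, and `S.unit`.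
  `j → j + 1`, `j ≤ E - i`: `w = cl (1 - α)`, `α ∈ D j`; if `p ∣ j` use `S.drop`; otherwise, if `α ∉ D (j + 1)`, `v α = j`, take `u₀ ∈ D E` with `lam u₀ = 1`, `β = u₀ / α ∈ D (E - j) ⊆ D i`:
  `0 = h w (cl (1 - β)) = j * lam u₀ = j`, contradiction.
* `nd`: `du` with `i = 1` gives `w ∈ W E`, `w = c • η`, `0 = h w (cl pi) = c`.
* `not_W`: `β = u₀ / α ∈ D (E - i)`: `h (cl (1 - α)) (cl (1 - β)) = i ≠ 0`, but it would be `0` by `orth_W`.
* `cl_congr`: `y = x (1 - (x - y) / x)`.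
* `W_eq_of_lt`: if `x ∈ D i` and `cl (1 - x) ∈ W (i+1)` ... see `not_W`.
-/

set_option autoImplicit false

namespace WNT

universe u w

namespace SS

variable {F : Type u} {V : Type w} [Field F] [AddCommGroup V] {p : ℕ} [Module (ZMod p) V]
  (S : SS F V p)

theorem mem_W {i : ℤ} (hi : 1 ≤ i) {w : V} : w ∈ S.W i ↔ ∃ u ∈ S.D i, w = S.cl (1 - u) := by
  constructor
  · intro hw
    have hadd : ∀ x y : V, (∃ u ∈ S.D i, x = S.cl (1 - u)) → (∃ u ∈ S.D i, y = S.cl (1 - u)) →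
        ∃ u ∈ S.D i, x + y = S.cl (1 - u) := by
      rintro x y ⟨u, hu, rfl⟩ ⟨u', hu', rfl⟩
      refine ⟨u + u' - u * u', ?_, ?_⟩
      · exact (S.D i).sub_mem ((S.D i).add_mem hu hu') (S.D_mul' hu hu' (by omega))
      · rw [← S.cl_mul _ _ (S.one_sub_ne (S.D_mono hi hu)) (S.one_sub_ne (S.D_mono hi hu'))]
        congr 1
        ring
    have hzero : ∃ u ∈ S.D i, (0 : V) = S.cl (1 - u) :=
      ⟨0, (S.D i).zero_mem, by rw [sub_zero, S.cl_one]⟩
    have hnsmul : ∀ (n : ℕ) (x : V), (∃ u ∈ S.D i, x = S.cl (1 - u)) →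
        ∃ u ∈ S.D i, n • x = S.cl (1 - u) := by
      intro n x hx
      induction n with
      | zero => rw [zero_smul]; exact hzero
      | succ n ih => rw [succ_nsmul]; exact hadd _ _ ih hx
    have : NeZero p := ⟨S.prime.ne_zero⟩
    refine Submodule.span_induction (p := fun w _ => ∃ u ∈ S.D i, w = S.cl (1 - u))
      ?_ hzero ?_ ?_ hw
    · intro x hx
      exact hx
    · intro x y _ _ hx hy
      exact hadd x y hx hy
    · intro c x _ hx
      have h := hnsmul c.val x hx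
      rw [← Nat.cast_smul_eq_nsmul (ZMod p), ZMod.natCast_zmod_val] at h
      exact h
  · intro h
    exact Submodule.subset_span h

theorem cl_mem_W {i : ℤ} {u : F} (hu : u ∈ S.D i) : S.cl (1 - u) ∈ S.W i :=
  Submodule.subset_span ⟨u, hu, rfl⟩

theorem W_mono {i j : ℤ} (h : i ≤ j) {w : V} (hw : w ∈ S.W j) : w ∈ S.W i := by
  refine Submodule.span_mono ?_ hw
  rintro x ⟨u, hu, hx⟩
  exact ⟨u, S.D_mono h hu, hx⟩

theorem W_big {i : ℤ} (h : S.E + 1 ≤ i) {w : V} (hw : w ∈ S.W i) : w = 0 := by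
  have hE := S.E_pos
  obtain ⟨u, hu, rfl⟩ := (S.mem_W (by omega)).1 hw
  exact S.cl_big u (S.D_mono h hu)

theorem two_le_E : 2 ≤ S.E := by
  have h1 := Int.le_of_dvd S.E_pos S.E_dvd
  have h2 := S.prime.two_le
  omega

theorem cl_congr {x y : F} (hx : x ≠ 0) (h : y - x ∈ S.D (S.v x + S.E + 1)) :
    y ≠ 0 ∧ S.v y = S.v x ∧ S.cl y = S.cl x := by
  have hE := S.E_pos
  have ht : (x - y) / x ∈ S.D (S.E + 1) := by
    have h1 : x - y ∈ S.D (S.v x + S.E + 1) := by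
      rw [← neg_sub]
      exact (S.D _).neg_mem h
    exact S.D_div' h1 hx rfl (by omega)
  have hy : y = x * (1 - (x - y) / x) := by
    field_simp
    ring
  have h1 := S.v_one_sub (S.D_mono (by omega : (1 : ℤ) ≤ S.E + 1) ht)
  have h2 := S.cl_big _ ht
  refine ⟨?_, ?_, ?_⟩
  · rw [hy]
    exact mul_ne_zero hx h1.1
  · calc S.v y = S.v (x * (1 - (x - y) / x)) := by rw [← hy]
      _ = S.v x := by rw [S.v_mul _ _ hx h1.1, h1.2, add_zero]
  · calc S.cl y = S.cl (x * (1 - (x - y) / x)) := by rw [← hy]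
      _ = S.cl x := by rw [S.cl_mul _ _ hx h1.1, h2, add_zero]

theorem lam_spec {u : F} (hu : u ∈ S.D S.E) : S.cl (1 - u) = S.lam u • S.η := by
  obtain ⟨c, hc⟩ := S.top u hu
  have h1 : S.lam u = c := by
    unfold lam
    rw [hc, map_smul, LinearMap.smul_apply]
    have h2 : S.h S.η (S.cl S.pi) = 1 := S.val_pi
    rw [h2, smul_eq_mul, mul_one]
  rw [h1]
  exact hc

theorem smul_eta_inj {a b : ZMod p} (h : a • S.η = b • S.η) : a = b := by
  have h1 := congrArg (fun w => S.h w (S.cl S.pi)) h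
  have h2 : S.h S.η (S.cl S.pi) = 1 := S.val_pi
  simpa [h2] using h1

theorem lam_zero {u : F} (hu : u ∈ S.D (S.E + 1)) : S.lam u = 0 := by
  unfold lam
  rw [S.cl_big u hu, map_zero, LinearMap.zero_apply]

theorem lam_add {u u' : F} (hu : u ∈ S.D S.E) (hu' : u' ∈ S.D S.E) :
    S.lam (u + u') = S.lam u + S.lam u' := by
  have hE := S.E_pos
  have hu1 := S.D_mono (by omega : (1 : ℤ) ≤ S.E) hu
  have hu1' := S.D_mono (by omega : (1 : ℤ) ≤ S.E) hu'
  have h1 := S.v_one_sub hu1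
  have h1' := S.v_one_sub hu1'
  have h2 : S.cl ((1 - u) * (1 - u')) = S.cl (1 - u) + S.cl (1 - u') :=
    S.cl_mul _ _ h1.1 h1'.1
  have h3 : S.v ((1 - u) * (1 - u')) = 0 := by
    rw [S.v_mul _ _ h1.1 h1'.1, h1.2, h1'.2, add_zero]
  have h4 := S.cl_congr (x := (1 - u) * (1 - u')) (y := 1 - (u + u'))
    (mul_ne_zero h1.1 h1'.1) (by
      have h5 : 1 - (u + u') - (1 - u) * (1 - u') = - (u * u') := by ring
      rw [h5, h3]
      exact (S.D _).neg_mem (S.D_mul' hu hu' (by omega)))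
  unfold lam
  rw [h4.2.2, h2, map_add, LinearMap.add_apply]

theorem lam_neg {u : F} (hu : u ∈ S.D S.E) : S.lam (-u) = - S.lam u := by
  have h1 := S.lam_add hu ((S.D S.E).neg_mem hu)
  rw [add_neg_cancel, S.lam_zero (S.D (S.E + 1)).zero_mem] at h1
  linear_combination -h1

/-- `lam` only depends on `u` modulo `D (E + 1)` -/
theorem lam_congr {u u' : F} (hu : u ∈ S.D S.E) (h : u' - u ∈ S.D (S.E + 1)) :
    S.lam u' = S.lam u := by
  have h1 := S.lam_add hu (S.D_mono (by omega : S.E ≤ S.E + 1) h)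
  rw [add_sub_cancel, S.lam_zero h, add_zero] at h1
  exact h1

theorem exists_lam : ∃ u ∈ S.D S.E, S.lam u = 1 := by
  obtain ⟨x, hx, h⟩ := S.eta
  refine ⟨x, hx, ?_⟩
  unfold lam
  rw [h]
  exact S.val_pi

theorem stein2 {a b z : F} (hab : a ≠ b) (hz : z ≠ a) (hz' : z ≠ b) :
    S.h (S.cl (z - a) - S.cl (b - a)) (S.cl (z - b) - S.cl (a - b)) = 0 := by
  have hab' : a - b ≠ 0 := sub_ne_zero.2 hab
  have hba' : b - a ≠ 0 := sub_ne_zero.2 hab.symm
  have hza : z - a ≠ 0 := sub_ne_zero.2 hz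
  have hzb : z - b ≠ 0 := sub_ne_zero.2 hz'
  have h1 : 1 - (z - a) / (b - a) = (z - b) / (a - b) := by
    rw [← neg_sub b a, div_neg]
    field_simp
    ring
  have h2 := S.stein ((z - a) / (b - a)) (div_ne_zero hza hba')
    (by rw [h1]; exact div_ne_zero hzb hab')
  rw [h1, S.cl_div _ _ hza hba', S.cl_div _ _ hzb hab'] at h2
  exact h2

theorem stein3 {s t : F} (hs : s ≠ 0) (h1 : 1 - s ≠ 0) (h2 : 1 - t ≠ 0) (h3 : 1 - s * t ≠ 0) :
    S.h (S.cl (1 - s) - S.cl (1 - s * t)) (S.cl s + S.cl (1 - t) - S.cl (1 - s * t)) = 0 := by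
  have h4 : 1 - (1 - s) / (1 - s * t) = s * (1 - t) / (1 - s * t) := by
    field_simp
    ring
  have h5 := S.stein ((1 - s) / (1 - s * t)) (div_ne_zero h1 h3)
    (by rw [h4]; exact div_ne_zero (mul_ne_zero hs h2) h3)
  rw [h4, S.cl_div _ _ h1 h3, S.cl_div _ _ (mul_ne_zero hs h2) h3, S.cl_mul _ _ hs h2] at h5
  exact h5

theorem top_eq {α β : F} (hα0 : α ≠ 0) (hα : α ∈ S.D 1) (hβ : β ∈ S.D 1) (h : α * β ∈ S.D S.E) :
    S.h (S.cl (1 - α)) (S.cl (1 - β)) = (S.v α : ZMod p) * S.lam (α * β) := by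
  have hE := S.E_pos
  have hαβ := S.v_one_sub (S.D_mono (by omega : (1 : ℤ) ≤ S.E) h)
  have h1 := S.v_one_sub hα
  have h2 := S.v_one_sub hβ
  have h3 := S.stein3 (s := α) (t := β) hα0 h1.1 h2.1 hαβ.1
  have hAL : S.h (S.cl (1 - α)) (S.cl α) = 0 := by
    have h4 := S.stein (1 - α) h1.1 (by rw [sub_sub_cancel]; exact hα0)
    rw [sub_sub_cancel] at h4
    exact h4
  have hvA : S.val (S.cl (1 - α)) = 0 := by
    rw [S.val_cl _ h1.1, h1.2, Int.cast_zero]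
  have hvB : S.val (S.cl (1 - β)) = 0 := by
    rw [S.val_cl _ h2.1, h2.2, Int.cast_zero]
  have hvL : S.val (S.cl α) = (S.v α : ZMod p) := S.val_cl _ hα0
  have hAη : S.h (S.cl (1 - α)) S.η = 0 := by
    rw [S.h_eta_right, hvA, neg_zero]
  have hηB : S.h S.η (S.cl (1 - β)) = 0 := hvB
  have hηL : S.h S.η (S.cl α) = (S.v α : ZMod p) := hvL
  have hηη : S.h S.η S.η = 0 := S.val_eta
  rw [S.lam_spec h] at h3
  simp only [map_sub, map_add, map_smul, LinearMap.sub_apply, LinearMap.smul_apply, smul_eq_mul,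
    hAL, hAη, hηB, hηL, hηη] at h3
  linear_combination h3

theorem val_W {i : ℤ} (hi : 1 ≤ i) {w : V} (hw : w ∈ S.W i) : S.val w = 0 := by
  obtain ⟨u, hu, rfl⟩ := (S.mem_W hi).1 hw
  have h1 := S.v_one_sub (S.D_mono hi hu)
  rw [S.val_cl _ h1.1, h1.2, Int.cast_zero]

theorem orth {i j : ℤ} (hi : 1 ≤ i) (hj : 1 ≤ j) (hij : S.E + 1 ≤ i + j) {w w' : V}
    (hw : w ∈ S.W i) (hw' : w' ∈ S.W j) : S.h w w' = 0 := by
  obtain ⟨u, hu, rfl⟩ := (S.mem_W hi).1 hw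
  obtain ⟨u', hu', rfl⟩ := (S.mem_W hj).1 hw'
  by_cases hu0 : u = 0
  · rw [hu0, sub_zero, S.cl_one, map_zero, LinearMap.zero_apply]
  have h1 : u * u' ∈ S.D (S.E + 1) := S.D_mul' hu hu' hij
  rw [S.top_eq hu0 (S.D_mono hi hu) (S.D_mono hj hu') (S.D_mono (by omega) h1), S.lam_zero h1,
    mul_zero]

theorem eta_mem_W {i : ℤ} (hi : i ≤ S.E) : S.η ∈ S.W i := by
  obtain ⟨x, hx, h⟩ := S.eta
  rw [← h]
  exact S.cl_mem_W (S.D_mono hi hx)

theorem W_E {w : V} (hw : w ∈ S.W S.E) : ∃ c : ZMod p, w = c • S.η := by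
  have hE := S.E_pos
  obtain ⟨u, hu, rfl⟩ := (S.mem_W (by omega)).1 hw
  exact S.top u hu

/-- the orthogonal complement of `W i` is `W (E + 1 - i)` -/
theorem du {i : ℤ} (hi : 1 ≤ i) (hiE : i ≤ S.E) {w : V}
    (h : ∀ u ∈ S.D i, S.h w (S.cl (1 - u)) = 0) : w ∈ S.W (S.E + 1 - i) := by
  have key : ∀ n : ℕ, (n : ℤ) + 1 ≤ S.E + 1 - i → w ∈ S.W ((n : ℤ) + 1) := by
    intro n
    induction n with
    | zero =>
      intro _
      have hv : S.val w = 0 := by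
        obtain ⟨x, hx, hxη⟩ := S.eta
        have h1 := h x (S.D_mono hiE hx)
        rw [hxη, S.h_eta_right] at h1
        exact neg_eq_zero.1 h1
      obtain ⟨x, hx0, rfl⟩ := S.cl_surj w
      rw [S.val_cl _ hx0, ZMod.intCast_zmod_eq_zero_iff_dvd] at hv
      obtain ⟨k, hk⟩ := hv
      have hπ : (S.pi ^ k)⁻¹ ≠ 0 := inv_ne_zero (S.pi_zpow_ne k)
      have hcl : ∀ (y : F), y ≠ 0 → ∀ n : ℕ, S.cl (y ^ n) = n • S.cl y := by
        intro y hy n
        induction n with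
        | zero => rw [pow_zero, S.cl_one, zero_smul]
        | succ n ih => rw [pow_succ, S.cl_mul _ _ (pow_ne_zero _ hy) hy, ih, succ_nsmul]
      have h2 : S.cl (x * (S.pi ^ k)⁻¹ ^ p) = S.cl x := by
        rw [S.cl_mul _ _ hx0 (pow_ne_zero _ hπ), hcl _ hπ p, p_smul, add_zero]
      have h3 : S.v (x * (S.pi ^ k)⁻¹ ^ p) = 0 := by
        rw [S.v_mul _ _ hx0 (pow_ne_zero _ hπ), S.v_pow _ hπ, S.v_inv _ (S.pi_zpow_ne k),
          S.v_pi_zpow, hk]
        ring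
      obtain ⟨y, hy, hy'⟩ := S.unit _ (mul_ne_zero hx0 (pow_ne_zero _ hπ)) h3
      rw [← h2, hy']
      exact S.cl_mem_W (S.D_mono (n := 1) (by norm_num) hy)
    | succ n ih =>
      intro hn
      push_cast at hn ⊢
      obtain ⟨α, hα, hw⟩ := (S.mem_W (by omega)).1 (ih (by omega))
      by_cases hp : (p : ℤ) ∣ (n : ℤ) + 1
      · obtain ⟨y, hy, hy'⟩ := S.drop ((n : ℤ) + 1) α (by omega) (by omega) hp hα
        rw [hw, hy']
        exact S.cl_mem_W hy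
      by_cases hα' : α ∈ S.D ((n : ℤ) + 1 + 1)
      · rw [hw]
        exact S.cl_mem_W hα'
      exfalso
      have hα0 := S.ne_of_not_mem hα'
      have hv := S.v_eq_of hα hα'
      obtain ⟨u₀, hu₀, hlam⟩ := S.exists_lam
      have hβ : u₀ / α ∈ S.D i := S.D_div' hu₀ hα0 hv (by omega)
      have h1 := h _ hβ
      have hab : α * (u₀ / α) = u₀ := mul_div_cancel₀ u₀ hα0
      have h2 := S.top_eq hα0 (S.D_mono (by omega) hα) (S.D_mono hi hβ) (by rw [hab]; exact hu₀)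
      rw [← hw, h1, hab, hlam, mul_one, hv] at h2
      exact hp ((ZMod.intCast_zmod_eq_zero_iff_dvd _ _).1 h2.symm)
  have h1 := key (S.E - i).toNat (by omega)
  have h2 : ((S.E - i).toNat : ℤ) + 1 = S.E + 1 - i := by omega
  rw [h2] at h1
  exact h1

theorem nd {w : V} (h : ∀ w', S.h w w' = 0) : w = 0 := by
  have hE := S.E_pos
  have h1 := S.du (i := 1) le_rfl (by omega) (w := w) (fun u _ => h _)
  rw [add_sub_cancel_right] at h1
  obtain ⟨c, hc⟩ := S.W_E h1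
  have h2 := h (S.cl S.pi)
  have h3 : S.h S.η (S.cl S.pi) = 1 := S.val_pi
  rw [hc, map_smul, LinearMap.smul_apply, h3, smul_eq_mul, mul_one] at h2
  rw [hc, h2, zero_smul]

theorem not_W {i : ℤ} (hi : 1 ≤ i) (hiE : i < S.E) (hp : ¬ (p : ℤ) ∣ i) {α : F} (hα0 : α ≠ 0)
    (hα : S.v α = i) : S.cl (1 - α) ∉ S.W (i + 1) := by
  intro hmem
  obtain ⟨u₀, hu₀, hlam⟩ := S.exists_lam
  have hβ : u₀ / α ∈ S.D (S.E - i) := S.D_div' hu₀ hα0 hα le_rfl
  have hαD : α ∈ S.D i := Or.inr (by omega)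
  have hab : α * (u₀ / α) = u₀ := mul_div_cancel₀ u₀ hα0
  have h2 := S.top_eq hα0 (S.D_mono hi hαD) (S.D_mono (by omega) hβ) (by rw [hab]; exact hu₀)
  rw [S.orth (by omega) (by omega : (1 : ℤ) ≤ S.E - i) (by omega) hmem (S.cl_mem_W hβ), hab, hlam,
    mul_one, hα] at h2
  exact hp ((ZMod.intCast_zmod_eq_zero_iff_dvd _ _).1 h2.symm)

/-- `E - 1` is prime to `p` -/
theorem not_dvd_sub : ¬ (p : ℤ) ∣ S.E - 1 := by
  have h2 := S.prime.two_le
  intro h
  have h1 := (Int.dvd_iff_dvd_of_dvd_sub h).1 S.E_dvd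
  have h4 := Int.le_of_dvd one_pos h1
  omega

end SS

end WNT
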